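import Pool.Agent.LibHP2.Defs

set_option autoImplicit false
open Polynomial

namespace Pool.Agent.LibHP

variable {K E : Type} [Field K] [Field E] {r : ℕ}

theorem A1_inj : Function.Injective (algebraMap (MvPolynomial (Fin r) K) (RF K r)) :=
  IsFractionRing.injective (MvPolynomial (Fin r) K) (RF K r)

theorem A1_ne {q : MvPolynomial (Fin r) K} (hq : MvPolynomial.constantCoeff q = 1) :
    algebraMap (MvPolynomial (Fin r) K) (RF K r) q ≠ 0 := by
  intro h
  have h1 : q = 0 := A1_inj (h.trans (map_zero _).symm)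
  rw [h1, map_zero] at hq
  exact zero_ne_one hq

theorem A1_const (a : K) : algebraMap K (RF K r) a =
    algebraMap (MvPolynomial (Fin r) K) (RF K r) (MvPolynomial.C a) :=
  IsScalarTower.algebraMap_apply K (MvPolynomial (Fin r) K) (RF K r) a

theorem HasVal.unique {f : RF K r} {a b : K} (h : HasVal f a) (h' : HasVal f b) : a = b := by
  obtain ⟨p, q, hq, hp, e⟩ := h
  obtain ⟨p', q', hq', hp', e'⟩ := h'
  have h1 : p * q' = p' * q := by
    apply A1_inj
    rw [map_mul, map_mul, ← e, ← e']
    ring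
  have h2 := congrArg MvPolynomial.constantCoeff h1
  rw [map_mul, map_mul, hp, hq, hp', hq', mul_one, mul_one] at h2
  exact h2

theorem HasVal.const (a : K) : HasVal (algebraMap K (RF K r) a) a := by
  refine ⟨MvPolynomial.C a, 1, map_one _, MvPolynomial.constantCoeff_C _ _, ?_⟩
  rw [map_one, mul_one, A1_const]

theorem HasVal.X (i : Fin r) :
    HasVal (algebraMap (MvPolynomial (Fin r) K) (RF K r) (MvPolynomial.X i)) 0 :=
  ⟨MvPolynomial.X i, 1, map_one _, MvPolynomial.constantCoeff_X K i, by rw [map_one, mul_one]⟩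

theorem HasVal.add {f g : RF K r} {a b : K} (h : HasVal f a) (h' : HasVal g b) :
    HasVal (f + g) (a + b) := by
  obtain ⟨p, q, hq, hp, e⟩ := h
  obtain ⟨p', q', hq', hp', e'⟩ := h'
  refine ⟨p * q' + p' * q, q * q', by rw [map_mul, hq, hq', mul_one], ?_, ?_⟩
  · rw [map_add, map_mul, map_mul, hp, hq', hp', hq, mul_one, mul_one]
  · rw [map_mul, map_add, map_mul, map_mul, ← e, ← e']
    ring

theorem HasVal.neg {f : RF K r} {a : K} (h : HasVal f a) : HasVal (-f) (-a) := by
  obtain ⟨p, q, hq, hp, e⟩ := h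
  exact ⟨-p, q, hq, by rw [map_neg, hp], by rw [map_neg, ← e, neg_mul]⟩

theorem HasVal.mul {f g : RF K r} {a b : K} (h : HasVal f a) (h' : HasVal g b) :
    HasVal (f * g) (a * b) := by
  obtain ⟨p, q, hq, hp, e⟩ := h
  obtain ⟨p', q', hq', hp', e'⟩ := h'
  refine ⟨p * p', q * q', by rw [map_mul, hq, hq', mul_one], by rw [map_mul, hp, hp'], ?_⟩
  rw [map_mul, map_mul, ← e, ← e']
  ring

theorem HasVal.inv {f : RF K r} {a : K} (h : HasVal f a) (ha : a ≠ 0) : HasVal f⁻¹ a⁻¹ := by
  obtain ⟨p, q, hq, hp, e⟩ := h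
  have hf : f ≠ 0 := by
    intro hf
    rw [hf, zero_mul] at e
    have h1 : p = 0 := A1_inj (e.symm.trans (map_zero _).symm)
    rw [h1, map_zero] at hp
    exact ha hp.symm
  refine ⟨MvPolynomial.C a⁻¹ * q, MvPolynomial.C a⁻¹ * p, ?_, ?_, ?_⟩
  · rw [map_mul, hp, MvPolynomial.constantCoeff_C, inv_mul_cancel₀ ha]
  · rw [map_mul, hq, MvPolynomial.constantCoeff_C, mul_one]
  · rw [map_mul, map_mul, ← e]
    field_simp

theorem rfmap_algebraMap (F : K →+* E) (p : MvPolynomial (Fin r) K) :
    rfmap F r (algebraMap (MvPolynomial (Fin r) K) (RF K r) p) =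
      algebraMap (MvPolynomial (Fin r) E) (RF E r) (MvPolynomial.map F p) := by
  unfold rfmap
  rw [IsFractionRing.lift_algebraMap]
  rfl

theorem rfmap_const (F : K →+* E) (a : K) :
    rfmap F r (algebraMap K (RF K r) a) = algebraMap E (RF E r) (F a) := by
  rw [A1_const, A1_const, rfmap_algebraMap, MvPolynomial.map_C]

theorem HasVal.map {f : RF K r} {a : K} (h : HasVal f a) (F : K →+* E) :
    HasVal (rfmap F r f) (F a) := by
  obtain ⟨p, q, hq, hp, e⟩ := h
  refine ⟨MvPolynomial.map F p, MvPolynomial.map F q, ?_, ?_, ?_⟩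
  · rw [MvPolynomial.constantCoeff_map, hq, map_one]
  · rw [MvPolynomial.constantCoeff_map, hp]
  · rw [← rfmap_algebraMap, ← rfmap_algebraMap, ← map_mul, e]

/-- Apply an additive map to the coefficients. -/
noncomputable def A1_Λ (l : E →+ K) (P : MvPolynomial (Fin r) E) : MvPolynomial (Fin r) K :=
  ∑ s ∈ P.support, MvPolynomial.monomial s (l (P.coeff s))

theorem A1_coeff (l : E →+ K) (P : MvPolynomial (Fin r) E) (s : Fin r →₀ ℕ) :
    (A1_Λ l P).coeff s = l (P.coeff s) := by
  classical
  unfold A1_Λ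
  rw [MvPolynomial.coeff_sum]
  simp only [MvPolynomial.coeff_monomial]
  rw [Finset.sum_ite_eq' P.support s (fun s' => l (P.coeff s'))]
  split_ifs with h
  · rfl
  · rw [MvPolynomial.notMem_support_iff.1 h, map_zero]

theorem A1_Λ_mul (F : K →+* E) (l : E →+ K) (hl : ∀ a x, l (F a * x) = a * l x)
    (p : MvPolynomial (Fin r) K) (P : MvPolynomial (Fin r) E) :
    A1_Λ l (MvPolynomial.map F p * P) = p * A1_Λ l P := by
  classical
  ext s
  rw [A1_coeff, MvPolynomial.coeff_mul, MvPolynomial.coeff_mul, map_sum]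
  refine Finset.sum_congr rfl fun x _ => ?_
  rw [MvPolynomial.coeff_map, hl, A1_coeff]

theorem A1_exists_functional (F : K →+* E) :
    ∃ l : E →+ K, l 1 = 1 ∧ ∀ a x, l (F a * x) = a * l x := by
  let _ : Algebra K E := F.toAlgebra
  obtain ⟨g, hg⟩ := LinearMap.exists_leftInverse_of_injective (Algebra.linearMap K E)
    (LinearMap.ker_eq_bot.2 F.injective)
  refine ⟨g.toAddMonoidHom, ?_, fun a x => ?_⟩
  · have h1 := LinearMap.congr_fun hg 1
    rw [LinearMap.comp_apply, Algebra.linearMap_apply, map_one, LinearMap.id_apply] at h1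
    exact h1
  · have h1 : F a * x = a • x := (Algebra.smul_def a x).symm
    change g (F a * x) = a * g x
    rw [h1, map_smul, smul_eq_mul]

/-- If `f` becomes regular at the origin over a bigger field then it is regular at the origin. -/
theorem HasVal.of_map {f : RF K r} {F : K →+* E} {b : E} (h : HasVal (rfmap F r f) b) :
    ∃ a, HasVal f a ∧ F a = b := by
  obtain ⟨p', q', hq', hp', e'⟩ := id h
  obtain ⟨p, q, hq, e⟩ := IsFractionRing.div_surjective (A := MvPolynomial (Fin r) K) f
  have hq0 : q ≠ 0 := nonZeroDivisors.ne_zero hq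
  have hq1 : algebraMap (MvPolynomial (Fin r) K) (RF K r) q ≠ 0 := by
    intro h0
    exact hq0 (A1_inj (h0.trans (map_zero _).symm))
  have e1 : f * algebraMap (MvPolynomial (Fin r) K) (RF K r) q =
      algebraMap (MvPolynomial (Fin r) K) (RF K r) p := by
    rw [← e, div_mul_cancel₀ _ hq1]
  have e2 : MvPolynomial.map F p * q' = MvPolynomial.map F q * p' := by
    apply A1_inj
    rw [map_mul, map_mul, ← rfmap_algebraMap, ← rfmap_algebraMap, ← e', ← e1, map_mul]
    ring
  obtain ⟨l, hl1, hl⟩ := A1_exists_functional F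
  have e3 : p * A1_Λ l q' = q * A1_Λ l p' := by
    rw [← A1_Λ_mul F l hl, ← A1_Λ_mul F l hl, e2]
  have hval : HasVal f (l b) := by
    refine ⟨A1_Λ l p', A1_Λ l q', ?_, ?_, ?_⟩
    · rw [MvPolynomial.constantCoeff_eq, A1_coeff, ← MvPolynomial.constantCoeff_eq, hq', hl1]
    · rw [MvPolynomial.constantCoeff_eq, A1_coeff, ← MvPolynomial.constantCoeff_eq, hp']
    · apply mul_left_cancel₀ hq1
      rw [← map_mul, ← e3, map_mul, ← e1]
      ring
  exact ⟨l b, hval, (hval.map F).unique h⟩

/-- The local ring at the origin. -/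
def valRing (K : Type) [Field K] (r : ℕ) : Subring (RF K r) where
  carrier := {f | ∃ a, HasVal f a}
  mul_mem' := by
    rintro x y ⟨a, h⟩ ⟨a', h'⟩
    exact ⟨_, h.mul h'⟩
  one_mem' := ⟨1, by simpa using HasVal.const (K := K) (r := r) 1⟩
  add_mem' := by
    rintro x y ⟨a, h⟩ ⟨a', h'⟩
    exact ⟨_, h.add h'⟩
  zero_mem' := ⟨0, by simpa using HasVal.const (K := K) (r := r) 0⟩
  neg_mem' := by
    rintro x ⟨a, h⟩
    exact ⟨_, h.neg⟩

/-- The local ring at the origin is integrally closed. -/
theorem exists_hasVal_of_isIntegral (f : RF K r) (hf : IsIntegral (valRing K r) f) :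
    ∃ a, HasVal f a := by
  classical
  obtain ⟨P, hP, hPf⟩ := hf
  have hc : ∀ i : ℕ, ∃ u v : MvPolynomial (Fin r) K, MvPolynomial.constantCoeff v = 1 ∧
      ((P.coeff i : valRing K r) : RF K r) * algebraMap (MvPolynomial (Fin r) K) (RF K r) v =
        algebraMap (MvPolynomial (Fin r) K) (RF K r) u := by
    intro i
    obtain ⟨a, p, q, hq, -, e⟩ := (P.coeff i).2
    exact ⟨p, q, hq, e⟩
  choose u v hv huv using hc
  set n := P.natDegree with hn
  set V : MvPolynomial (Fin r) K := ∏ i ∈ Finset.range n, v i with hV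
  have hV1 : MvPolynomial.constantCoeff V = 1 := by
    rw [hV, map_prod]
    exact Finset.prod_eq_one fun i _ => hv i
  set φ := algebraMap (MvPolynomial (Fin r) K) (RF K r) with hφ
  let w : ℕ → MvPolynomial (Fin r) K := fun i =>
    u i * (∏ j ∈ (Finset.range n).erase i, v j) * V ^ (n - i - 1)
  have hw : ∀ i ∈ Finset.range n, φ (w i) = (P.coeff i : RF K r) * φ V ^ (n - i) := by
    intro i hi
    have h1 : V = v i * ∏ j ∈ (Finset.range n).erase i, v j := by
      rw [hV, Finset.mul_prod_erase _ _ hi]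
    have h2 : n - i = (n - i - 1) + 1 := by
      have := Finset.mem_range.1 hi
      omega
    have h3 : φ V = φ (v i) * φ (∏ j ∈ (Finset.range n).erase i, v j) := by
      rw [← map_mul, ← h1]
    change φ (u i * (∏ j ∈ (Finset.range n).erase i, v j) * V ^ (n - i - 1)) = _
    rw [h2, pow_succ, map_mul, map_mul, map_pow, ← huv i, Nat.add_sub_cancel]
    nth_rewrite 3 [h3]
    ring
  have hint : IsIntegral (MvPolynomial (Fin r) K) (φ V * f) := by
    refine ⟨Polynomial.X ^ n + ∑ i ∈ Finset.range n, Polynomial.C (w i) * Polynomial.X ^ i, ?_, ?_⟩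
    · apply Polynomial.monic_X_pow_add
      rw [← Polynomial.mem_degreeLT]
      apply Submodule.sum_mem
      intro i hi
      rw [Polynomial.mem_degreeLT]
      refine lt_of_le_of_lt (Polynomial.degree_C_mul_X_pow_le _ _) ?_
      exact_mod_cast Finset.mem_range.1 hi
    · rw [Polynomial.eval₂_add, Polynomial.eval₂_X_pow, Polynomial.eval₂_finsetSum]
      have h0 : f ^ n + ∑ i ∈ Finset.range n, (P.coeff i : RF K r) * f ^ i = 0 := by
        rw [Polynomial.eval₂_eq_sum_range, Finset.sum_range_succ] at hPf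
        have h1 : P.coeff P.natDegree = 1 := hP
        rw [h1, map_one, one_mul] at hPf
        rw [add_comm]
        exact hPf
      have h1 : ∀ i ∈ Finset.range n,
          Polynomial.eval₂ φ (φ V * f) (Polynomial.C (w i) * Polynomial.X ^ i) =
            φ V ^ n * ((P.coeff i : RF K r) * f ^ i) := by
        intro i hi
        rw [Polynomial.eval₂_mul, Polynomial.eval₂_C, Polynomial.eval₂_X_pow, hw i hi]
        have h2 : n = (n - i) + i := by
          have := Finset.mem_range.1 hi
          omega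
        calc (P.coeff i : RF K r) * φ V ^ (n - i) * (φ V * f) ^ i
            = (φ V ^ (n - i) * φ V ^ i) * ((P.coeff i : RF K r) * f ^ i) := by
              rw [mul_pow]
              ring
          _ = φ V ^ n * ((P.coeff i : RF K r) * f ^ i) := by rw [← pow_add, ← h2]
      rw [Finset.sum_congr rfl h1, ← Finset.mul_sum, mul_pow, ← mul_add, h0, mul_zero]
  obtain ⟨p, hp⟩ := IsIntegrallyClosed.isIntegral_iff.1 hint
  exact ⟨_, p, V, hV1, rfl, by rw [hp, mul_comm]⟩

end Pool.Agent.LibHP
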