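import Pool.Agent.LibHP.F2

set_option autoImplicit false

namespace Pool.Agent.LibHP

/-! ### Rational functions in several variables regular at the origin -/

/-- The map `K(t_1, ..., t_r) → E(t_1, ..., t_r)` given by an embedding of the coefficients. -/
noncomputable def rfmap {K E : Type} [Field K] [Field E] (F : K →+* E) (r : ℕ) :
    RF K r →+* RF E r :=
  IsFractionRing.lift (A := MvPolynomial (Fin r) K) (K := RF K r)
    (g := (algebraMap (MvPolynomial (Fin r) E) (RF E r)).comp (MvPolynomial.map F))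
    ((IsFractionRing.injective (MvPolynomial (Fin r) E) (RF E r)).comp
      (MvPolynomial.map_injective F F.injective))

/-- `HasVal f a`: the rational function `f` is regular at the origin with value `a`. -/
def HasVal {K : Type} [Field K] {r : ℕ} (f : RF K r) (a : K) : Prop :=
  ∃ p q : MvPolynomial (Fin r) K, MvPolynomial.constantCoeff q = 1 ∧
    MvPolynomial.constantCoeff p = a ∧
    f * algebraMap (MvPolynomial (Fin r) K) (RF K r) q =
      algebraMap (MvPolynomial (Fin r) K) (RF K r) p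

/-- `LiftProp k K L`: all rational families of points of `K` over `k` through the identity lift
to the extension `L` of `K`. -/
def LiftProp (k K L : Type) [Field k] [Field K] [Field L] [Algebra k K] [Algebra K L] : Prop :=
  ∀ (r : ℕ) (s : K →+* RF K r),
    (∀ c : k, s (algebraMap k K c) = algebraMap K (RF K r) (algebraMap k K c)) →
    (∀ a, HasVal (s a) a) →
    ∃ s' : L →+* RF L r, (∀ l, HasVal (s' l) l) ∧
      ∀ a : K, s' (algebraMap K L a) = rfmap (algebraMap K L) r (s a)

/-! ### Forms of bidegree (2,2) -/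

/-- Bihomogeneous of bidegree `(2, 2)`. -/
def IsBiquadratic {k : Type} [Field k] {m n : ℕ}
    (F : MvPolynomial (Fin (m + 1) ⊕ Fin (n + 1)) k) : Prop :=
  ∀ d ∈ F.support, (∑ i, d (Sum.inl i)) = 2 ∧ (∑ j, d (Sum.inr j)) = 2

/-- The hypersurface `F = 0` in `P^m × P^n` is smooth (no singular point over the algebraic
closure of `k`). -/
def IsSmoothForm {k : Type} [Field k] {m n : ℕ}
    (F : MvPolynomial (Fin (m + 1) ⊕ Fin (n + 1)) k) : Prop :=
  ∀ (a : Fin (m + 1) → AlgebraicClosure k) (b : Fin (n + 1) → AlgebraicClosure k),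
    a ≠ 0 → b ≠ 0 → MvPolynomial.aeval (Sum.elim a b) F = 0 →
      ∃ v, MvPolynomial.aeval (Sum.elim a b) (MvPolynomial.pderiv v F) ≠ 0

/-- A singular point of the hypersurface `F = 0` of `P^m × P^n` over the field `k` itself. -/
def HasSing {k : Type} [Field k] {m n : ℕ}
    (F : MvPolynomial (Fin (m + 1) ⊕ Fin (n + 1)) k) : Prop :=
  ∃ (a : Fin (m + 1) → k) (b : Fin (n + 1) → k), a ≠ 0 ∧ b ≠ 0 ∧
    MvPolynomial.eval (Sum.elim a b) F = 0 ∧
      ∀ v, MvPolynomial.eval (Sum.elim a b) (MvPolynomial.pderiv v F) = 0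

/-- The affine equation `F(1, x, 1, y)`. -/
noncomputable def dehom {k : Type} [Field k] {m n : ℕ}
    (F : MvPolynomial (Fin (m + 1) ⊕ Fin (n + 1)) k) : MvPolynomial (Fin m ⊕ Fin n) k :=
  MvPolynomial.aeval (Sum.elim
    (Fin.cons 1 fun i => MvPolynomial.X (Sum.inl i) : Fin (m + 1) → MvPolynomial (Fin m ⊕ Fin n) k)
    (Fin.cons 1 fun j => MvPolynomial.X (Sum.inr j) : Fin (n + 1) → MvPolynomial (Fin m ⊕ Fin n) k))
    F

/-- `(x, y)` is a generic point of the affine hypersurface `F(1, x, 1, y) = 0` with values in its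
function field `K`. -/
def IsGenericPt {k K : Type} [Field k] [Field K] [Algebra k K] {m n : ℕ}
    (F : MvPolynomial (Fin (m + 1) ⊕ Fin (n + 1)) k) (x : Fin m → K) (y : Fin n → K) : Prop :=
  (∀ G : MvPolynomial (Fin m ⊕ Fin n) k, MvPolynomial.aeval (Sum.elim x y) G = 0 ↔ dehom F ∣ G) ∧
  (∀ z : K, ∃ G H : MvPolynomial (Fin m ⊕ Fin n) k, MvPolynomial.aeval (Sum.elim x y) H ≠ 0 ∧
    z * MvPolynomial.aeval (Sum.elim x y) H = MvPolynomial.aeval (Sum.elim x y) G)

/-- The matrix of second partial derivatives of `F` with respect to the `y` variables; its entries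
are forms of degree two in the `x` variables, and `2 F` is the quadratic form in `y` with this
matrix. -/
noncomputable def gramH {k : Type} [Field k] {m n : ℕ}
    (F : MvPolynomial (Fin (m + 1) ⊕ Fin (n + 1)) k) :
    Matrix (Fin (n + 1)) (Fin (n + 1)) (MvPolynomial (Fin (m + 1)) k) := fun i j =>
  MvPolynomial.aeval (Sum.elim MvPolynomial.X (fun _ => 0) :
      Fin (m + 1) ⊕ Fin (n + 1) → MvPolynomial (Fin (m + 1)) k)
    (MvPolynomial.pderiv (Sum.inr i) (MvPolynomial.pderiv (Sum.inr j) F))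

/-- The same matrix with `x_0 = 1`. -/
noncomputable def gramY {k : Type} [Field k] {m n : ℕ}
    (F : MvPolynomial (Fin (m + 1) ⊕ Fin (n + 1)) k) :
    Matrix (Fin (n + 1)) (Fin (n + 1)) (MvPolynomial (Fin m) k) := fun i j =>
  MvPolynomial.aeval (Fin.cons 1 fun i => MvPolynomial.X i : Fin (m + 1) → MvPolynomial (Fin m) k)
    (gramH F i j)

/-- Exchange of the two groups of variables. -/
noncomputable def swapForm {k : Type} [Field k] {m n : ℕ}
    (F : MvPolynomial (Fin (m + 1) ⊕ Fin (n + 1)) k) :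
    MvPolynomial (Fin (n + 1) ⊕ Fin (m + 1)) k :=
  MvPolynomial.rename Sum.swap F

/-- The value of a polynomial in `x, y` at `x = ξ`, as a polynomial in `y` over `κ`. -/
noncomputable def specX {k κ : Type} [Field k] [Field κ] [Algebra k κ] {m n : ℕ} (ξ : Fin m → κ) :
    MvPolynomial (Fin m ⊕ Fin n) k →ₐ[k] MvPolynomial (Fin n) κ :=
  MvPolynomial.aeval (Sum.elim (fun i => MvPolynomial.C (ξ i)) MvPolynomial.X)

/-- The affine equation of the quadric with matrix `B`. -/
noncomputable def quadEq {M : Type} [Field M] {n : ℕ} (B : Matrix (Fin (n + 1)) (Fin (n + 1)) M) :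
    MvPolynomial (Fin n) M :=
  ∑ i, ∑ j, MvPolynomial.C (B i j) *
    ((Fin.cons 1 fun i => MvPolynomial.X i : Fin (n + 1) → MvPolynomial (Fin n) M) i *
      (Fin.cons 1 fun i => MvPolynomial.X i : Fin (n + 1) → MvPolynomial (Fin n) M) j)

/-- `y` is a generic point of the affine quadric `quadEq B = 0`, with values in its function
field `K` over `M`. -/
def IsGenericQuad {M K : Type} [Field M] [Field K] [Algebra M K] {n : ℕ}
    (B : Matrix (Fin (n + 1)) (Fin (n + 1)) M) (y : Fin n → K) : Prop :=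
  (∀ G : MvPolynomial (Fin n) M, MvPolynomial.aeval y G = 0 ↔ quadEq B ∣ G) ∧
  (∀ z : K, ∃ G H : MvPolynomial (Fin n) M, MvPolynomial.aeval y H ≠ 0 ∧
    z * MvPolynomial.aeval y H = MvPolynomial.aeval y G)

/-- The valuation ring `O` is a discrete valuation ring with uniformizer `π`. -/
def IsUnif {K : Type} [Field K] (O : ValuationSubring K) (π : K) : Prop :=
  π ∈ O ∧ π ≠ 0 ∧ π⁻¹ ∉ O ∧ ∀ a ∈ O, a ≠ 0 → ∃ (n : ℕ) (u : K), u ∈ O ∧ u⁻¹ ∈ O ∧ a = u * π ^ n

/-- `Unram W π`: the value of `π` is the largest one below `1` (for `π` coming from a uniformizer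
of a smaller field this says that `W` is unramified). -/
def Unram {L : Type} [Field L] (W : ValuationSubring L) (π : L) : Prop :=
  ∀ z : L, W.valuation z < 1 → W.valuation z ≤ W.valuation π

/-- Bihomogeneous of bidegree `(d, e)`. -/
def IsBihom {k : Type} [Field k] {m n : ℕ} (d e : ℕ)
    (F : MvPolynomial (Fin (m + 1) ⊕ Fin (n + 1)) k) : Prop :=
  ∀ s ∈ F.support, (∑ i, s (Sum.inl i)) = d ∧ (∑ j, s (Sum.inr j)) = e

end Pool.Agent.LibHP
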