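import Pool.Agent.LibHP2.G6

set_option autoImplicit false

namespace Pool.Agent.LibHP

open MvPolynomial

/-- At most `n` forms of positive degree in `n + 1` variables have a common zero. -/
theorem G6b_common_zero (Λ : Type) [Field Λ] [IsAlgClosed Λ] (n : ℕ)
    (S : Finset (MvPolynomial (Fin (n + 1)) Λ)) (hS : S.card ≤ n)
    (hhom : ∀ f ∈ S, ∃ d, 1 ≤ d ∧ f.IsHomogeneous d) :
    ∃ a : Fin (n + 1) → Λ, a ≠ 0 ∧ ∀ f ∈ S, eval a f = 0 := by
  classical
  by_contra hno
  push Not at hno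
  have hf0 : ∀ f ∈ S, eval 0 f = 0 := by
    intro f hf
    obtain ⟨d, hd, hfd⟩ := hhom f hf
    rw [← coe_aeval_eq_eval, RingHom.coe_coe, aeval_zero, constantCoeff_eq]
    rw [hfd.coeff_eq_zero (d := 0) (by simp; omega)]
    simp
  have hloc : zeroLocus Λ (Ideal.span (S : Set (MvPolynomial (Fin (n + 1)) Λ))) =
      {(0 : Fin (n + 1) → Λ)} := by
    rw [zeroLocus_span]
    ext a
    simp only [Finset.mem_coe, Set.mem_singleton_iff, Set.mem_ofPred_eq]
    constructor
    · intro h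
      by_contra ha
      obtain ⟨f, hf, hfa⟩ := hno a ha
      exact hfa (by simpa [coe_aeval_eq_eval] using h f hf)
    · rintro rfl f hf
      simpa [coe_aeval_eq_eval] using hf0 f hf
  have hrad := vanishingIdeal_zeroLocus_eq_radical (k := Λ) (K := Λ)
    (Ideal.span (S : Set (MvPolynomial (Fin (n + 1)) Λ)))
  rw [hloc] at hrad
  have hprime : (vanishingIdeal Λ {(0 : Fin (n + 1) → Λ)} :
    Ideal (MvPolynomial (Fin (n + 1)) Λ)).IsPrime := inferInstance
  have hmin : (vanishingIdeal Λ {(0 : Fin (n + 1) → Λ)} :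
      Ideal (MvPolynomial (Fin (n + 1)) Λ)) ∈
      (Ideal.span (S : Set (MvPolynomial (Fin (n + 1)) Λ))).minimalPrimes := by
    rw [← Ideal.radical_minimalPrimes, ← hrad, Ideal.minimalPrimes_eq_subsingleton_self]
    exact Set.mem_singleton _
  have hle := Ideal.height_le_card_of_mem_minimalPrimes_span_finset hmin
  have hker : RingHom.ker (G6_kill Λ n (n + 1)) ≤
      (vanishingIdeal Λ {(0 : Fin (n + 1) → Λ)} : Ideal (MvPolynomial (Fin (n + 1)) Λ)) := by
    intro p hp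
    rw [mem_vanishingIdeal_singleton_iff]
    rw [RingHom.mem_ker] at hp
    have h2 : aeval (0 : Fin (n + 1) → Λ) = (aeval (0 : Fin (n + 1) → Λ)).comp
        (G6_kill Λ n (n + 1)) := by
      apply MvPolynomial.algHom_ext
      intro i
      have : i.val < n + 1 := i.isLt
      simp only [G6_kill, AlgHom.comp_apply, aeval_X, if_pos this, map_zero, Pi.zero_apply]
    rw [h2, AlgHom.comp_apply, hp, map_zero]
  have h3 := (G6_height Λ n (n + 1) le_rfl).trans ((Ideal.height_mono hker).trans hle)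
  have h4 : n + 1 ≤ n := by
    have h5 : ((n + 1 : ℕ) : ℕ∞) ≤ ((n : ℕ) : ℕ∞) := h3.trans (by exact_mod_cast hS)
    exact_mod_cast h5
  omega

/-- Substitution of forms in a bihomogeneous form. -/
theorem G6b_subst_hom {Λ : Type} [Field Λ] {m n : ℕ} {σ : Type} {d e α β : ℕ}
    {P : MvPolynomial (Fin (m + 1) ⊕ Fin (n + 1)) Λ} (hP : IsBihom d e P)
    (A : Fin (m + 1) → MvPolynomial σ Λ) (B : Fin (n + 1) → MvPolynomial σ Λ)
    (hA : ∀ i, (A i).IsHomogeneous α) (hB : ∀ j, (B j).IsHomogeneous β) :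
    (aeval (Sum.elim A B) P).IsHomogeneous (d * α + e * β) := by
  rw [aeval_def, eval₂_eq']
  apply IsHomogeneous.sum
  intro s hs
  obtain ⟨h1, h2⟩ := hP s hs
  have hprod : (∏ i, (Sum.elim A B i) ^ s i).IsHomogeneous (d * α + e * β) := by
    rw [Fintype.prod_sum_type]
    refine IsHomogeneous.mul ?_ ?_
    · have : d * α = ∑ i : Fin (m + 1), α * s (Sum.inl i) := by
        rw [← Finset.mul_sum, h1, mul_comm]
      rw [this]
      apply IsHomogeneous.prod
      intro i _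
      exact (hA i).pow _
    · have : e * β = ∑ i : Fin (n + 1), β * s (Sum.inr i) := by
        rw [← Finset.mul_sum, h2, mul_comm]
      rw [this]
      apply IsHomogeneous.prod
      intro i _
      exact (hB i).pow _
  have h0 := (isHomogeneous_C σ (coeff s P)).mul hprod
  rw [zero_add] at h0
  exact h0

theorem G6b_eval_subst {Λ : Type} [Field Λ] {m n : ℕ} {σ : Type}
    (P : MvPolynomial (Fin (m + 1) ⊕ Fin (n + 1)) Λ)
    (A : Fin (m + 1) → MvPolynomial σ Λ) (B : Fin (n + 1) → MvPolynomial σ Λ) (c : σ → Λ) :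
    eval c (aeval (Sum.elim A B) P) =
      eval (Sum.elim (fun i => eval c (A i)) (fun j => eval c (B j))) P := by
  have h : ∀ (τ : Type) (c : τ → Λ) (p : MvPolynomial τ Λ), eval c p = aeval c p := by
    intro τ c p
    rw [← coe_aeval_eq_eval, RingHom.coe_coe]
  rw [h, h]
  have h2 : (aeval c).comp (aeval (Sum.elim A B)) =
      aeval (Sum.elim (fun i => eval c (A i)) (fun j => eval c (B j))) := by
    apply MvPolynomial.algHom_ext
    rintro (i | j)
    · simp only [AlgHom.comp_apply, aeval_X, Sum.elim_inl]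
      exact (h _ _ _).symm
    · simp only [AlgHom.comp_apply, aeval_X, Sum.elim_inr]
      exact (h _ _ _).symm
  rw [← h2, AlgHom.comp_apply]

theorem G6b_indep_right {Λ : Type} [Field Λ] {m n d : ℕ}
    {P : MvPolynomial (Fin (m + 1) ⊕ Fin (n + 1)) Λ} (hP : IsBihom d 0 P)
    (a : Fin (m + 1) → Λ) (b b' : Fin (n + 1) → Λ) :
    eval (Sum.elim a b) P = eval (Sum.elim a b') P := by
  rw [eval_eq', eval_eq']
  apply Finset.sum_congr rfl
  intro s hs
  obtain ⟨-, h2⟩ := hP s hs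
  rw [Finset.sum_eq_zero_iff] at h2
  simp only [Fintype.prod_sum_type, Sum.elim_inl, Sum.elim_inr]
  congr 2
  apply Finset.prod_congr rfl
  intro j _
  rw [h2 j (Finset.mem_univ _), pow_zero, pow_zero]

theorem G6b_indep_left {Λ : Type} [Field Λ] {m n e : ℕ}
    {P : MvPolynomial (Fin (m + 1) ⊕ Fin (n + 1)) Λ} (hP : IsBihom 0 e P)
    (a a' : Fin (m + 1) → Λ) (b : Fin (n + 1) → Λ) :
    eval (Sum.elim a b) P = eval (Sum.elim a' b) P := by
  rw [eval_eq', eval_eq']
  apply Finset.sum_congr rfl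
  intro s hs
  obtain ⟨h2, -⟩ := hP s hs
  rw [Finset.sum_eq_zero_iff] at h2
  simp only [Fintype.prod_sum_type, Sum.elim_inl, Sum.elim_inr]
  congr 2
  apply Finset.prod_congr rfl
  intro j _
  rw [h2 j (Finset.mem_univ _), pow_zero, pow_zero]

theorem G6b_lin {Λ : Type} [Field Λ] {m n e : ℕ}
    {P : MvPolynomial (Fin (m + 1) ⊕ Fin (n + 1)) Λ} (hP : IsBihom 1 e P)
    (a₁ a₂ : Fin (m + 1) → Λ) (s t : Λ) (b : Fin (n + 1) → Λ) :
    eval (Sum.elim (fun i => s * a₁ i + t * a₂ i) b) P =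
      s * eval (Sum.elim a₁ b) P + t * eval (Sum.elim a₂ b) P := by
  rw [eval_eq', eval_eq', eval_eq', Finset.mul_sum, Finset.mul_sum, ← Finset.sum_add_distrib]
  apply Finset.sum_congr rfl
  intro u hu
  obtain ⟨h1, -⟩ := hP u hu
  have hex : ∃ i₀ : Fin (m + 1), u (Sum.inl i₀) ≠ 0 := by
    by_contra hcon
    push Not at hcon
    rw [Finset.sum_eq_zero (fun i _ => hcon i)] at h1
    omega
  obtain ⟨i₀, hi₀⟩ := hex
  have hsplit := Finset.add_sum_erase Finset.univ (fun i : Fin (m + 1) => u (Sum.inl i))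
    (Finset.mem_univ i₀)
  have h10 : u (Sum.inl i₀) = 1 := by omega
  have hrest : ∑ i ∈ Finset.univ.erase i₀, u (Sum.inl i) = 0 := by omega
  rw [Finset.sum_eq_zero_iff] at hrest
  have hprod : ∀ v : Fin (m + 1) → Λ, ∏ i, v i ^ u (Sum.inl i) = v i₀ := by
    intro v
    rw [← Finset.mul_prod_erase Finset.univ (fun i => v i ^ u (Sum.inl i)) (Finset.mem_univ i₀)]
    simp only [h10, pow_one]
    rw [Finset.prod_eq_one, mul_one]
    intro i hi
    rw [hrest i hi, pow_zero]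
  simp only [Fintype.prod_sum_type, Sum.elim_inl, Sum.elim_inr, hprod]
  ring

/-- A common zero in the first group of variables. -/
theorem G6b_xzero {Λ : Type} [Field Λ] [IsAlgClosed Λ] {m n : ℕ} (hm : 2 ≤ m)
    {d₁ d₂ e₁ e₂ : ℕ} (h1 : 1 ≤ d₁) (h2 : 1 ≤ d₂)
    {w R : MvPolynomial (Fin (m + 1) ⊕ Fin (n + 1)) Λ} (hw : IsBihom d₁ e₁ w)
    (hR : IsBihom d₂ e₂ R) (b : Fin (n + 1) → Λ) :
    ∃ a : Fin (m + 1) → Λ, a ≠ 0 ∧ eval (Sum.elim a b) w = 0 ∧ eval (Sum.elim a b) R = 0 := by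
  classical
  have hX : ∀ i : Fin (m + 1), (X i : MvPolynomial (Fin (m + 1)) Λ).IsHomogeneous 1 :=
    fun i => isHomogeneous_X _ _
  have hC : ∀ j : Fin (n + 1), (C (b j) : MvPolynomial (Fin (m + 1)) Λ).IsHomogeneous 0 :=
    fun j => isHomogeneous_C _ _
  obtain ⟨a, ha, hz⟩ := G6b_common_zero Λ m
    {aeval (Sum.elim X (fun j => C (b j))) w, aeval (Sum.elim X (fun j => C (b j))) R}
    (Finset.card_le_two.trans hm) (by
      intro f hf
      simp only [Finset.mem_insert, Finset.mem_singleton] at hf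
      rcases hf with rfl | rfl
      · exact ⟨_, by omega, G6b_subst_hom hw _ _ hX hC⟩
      · exact ⟨_, by omega, G6b_subst_hom hR _ _ hX hC⟩)
  refine ⟨a, ha, ?_, ?_⟩
  · have := hz _ (Finset.mem_insert_self _ _)
    rw [G6b_eval_subst] at this
    simpa using this
  · have := hz (aeval (Sum.elim X (fun j => C (b j))) R) (by simp)
    rw [G6b_eval_subst] at this
    simpa using this

/-- A common zero in the second group of variables. -/
theorem G6b_yzero {Λ : Type} [Field Λ] [IsAlgClosed Λ] {m n : ℕ} (hn : 2 ≤ n)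
    {d₁ d₂ e₁ e₂ : ℕ} (h1 : 1 ≤ e₁) (h2 : 1 ≤ e₂)
    {w R : MvPolynomial (Fin (m + 1) ⊕ Fin (n + 1)) Λ} (hw : IsBihom d₁ e₁ w)
    (hR : IsBihom d₂ e₂ R) (a : Fin (m + 1) → Λ) :
    ∃ b : Fin (n + 1) → Λ, b ≠ 0 ∧ eval (Sum.elim a b) w = 0 ∧ eval (Sum.elim a b) R = 0 := by
  classical
  have hX : ∀ i : Fin (n + 1), (X i : MvPolynomial (Fin (n + 1)) Λ).IsHomogeneous 1 :=
    fun i => isHomogeneous_X _ _
  have hC : ∀ j : Fin (m + 1), (C (a j) : MvPolynomial (Fin (n + 1)) Λ).IsHomogeneous 0 :=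
    fun j => isHomogeneous_C _ _
  obtain ⟨b, hb, hz⟩ := G6b_common_zero Λ n
    {aeval (Sum.elim (fun j => C (a j)) X) w, aeval (Sum.elim (fun j => C (a j)) X) R}
    (Finset.card_le_two.trans hn) (by
      intro f hf
      simp only [Finset.mem_insert, Finset.mem_singleton] at hf
      rcases hf with rfl | rfl
      · exact ⟨_, by omega, G6b_subst_hom hw _ _ hC hX⟩
      · exact ⟨_, by omega, G6b_subst_hom hR _ _ hC hX⟩)
  refine ⟨b, hb, ?_, ?_⟩
  · have := hz _ (Finset.mem_insert_self _ _)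
    rw [G6b_eval_subst] at this
    simpa using this
  · have := hz (aeval (Sum.elim (fun j => C (a j)) X) R) (by simp)
    rw [G6b_eval_subst] at this
    simpa using this

/-- The case of bidegrees `(1,0)`, `(0,1)`, `(1,2)`, `(2,1)`. -/
theorem G6b_case11 {Λ : Type} [Field Λ] [IsAlgClosed Λ] {m n : ℕ} (hm : 2 ≤ m) (hn : 2 ≤ n)
    {w1 w2 P Q : MvPolynomial (Fin (m + 1) ⊕ Fin (n + 1)) Λ}
    (hw1 : IsBihom 1 0 w1) (hw2 : IsBihom 0 1 w2) (hP : IsBihom 1 2 P) (hQ : IsBihom 2 1 Q) :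
    ∃ (a : Fin (m + 1) → Λ) (b : Fin (n + 1) → Λ), a ≠ 0 ∧ b ≠ 0 ∧
      eval (Sum.elim a b) w1 = 0 ∧ eval (Sum.elim a b) w2 = 0 ∧
      eval (Sum.elim a b) P = 0 ∧ eval (Sum.elim a b) Q = 0 := by
  classical
  obtain ⟨a₁, ha₁, hwa₁, -⟩ := G6b_xzero hm le_rfl le_rfl hw1 hw1 (0 : Fin (n + 1) → Λ)
  have hi₀ : ∃ i₀, a₁ i₀ ≠ 0 := by
    by_contra hcon
    push Not at hcon
    exact ha₁ (funext hcon)
  obtain ⟨i₀, hi₀⟩ := hi₀
  have hXi : IsBihom 1 0 (X (Sum.inl i₀) : MvPolynomial (Fin (m + 1) ⊕ Fin (n + 1)) Λ) := by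
    intro s hs
    rw [mem_support_iff, coeff_X] at hs
    have hs' : Finsupp.single (Sum.inl i₀) 1 = s := by
      by_contra hcon
      rw [if_neg hcon] at hs
      exact hs rfl
    subst hs'
    constructor
    · rw [Finset.sum_eq_single i₀] <;> simp [Finsupp.single_apply]
      intro b hb hb2
      exact hb hb2.symm
    · apply Finset.sum_eq_zero
      intro j _
      simp
  obtain ⟨a₂, ha₂, hwa₂, hXa₂⟩ := G6b_xzero hm le_rfl le_rfl hw1 hXi (0 : Fin (n + 1) → Λ)
  simp only [eval_X, Sum.elim_inl] at hXa₂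
  -- independence
  have hind : ∀ s t : Λ, (s, t) ≠ (0, 0) → (fun i => s * a₁ i + t * a₂ i) ≠ 0 := by
    intro s t hst h0
    have h1 := congrFun h0 i₀
    simp only [hXa₂, mul_zero, add_zero, Pi.zero_apply] at h1
    have hs : s = 0 := by
      rcases mul_eq_zero.mp h1 with h | h
      · exact h
      · exact absurd h hi₀
    have ht : t = 0 := by
      by_contra ht
      apply ha₂
      funext i
      have h2 := congrFun h0 i
      simp only [hs, zero_mul, zero_add, Pi.zero_apply] at h2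
      rcases mul_eq_zero.mp h2 with h | h
      · exact absurd h ht
      · exact h
    exact hst (by rw [hs, ht])
  have hw1lin : ∀ (s t : Λ) (b : Fin (n + 1) → Λ),
      eval (Sum.elim (fun i => s * a₁ i + t * a₂ i) b) w1 = 0 := by
    intro s t b
    rw [G6b_lin hw1, G6b_indep_right hw1 a₁ b 0, G6b_indep_right hw1 a₂ b 0, hwa₁, hwa₂]
    ring
  have hX : ∀ i : Fin (n + 1), (X i : MvPolynomial (Fin (n + 1)) Λ).IsHomogeneous 1 :=
    fun i => isHomogeneous_X _ _
  -- the two binary forms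
  set p0 : MvPolynomial (Fin (n + 1)) Λ := aeval (Sum.elim (fun i => C (a₁ i)) X) P with hp0
  set p1 : MvPolynomial (Fin (n + 1)) Λ := aeval (Sum.elim (fun i => C (a₂ i)) X) P with hp1
  have hp0h : p0.IsHomogeneous 2 := by
    have := G6b_subst_hom hP (fun i => C (a₁ i)) (X : Fin (n + 1) → MvPolynomial (Fin (n + 1)) Λ)
      (fun i => isHomogeneous_C _ _) hX
    rw [mul_zero, zero_add, mul_one] at this
    exact this
  have hp1h : p1.IsHomogeneous 2 := by
    have := G6b_subst_hom hP (fun i => C (a₂ i)) (X : Fin (n + 1) → MvPolynomial (Fin (n + 1)) Λ)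
      (fun i => isHomogeneous_C _ _) hX
    rw [mul_zero, zero_add, mul_one] at this
    exact this
  have hp0e : ∀ b, eval b p0 = eval (Sum.elim a₁ b) P := by
    intro b
    rw [hp0, G6b_eval_subst]
    simp
  have hp1e : ∀ b, eval b p1 = eval (Sum.elim a₂ b) P := by
    intro b
    rw [hp1, G6b_eval_subst]
    simp
  set A : Fin (m + 1) → MvPolynomial (Fin (n + 1)) Λ := fun i => -p1 * C (a₁ i) + p0 * C (a₂ i)
    with hA
  have hAh : ∀ i, (A i).IsHomogeneous 2 := by
    intro i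
    rw [hA]
    apply IsHomogeneous.add
    · have := hp1h.neg.mul (isHomogeneous_C (Fin (n + 1)) (a₁ i))
      simpa using this
    · have := hp0h.mul (isHomogeneous_C (Fin (n + 1)) (a₂ i))
      simpa using this
  have hRh := G6b_subst_hom hQ A X hAh hX
  have hWh := G6b_subst_hom hw2 (fun _ => (0 : MvPolynomial (Fin (n + 1)) Λ)) X
    (fun i => isHomogeneous_zero _ _ 0) hX
  obtain ⟨b, hb, hz⟩ := G6b_common_zero Λ n
    {aeval (Sum.elim A X) Q, aeval (Sum.elim (fun _ => 0) X) w2}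
    (Finset.card_le_two.trans hn) (by
      intro f hf
      simp only [Finset.mem_insert, Finset.mem_singleton] at hf
      rcases hf with rfl | rfl
      · exact ⟨_, by norm_num, hRh⟩
      · exact ⟨_, by norm_num, hWh⟩)
  have hz1 := hz _ (Finset.mem_insert_self _ _)
  have hz2 := hz (aeval (Sum.elim (fun _ => 0) X) w2) (by simp)
  rw [G6b_eval_subst] at hz1 hz2
  simp only [eval_X, map_zero] at hz1 hz2
  have hw2b : ∀ a, eval (Sum.elim a b) w2 = 0 := by
    intro a
    rw [G6b_indep_left hw2 a (fun _ => 0) b]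
    exact hz2
  by_cases hdeg : (-(eval b p1), eval b p0) = ((0 : Λ), (0 : Λ))
  · -- `P` vanishes on the pencil
    simp only [Prod.mk.injEq, neg_eq_zero] at hdeg
    obtain ⟨st, hst, hzq⟩ := G6b_common_zero Λ 1
      {aeval (Sum.elim (fun i => X 0 * C (a₁ i) + X 1 * C (a₂ i)) (fun j => C (b j))) Q}
      (by simp) (by
        intro f hf
        simp only [Finset.mem_singleton] at hf
        subst hf
        refine ⟨2 * 1 + 1 * 0, by norm_num, G6b_subst_hom hQ _ _ ?_ (fun j => isHomogeneous_C _ _)⟩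
        intro i
        apply IsHomogeneous.add
        · have := (isHomogeneous_X Λ (0 : Fin 2)).mul (isHomogeneous_C (Fin 2) (a₁ i))
          simpa using this
        · have := (isHomogeneous_X Λ (1 : Fin 2)).mul (isHomogeneous_C (Fin 2) (a₂ i))
          simpa using this)
    have hq := hzq _ (Finset.mem_singleton_self _)
    rw [G6b_eval_subst] at hq
    simp only [map_add, map_mul, eval_X, eval_C] at hq
    refine ⟨fun i => st 0 * a₁ i + st 1 * a₂ i, b, hind _ _ ?_, hb, hw1lin _ _ _, hw2b _, ?_, hq⟩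
    · intro h
      simp only [Prod.mk.injEq] at h
      apply hst
      funext i
      fin_cases i
      · exact h.1
      · exact h.2
    · rw [G6b_lin hP, ← hp0e, ← hp1e, hdeg.1, hdeg.2]
      ring
  · refine ⟨fun i => -(eval b p1) * a₁ i + (eval b p0) * a₂ i, b, hind _ _ hdeg, hb,
      hw1lin _ _ _, hw2b _, ?_, ?_⟩
    · rw [G6b_lin hP, ← hp0e, ← hp1e]
      ring
    · simp only [hA, map_add, map_mul, map_neg, eval_C] at hz1
      exact hz1

/-- A form of bidegree `(2,2)` in the ideal of a product of two hypersurfaces is singular. -/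
theorem exists_sing_of_decomp (Λ : Type) [Field Λ] [CharZero Λ] [IsAlgClosed Λ] (m n : ℕ)
    (hm : 2 ≤ m) (hn : 2 ≤ n) (d1 d2 : ℕ) (h11 : 1 ≤ d1) (h12 : d1 ≤ 2) (h21 : 1 ≤ d2)
    (h22 : d2 ≤ 2) (F w1 w2 P Q : MvPolynomial (Fin (m + 1) ⊕ Fin (n + 1)) Λ)
    (hw1 : IsBihom d1 0 w1) (hw2 : IsBihom 0 d2 w2) (hP : IsBihom (2 - d1) 2 P)
    (hQ : IsBihom 2 (2 - d2) Q) (hF : F = w1 * P + w2 * Q) : HasSing F := by
  have key : ∃ (a : Fin (m + 1) → Λ) (b : Fin (n + 1) → Λ), a ≠ 0 ∧ b ≠ 0 ∧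
      eval (Sum.elim a b) w1 = 0 ∧ eval (Sum.elim a b) w2 = 0 ∧
      eval (Sum.elim a b) P = 0 ∧ eval (Sum.elim a b) Q = 0 := by
    by_cases hd1 : d1 = 2
    · subst hd1
      obtain ⟨b, hb, hb1, hb2⟩ := G6b_yzero hn h21 (by norm_num) hw2 hP (0 : Fin (m + 1) → Λ)
      obtain ⟨a, ha, ha1, ha2⟩ := G6b_xzero hm (by norm_num) (by norm_num) hw1 hQ b
      refine ⟨a, b, ha, hb, ha1, ?_, ?_, ha2⟩
      · rw [G6b_indep_left hw2 a 0 b, hb1]
      · rw [G6b_indep_left hP a 0 b, hb2]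
    · have hd1' : d1 = 1 := by omega
      subst hd1'
      by_cases hd2 : d2 = 2
      · subst hd2
        obtain ⟨a, ha, ha1, ha2⟩ := G6b_xzero hm le_rfl (by norm_num) hw1 hQ
          (0 : Fin (n + 1) → Λ)
        obtain ⟨b, hb, hb1, hb2⟩ := G6b_yzero hn (by norm_num) (by norm_num) hw2 hP a
        refine ⟨a, b, ha, hb, ?_, hb1, hb2, ?_⟩
        · rw [G6b_indep_right hw1 a b 0, ha1]
        · rw [G6b_indep_right hQ a b 0, ha2]
      · have hd2' : d2 = 1 := by omega
        subst hd2'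
        exact G6b_case11 hm hn hw1 hw2 hP hQ
  obtain ⟨a, b, ha, hb, e1, e2, e3, e4⟩ := key
  refine ⟨a, b, ha, hb, ?_, ?_⟩
  · rw [hF, map_add, map_mul, map_mul, e1, e2]
    ring
  · intro v
    rw [hF, map_add, Derivation.leibniz, Derivation.leibniz]
    simp only [smul_eq_mul, map_add, map_mul, e1, e2, e3, e4]
    ring

end Pool.Agent.LibHP
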