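import Pool.Agent.LibHP2.A1

set_option autoImplicit false
open Polynomial

namespace Pool.Agent.LibHP

/-- A polynomial over `E` whose values at all points of `L ^ r` are in `L` has its coefficients in
`L`. -/
theorem A2_coeff_mem {L E : Type} [Field L] [Field E] [CharZero L] (ι : L →+* E) {r : ℕ}
    (q : MvPolynomial (Fin r) E)
    (hq : ∀ c : Fin r → L, ∃ l : L, ι l = MvPolynomial.eval (fun i => ι (c i)) q)
    (s : Fin r →₀ ℕ) : ∃ l : L, ι l = MvPolynomial.coeff s q := by
  classical
  let _ : Algebra L E := ι.toAlgebra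
  have hι : ∀ l : L, algebraMap L E l = ι l := fun _ => rfl
  by_contra hcon
  have hmem : MvPolynomial.coeff s q ∉ LinearMap.range (Algebra.linearMap L E) := by
    rintro ⟨l, hl⟩
    exact hcon ⟨l, hl⟩
  obtain ⟨μ, hμ1, hμ2⟩ := Submodule.exists_dual_map_eq_bot_of_notMem hmem inferInstance
  have hμ : ∀ l : L, μ (ι l) = 0 := by
    intro l
    have h1 : μ (ι l) ∈ (LinearMap.range (Algebra.linearMap L E)).map μ :=
      Submodule.mem_map_of_mem ⟨l, rfl⟩
    rw [hμ2] at h1
    exact (Submodule.mem_bot L).mp h1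
  set g : MvPolynomial (Fin r) L :=
    ∑ s ∈ q.support, MvPolynomial.monomial s (μ (MvPolynomial.coeff s q)) with hg
  have hg0 : g = 0 := by
    apply MvPolynomial.funext
    intro c
    obtain ⟨l, hl⟩ := hq c
    rw [map_zero, ← hμ l, hl, MvPolynomial.eval_eq' (fun i => ι (c i)) q, hg, map_sum, map_sum]
    refine Finset.sum_congr rfl fun t _ => ?_
    rw [MvPolynomial.eval_monomial, Finsupp.prod_pow]
    have h2 : MvPolynomial.coeff t q * ∏ i, ι (c i) ^ t i =
        (∏ i, c i ^ t i) • MvPolynomial.coeff t q := by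
      rw [Algebra.smul_def, hι, map_prod, mul_comm]
      simp only [map_pow]
    rw [h2, map_smul, smul_eq_mul, mul_comm]
  apply hμ1
  have h3 := congrArg (MvPolynomial.coeff s) hg0
  rw [hg, MvPolynomial.coeff_sum, MvPolynomial.coeff_zero] at h3
  simp only [MvPolynomial.coeff_monomial] at h3
  rw [Finset.sum_ite_eq'] at h3
  by_cases hs : s ∈ q.support
  · rwa [if_pos hs] at h3
  · rw [MvPolynomial.notMem_support_iff.mp hs, map_zero]

/-- A polynomial over `E` integral over `L[t_1, ..., t_r]` has coefficients in `L` if `L` is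
algebraically closed in `E`. -/
theorem A2_exists_map_eq_of_isIntegral {L E : Type} [Field L] [Field E] [CharZero L] (ι : L →+* E)
    (hcl : ∀ e : E, (∃ P : L[X], P ≠ 0 ∧ P.eval₂ ι e = 0) → ∃ l, ι l = e) {r : ℕ}
    (q : MvPolynomial (Fin r) E) (Q : (MvPolynomial (Fin r) L)[X]) (hQ : Q.Monic)
    (hq : Q.eval₂ (MvPolynomial.map ι) q = 0) :
    ∃ g : MvPolynomial (Fin r) L, MvPolynomial.map ι g = q := by
  have key : ∀ c : Fin r → L, ∃ l : L, ι l = MvPolynomial.eval (fun i => ι (c i)) q := by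
    intro c
    apply hcl
    refine ⟨Q.map (MvPolynomial.eval c), (hQ.map _).ne_zero, ?_⟩
    have h1 := congrArg (MvPolynomial.eval fun i => ι (c i)) hq
    rw [Polynomial.hom_eval₂, map_zero] at h1
    rw [Polynomial.eval₂_map]
    have h2 : (MvPolynomial.eval fun i => ι (c i)).comp (MvPolynomial.map ι) =
        ι.comp (MvPolynomial.eval c) := by
      ext x
      · simp
      · simp
    rw [← h2]
    exact h1
  have h1 := A2_coeff_mem ι q key
  choose l hl using h1
  refine ⟨∑ s ∈ q.support, MvPolynomial.monomial s (l s), ?_⟩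
  rw [map_sum]
  conv_rhs => rw [q.as_sum]
  refine Finset.sum_congr rfl fun s _ => ?_
  rw [MvPolynomial.map_monomial, hl]

/-- If `L` is algebraically closed in `E` (characteristic zero) then `L(t_1, ..., t_r)` is
algebraically closed in `E(t_1, ..., t_r)`. -/
theorem mem_range_rfmap {L E : Type} [Field L] [Field E] [CharZero L] (ι : L →+* E)
    (hcl : ∀ e : E, (∃ P : L[X], P ≠ 0 ∧ P.eval₂ ι e = 0) → ∃ l, ι l = e) (r : ℕ)
    (f : RF E r) (P : (RF L r)[X]) (hP : P ≠ 0) (hPf : P.eval₂ (rfmap ι r) f = 0) :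
    ∃ g, rfmap ι r g = f := by
  let : Algebra (RF L r) (RF E r) := (rfmap ι r).toAlgebra
  let : Algebra (MvPolynomial (Fin r) L) (RF E r) :=
    ((rfmap ι r).comp (algebraMap (MvPolynomial (Fin r) L) (RF L r))).toAlgebra
  have : IsScalarTower (MvPolynomial (Fin r) L) (RF L r) (RF E r) :=
    IsScalarTower.of_algebraMap_eq fun _ => rfl
  have halg : IsAlgebraic (RF L r) f := ⟨P, hP, hPf⟩
  have halg' : IsAlgebraic (MvPolynomial (Fin r) L) f :=
    (IsFractionRing.isAlgebraic_iff (MvPolynomial (Fin r) L) (RF L r) (RF E r)).mpr halg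
  obtain ⟨d, hd0, hd⟩ := halg'.exists_integral_multiple
  obtain ⟨Q, hQm, hQ⟩ := hd
  have ham : ∀ p : MvPolynomial (Fin r) L, algebraMap (MvPolynomial (Fin r) L) (RF E r) p =
      algebraMap (MvPolynomial (Fin r) E) (RF E r) (MvPolynomial.map ι p) :=
    fun p => rfmap_algebraMap ι p
  have hcomp : algebraMap (MvPolynomial (Fin r) L) (RF E r) =
      (algebraMap (MvPolynomial (Fin r) E) (RF E r)).comp (MvPolynomial.map ι) := by
    exact RingHom.ext ham
  -- `d f` is a polynomial over `E`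
  have hint : IsIntegral (MvPolynomial (Fin r) E) (d • f) := by
    refine ⟨Q.map (MvPolynomial.map ι), hQm.map _, ?_⟩
    rw [Polynomial.eval₂_map, ← hcomp]
    exact hQ
  obtain ⟨q, hq⟩ := IsIntegrallyClosed.isIntegral_iff.mp hint
  have hq2 : Q.eval₂ (MvPolynomial.map ι) q = 0 := by
    apply IsFractionRing.injective (MvPolynomial (Fin r) E) (RF E r)
    rw [Polynomial.hom_eval₂, ← hcomp, hq, map_zero]
    exact hQ
  obtain ⟨g, hg⟩ := A2_exists_map_eq_of_isIntegral ι hcl q Q hQm hq2
  have hd1 : algebraMap (MvPolynomial (Fin r) L) (RF L r) d ≠ 0 := by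
    rw [Ne, FaithfulSMul.algebraMap_eq_zero_iff]
    exact hd0
  refine ⟨algebraMap (MvPolynomial (Fin r) L) (RF L r) g /
    algebraMap (MvPolynomial (Fin r) L) (RF L r) d, ?_⟩
  rw [map_div₀, div_eq_iff (by rw [Ne, map_eq_zero]; exact hd1), rfmap_algebraMap, hg, hq]
  rw [Algebra.smul_def, mul_comm]
  rfl

end Pool.Agent.LibHP
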