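import Pool.Agent.LibHP2.Defs

set_option autoImplicit false
open Polynomial

namespace Pool.Agent.LibHP

/-- An isomorphism of fields over `k` extends to the fields of rational functions. -/
theorem A3_ratFunc_congr (k A B : Type) [Field k] [Field A] [Field B] [Algebra k A] [Algebra k B]
    (e : A ≃ₐ[k] B) : Nonempty (RatFunc A ≃ₐ[k] RatFunc B) := by
  let Ψ : RatFunc A ≃+* RatFunc B :=
    IsFractionRing.ringEquivOfRingEquiv (A := A[X]) (B := B[X]) (Polynomial.mapEquiv e.toRingEquiv)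
  refine ⟨AlgEquiv.ofRingEquiv (f := Ψ) ?_⟩
  intro c
  have h1 : algebraMap k (RatFunc A) c =
      algebraMap A[X] (RatFunc A) (Polynomial.C (algebraMap k A c)) := by
    rw [RatFunc.algebraMap_apply]
    simp
  have h2 : algebraMap k (RatFunc B) c =
      algebraMap B[X] (RatFunc B) (Polynomial.C (algebraMap k B c)) := by
    rw [RatFunc.algebraMap_apply]
    simp
  rw [h1, h2, IsFractionRing.ringEquivOfRingEquiv_algebraMap]
  congr 1
  rw [Polynomial.mapEquiv_apply, Polynomial.map_C]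
  congr 1
  exact e.commutes c

/-- `K(t_1, ..., t_r) = K` for `r = 0`. -/
theorem A3_zero (k K : Type) [Field k] [Field K] [Algebra k K] :
    Nonempty (RF K 0 ≃ₐ[k] K) := by
  let Ψ : RF K 0 ≃+* K :=
    IsFractionRing.ringEquivOfRingEquiv (A := MvPolynomial (Fin 0) K) (B := K) (L := K)
      (MvPolynomial.isEmptyAlgEquiv K (Fin 0)).toRingEquiv
  refine ⟨AlgEquiv.ofRingEquiv (f := Ψ) ?_⟩
  intro c
  have h1 : algebraMap k (RF K 0) c =
      algebraMap (MvPolynomial (Fin 0) K) (RF K 0) (MvPolynomial.C (algebraMap k K c)) :=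
    IsScalarTower.algebraMap_apply k (MvPolynomial (Fin 0) K) (RF K 0) c
  rw [h1, IsFractionRing.ringEquivOfRingEquiv_algebraMap]
  change (MvPolynomial.isEmptyAlgEquiv K (Fin 0))
    (algebraMap K (MvPolynomial (Fin 0) K) (algebraMap k K c)) = _
  rw [AlgEquiv.commutes]
  rfl

/-- `k(s_1, ..., s_n)(t_1, ..., t_r) = k(t_1, ..., t_{n+r})`. -/
theorem exists_algEquiv_RF (k : Type) [Field k] (n r : ℕ) :
    Nonempty (RF (RF k n) r ≃ₐ[k] RF k (n + r)) := by
  induction r with
  | zero => exact A3_zero k (RF k n)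
  | succ r ih =>
    obtain ⟨e1⟩ := ih
    obtain ⟨e2⟩ := exists_algEquiv_ratFunc (RF k n) r
    obtain ⟨e3⟩ := exists_algEquiv_ratFunc k (n + r)
    obtain ⟨e4⟩ := A3_ratFunc_congr k _ _ e1
    have e5 : RF (RF k n) (r + 1) ≃ₐ[k] RatFunc (RF (RF k n) r) := e2.symm.restrictScalars k
    exact ⟨(e5.trans e4).trans e3⟩

end Pool.Agent.LibHP
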