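import Pool.Agent.LibHP2.A2
import Pool.Agent.LibHP2.A3

set_option autoImplicit false
open Polynomial

namespace Pool.Agent.LibHP

section A4
variable {K E M : Type} [Field K] [Field E] [Field M]

/-- The value at the origin. -/
private noncomputable def A4_val (E : Type) [Field E] (r : ℕ) : valRing E r →+* E where
  toFun x := x.2.choose
  map_one' := by
    have h1 := (1 : valRing E r).2.choose_spec
    exact h1.unique (by simpa using HasVal.const (r := r) (1 : E))
  map_zero' := by
    have h1 := (0 : valRing E r).2.choose_spec
    exact h1.unique (by simpa using HasVal.const (r := r) (0 : E))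
  map_mul' x y := ((x * y).2.choose_spec).unique ((x.2.choose_spec).mul (y.2.choose_spec))
  map_add' x y := ((x + y).2.choose_spec).unique ((x.2.choose_spec).add (y.2.choose_spec))

private theorem A4_val_eq {r : ℕ} (x : valRing E r) {a : E} (h : HasVal (x : RF E r) a) :
    A4_val E r x = a :=
  (x.2.choose_spec).unique h

private theorem A4_val_spec {r : ℕ} (x : valRing E r) : HasVal (x : RF E r) (A4_val E r x) :=
  x.2.choose_spec

private theorem A4_rfmap_comp {r : ℕ} (F : K →+* E) (G : E →+* M) (f : RF K r) :
    rfmap G r (rfmap F r f) = rfmap (G.comp F) r f := by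
  obtain ⟨p, q, -, rfl⟩ := IsFractionRing.div_surjective (A := MvPolynomial (Fin r) K) f
  simp only [map_div₀, rfmap_algebraMap, MvPolynomial.map_map]

end A4

/-- Embeddings into rational function fields, minimal algebraic closure, and lifting of
multi-parameter families. -/
theorem exists_liftable_multi (k K : Type) [Field k] [CharZero k] [Field K] [Algebra k K] (n0 : ℕ)
    (F0 : K →ₐ[k] RF k n0) :
    ∃ (L : Type) (_ : Field L) (_ : Algebra K L) (n : ℕ) (ι : L →+* RF k n),
      FiniteDimensional K L ∧
      (∀ e : RF k n, (∃ P : L[X], P ≠ 0 ∧ P.eval₂ ι e = 0) → ∃ l, ι l = e) ∧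
      (∀ c : k, ι (algebraMap K L (algebraMap k K c)) = algebraMap k (RF k n) c) ∧
      LiftProp k K L := by
  classical
  have hne : ∃ d, ∃ n, ∃ F : K →ₐ[k] RF k n, dF F.toRingHom = d := ⟨_, n0, F0, rfl⟩
  obtain ⟨n, F, hF⟩ := Nat.find_spec hne
  have hmin : ∀ n' (F' : K →ₐ[k] RF k n'), dF F.toRingHom ≤ dF F'.toRingHom := by
    intro n' F'
    rw [hF]
    exact Nat.find_min' hne ⟨n', F', rfl⟩
  clear hF
  let _ : Algebra K (RF k n) := F.toRingHom.toAlgebra
  have hmap : ∀ a : K, algebraMap K (RF k n) a = F a := fun _ => rfl
  have : IsScalarTower k K (RF k n) :=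
    IsScalarTower.of_algebraMap_eq (fun c => (F.commutes c).symm)
  have : Algebra.EssFiniteType k (RF k n) := inferInstance
  have : Algebra.EssFiniteType K (RF k n) := Algebra.EssFiniteType.of_comp k K (RF k n)
  have hfd : FiniteDimensional K (algebraicClosure K (RF k n)) :=
    finiteDimensional_algebraicClosure K (RF k n)
  have hcl : ∀ e : RF k n, (∃ P : (algebraicClosure K (RF k n))[X], P ≠ 0 ∧
      P.eval₂ (algebraMap (algebraicClosure K (RF k n)) (RF k n)) e = 0) →
      ∃ l, algebraMap (algebraicClosure K (RF k n)) (RF k n) l = e := by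
    rintro e ⟨P, hP, he⟩
    have h1 : IsAlgebraic (algebraicClosure K (RF k n)) e := ⟨P, hP, he⟩
    have h2 : IsAlgebraic K e := h1.restrictScalars K
    exact ⟨⟨e, mem_algebraicClosure_iff.mpr h2⟩, rfl⟩
  refine ⟨algebraicClosure K (RF k n), inferInstance, inferInstance, n,
    algebraMap (algebraicClosure K (RF k n)) (RF k n), hfd, hcl, ?_, ?_⟩
  · intro c
    exact F.commutes c
  · intro r s hs hj
    have : CharZero K := charZero_of_injective_algebraMap (algebraMap k K).injective
    have : CharZero (algebraicClosure K (RF k n)) :=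
      charZero_of_injective_algebraMap (algebraMap K (algebraicClosure K (RF k n))).injective
    let Fs : K →+* RF (RF k n) r := (rfmap F.toRingHom r).comp s
    let Fs' : K →ₐ[k] RF (RF k n) r :=
      { Fs with
        commutes' := by
          intro c
          change rfmap F.toRingHom r (s (algebraMap k K c)) = _
          rw [hs, rfmap_const]
          have h1 : F.toRingHom (algebraMap k K c) = algebraMap k (RF k n) c := F.commutes c
          rw [h1]
          rfl }
    obtain ⟨Φ⟩ := exists_algEquiv_RF k n r
    have h1 := hmin (n + r) (Φ.toAlgHom.comp Fs')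
    have h2 : dF (Φ.toAlgHom.comp Fs').toRingHom = dF Fs := F2_dF_equiv Fs Φ.toRingEquiv
    rw [h2] at h1
    have hjF : ∀ a, HasVal (Fs a) (F a) := fun a => (hj a).map F.toRingHom
    obtain ⟨σ, hσ⟩ := @F2_lift_aux K (RF k n) (RF (RF k n) r) _ _ _
      F.toRingHom.toAlgebra Fs.toAlgebra hfd h1 (valRing (RF k n) r)
      (fun x hx => exists_hasVal_of_isIntegral x hx) (A4_val (RF k n) r)
      (fun a => ⟨_, hjF a⟩) (fun a => A4_val_eq _ (hjF a))
    have hσa : ∀ a : K, σ (algebraMap K (algebraicClosure K (RF k n)) a) = Fs a := by
      intro a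
      exact @AlgHom.commutes K _ _ _ _ _ _ Fs.toAlgebra σ a
    have hFcomp : (algebraMap (algebraicClosure K (RF k n)) (RF k n)).comp
        (algebraMap K (algebraicClosure K (RF k n))) = F.toRingHom := rfl
    have hrange : ∀ l, ∃ g : RF (algebraicClosure K (RF k n)) r,
        rfmap (algebraMap (algebraicClosure K (RF k n)) (RF k n)) r g = σ l := by
      intro l
      obtain ⟨p, hp, hpl⟩ := (hσ l).1
      refine mem_range_rfmap _ hcl r _
        (p.map ((rfmap (algebraMap K (algebraicClosure K (RF k n))) r).comp s)) ?_ ?_
      · rw [Ne, Polynomial.map_eq_zero_iff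
          ((rfmap (algebraMap K (algebraicClosure K (RF k n))) r).comp s).injective]
        exact hp
      · rw [Polynomial.eval₂_map]
        have h3 : (rfmap (algebraMap (algebraicClosure K (RF k n)) (RF k n)) r).comp
            ((rfmap (algebraMap K (algebraicClosure K (RF k n))) r).comp s) = Fs := by
          ext a
          exact A4_rfmap_comp _ _ _
        rw [h3]
        exact hpl
    choose g hg using hrange
    have hinj : Function.Injective
        (rfmap (algebraMap (algebraicClosure K (RF k n)) (RF k n)) r) :=
      (rfmap (algebraMap (algebraicClosure K (RF k n)) (RF k n)) r).injective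
    let s' : algebraicClosure K (RF k n) →+* RF (algebraicClosure K (RF k n)) r :=
      { toFun := g
        map_one' := hinj (by rw [hg, map_one, map_one])
        map_mul' := fun x y => hinj (by rw [hg, map_mul, map_mul, hg, hg])
        map_zero' := hinj (by rw [hg, map_zero, map_zero])
        map_add' := fun x y => hinj (by rw [hg, map_add, map_add, hg, hg]) }
    refine ⟨s', ?_, ?_⟩
    · intro l
      obtain ⟨-, h4, h5⟩ := hσ l
      have hb := A4_val_spec (⟨σ l, h4⟩ : valRing (RF k n) r)
      rw [h5] at hb
      simp only at hb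
      rw [← hg l] at hb
      obtain ⟨a', h6, h7⟩ := hb.of_map
      have h8 : a' = l := (algebraMap (algebraicClosure K (RF k n)) (RF k n)).injective h7
      rw [h8] at h6
      exact h6
    · intro a
      apply hinj
      change rfmap _ r (g _) = _
      rw [hg, hσa, A4_rfmap_comp]
      rfl

end Pool.Agent.LibHP
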