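import Pool.Agent.LibHP2.A2

set_option autoImplicit false
open Polynomial

namespace Pool.Agent.LibHP

section B1deg
variable {F Ω : Type} [Field F] [Field Ω] [Algebra F Ω] [CharZero F]

/-- If `F` is algebraically closed in `E`, minimal polynomials over `F` stay minimal over `E`. -/
theorem B1_deg (E : IntermediateField F Ω)
    (hcl : ∀ w ∈ E, IsAlgebraic F w → ∃ a : F, algebraMap F Ω a = w) (θ : Ω)
    (hθ : IsIntegral F θ) : (minpoly E θ).natDegree = (minpoly F θ).natDegree := by
  have hint : IsIntegral E θ := hθ.tower_top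
  have hdvd : minpoly E θ ∣ (minpoly F θ).map (algebraMap F E) :=
    minpoly.dvd_map_of_isScalarTower F E θ
  have hle : (minpoly E θ).natDegree ≤ (minpoly F θ).natDegree := by
    have h1 := Polynomial.natDegree_le_of_dvd hdvd
      (Polynomial.map_ne_zero (minpoly.ne_zero hθ))
    rwa [Polynomial.natDegree_map] at h1
  have hl : minpoly E θ ∈ lifts (algebraMap (integralClosure F E) E) :=
    integralClosure.mem_lifts_of_monic_of_dvd_map E (minpoly.monic hθ) (minpoly.monic hint) hdvd
  have hl2 : minpoly E θ ∈ lifts (algebraMap F E) := by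
    rw [lifts_iff_coeff_lifts] at hl ⊢
    intro n
    obtain ⟨a, ha⟩ := hl n
    have h1 : IsIntegral F (a : E) := a.2
    have h2 : IsAlgebraic F ((a : E) : Ω) :=
      (h1.map (IsScalarTower.toAlgHom F E Ω)).isAlgebraic
    obtain ⟨b, hb⟩ := hcl _ (a : E).2 h2
    refine ⟨b, ?_⟩
    rw [← ha]
    apply Subtype.ext
    exact hb
  obtain ⟨q, hq1, hq2, hq3⟩ := lifts_and_natDegree_eq_and_monic hl2 (minpoly.monic hint)
  refine le_antisymm hle ?_
  rw [← hq2]
  refine Polynomial.natDegree_le_of_dvd ?_ hq3.ne_zero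
  apply minpoly.dvd
  have h3 : aeval θ (q.map (algebraMap F E)) = 0 := by
    rw [hq1]
    exact minpoly.aeval E θ
  rwa [aeval_map_algebraMap] at h3

theorem B1_adjoin (E : IntermediateField F Ω) (S : Set Ω) :
    IntermediateField.adjoin E (IntermediateField.adjoin F S : Set Ω) =
      IntermediateField.adjoin E S := by
  apply le_antisymm
  · rw [IntermediateField.adjoin_le_iff]
    have h1 : IntermediateField.adjoin F S ≤
        IntermediateField.restrictScalars F (IntermediateField.adjoin E S) := by
      rw [IntermediateField.adjoin_le_iff]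
      exact IntermediateField.subset_adjoin E S
    exact h1
  · rw [IntermediateField.adjoin_le_iff]
    refine Set.Subset.trans ?_ (IntermediateField.subset_adjoin E _)
    exact IntermediateField.subset_adjoin F S

theorem B1_finrank (E : IntermediateField F Ω)
    (hcl : ∀ w ∈ E, IsAlgebraic F w → ∃ a : F, algebraMap F Ω a = w)
    (A : IntermediateField F Ω) [FiniteDimensional F A] :
    Module.finrank F A = Module.finrank E (IntermediateField.adjoin E (A : Set Ω)) := by
  obtain ⟨α, hα⟩ := Field.exists_primitive_element F A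
  have hA : IntermediateField.adjoin F {(α : Ω)} = A := by
    rw [← IntermediateField.lift_adjoin_simple, hα, IntermediateField.lift_top]
  have hint : IsIntegral F (α : Ω) :=
    (IsIntegral.of_finite F α).map (IsScalarTower.toAlgHom F A Ω)
  have e1 : Module.finrank F A = (minpoly F (α : Ω)).natDegree := by
    rw [← IntermediateField.adjoin.finrank hint, hA]
  have e2 : Module.finrank E (IntermediateField.adjoin E (A : Set Ω)) =
      (minpoly E (α : Ω)).natDegree := by
    have h1 : IntermediateField.adjoin E (A : Set Ω) =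
        IntermediateField.adjoin E {(α : Ω)} := by
      conv_lhs => rw [← hA]
      exact B1_adjoin E _
    rw [h1, IntermediateField.adjoin.finrank hint.tower_top]
  rw [e1, e2, B1_deg E hcl _ hint]

theorem B1_main (E K2 : IntermediateField F Ω)
    (hcl : ∀ w ∈ E, IsAlgebraic F w → ∃ a : F, algebraMap F Ω a = w)
    (halg : ∀ w ∈ K2, IsAlgebraic F w)
    (htop : IntermediateField.adjoin E (K2 : Set Ω) = ⊤) (z : Ω) (hz : IsAlgebraic F z) :
    z ∈ K2 := by
  have hz1 : z ∈ IntermediateField.adjoin E (K2 : Set Ω) := by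
    rw [htop]
    exact IntermediateField.mem_top
  obtain ⟨T, hT, hzT⟩ := IntermediateField.exists_finset_of_mem_adjoin hz1
  let A : IntermediateField F Ω := IntermediateField.adjoin F (T : Set Ω)
  let A' : IntermediateField F Ω := IntermediateField.adjoin F (insert z (T : Set Ω))
  have : FiniteDimensional F A := by
    have : Finite (T : Set Ω) := T.finite_toSet
    exact IntermediateField.finiteDimensional_adjoin fun x hx => (halg x (hT hx)).isIntegral
  have : FiniteDimensional F A' := by
    have : Finite (insert z (T : Set Ω) : Set Ω) := (T.finite_toSet.insert z)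
    refine IntermediateField.finiteDimensional_adjoin fun x hx => ?_
    rcases hx with rfl | hx
    · exact hz.isIntegral
    · exact (halg x (hT hx)).isIntegral
  have hle : A ≤ A' := IntermediateField.adjoin.mono F _ _ (Set.subset_insert _ _)
  have hE : IntermediateField.adjoin E (A : Set Ω) = IntermediateField.adjoin E (A' : Set Ω) := by
    rw [B1_adjoin E, B1_adjoin E]
    apply le_antisymm
    · exact IntermediateField.adjoin.mono E _ _ (Set.subset_insert _ _)
    · rw [IntermediateField.adjoin_le_iff]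
      intro x hx
      rcases hx with rfl | hx
      · exact hzT
      · exact IntermediateField.subset_adjoin E _ hx
  have hfin : Module.finrank F A = Module.finrank F A' := by
    rw [B1_finrank E hcl A, B1_finrank E hcl A', hE]
  have hAA : A = A' := IntermediateField.eq_of_le_of_finrank_eq hle hfin
  have hzA : z ∈ A := by
    rw [hAA]
    exact IntermediateField.subset_adjoin F _ (Set.mem_insert _ _)
  have hAK : A ≤ K2 := by
    rw [IntermediateField.adjoin_le_iff]
    exact hT
  exact hAK hzA

end B1deg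

section B1cl
variable {Ω : Type} [Field Ω] (M L : Subfield Ω) (r : ℕ) (T : Fin r → Ω)

/-- The embedding of `L(t)` given by algebraically independent elements. -/
noncomputable def B1_Phi (hind : AlgebraicIndependent L T) : RF L r →+* Ω :=
  IsFractionRing.lift (A := MvPolynomial (Fin r) L) (K := RF L r)
    (g := (MvPolynomial.aeval T : MvPolynomial (Fin r) L →ₐ[L] Ω).toRingHom) hind

theorem B1_Phi_algebraMap (hind : AlgebraicIndependent L T) (p : MvPolynomial (Fin r) L) :
    B1_Phi L r T hind (algebraMap (MvPolynomial (Fin r) L) (RF L r) p) = MvPolynomial.aeval T p := by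
  unfold B1_Phi
  rw [IsFractionRing.lift_algebraMap]
  rfl

theorem B1_closed (hML : M ≤ L) (hcl : ∀ z ∈ L, IsAlgebraic M z → z ∈ M)
    (hind : AlgebraicIndependent L T) [CharZero Ω] (w : Ω)
    (hw : w ∈ Subfield.closure ((L : Set Ω) ∪ Set.range T))
    (halg : IsAlgebraic (Subfield.closure ((M : Set Ω) ∪ Set.range T)) w) :
    w ∈ Subfield.closure ((M : Set Ω) ∪ Set.range T) := by
  let ι : M →+* L := Subfield.inclusion hML
  have : CharZero M := charZero_of_injective_algebraMap (algebraMap M Ω).injective |> fun _ =>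
    ⟨fun a b h => by
      have h1 := congrArg (algebraMap M Ω) h
      simpa using h1⟩
  set Φ : RF L r →+* Ω := B1_Phi L r T hind with hΦ
  have hclι : ∀ e : L, (∃ P : M[X], P ≠ 0 ∧ P.eval₂ ι e = 0) → ∃ l, ι l = e := by
    rintro e ⟨P, hP, hPe⟩
    have h1 : IsAlgebraic M (e : Ω) := by
      refine ⟨P, hP, ?_⟩
      have h2 := congrArg (algebraMap L Ω) hPe
      rw [map_zero, Polynomial.hom_eval₂] at h2
      exact h2
    exact ⟨⟨e, hcl _ e.2 h1⟩, rfl⟩
  -- the element w comes from RF L r
  have hrange : ∀ x ∈ Subfield.closure ((L : Set Ω) ∪ Set.range T), ∃ f, Φ f = x := by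
    have h1 : Subfield.closure ((L : Set Ω) ∪ Set.range T) ≤ Φ.fieldRange := by
      rw [Subfield.closure_le]
      rintro x (hx | ⟨i, rfl⟩)
      · refine ⟨algebraMap (MvPolynomial (Fin r) L) (RF L r) (MvPolynomial.C (⟨x, hx⟩ : L)), ?_⟩
        rw [hΦ, B1_Phi_algebraMap, MvPolynomial.aeval_C]
        rfl
      · refine ⟨algebraMap (MvPolynomial (Fin r) L) (RF L r) (MvPolynomial.X i), ?_⟩
        rw [hΦ, B1_Phi_algebraMap, MvPolynomial.aeval_X]
    intro x hx
    exact h1 hx
  have hΦr : ∀ p : MvPolynomial (Fin r) M, Φ (rfmap ι r (algebraMap (MvPolynomial (Fin r) M) (RF M r) p)) =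
      MvPolynomial.aeval T p := by
    intro p
    have e1 : rfmap ι r (algebraMap (MvPolynomial (Fin r) M) (RF M r) p) =
        algebraMap (MvPolynomial (Fin r) L) (RF L r) (MvPolynomial.map ι p) := by
      unfold rfmap
      rw [IsFractionRing.lift_algebraMap]
      rfl
    rw [e1, hΦ, B1_Phi_algebraMap]
    rw [MvPolynomial.aeval_def, MvPolynomial.eval₂_map, MvPolynomial.aeval_def]
    rfl
  have hrange0 : ∀ x ∈ Subfield.closure ((M : Set Ω) ∪ Set.range T), ∃ f : RF M r,
      (Φ.comp (rfmap ι r)) f = x := by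
    have h1 : Subfield.closure ((M : Set Ω) ∪ Set.range T) ≤ (Φ.comp (rfmap ι r)).fieldRange := by
      rw [Subfield.closure_le]
      rintro x (hx | ⟨i, rfl⟩)
      · refine ⟨algebraMap (MvPolynomial (Fin r) M) (RF M r) (MvPolynomial.C (⟨x, hx⟩ : M)), ?_⟩
        rw [RingHom.comp_apply, hΦr, MvPolynomial.aeval_C]
        rfl
      · refine ⟨algebraMap (MvPolynomial (Fin r) M) (RF M r) (MvPolynomial.X i), ?_⟩
        rw [RingHom.comp_apply, hΦr, MvPolynomial.aeval_X]
    intro x hx
    exact h1 hx
  have hmem : ∀ p : MvPolynomial (Fin r) M, MvPolynomial.aeval T p ∈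
      Subfield.closure ((M : Set Ω) ∪ Set.range T) := by
    intro p
    induction p using MvPolynomial.induction_on with
    | C a =>
      rw [MvPolynomial.aeval_C]
      exact Subfield.subset_closure (Or.inl a.2)
    | add p q hp hq =>
      rw [map_add]
      exact add_mem hp hq
    | mul_X p i hp =>
      rw [map_mul, MvPolynomial.aeval_X]
      exact mul_mem hp (Subfield.subset_closure (Or.inr ⟨i, rfl⟩))
  obtain ⟨f, hf⟩ := hrange w hw
  obtain ⟨P, hP, hPw⟩ := halg
  have hlift : P.map (algebraMap (Subfield.closure ((M : Set Ω) ∪ Set.range T)) Ω) ∈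
      lifts (Φ.comp (rfmap ι r)) := by
    rw [lifts_iff_coeff_lifts]
    intro n
    rw [Polynomial.coeff_map]
    exact hrange0 _ (P.coeff n).2
  rw [lifts_iff_set_range] at hlift
  obtain ⟨Q, hQ⟩ := hlift
  have hQ0 : Q ≠ 0 := by
    rintro rfl
    rw [Polynomial.map_zero] at hQ
    exact (Polynomial.map_ne_zero hP) hQ.symm
  have hQf : Q.eval₂ (rfmap ι r) f = 0 := by
    apply Φ.injective
    rw [map_zero, Polynomial.hom_eval₂, hf, Polynomial.eval₂_eq_eval_map, hQ]
    rw [← Polynomial.eval₂_eq_eval_map]
    exact hPw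
  obtain ⟨g, hg⟩ := mem_range_rfmap ι hclι r f Q hQ0 hQf
  rw [← hf, ← hg]
  obtain ⟨p, q, hq, hpq⟩ := IsFractionRing.div_surjective (A := MvPolynomial (Fin r) M) g
  rw [← hpq, map_div₀, map_div₀, hΦr, hΦr]
  exact div_mem (hmem p) (hmem q)

end B1cl

/-- Let `M ≤ L` and `M ≤ K2` be subfields of `Ω = L K2`, with `M` algebraically closed in `L` and
`K2` algebraic over `M(T)` for some `T` in `K2` algebraically independent over `L`. Then `K2` is
algebraically closed in `Ω`. -/
theorem mem_of_algebraic_compositum (Ω : Type) [Field Ω] [CharZero Ω] (M L K2 : Subfield Ω)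
    (hML : M ≤ L) (hMK : M ≤ K2) (hcl : ∀ z ∈ L, IsAlgebraic M z → z ∈ M) (r : ℕ)
    (T : Fin r → Ω) (hT : ∀ i, T i ∈ K2)
    (halg : ∀ z ∈ K2, IsAlgebraic (Subfield.closure ((M : Set Ω) ∪ Set.range T)) z)
    (hind : AlgebraicIndependent L T) (htop : Subfield.closure ((L : Set Ω) ∪ K2) = ⊤)
    (z : Ω) (hz : IsAlgebraic K2 z) : z ∈ K2 := by
  set F : Subfield Ω := Subfield.closure ((M : Set Ω) ∪ Set.range T) with hF
  have hFK : F ≤ K2 := by
    rw [hF, Subfield.closure_le]
    rintro x (hx | ⟨i, rfl⟩)
    · exact hMK hx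
    · exact hT i
  have hFE : F ≤ Subfield.closure ((L : Set Ω) ∪ Set.range T) := by
    rw [hF, Subfield.closure_le]
    rintro x (hx | ⟨i, rfl⟩)
    · exact Subfield.subset_closure (Or.inl (hML hx))
    · exact Subfield.subset_closure (Or.inr ⟨i, rfl⟩)
  have : CharZero F := ⟨fun a b h => by
      have h1 := congrArg (algebraMap F Ω) h
      simpa using h1⟩
  let E : IntermediateField F Ω :=
    (Subfield.closure ((L : Set Ω) ∪ Set.range T)).toIntermediateField fun x => hFE x.2
  let K2i : IntermediateField F Ω := K2.toIntermediateField fun x => hFK x.2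
  have hmemE : ∀ x, x ∈ E ↔ x ∈ Subfield.closure ((L : Set Ω) ∪ Set.range T) := fun x => Iff.rfl
  have hmemK : ∀ x, x ∈ K2i ↔ x ∈ K2 := fun x => Iff.rfl
  have hclE : ∀ w ∈ E, IsAlgebraic F w → ∃ a : F, algebraMap F Ω a = w := by
    intro w hw hwa
    exact ⟨⟨w, B1_closed M L r T hML hcl hind w ((hmemE w).1 hw) hwa⟩, rfl⟩
  have hzF : IsAlgebraic F z := by
    have : Algebra.IsAlgebraic F K2i := by
      constructor
      rintro ⟨x, hx⟩
      have h1 := halg x ((hmemK x).1 hx)
      exact (isAlgebraic_algHom_iff (IsScalarTower.toAlgHom F K2i Ω)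
        (algebraMap K2i Ω).injective).1 h1
    have h2 : IsAlgebraic K2i z := hz
    exact h2.restrictScalars F
  refine (hmemK z).1 (B1_main E K2i hclE (fun w hw => halg w ((hmemK w).1 hw)) ?_ z hzF)
  rw [eq_top_iff]
  intro x _
  have hx : x ∈ Subfield.closure ((L : Set Ω) ∪ K2) := by
    rw [htop]
    exact Subfield.mem_top x
  have hle : Subfield.closure ((L : Set Ω) ∪ K2) ≤
      (IntermediateField.adjoin E (K2i : Set Ω)).toSubfield := by
    rw [Subfield.closure_le]
    rintro y (hy | hy)
    · have hyE : y ∈ E := (hmemE y).2 (Subfield.subset_closure (Or.inl hy))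
      exact (IntermediateField.adjoin E (K2i : Set Ω)).algebraMap_mem ⟨y, hyE⟩
    · exact IntermediateField.subset_adjoin E _ hy
  exact hle hx

end Pool.Agent.LibHP
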