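import Pool.Agent.LibHP2.B2a

set_option autoImplicit false

namespace Pool.Agent.LibHP

open Matrix in
private lemma B2b_quad {K : Type} [Field K] {n : ℕ} (A : Matrix (Fin n) (Fin n) K)
    (hA : A.IsSymm) (V W : Fin n → K) (hV : V ⬝ᵥ A *ᵥ V = 0) (q β : K)
    (hq : W ⬝ᵥ A *ᵥ W = q) (hβ : V ⬝ᵥ A *ᵥ W = β) :
    (q • V - (2 * β) • W) ⬝ᵥ A *ᵥ (q • V - (2 * β) • W) = 0 := by
  have hβ' : W ⬝ᵥ A *ᵥ V = β := by
    rw [← hβ, Matrix.dotProduct_mulVec, ← Matrix.mulVec_transpose, hA.eq, dotProduct_comm]
  simp only [Matrix.mulVec_sub, Matrix.mulVec_smul, sub_dotProduct, dotProduct_sub,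
    smul_dotProduct, dotProduct_smul, hV, hq, hβ, hβ', smul_eq_mul]
  ring

/-- extension of a homomorphism to the fraction field -/
private lemma B2b_exists_hom {M K R : Type} [Field M] [Field K] [Field R] [Algebra M K] {n : ℕ}
    (y : Fin n → K)
    (hfrac : ∀ z : K, ∃ G H : MvPolynomial (Fin n) M, MvPolynomial.aeval y H ≠ 0 ∧
      z * MvPolynomial.aeval y H = MvPolynomial.aeval y G)
    (E : MvPolynomial (Fin n) M →+* R)
    (hE : ∀ G, E G = 0 ↔ MvPolynomial.aeval y G = 0) :
    ∃ s : K →+* R, ∀ G, s (MvPolynomial.aeval y G) = E G := by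
  choose G H hH hG using hfrac
  have key : ∀ z G' H', MvPolynomial.aeval y H' ≠ 0 →
      z * MvPolynomial.aeval y H' = MvPolynomial.aeval y G' →
      E (G z) / E (H z) = E G' / E H' := by
    intro z G' H' h1 h2
    have hHz : E (H z) ≠ 0 := fun h => hH z ((hE _).1 h)
    have hH' : E H' ≠ 0 := fun h => h1 ((hE _).1 h)
    rw [div_eq_div_iff hHz hH', ← map_mul, ← map_mul, ← sub_eq_zero, ← map_sub, hE, map_sub,
      map_mul, map_mul, ← hG z, ← h2]
    ring
  refine ⟨{ toFun := fun z => E (G z) / E (H z)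
            map_one' := ?_
            map_mul' := ?_
            map_zero' := ?_
            map_add' := ?_ }, ?_⟩
  · rw [key 1 1 1 (by simp) (by simp)]
    simp
  · intro a b
    have hHa : E (H a) ≠ 0 := fun h => hH a ((hE _).1 h)
    have hHb : E (H b) ≠ 0 := fun h => hH b ((hE _).1 h)
    rw [key (a * b) (G a * G b) (H a * H b) (by rw [map_mul]; exact mul_ne_zero (hH a) (hH b))
      (by rw [map_mul, map_mul, ← hG a, ← hG b]; ring), map_mul, map_mul]
    field_simp
  · rw [key 0 0 1 (by simp) (by simp)]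
    simp
  · intro a b
    have hHa : E (H a) ≠ 0 := fun h => hH a ((hE _).1 h)
    have hHb : E (H b) ≠ 0 := fun h => hH b ((hE _).1 h)
    rw [key (a + b) (G a * H b + G b * H a) (H a * H b)
      (by rw [map_mul]; exact mul_ne_zero (hH a) (hH b))
      (by rw [map_add, map_mul, map_mul, map_mul, ← hG a, ← hG b]; ring), map_add, map_mul,
      map_mul, map_mul]
    field_simp
  · intro P
    show E (G _) / E (H _) = E P
    rw [key _ P 1 (by simp) (by simp)]
    simp

open Matrix in
/-- dual vectors of a frame -/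
private lemma B2b_dual {K : Type} [Field K] {n m : ℕ} (v w0 : Fin (n + 1) → K)
    (w : Fin m → (Fin (n + 1) → K))
    (hspan : ∀ z : Fin (n + 1) → K, ∃ (a b : K) (c : Fin m → K),
        z = a • v + b • w0 + ∑ i, c i • w i)
    (hind : ∀ (a b : K) (c : Fin m → K), a • v + b • w0 + ∑ i, c i • w i = 0 →
        a = 0 ∧ b = 0 ∧ c = 0) :
    ∃ (φ : Fin (n + 1) → K) (ψ : Fin m → (Fin (n + 1) → K)),
      φ ⬝ᵥ v = 0 ∧ φ ⬝ᵥ w0 = 1 ∧ (∀ i, φ ⬝ᵥ w i = 0) ∧
      (∀ i, ψ i ⬝ᵥ v = 0) ∧ (∀ i, ψ i ⬝ᵥ w0 = 0) ∧
      (∀ i j, ψ i ⬝ᵥ w j = if i = j then 1 else 0) := by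
  choose a b c habc using fun l : Fin (n + 1) => hspan (Pi.single l 1)
  have hz : ∀ z : Fin (n + 1) → K,
      z = (∑ l, z l * a l) • v + (∑ l, z l * b l) • w0 + ∑ i, (∑ l, z l * c l i) • w i := by
    intro z
    have h1 : z = ∑ l, z l • (Pi.single l (1 : K) : Fin (n + 1) → K) := by
      funext k
      simp [Finset.sum_apply, Pi.single_apply]
    calc z = ∑ l, z l • (Pi.single l (1 : K) : Fin (n + 1) → K) := h1
      _ = ∑ l, z l • (a l • v + b l • w0 + ∑ i, c l i • w i) :=
          Finset.sum_congr rfl fun l _ => by rw [← habc l]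
      _ = _ := by
          simp only [smul_add, Finset.sum_add_distrib, Finset.sum_smul, smul_smul,
            Finset.smul_sum]
          congr 1
          rw [Finset.sum_comm]
  have huniq : ∀ (z : Fin (n + 1) → K) (a' b' : K) (c' : Fin m → K),
      z = a' • v + b' • w0 + ∑ i, c' i • w i →
      (∑ l, z l * b l) = b' ∧ ∀ i, (∑ l, z l * c l i) = c' i := by
    intro z a' b' c' h
    have h2 := hz z
    have h3 := hind ((∑ l, z l * a l) - a') ((∑ l, z l * b l) - b')
      (fun i => (∑ l, z l * c l i) - c' i) (by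
        simp only [sub_smul, Finset.sum_sub_distrib]
        have h4 : (∑ l, z l * a l) • v + (∑ l, z l * b l) • w0 + ∑ i, (∑ l, z l * c l i) • w i
            = a' • v + b' • w0 + ∑ i, c' i • w i := by rw [← h2, ← h]
        have h5 := sub_eq_zero.2 h4
        rw [← h5]
        abel)
    refine ⟨sub_eq_zero.1 h3.2.1, fun i => sub_eq_zero.1 ?_⟩
    have := congrFun h3.2.2 i
    simpa using this
  have hv := huniq v 1 0 0 (by simp)
  have hw0 := huniq w0 0 1 0 (by simp)
  have hw : ∀ j, (∑ l, w j l * b l) = 0 ∧ ∀ i, (∑ l, w j l * c l i) = if i = j then 1 else 0 := by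
    intro j
    have := huniq (w j) 0 0 (fun i => if i = j then 1 else 0) (by
      simp [ite_smul])
    exact this
  refine ⟨b, fun i l => c l i, ?_, ?_, ?_, ?_, ?_, ?_⟩
  · rw [← hv.1]; simp only [dotProduct]
    exact Finset.sum_congr rfl fun l _ => mul_comm _ _
  · rw [← hw0.1]; simp only [dotProduct]
    exact Finset.sum_congr rfl fun l _ => mul_comm _ _
  · intro i
    rw [← (hw i).1]; simp only [dotProduct]
    exact Finset.sum_congr rfl fun l _ => mul_comm _ _
  · intro i
    have := hv.2 i
    simp only [Pi.zero_apply] at this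
    rw [← this]; simp only [dotProduct]
    exact Finset.sum_congr rfl fun l _ => mul_comm _ _
  · intro i
    have := hw0.2 i
    simp only [Pi.zero_apply] at this
    rw [← this]; simp only [dotProduct]
    exact Finset.sum_congr rfl fun l _ => mul_comm _ _
  · intro i j
    rw [← (hw j).2 i]; simp only [dotProduct]
    exact Finset.sum_congr rfl fun l _ => mul_comm _ _

/-- a subfield containing the constants and the variables is everything -/
private lemma B2b_top {K : Type} [Field K] {r : ℕ} (C : Subfield (RF K r))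
    (h1 : ∀ a : K, algebraMap K (RF K r) a ∈ C)
    (h2 : ∀ i : Fin r, algebraMap (MvPolynomial (Fin r) K) (RF K r) (MvPolynomial.X i) ∈ C) :
    C = ⊤ := by
  have hp : ∀ p : MvPolynomial (Fin r) K, algebraMap (MvPolynomial (Fin r) K) (RF K r) p ∈ C := by
    intro p
    induction p using MvPolynomial.induction_on with
    | C a =>
      have : algebraMap (MvPolynomial (Fin r) K) (RF K r) (MvPolynomial.C a)
          = algebraMap K (RF K r) a := by
        rw [IsScalarTower.algebraMap_apply K (MvPolynomial (Fin r) K) (RF K r)]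
        rfl
      rw [this]
      exact h1 a
    | add p q hp hq =>
      rw [map_add]
      exact C.add_mem hp hq
    | mul_X p i hp =>
      rw [map_mul]
      exact C.mul_mem hp (h2 i)
  rw [eq_top_iff]
  intro f _
  obtain ⟨p, q, _, rfl⟩ := IsFractionRing.div_surjective (A := MvPolynomial (Fin r) K) f
  exact C.div_mem (hp p) (hp q)

private lemma B2b_hasVal_sum {K : Type} [Field K] {r : ℕ} {ι : Type*} (S : Finset ι) (f : ι → RF K r)
    (a : ι → K) (h : ∀ i ∈ S, HasVal (f i) (a i)) : HasVal (∑ i ∈ S, f i) (∑ i ∈ S, a i) := by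
  classical
  induction S using Finset.induction_on with
  | empty => simpa using HasVal.const (K := K) (r := r) 0
  | insert i S hi ih =>
    rw [Finset.sum_insert hi, Finset.sum_insert hi]
    exact (h i (Finset.mem_insert_self _ _)).add
      (ih fun j hj => h j (Finset.mem_insert_of_mem hj))

open Matrix in
private lemma B2b_hasVal_bil {K : Type} [Field K] {r n : ℕ} (A : Matrix (Fin n) (Fin n) K)
    (V W : Fin n → RF K r) (v w : Fin n → K) (hV : ∀ i, HasVal (V i) (v i))
    (hW : ∀ i, HasVal (W i) (w i)) :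
    HasVal (V ⬝ᵥ (A.map (algebraMap K (RF K r))) *ᵥ W) (v ⬝ᵥ A *ᵥ w) := by
  simp only [dotProduct, mulVec, Matrix.map_apply]
  refine B2b_hasVal_sum _ _ _ fun i _ => (hV i).mul (B2b_hasVal_sum _ _ _ fun j _ => ?_)
  exact (HasVal.const _).mul (hW j)

open Matrix in
/-- The stereographic family of points of a quadric through its generic point. -/
theorem exists_stereo (M K : Type) [Field M] [CharZero M] [Field K] [Algebra M K] (n : ℕ)
    (hn : 2 ≤ n) (B : Matrix (Fin (n + 1)) (Fin (n + 1)) M) (hB : B.IsSymm) (hdet : B.det ≠ 0)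
    (y : Fin n → K) (hy : IsGenericQuad B y) :
    ∃ s : K →+* RF K (n - 1),
      (∀ c : M, s (algebraMap M K c) = algebraMap K (RF K (n - 1)) (algebraMap M K c)) ∧
      (∀ a, HasVal (s a) a) ∧
      Subfield.closure (Set.range (algebraMap K (RF K (n - 1))) ∪ Set.range s) = ⊤ := by
  have : CharZero K := charZero_of_injective_algebraMap (algebraMap M K).injective
  set A : Matrix (Fin (n + 1)) (Fin (n + 1)) K := B.map (algebraMap M K) with hAdef
  have hA : A.IsSymm := by
    rw [Matrix.IsSymm, hAdef, ← Matrix.transpose_map, hB.eq]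
  have hAdet : A.det ≠ 0 := by
    have : A.det = algebraMap M K B.det := by
      rw [hAdef, RingHom.map_det]; rfl
    rw [this]
    exact fun h => hdet ((map_eq_zero_iff _ (algebraMap M K).injective).1 h)
  set v : Fin (n + 1) → K := Fin.cons 1 y with hv
  have hv0 : v 0 = 1 := rfl
  have hvne : v ≠ 0 := fun h => one_ne_zero (α := K) (by rw [← hv0, h]; rfl)
  -- values of the quadratic equation
  have hquad : ∀ (S : Type) [Field S] (f : M →+* S) (z : Fin n → S),
      MvPolynomial.eval₂Hom f z (quadEq B) =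
        (Fin.cons 1 z : Fin (n + 1) → S) ⬝ᵥ (B.map f) *ᵥ (Fin.cons 1 z : Fin (n + 1) → S) := by
    intro S _ f z
    have hX : ∀ i : Fin (n + 1), MvPolynomial.eval₂Hom f z
        ((Fin.cons 1 fun i => MvPolynomial.X i : Fin (n + 1) → MvPolynomial (Fin n) M) i)
        = (Fin.cons 1 z : Fin (n + 1) → S) i := by
      intro i
      refine Fin.cases ?_ (fun j => ?_) i
      · simp
      · simp
    unfold quadEq
    simp only [map_sum, map_mul, hX, dotProduct, mulVec, Matrix.map_apply, Finset.mul_sum]
    refine Finset.sum_congr rfl fun i _ => Finset.sum_congr rfl fun j _ => ?_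
    simp only [MvPolynomial.eval₂Hom_C]
    ring
  have hae : ∀ G : MvPolynomial (Fin n) M,
      MvPolynomial.aeval y G = MvPolynomial.eval₂Hom (algebraMap M K) y G := fun G => rfl
  have hq : v ⬝ᵥ A *ᵥ v = 0 := by
    have h := (hy.1 (quadEq B)).2 dvd_rfl
    rw [hae, hquad] at h
    exact h
  obtain ⟨w0, w, hvw0, hqw0, hspan, hind⟩ := exists_frame K n hn A hA hAdet v hvne hq
  obtain ⟨φ, ψ, hφv, hφw0, hφw, hψv, hψw0, hψw⟩ := B2b_dual v w0 w hspan hind
  -- the point over the rational function field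
  set R := RF K (n - 1) with hR
  set ι : K →+* R := algebraMap K R with hι
  set t : Fin (n - 1) → R := fun i =>
    algebraMap (MvPolynomial (Fin (n - 1)) K) R (MvPolynomial.X i) with ht
  set V : Fin (n + 1) → R := fun l => ι (v l) with hV
  set W : Fin (n + 1) → R := fun l => ι (w0 l) + ∑ i, t i * ι (w i l) with hW
  set AR : Matrix (Fin (n + 1)) (Fin (n + 1)) R := A.map ι with hAR
  have hARs : AR.IsSymm := by
    rw [Matrix.IsSymm, hAR, ← Matrix.transpose_map, hA.eq]
  set q : R := W ⬝ᵥ AR *ᵥ W with hqdef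
  set β : R := V ⬝ᵥ AR *ᵥ W with hβdef
  set Y : Fin (n + 1) → R := q • V - (2 * β) • W with hY
  have hVV : V ⬝ᵥ AR *ᵥ V = 0 := by
    have : V ⬝ᵥ AR *ᵥ V = ι (v ⬝ᵥ A *ᵥ v) := by
      simp only [dotProduct, mulVec, hV, hAR, Matrix.map_apply, map_sum, map_mul]
    rw [this, hq, map_zero]
  have hqY : Y ⬝ᵥ AR *ᵥ Y = 0 := B2b_quad AR hARs V W hVV q β rfl rfl
  have valV : ∀ l, HasVal (V l) (v l) := fun l => HasVal.const _
  have valW : ∀ l, HasVal (W l) (w0 l) := by
    intro l
    have h := (HasVal.const (K := K) (r := n - 1) (w0 l)).add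
      (B2b_hasVal_sum Finset.univ (fun i => t i * ι (w i l)) (fun i => 0 * w i l)
        fun i _ => (HasVal.X i).mul (HasVal.const _))
    simpa using h
  have valq : HasVal q (w0 ⬝ᵥ A *ᵥ w0) := B2b_hasVal_bil A W W w0 w0 valW valW
  have valβ : HasVal β 0 := by
    have := B2b_hasVal_bil A V W v w0 valV valW
    rwa [hvw0] at this
  have valY : ∀ l, HasVal (Y l) ((w0 ⬝ᵥ A *ᵥ w0) * v l) := by
    intro l
    have h := (valq.mul (valV l)).add
      (((HasVal.const (K := K) (r := n - 1) 2).mul valβ).mul (valW l)).neg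
    have e1 : Y l = q * V l + -(algebraMap K (RF K (n - 1)) 2 * β * W l) := by
      rw [hY]
      simp only [Pi.sub_apply, Pi.smul_apply, smul_eq_mul, map_ofNat]
      ring
    rw [e1]
    simpa using h
  have hY0 : Y 0 ≠ 0 := by
    intro h
    have h1 := valY 0
    rw [h, hv0, mul_one] at h1
    have h2 : HasVal (0 : R) (0 : K) := by simpa using HasVal.const (K := K) (r := n - 1) 0
    exact hqw0 (h1.unique h2)
  set yy : Fin n → R := fun j => Y j.succ / Y 0 with hyy
  have hcons : (Fin.cons 1 yy : Fin (n + 1) → R) = (Y 0)⁻¹ • Y := by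
    funext l
    refine Fin.cases ?_ (fun j => ?_) l
    · simp [inv_mul_cancel₀ hY0]
    · simp [hyy, div_eq_inv_mul]
  have valyy : ∀ j, HasVal (yy j) (y j) := by
    intro j
    have h := (valY j.succ).mul ((valY 0).inv (by rw [hv0, mul_one]; exact hqw0))
    have e : (w0 ⬝ᵥ A *ᵥ w0) * v j.succ * ((w0 ⬝ᵥ A *ᵥ w0) * v 0)⁻¹ = y j := by
      have : v j.succ = y j := rfl
      rw [this, hv0, mul_one]
      field_simp
    rw [e] at h
    exact h
  set E : MvPolynomial (Fin n) M →+* R :=
    MvPolynomial.eval₂Hom (ι.comp (algebraMap M K)) yy with hE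
  have hEC : ∀ c : M, E (MvPolynomial.C c) = ι (algebraMap M K c) := fun c => by
    simp [hE]
  have hEX : ∀ j, E (MvPolynomial.X j) = yy j := fun j => by simp [hE]
  have valE : ∀ G, HasVal (E G) (MvPolynomial.aeval y G) := by
    intro G
    induction G using MvPolynomial.induction_on with
    | C a =>
      rw [hEC, MvPolynomial.aeval_C]
      exact HasVal.const _
    | add p q hp hq =>
      rw [map_add, map_add]
      exact hp.add hq
    | mul_X p i hp =>
      rw [map_mul, map_mul, hEX, MvPolynomial.aeval_X]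
      exact hp.mul (valyy i)
  have hEq : E (quadEq B) = 0 := by
    rw [hE, hquad, hcons]
    have : B.map (ι.comp (algebraMap M K)) = AR := by
      rw [hAR, hAdef, Matrix.map_map]; rfl
    rw [this]
    simp only [Matrix.mulVec_smul, smul_dotProduct, dotProduct_smul, hqY, smul_zero]
  have hE0 : ∀ G, E G = 0 ↔ MvPolynomial.aeval y G = 0 := by
    intro G
    constructor
    · intro h
      have h1 := valE G
      rw [h] at h1
      have h2 : HasVal (0 : R) (0 : K) := by simpa using HasVal.const (K := K) (r := n - 1) 0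
      exact h1.unique h2
    · intro h
      obtain ⟨P, rfl⟩ := (hy.1 G).1 h
      rw [map_mul, hEq, zero_mul]
  obtain ⟨s, hs⟩ := B2b_exists_hom y hy.2 E hE0
  refine ⟨s, ?_, ?_, ?_⟩
  · intro c
    have := hs (MvPolynomial.C c)
    rw [MvPolynomial.aeval_C, hEC] at this
    exact this
  · intro a
    obtain ⟨G, H, hH, hG⟩ := hy.2 a
    have ha : a = MvPolynomial.aeval y G * (MvPolynomial.aeval y H)⁻¹ := by
      rw [← hG]; field_simp
    have hsa : s a = E G * (E H)⁻¹ := by
      rw [ha, map_mul, map_inv₀, hs, hs]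
    have h := (valE G).mul ((valE H).inv hH)
    rw [← hsa, ← ha] at h
    exact h
  · set C := Subfield.closure (Set.range ι ∪ Set.range s) with hC
    have hιC : ∀ a, ι a ∈ C := fun a => Subfield.subset_closure (Or.inl ⟨a, rfl⟩)
    have hsC : ∀ a, s a ∈ C := fun a => Subfield.subset_closure (Or.inr ⟨a, rfl⟩)
    have hyyC : ∀ l, ((Y 0)⁻¹ • Y) l ∈ C := by
      intro l
      rw [← hcons]
      refine Fin.cases ?_ (fun j => ?_) l
      · simp
      · have : yy j = s (y j) := by
          have := hs (MvPolynomial.X j)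
          rw [MvPolynomial.aeval_X, hEX] at this
          exact this.symm
        simp only [Fin.cons_succ]
        rw [this]
        exact hsC _
    -- coordinates
    have hcoord : ∀ χ : Fin (n + 1) → K, (∑ l, ι (χ l) * ((Y 0)⁻¹ • Y) l) ∈ C := fun χ =>
      sum_mem fun l _ => C.mul_mem (hιC _) (hyyC l)
    have hcomp : ∀ χ : Fin (n + 1) → K, (∑ l, ι (χ l) * ((Y 0)⁻¹ • Y) l)
        = (Y 0)⁻¹ * (q * ι (χ ⬝ᵥ v) - 2 * β * (ι (χ ⬝ᵥ w0) + ∑ i, t i * ι (χ ⬝ᵥ w i))) := by
      intro χ
      have e1 : ∀ l, ι (χ l) * ((Y 0)⁻¹ • Y) l = (Y 0)⁻¹ * (q * (ι (χ l) * ι (v l))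
          - 2 * β * (ι (χ l) * ι (w0 l) + ∑ i, t i * (ι (χ l) * ι (w i l)))) := by
        intro l
        have e2 : (((Y 0)⁻¹ • Y) l : R) = (Y 0)⁻¹ * (q * ι (v l)
            - 2 * β * (ι (w0 l) + ∑ i, t i * ι (w i l))) := by
          rw [Pi.smul_apply, smul_eq_mul]
          rfl
        rw [e2]
        have e3 : ∑ i, t i * (ι (χ l) * ι (w i l)) = ι (χ l) * ∑ i, t i * ι (w i l) := by
          rw [Finset.mul_sum]
          exact Finset.sum_congr rfl fun i _ => by ring
        rw [e3]
        ring
      simp only [e1]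
      rw [← Finset.mul_sum, Finset.sum_sub_distrib, ← Finset.mul_sum, ← Finset.mul_sum,
        Finset.sum_add_distrib, Finset.sum_comm]
      simp only [dotProduct, map_sum, map_mul, Finset.mul_sum]
    set ρ : R := (Y 0)⁻¹ * (-(2 * β)) with hρ
    have hρC : ρ ∈ C := by
      have h := hcoord φ
      rw [hcomp, hφv, hφw0] at h
      simp only [hφw, map_zero, map_one, mul_zero, Finset.sum_const_zero, add_zero, mul_one,
        zero_sub] at h
      exact h
    have hρt : ∀ i, ρ * t i ∈ C := by
      intro i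
      have h := hcoord (ψ i)
      rw [hcomp, hψv, hψw0] at h
      simp only [hψw, map_zero, mul_zero, zero_add, zero_sub] at h
      have e : ∑ j, t j * ι (if i = j then 1 else 0) = t i := by
        rw [Finset.sum_eq_single i]
        · simp
        · intro j _ hj
          rw [if_neg (Ne.symm hj), map_zero, mul_zero]
        · intro hi
          exact absurd (Finset.mem_univ _) hi
      rw [e] at h
      have e2 : ρ * t i = (Y 0)⁻¹ * -(2 * β * t i) := by rw [hρ]; ring
      rw [e2]
      exact h
    have hβ0 : β ≠ 0 := by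
      intro hβ0
      have hβs : β = algebraMap (MvPolynomial (Fin (n - 1)) K) R
          (∑ i, MvPolynomial.C (v ⬝ᵥ A *ᵥ w i) * MvPolynomial.X i) := by
        have hC' : ∀ a : K, algebraMap (MvPolynomial (Fin (n - 1)) K) R (MvPolynomial.C a)
            = ι a := by
          intro a
          rw [hι, IsScalarTower.algebraMap_apply K (MvPolynomial (Fin (n - 1)) K) R]
          rfl
        have hWe : W = (fun l => ι (w0 l)) + ∑ i, t i • (fun l => ι (w i l)) := by
          funext l
          simp [hW, Finset.sum_apply]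
        have hb : ∀ z : Fin (n + 1) → K, V ⬝ᵥ AR *ᵥ (fun l => ι (z l)) = ι (v ⬝ᵥ A *ᵥ z) := by
          intro z
          simp only [dotProduct, mulVec, hV, hAR, Matrix.map_apply, map_sum, map_mul]
        rw [hβdef, hWe, Matrix.mulVec_add, dotProduct_add, hb, hvw0, map_zero, zero_add,
          Matrix.mulVec_sum, dotProduct_sum, map_sum]
        refine Finset.sum_congr rfl fun i _ => ?_
        rw [Matrix.mulVec_smul, dotProduct_smul, hb, map_mul, hC', smul_eq_mul, mul_comm]
      rw [hβs] at hβ0
      have hpoly : (∑ i, MvPolynomial.C (v ⬝ᵥ A *ᵥ w i) * MvPolynomial.X i :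
          MvPolynomial (Fin (n - 1)) K) = 0 :=
        (map_eq_zero_iff _ (IsFractionRing.injective (MvPolynomial (Fin (n - 1)) K) R)).1 hβ0
      have hwi : ∀ i, v ⬝ᵥ A *ᵥ w i = 0 := by
        intro i
        have h := congrArg (MvPolynomial.eval (Pi.single i 1)) hpoly
        simp only [map_sum, map_mul, MvPolynomial.eval_C, MvPolynomial.eval_X, map_zero] at h
        rw [Finset.sum_eq_single i] at h
        · simpa using h
        · intro j _ hj
          rw [Pi.single_eq_of_ne hj, mul_zero]
        · intro hi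
          exact absurd (Finset.mem_univ _) hi
      have hall : ∀ z : Fin (n + 1) → K, v ⬝ᵥ A *ᵥ z = 0 := by
        intro z
        obtain ⟨a, b, c, rfl⟩ := hspan z
        rw [Matrix.mulVec_add, Matrix.mulVec_add, dotProduct_add, dotProduct_add,
          Matrix.mulVec_smul, Matrix.mulVec_smul, dotProduct_smul, dotProduct_smul, hq, hvw0,
          Matrix.mulVec_sum, dotProduct_sum]
        simp [Matrix.mulVec_smul, dotProduct_smul, hwi]
      have hvA : v ᵥ* A = 0 := by
        funext l
        have := hall (Pi.single l 1)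
        rw [Matrix.dotProduct_mulVec] at this
        simpa using this
      exact hvne (Matrix.eq_zero_of_vecMul_eq_zero hAdet hvA)
    have hρ0 : ρ ≠ 0 := by
      have : CharZero R := charZero_of_injective_algebraMap ι.injective
      exact mul_ne_zero (inv_ne_zero hY0) (neg_ne_zero.2 (mul_ne_zero two_ne_zero hβ0))
    refine B2b_top C hιC fun i => ?_
    have h := C.mul_mem (C.inv_mem hρC) (hρt i)
    rw [← mul_assoc, inv_mul_cancel₀ hρ0, one_mul] at h
    exact h

end Pool.Agent.LibHP
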