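import Pool.Agent.LibHP2.A1

set_option autoImplicit false

namespace Pool.Agent.LibHP

open Matrix in
/-- A frame adapted to a zero `υ` of a nondegenerate quadratic form in at least three variables:
`w0` is orthogonal to `υ` and not isotropic. -/
theorem exists_frame (K : Type) [Field K] [CharZero K] (n : ℕ) (hn : 2 ≤ n)
    (B : Matrix (Fin (n + 1)) (Fin (n + 1)) K) (hB : B.IsSymm) (hdet : B.det ≠ 0)
    (υ : Fin (n + 1) → K) (hυ : υ ≠ 0) (hq : υ ⬝ᵥ B *ᵥ υ = 0) :
    ∃ (w0 : Fin (n + 1) → K) (w : Fin (n - 1) → (Fin (n + 1) → K)),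
      υ ⬝ᵥ B *ᵥ w0 = 0 ∧ w0 ⬝ᵥ B *ᵥ w0 ≠ 0 ∧
      (∀ z : Fin (n + 1) → K, ∃ (a b : K) (c : Fin (n - 1) → K),
        z = a • υ + b • w0 + ∑ i, c i • w i) ∧
      (∀ (a b : K) (c : Fin (n - 1) → K), a • υ + b • w0 + ∑ i, c i • w i = 0 →
        a = 0 ∧ b = 0 ∧ c = 0) := by
  have hsym : ∀ x y : Fin (n + 1) → K, x ⬝ᵥ B *ᵥ y = y ⬝ᵥ B *ᵥ x := by
    intro x y
    rw [dotProduct_comm, ← vecMul_transpose, hB.eq, ← dotProduct_mulVec]
  have hnondeg : ∀ x : Fin (n + 1) → K, (∀ z, x ⬝ᵥ B *ᵥ z = 0) → x = 0 := by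
    intro x hx
    have h1 : B *ᵥ x = 0 := by
      apply dotProduct_eq_zero
      intro z
      rw [dotProduct_comm, hsym]
      exact hx z
    exact Matrix.eq_zero_of_mulVec_eq_zero hdet h1
  -- the functional
  let φ : (Fin (n + 1) → K) →ₗ[K] K :=
    { toFun := fun z => υ ⬝ᵥ B *ᵥ z
      map_add' := fun x y => by rw [mulVec_add, dotProduct_add]
      map_smul' := fun c x => by rw [mulVec_smul, dotProduct_smul, RingHom.id_apply] }
  have hφ : ∀ z, φ z = υ ⬝ᵥ B *ᵥ z := fun _ => rfl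
  have hker : 2 ≤ Module.finrank K (LinearMap.ker φ) := by
    have h1 := LinearMap.finrank_range_add_finrank_ker φ
    have h2 : Module.finrank K (LinearMap.range φ) ≤ 1 := by
      calc _ ≤ Module.finrank K K := Submodule.finrank_le _
        _ = 1 := Module.finrank_self K
    rw [Module.finrank_fin_fun] at h1
    omega
  obtain ⟨w0, hw0, hq0⟩ : ∃ w0, υ ⬝ᵥ B *ᵥ w0 = 0 ∧ w0 ⬝ᵥ B *ᵥ w0 ≠ 0 := by
    by_contra hcon
    push Not at hcon
    have hpol : ∀ x y, υ ⬝ᵥ B *ᵥ x = 0 → υ ⬝ᵥ B *ᵥ y = 0 → x ⬝ᵥ B *ᵥ y = 0 := by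
      intro x y hx hy
      have h1 := hcon (x + y) (by rw [mulVec_add, dotProduct_add, hx, hy, add_zero])
      rw [mulVec_add, dotProduct_add, add_dotProduct, add_dotProduct, hcon x hx, hcon y hy,
        hsym y x] at h1
      have h2 : 2 * (x ⬝ᵥ B *ᵥ y) = 0 := by linear_combination h1
      exact (mul_eq_zero.1 h2).resolve_left two_ne_zero
    have hnot : ¬ LinearMap.ker φ ≤ Submodule.span K {υ} := by
      intro hle
      have h1 := Submodule.finrank_mono hle
      have h2 := finrank_span_singleton (K := K) hυ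
      omega
    obtain ⟨w, hw, hws⟩ := Set.not_subset.1 hnot
    have hw' : υ ⬝ᵥ B *ᵥ w = 0 := hw
    obtain ⟨z0, hz0⟩ : ∃ z0, υ ⬝ᵥ B *ᵥ z0 ≠ 0 := by
      by_contra hc
      push Not at hc
      exact hυ (hnondeg υ hc)
    apply hws
    have key : w - ((w ⬝ᵥ B *ᵥ z0) / (υ ⬝ᵥ B *ᵥ z0)) • υ = 0 := by
      apply hnondeg
      intro z
      have h1 := hpol w (z - ((υ ⬝ᵥ B *ᵥ z) / (υ ⬝ᵥ B *ᵥ z0)) • z0) hw' (by
        rw [mulVec_sub, dotProduct_sub, mulVec_smul, dotProduct_smul, smul_eq_mul]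
        field_simp
        ring)
      rw [mulVec_sub, dotProduct_sub, mulVec_smul, dotProduct_smul, smul_eq_mul] at h1
      rw [sub_dotProduct, smul_dotProduct, smul_eq_mul]
      rw [← h1]
      ring
    rw [sub_eq_zero] at key
    rw [key]
    exact Submodule.smul_mem _ _ (Submodule.mem_span_singleton_self υ)
  have hsmul : ∀ a : K, w0 ≠ a • υ := by
    intro a h
    apply hq0
    rw [h, mulVec_smul, dotProduct_smul, smul_dotProduct, hq, smul_zero, smul_zero]
  have hind : ∀ a b : K, a • υ + b • w0 = 0 → a = 0 ∧ b = 0 := by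
    intro a b h
    have hb : b = 0 := by
      by_contra hb
      apply hsmul (-(b⁻¹ * a))
      have h1 : b • w0 = -(a • υ) := by rw [eq_neg_iff_add_eq_zero]; exact (add_comm _ _).trans h
      calc w0 = b⁻¹ • (b • w0) := by rw [smul_smul, inv_mul_cancel₀ hb, one_smul]
        _ = _ := by rw [h1, smul_neg, smul_smul, neg_smul]
    rw [hb, zero_smul, add_zero] at h
    exact ⟨(smul_eq_zero.1 h).resolve_right hυ, hb⟩
  obtain ⟨W, hW⟩ := Submodule.exists_isCompl (Submodule.span K {υ, w0})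
  have hU : Module.finrank K (Submodule.span K ({υ, w0} : Set (Fin (n + 1) → K))) = 2 := by
    have hli : LinearIndependent K ![υ, w0] := by
      rw [LinearIndependent.pair_iff]
      exact hind
    have := finrank_span_eq_card hli
    rw [Matrix.range_cons, Matrix.range_cons, Matrix.range_empty, Set.union_empty] at this
    rw [Fintype.card_fin] at this
    exact this
  have hWd : Module.finrank K W = n - 1 := by
    have h1 := Submodule.finrank_add_eq_of_isCompl hW
    rw [hU, Module.finrank_fin_fun] at h1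
    omega
  let b := Module.finBasisOfFinrankEq K W hWd
  refine ⟨w0, fun i => (b i : Fin (n + 1) → K), hw0, hq0, ?_, ?_⟩
  · intro z
    have hz : z ∈ Submodule.span K {υ, w0} ⊔ W := by rw [hW.sup_eq_top]; trivial
    obtain ⟨u, hu, w, hw, huw⟩ := Submodule.mem_sup.1 hz
    obtain ⟨a, c, hac⟩ := Submodule.mem_span_pair.1 hu
    refine ⟨a, c, fun i => b.repr ⟨w, hw⟩ i, ?_⟩
    rw [← huw, ← hac]
    congr 1
    have := congrArg (Submodule.subtype W) (b.sum_repr ⟨w, hw⟩)
    rw [map_sum] at this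
    simp only [map_smul, Submodule.subtype_apply] at this
    exact this.symm
  · intro a c d h
    have hsum : (∑ i, d i • (b i : Fin (n + 1) → K)) = ((∑ i, d i • b i : W) : Fin (n + 1) → K) := by
      rw [Submodule.coe_sum]
      rfl
    have hmem : a • υ + c • w0 ∈ Submodule.span K {υ, w0} ⊓ W := by
      constructor
      · exact Submodule.mem_span_pair.2 ⟨a, c, rfl⟩
      · have : a • υ + c • w0 = -((∑ i, d i • b i : W) : Fin (n + 1) → K) := by
          rw [eq_neg_iff_add_eq_zero, ← hsum]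
          exact h
        rw [this]
        exact W.neg_mem (Subtype.coe_prop _)
    rw [hW.inf_eq_bot, Submodule.mem_bot] at hmem
    obtain ⟨ha, hc⟩ := hind a c hmem
    refine ⟨ha, hc, ?_⟩
    rw [hmem, zero_add, hsum] at h
    have h2 : (∑ i, d i • b i : W) = 0 := by
      apply Subtype.ext
      exact h
    have h3 := Fintype.linearIndependent_iff.1 b.linearIndependent d h2
    funext i
    exact h3 i

end Pool.Agent.LibHP
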