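import Pool.Agent.LibHP2.Defs

set_option autoImplicit false

namespace Pool.Agent.LibHP

/-- Isolate the variable `j`. -/
noncomputable def C1b_iso {ι : Type} [DecidableEq ι] (N : Type) [Field N] (j : ι) :
    MvPolynomial ι N ≃ₐ[N] Polynomial (MvPolynomial {i : ι // i ≠ j} N) :=
  (MvPolynomial.renameEquiv N (Equiv.optionSubtypeNe j).symm).trans
    (MvPolynomial.optionEquivLeft N {i : ι // i ≠ j})

theorem C1b_iso_X_self {ι : Type} [DecidableEq ι] (N : Type) [Field N] (j : ι) :
    C1b_iso N j (MvPolynomial.X j) = Polynomial.X := by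
  simp [C1b_iso, MvPolynomial.optionEquivLeft_X_none]

theorem C1b_iso_X_ne {ι : Type} [DecidableEq ι] (N : Type) [Field N] (j i : ι) (h : i ≠ j) :
    C1b_iso N j (MvPolynomial.X i) = Polynomial.C (MvPolynomial.X ⟨i, h⟩) := by
  simp [C1b_iso, Equiv.optionSubtypeNe_symm_of_ne h, MvPolynomial.optionEquivLeft_X_some]

theorem C1b_eval {ι : Type} [DecidableEq ι] (N K : Type) [Field N] [Field K]
    [Algebra N K] (z : ι → K) (j : ι) (G : MvPolynomial ι N) :
    Polynomial.eval₂ (MvPolynomial.aeval (R := N) (fun i : {i : ι // i ≠ j} => z i)).toRingHom (z j)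
      (C1b_iso N j G) = MvPolynomial.aeval z G := by
  set g := (MvPolynomial.aeval (R := N) (fun i : {i : ι // i ≠ j} => z i)).toRingHom with hg
  have h : (Polynomial.eval₂RingHom g (z j)).comp (C1b_iso N j).toRingEquiv.toRingHom =
      (MvPolynomial.aeval z : MvPolynomial ι N →ₐ[N] K).toRingHom := by
    apply MvPolynomial.ringHom_ext
    · intro r
      have h1 : (C1b_iso N j) (MvPolynomial.C r) = Polynomial.C (MvPolynomial.C r) :=
        (C1b_iso N j).commutes r
      show Polynomial.eval₂ g (z j) (C1b_iso N j (MvPolynomial.C r)) =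
        MvPolynomial.aeval z (MvPolynomial.C r)
      rw [h1, Polynomial.eval₂_C, hg]
      show MvPolynomial.aeval _ (MvPolynomial.C r) = _
      rw [MvPolynomial.aeval_C, MvPolynomial.aeval_C]
    · intro i
      show Polynomial.eval₂ g (z j) (C1b_iso N j (MvPolynomial.X i)) =
        MvPolynomial.aeval z (MvPolynomial.X i)
      rw [MvPolynomial.aeval_X]
      by_cases hi : i = j
      · rw [hi, C1b_iso_X_self, Polynomial.eval₂_X]
      · rw [C1b_iso_X_ne N j i hi, Polynomial.eval₂_C, hg]
        show MvPolynomial.aeval _ (MvPolynomial.X _) = _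
        rw [MvPolynomial.aeval_X]
  exact DFunLike.congr_fun h G

/-- Conversely an irreducible polynomial which vanishes at a point with all coordinates except one
algebraically independent generates the ideal of this point. -/
theorem dvd_of_algebraicIndependent {ι : Type} [Fintype ι] (N K : Type) [Field N] [Field K]
    [Algebra N K] (p : MvPolynomial ι N) (hp : Irreducible p) (z : ι → K)
    (hz : MvPolynomial.aeval z p = 0) (j : ι)
    (hind : AlgebraicIndependent N (fun i : {i : ι // i ≠ j} => z i))
    (G : MvPolynomial ι N) (hG : MvPolynomial.aeval z G = 0) : p ∣ G := by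
  classical
  set R := MvPolynomial {i : ι // i ≠ j} N with hR
  set F := FractionRing R with hF
  set g : R →+* K := (MvPolynomial.aeval (R := N) (fun i : {i : ι // i ≠ j} => z i)).toRingHom with hg
  have hginj : Function.Injective g := hind
  set P := C1b_iso N j p with hP
  set Q := C1b_iso N j G with hQ
  have hPz : Polynomial.eval₂ g (z j) P = 0 := by
    rw [hP, C1b_eval, hz]
  have hQz : Polynomial.eval₂ g (z j) Q = 0 := by
    rw [hQ, C1b_eval, hG]
  have hPirr : Irreducible P := (MulEquiv.irreducible_iff (C1b_iso N j)).2 hp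
  have hconst : ∀ c : R, g c = 0 → c = 0 := by
    intro c hc
    exact hginj (by rw [hc, map_zero])
  have hdeg : P.natDegree ≠ 0 := by
    intro h0
    have h1 := Polynomial.eq_C_of_natDegree_eq_zero h0
    rw [h1, Polynomial.eval₂_C] at hPz
    have := hconst _ hPz
    rw [this, map_zero] at h1
    exact hPirr.ne_zero h1
  have hprim : P.IsPrimitive := hPirr.isPrimitive hdeg
  have hirrF : Irreducible (P.map (algebraMap R F)) :=
    (hprim.irreducible_iff_irreducible_map_fraction_map (K := F)).1 hPirr
  have hdvdF : P.map (algebraMap R F) ∣ Q.map (algebraMap R F) := by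
    by_contra hnd
    obtain ⟨a, b, hab⟩ := (hirrF.coprime_iff_not_dvd).2 hnd
    obtain ⟨c, c0, hc⟩ := IsLocalization.integerNormalization_spec (nonZeroDivisors R) a
    obtain ⟨d, d0, hd⟩ := IsLocalization.integerNormalization_spec (nonZeroDivisors R) b
    rw [Algebra.smul_def, Polynomial.algebraMap_apply] at hc hd
    rw [mem_nonZeroDivisors_iff_ne_zero] at c0 d0
    set a' := IsLocalization.integerNormalization (nonZeroDivisors R) a
    set b' := IsLocalization.integerNormalization (nonZeroDivisors R) b
    have hinj : Function.Injective (Polynomial.map (algebraMap R F)) :=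
      Polynomial.map_injective _ (IsFractionRing.injective R F)
    have hkey : Polynomial.C d * a' * P + Polynomial.C c * b' * Q = Polynomial.C (c * d) := by
      apply hinj
      rw [Polynomial.C_mul, Polynomial.map_add, Polynomial.map_mul, Polynomial.map_mul,
        Polynomial.map_mul, Polynomial.map_mul, Polynomial.map_mul, hc, hd]
      simp only [Polynomial.map_C]
      linear_combination (Polynomial.C (algebraMap R F c) * Polynomial.C (algebraMap R F d)) * hab
    have hev := congrArg (Polynomial.eval₂ g (z j)) hkey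
    rw [Polynomial.eval₂_add, Polynomial.eval₂_mul, Polynomial.eval₂_mul g (z j) (p := _ * b'), hPz,
      hQz, mul_zero, mul_zero, add_zero, Polynomial.eval₂_C] at hev
    exact mul_ne_zero c0 d0 (hconst _ hev.symm)
  have hdvd : P ∣ Q := by
    obtain ⟨h, hh⟩ := hdvdF
    have hl : h ∈ Polynomial.lifts (algebraMap R F) := by
      rw [← hprim.map_mul_mem_lifts_iff, ← hh]
      exact ⟨Q, rfl⟩
    obtain ⟨h', hh'⟩ := hl
    refine ⟨h', ?_⟩
    apply Polynomial.map_injective _ (IsFractionRing.injective R F)
    rw [Polynomial.map_mul, hh, ← hh']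
    rfl
  have := map_dvd (C1b_iso N j).symm hdvd
  rw [hP, hQ, AlgEquiv.symm_apply_apply, AlgEquiv.symm_apply_apply] at this
  exact this

end Pool.Agent.LibHP
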