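import Pool.Agent.LibHP2.C2a

set_option autoImplicit false

namespace Pool.Agent.LibHP

open MvPolynomial

lemma C2b_lin_smul {M : Type} [Field M] {n : ℕ} (c : M) (β : Fin (n + 1) → M) :
    C2a_lin (fun i => c * β i) = C c * C2a_lin β := by
  rw [C2a_lin, C2a_lin, Finset.mul_sum]
  refine Finset.sum_congr rfl fun i _ => ?_
  rw [map_mul]
  ring

/-- A quadric whose matrix has rank at least two has a simple component in the affine chart. -/
theorem exists_simple_factor (κ : Type) [Field κ] [CharZero κ] (n : ℕ)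
    (B : Matrix (Fin (n + 1)) (Fin (n + 1)) κ) (hB : B.IsSymm)
    (hmin : ∃ i j i' j', B i j * B i' j' - B i j' * B i' j ≠ 0) :
    ∃ h : MvPolynomial (Fin n) κ, Irreducible h ∧ h ∣ quadEq B ∧ ¬ h ^ 2 ∣ quadEq B := by
  obtain ⟨i, j, i', j', hne0⟩ := hmin
  have hrank : ∀ (c : κ) (β : Fin (n + 1) → κ), (∀ i j, B i j = c * (β i * β j)) → False := by
    intro c β h
    apply hne0
    rw [h, h, h, h]
    ring
  have hconst : ∀ c : κ, quadEq B ≠ C c := by
    intro c h
    have hBc := C2a_const B hB c h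
    refine hrank c (fun i => if i = 0 then 1 else 0) fun i j => ?_
    rw [hBc, Matrix.of_apply]
    by_cases hi : i = 0 <;> by_cases hj : j = 0 <;> simp [hi, hj]
  have hne : quadEq B ≠ 0 := by
    have := hconst 0
    rwa [C_0] at this
  have hnu : ¬ IsUnit (quadEq B) := by
    intro hu
    obtain ⟨c, _, hc⟩ := MvPolynomial.isUnit_iff_eq_C_of_isReduced.1 hu
    exact hconst c hc
  obtain ⟨h, hirr, hdvd⟩ := WfDvdMonoid.exists_irreducible_factor hnu hne
  refine ⟨h, hirr, hdvd, ?_⟩
  rintro ⟨g, hg⟩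
  have hh : h ≠ 0 := hirr.ne_zero
  have hg0 : g ≠ 0 := by rintro rfl; rw [mul_zero] at hg; exact hne hg
  have hdeg : h.totalDegree + h.totalDegree + g.totalDegree ≤ 2 := by
    rw [← totalDegree_mul_of_isDomain hh hh, ← totalDegree_mul_of_isDomain (mul_ne_zero hh hh) hg0,
      ← sq, ← hg]
    exact C2a_totalDegree_quad B
  have h1 : h.totalDegree ≠ 0 := by
    intro h0
    apply hirr.not_isUnit
    rw [totalDegree_eq_zero_iff_eq_C] at h0
    rw [h0]
    refine (isUnit_iff_ne_zero.2 fun h0' => hh ?_).map C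
    rw [h0, h0', C_0]
  obtain ⟨β, rfl⟩ := C2a_eq_lin h (by omega)
  have hg1 : g.totalDegree = 0 := by omega
  rw [totalDegree_eq_zero_iff_eq_C] at hg1
  set c := coeff 0 g with hc
  have e : quadEq B = C2a_lin (fun i => c * β i) * C2a_lin β := by
    rw [C2b_lin_smul, hg, hg1]
    ring
  rw [C2a_lin_mul] at e
  have hBeq := C2a_inj hB (C2a_lin_symm _ _) e
  refine hrank c β fun i j => ?_
  rw [hBeq, Matrix.of_apply]
  have h2 : (2 : κ) ≠ 0 := two_ne_zero
  field_simp
  ring

end Pool.Agent.LibHP
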