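import Pool.Agent.LibHP2.B2
import Pool.Agent.LibHP2.C1
import Pool.Agent.LibHP2.C2

set_option autoImplicit false

namespace Pool.Agent.LibHP

theorem B3a_exists_degreeOf {M : Type} [Field M] {n : ℕ} (p : MvPolynomial (Fin n) M)
    (hp : Irreducible p) : ∃ j, p.degreeOf j ≠ 0 := by
  by_contra hcon
  push Not at hcon
  have h1 : p = MvPolynomial.C (p.coeff 0) := by
    ext d
    rw [MvPolynomial.coeff_C]
    split_ifs with h
    · rw [← h]
    · by_contra hd
      apply h
      have hd' : d ∈ p.support := MvPolynomial.mem_support_iff.mpr hd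
      ext j
      have h2 := MvPolynomial.monomial_le_degreeOf j hd'
      rw [hcon j] at h2
      simp only [Finsupp.coe_zero, Pi.zero_apply]
      omega
  by_cases h0 : p.coeff 0 = 0
  · apply hp.ne_zero
    rw [h1, h0, map_zero]
  · apply hp.not_isUnit
    rw [h1]
    exact (isUnit_iff_ne_zero.mpr h0).map MvPolynomial.C

theorem B3a_mem {M K R ι : Type} [Field M] [Field K] [Field R] [Algebra M K] [Algebra K R]
    (s : K →+* R) (hs : ∀ c : M, s (algebraMap M K c) = algebraMap K R (algebraMap M K c))
    (T : ι → K) (z : K) (hz : z ∈ Algebra.adjoin M (Set.range T)) :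
    s z ∈ Algebra.adjoin K (Set.range (fun i => s (T i))) := by
  induction hz using Algebra.adjoin_induction with
  | mem x hx =>
    obtain ⟨i, rfl⟩ := hx
    exact Algebra.subset_adjoin ⟨i, rfl⟩
  | algebraMap c =>
    rw [hs]
    exact Subalgebra.algebraMap_mem _ _
  | add x y _ _ hx hy => rw [map_add]; exact add_mem hx hy
  | mul x y _ _ hx hy => rw [map_mul]; exact mul_mem hx hy

theorem B3a_isAlgebraic {M K R ι : Type} [Field M] [Field K] [Field R] [Algebra M K] [Algebra K R]
    (s : K →+* R) (hs : ∀ c : M, s (algebraMap M K c) = algebraMap K R (algebraMap M K c))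
    (T : ι → K) (a : K) (ha : IsAlgebraic (Algebra.adjoin M (Set.range T)) a) :
    IsAlgebraic (Algebra.adjoin K (Set.range (fun i => s (T i)))) (s a) := by
  obtain ⟨p, hp, hpa⟩ := ha
  let g : Algebra.adjoin M (Set.range T) →+* Algebra.adjoin K (Set.range (fun i => s (T i))) :=
    { toFun := fun z => ⟨s z, B3a_mem s hs T z z.2⟩
      map_one' := by ext; simp
      map_mul' := by intro x y; ext; simp
      map_zero' := by ext; simp
      map_add' := by intro x y; ext; simp }
  have hg : Function.Injective g := by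
    intro x y hxy
    have := congrArg Subtype.val hxy
    exact Subtype.ext (s.injective this)
  refine ⟨p.map g, (Polynomial.map_ne_zero_iff hg).mpr hp, ?_⟩
  rw [Polynomial.aeval_def] at hpa ⊢
  rw [Polynomial.eval₂_map]
  have h2 := congrArg s hpa
  rw [map_zero, Polynomial.hom_eval₂] at h2
  exact h2

theorem B3a_alg {M K R ι : Type} [Field M] [Field K] [Field R] [Algebra M K] [Algebra K R]
    (s : K →+* R) (hs : ∀ c : M, s (algebraMap M K c) = algebraMap K R (algebraMap M K c))
    (hgen : Subfield.closure (Set.range (algebraMap K R) ∪ Set.range s) = ⊤)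
    (T : ι → K) (hT : IsTranscendenceBasis M T) :
    Algebra.IsAlgebraic (Algebra.adjoin K (Set.range (fun i => s (T i)))) R := by
  let A := Algebra.adjoin K (Set.range (fun i => s (T i)))
  let E : Subfield R :=
    { carrier := {z | IsAlgebraic A z}
      mul_mem' := fun ha hb => IsAlgebraic.mul ha hb
      one_mem' := isAlgebraic_one
      add_mem' := fun ha hb => IsAlgebraic.add ha hb
      zero_mem' := isAlgebraic_zero
      neg_mem' := fun ha => IsAlgebraic.neg ha
      inv_mem' := fun _ ha => IsAlgebraic.inv ha }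
  have hE : E = ⊤ := by
    rw [eq_top_iff, ← hgen, Subfield.closure_le]
    rintro z (⟨c, rfl⟩ | ⟨a, rfl⟩)
    · exact isAlgebraic_algebraMap (algebraMap K A c)
    · have := hT.isAlgebraic
      exact B3a_isAlgebraic s hs T a (Algebra.IsAlgebraic.isAlgebraic a)
  constructor
  intro z
  have : z ∈ E := by rw [hE]; trivial
  exact this

theorem B3a_isTranscendenceBasis_RF (k : Type) [Field k] (r : ℕ) :
    IsTranscendenceBasis k
      (fun j : Fin r => algebraMap (MvPolynomial (Fin r) k) (RF k r) (MvPolynomial.X j)) := by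
  have h1 := IsTranscendenceBasis.mvPolynomial (Fin r) k
  have : Algebra.IsAlgebraic (MvPolynomial (Fin r) k) (RF k r) :=
    IsLocalization.isAlgebraic _ (nonZeroDivisors (MvPolynomial (Fin r) k))
  exact h1.algebraMap_comp (A := RF k r)

theorem B3a_trdeg_RF (k : Type) [Field k] (r : ℕ) : Algebra.trdeg k (RF k r) = r := by
  rw [← (B3a_isTranscendenceBasis_RF k r).cardinalMk_eq_trdeg]
  simp

/-- A transcendence basis of `K` over `M`, with image under the stereographic family independent
over `K`. -/
theorem exists_free_basis (M K : Type) [Field M] [CharZero M] [Field K] [Algebra M K] (n : ℕ)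
    (hn : 2 ≤ n) (B : Matrix (Fin (n + 1)) (Fin (n + 1)) M) (hB : B.IsSymm) (hdet : B.det ≠ 0)
    (y : Fin n → K) (hy : IsGenericQuad B y) (s : K →+* RF K (n - 1))
    (hs : ∀ c : M, s (algebraMap M K c) = algebraMap K (RF K (n - 1)) (algebraMap M K c))
    (hgen : Subfield.closure (Set.range (algebraMap K (RF K (n - 1))) ∪ Set.range s) = ⊤) :
    ∃ T : Fin (n - 1) → K, IsTranscendenceBasis M T ∧
      ∀ T' : Fin (n - 1) → K, IsTranscendenceBasis M T' →
        AlgebraicIndependent K (fun i => s (T' i)) := by
  obtain ⟨j, hj⟩ := B3a_exists_degreeOf _ (irreducible_quadEq M n hn B hB hdet)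
  have hb := isTranscendenceBasis_of_generic M K (quadEq B) y hy.1 hy.2 j hj
  have hcard : Fintype.card {i : Fin n // i ≠ j} = n - 1 := by
    rw [Fintype.card_subtype_compl]; simp
  have e : Fin (n - 1) ≃ {i : Fin n // i ≠ j} := (Fintype.equivFinOfCardEq hcard).symm
  refine ⟨fun i => y (e i), ?_, ?_⟩
  · exact (isTranscendenceBasis_equiv' e
      (f := fun i : {i : Fin n // i ≠ j} => y i) rfl).mpr hb
  · intro T' hT'
    have := B3a_alg s hs hgen T' hT'
    refine (Algebra.IsAlgebraic.isTranscendenceBasis_of_le_trdeg_of_finite K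
      (fun i => s (T' i)) ?_).1
    rw [B3a_trdeg_RF]
    simp

end Pool.Agent.LibHP
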