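import Pool.Agent.LibHP2.B1
import Pool.Agent.LibHP2.B3a

set_option autoImplicit false

namespace Pool.Agent.LibHP

/-- Uniqueness of simple roots with a given value at the origin. -/
theorem B3b_hensel {L : Type} [Field L] {r : ℕ} (P : Polynomial L) (f : RF L r) (μ : L)
    (hf : HasVal f μ) (hP : P.eval₂ (algebraMap L (RF L r)) f = 0) (hμ : P.eval μ = 0)
    (hμ' : P.derivative.eval μ ≠ 0) : f = algebraMap L (RF L r) μ := by
  let R := valRing L r
  let fR : R := ⟨f, μ, hf⟩
  let cR : L →+* R := (algebraMap L (RF L r)).codRestrict R (fun a => ⟨a, HasVal.const a⟩)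
  have hc : ∀ a, ((cR a : R) : RF L r) = algebraMap L (RF L r) a := fun a => rfl
  have hcomp : R.subtype.comp cR = algebraMap L (RF L r) := RingHom.ext hc
  obtain ⟨k, hk⟩ := Polynomial.binomExpansion (P.map cR) (cR μ) (fR - cR μ)
  rw [add_sub_cancel] at hk
  have h1 : (P.map cR).eval fR = 0 := by
    apply Subtype.ext
    change R.subtype ((P.map cR).eval fR) = 0
    rw [← Polynomial.eval₂_hom, Polynomial.eval₂_map, hcomp]
    exact hP
  have h2 : (P.map cR).eval (cR μ) = 0 := by
    rw [Polynomial.eval_map_apply, hμ, map_zero]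
  have h3 : (P.map cR).derivative.eval (cR μ) = cR (P.derivative.eval μ) := by
    rw [Polynomial.derivative_map, Polynomial.eval_map_apply]
  rw [h1, h2, h3, zero_add] at hk
  have h4 : (0 : RF L r) = (algebraMap L (RF L r) (P.derivative.eval μ) +
      (k : RF L r) * (f - algebraMap L (RF L r) μ)) * (f - algebraMap L (RF L r) μ) := by
    have h5 := congrArg (fun z : R => (z : RF L r)) hk
    simp only [Subring.coe_zero, Subring.coe_add, Subring.coe_mul, Subring.coe_pow,
      AddSubgroupClass.coe_sub, hc] at h5
    change (0 : RF L r) = _ * (f - _) + _ * (f - _) ^ 2 at h5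
    rw [h5]
    ring
  rcases mul_eq_zero.1 h4.symm with h6 | h6
  · exfalso
    obtain ⟨k0, hk0⟩ := k.2
    have h7 := (HasVal.const (r := r) (P.derivative.eval μ)).add
      (hk0.mul (hf.add (HasVal.const (r := r) μ).neg))
    rw [add_neg_cancel, mul_zero, add_zero, ← sub_eq_add_neg, h6] at h7
    have h8 : HasVal (0 : RF L r) 0 := by
      have := HasVal.const (K := L) (r := r) 0
      rwa [map_zero] at this
    exact hμ' (h7.unique h8)
  · exact sub_eq_zero.1 h6

/-- Images of algebraic elements. -/
theorem B3b_map {L Ω : Type} [Field L] [Field Ω] (f : L →+* Ω) (R : Type) [CommRing R]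
    [Algebra R L] (S : Subfield Ω) (hinj : Function.Injective (algebraMap R L))
    (hS : ∀ z : R, f (algebraMap R L z) ∈ S) {z : L} (h : IsAlgebraic R z) :
    IsAlgebraic S (f z) := by
  let g : R →+* S := (f.comp (algebraMap R L)).codRestrict S hS
  refine h.ringHom_of_comp_eq g f ?_ ?_
  · intro a b hab
    apply hinj
    apply f.injective
    exact congrArg (fun x : S => (x : Ω)) hab
  · ext x
    rfl

/-- Over the generic point of a nondegenerate quadric of positive dimension every extension with
the lifting property comes from the base. -/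
theorem adjoin_of_quadric (M K L : Type) [Field M] [CharZero M] [Field K] [Algebra M K] [Field L]
    [Algebra K L] [Algebra M L] [IsScalarTower M K L] [FiniteDimensional K L] (n : ℕ)
    (hn : 2 ≤ n) (B : Matrix (Fin (n + 1)) (Fin (n + 1)) M) (hB : B.IsSymm) (hdet : B.det ≠ 0)
    (y : Fin n → K) (hy : IsGenericQuad B y) (hlift : LiftProp M K L) :
    Subfield.closure (Set.range (algebraMap K L) ∪ {z : L | IsAlgebraic M z}) = ⊤ := by
  obtain ⟨s, hsM, hsv, hgen⟩ := exists_stereo M K n hn B hB hdet y hy
  obtain ⟨T, hT, hTfree⟩ := exists_free_basis M K n hn B hB hdet y hy s hsM hgen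
  obtain ⟨s', hs'v, hs's⟩ := hlift (n - 1) s hsM hsv
  have hCL : CharZero L := charZero_of_injective_algebraMap (algebraMap M L).injective
  have hCΩ : CharZero (RF L (n - 1)) :=
    charZero_of_injective_algebraMap (algebraMap L (RF L (n - 1))).injective
  set N : Subfield L := Subfield.closure (Set.range (algebraMap K L) ∪ {z : L | IsAlgebraic M z})
    with hN
  have hKN : ∀ a : K, algebraMap K L a ∈ N := fun a =>
    Subfield.subset_closure (Or.inl ⟨a, rfl⟩)
  have hMN : ∀ z : L, IsAlgebraic M z → z ∈ N := fun z hz =>
    Subfield.subset_closure (Or.inr hz)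
  -- `s'` is constant on `M`
  have hs'M : ∀ c : M, s' (algebraMap M L c) = algebraMap L (RF L (n - 1)) (algebraMap M L c) := by
    intro c
    rw [IsScalarTower.algebraMap_apply M K L, hs's, hsM, rfmap_const]
  -- `s'` is constant on the elements algebraic over `M`
  have hs'μ : ∀ μ : L, IsAlgebraic M μ → s' μ = algebraMap L (RF L (n - 1)) μ := by
    intro μ hμ
    refine B3b_hensel ((minpoly M μ).map (algebraMap M L)) (s' μ) μ (hs'v μ) ?_ ?_ ?_
    · rw [Polynomial.eval₂_map]
      have h1 : (algebraMap L (RF L (n - 1))).comp (algebraMap M L) =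
          s'.comp (algebraMap M L) := RingHom.ext fun c => (hs'M c).symm
      rw [h1, ← Polynomial.hom_eval₂, ← Polynomial.aeval_def, minpoly.aeval, map_zero]
    · rw [Polynomial.eval_map_algebraMap, minpoly.aeval]
    · rw [Polynomial.derivative_map, Polynomial.eval_map_algebraMap]
      exact (minpoly.irreducible hμ.isIntegral).separable.aeval_derivative_ne_zero (minpoly.aeval _ _)
  -- the field of constants
  let M0 : Subfield L := (algebraicClosure M L).toSubfield
  have hM0 : ∀ z : L, z ∈ M0 ↔ IsAlgebraic M z := fun z => mem_algebraicClosure_iff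
  let ι : L →+* RF L (n - 1) := algebraMap L (RF L (n - 1))
  -- the elements of `K` and `L` are algebraic over `M(T)`
  have hLalg : ∀ l : L, IsAlgebraic (Algebra.adjoin M (Set.range T)) l := by
    have h1 : Algebra.IsAlgebraic (Algebra.adjoin M (Set.range T)) K := hT.isAlgebraic
    have h2 : Algebra.IsAlgebraic (Algebra.adjoin M (Set.range T)) L :=
      Algebra.IsAlgebraic.trans (Algebra.adjoin M (Set.range T)) K L
    exact fun l => h2.isAlgebraic l
  -- the main application
  have hmain : ∀ z : RF L (n - 1), IsAlgebraic (N.map s') z → z ∈ N.map s' := by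
    refine mem_of_algebraic_compositum (RF L (n - 1)) (M0.map ι) ι.fieldRange (N.map s')
      ?_ ?_ ?_ (n - 1) (fun i => s' (algebraMap K L (T i))) ?_ ?_ ?_ ?_
    · rintro _ ⟨z, _, rfl⟩
      exact ⟨z, rfl⟩
    · rintro _ ⟨z, hz, rfl⟩
      exact ⟨z, hMN z ((hM0 z).1 hz), hs'μ z ((hM0 z).1 hz)⟩
    · rintro _ ⟨z, rfl⟩ hz
      refine ⟨z, ?_, rfl⟩
      have h1 : IsAlgebraic (algebraicClosure M L) z := by
        let g : algebraicClosure M L →+* (M0.map ι) :=
          (ι.comp (algebraMap (algebraicClosure M L) L)).codRestrict (M0.map ι)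
            (fun x => ⟨x, x.2, rfl⟩)
        refine IsAlgebraic.of_ringHom_of_comp_eq (S := M0.map ι) (B := RF L (n - 1)) g ι hz ?_
          ι.injective ?_
        · rintro ⟨_, x, hx, rfl⟩
          exact ⟨⟨x, hx⟩, rfl⟩
        · ext x
          rfl
      exact (hM0 z).2 (h1.restrictScalars M)
    · intro i
      exact ⟨_, hKN _, rfl⟩
    · rintro _ ⟨z, hz, rfl⟩
      refine B3b_map s' (Algebra.adjoin M (Set.range T)) _ ?_ ?_ (hLalg z)
      · rw [IsScalarTower.algebraMap_eq (Algebra.adjoin M (Set.range T)) K L]
        exact (algebraMap K L).injective.comp Subtype.val_injective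
      · rintro ⟨a, ha⟩
        change s' (algebraMap K L a) ∈ _
        induction ha using Algebra.adjoin_induction with
        | mem x hx =>
          obtain ⟨i, rfl⟩ := hx
          exact Subfield.subset_closure (Or.inr ⟨i, rfl⟩)
        | algebraMap c =>
          rw [← IsScalarTower.algebraMap_apply M K L, hs'M]
          exact Subfield.subset_closure
            (Or.inl ⟨algebraMap M L c, (hM0 _).2 (isAlgebraic_algebraMap c), rfl⟩)
        | add x y _ _ hx hy =>
          rw [map_add, map_add]
          exact add_mem hx hy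
        | mul x y _ _ hx hy =>
          rw [map_mul, map_mul]
          exact mul_mem hx hy
    · have h1 := hTfree T hT
      have h2 : AlgebraicIndependent K ((rfmap (algebraMap K L) (n - 1)) ∘ fun i => s (T i)) := by
        refine h1.ringHom_of_comp_eq (RingHom.id K) (rfmap (algebraMap K L) (n - 1))
          Function.surjective_id (rfmap (algebraMap K L) (n - 1)).injective ?_
        ext a
        change algebraMap K (RF L (n - 1)) a =
          rfmap (algebraMap K L) (n - 1) (algebraMap K (RF K (n - 1)) a)
        rw [rfmap_const, ← IsScalarTower.algebraMap_apply K L]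
      have h3 : AlgebraicIndependent L
          ((rfmap (algebraMap K L) (n - 1)) ∘ fun i => s (T i)) := h2.extendScalars L
      have h4 := h3.ringHom_of_comp_eq (S := ι.fieldRange) (B := RF L (n - 1))
        ι.rangeRestrictField (RingHom.id (RF L (n - 1)))
        ι.rangeRestrictField_bijective.2 Function.injective_id (by ext; rfl)
      have h5 : (⇑(RingHom.id (RF L (n - 1))) ∘
          (rfmap (algebraMap K L) (n - 1)) ∘ fun i => s (T i)) =
          fun i => s' (algebraMap K L (T i)) := by
        funext i
        rw [hs's]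
        rfl
      rwa [h5] at h4
    · rw [eq_top_iff]
      set C : Subfield (RF L (n - 1)) :=
        Subfield.closure ((ι.fieldRange : Set (RF L (n - 1))) ∪ (N.map s')) with hC
      have hιC : ∀ a : L, ι a ∈ C := fun a => Subfield.subset_closure (Or.inl ⟨a, rfl⟩)
      have h1 : (⊤ : Subfield (RF K (n - 1))) ≤ C.comap (rfmap (algebraMap K L) (n - 1)) := by
        rw [← hgen, Subfield.closure_le]
        rintro _ (⟨a, rfl⟩ | ⟨a, rfl⟩)
        · change rfmap (algebraMap K L) (n - 1) (algebraMap K (RF K (n - 1)) a) ∈ C
          rw [rfmap_const]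
          exact hιC _
        · change rfmap (algebraMap K L) (n - 1) (s a) ∈ C
          rw [← hs's]
          exact Subfield.subset_closure (Or.inr ⟨_, hKN a, rfl⟩)
      have h2 : ∀ p : MvPolynomial (Fin (n - 1)) L,
          algebraMap (MvPolynomial (Fin (n - 1)) L) (RF L (n - 1)) p ∈ C := by
        intro p
        induction p using MvPolynomial.induction_on with
        | C a =>
          have h3 : algebraMap (MvPolynomial (Fin (n - 1)) L) (RF L (n - 1)) (MvPolynomial.C a) =
              ι a := (IsScalarTower.algebraMap_apply L (MvPolynomial (Fin (n - 1)) L)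
                (RF L (n - 1)) a).symm
          rw [h3]
          exact hιC a
        | add p q hp hq =>
          rw [map_add]
          exact add_mem hp hq
        | mul_X p i hp =>
          rw [map_mul]
          refine mul_mem hp ?_
          have h3 : algebraMap (MvPolynomial (Fin (n - 1)) K) (RF K (n - 1)) (MvPolynomial.X i) ∈
              C.comap (rfmap (algebraMap K L) (n - 1)) := h1 trivial
          change rfmap (algebraMap K L) (n - 1) (algebraMap (MvPolynomial (Fin (n - 1)) K)
            (RF K (n - 1)) (MvPolynomial.X i)) ∈ C at h3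
          rwa [rfmap_algebraMap, MvPolynomial.map_X] at h3
      intro z _
      obtain ⟨p, q, _, rfl⟩ := IsFractionRing.div_surjective (A := MvPolynomial (Fin (n - 1)) L) z
      exact div_mem (h2 p) (h2 q)
  rw [eq_top_iff]
  intro l _
  have h1 : IsAlgebraic (N.map s') (s' l) := by
    refine B3b_map s' K (N.map s') (algebraMap K L).injective (fun a => ⟨_, hKN a, rfl⟩) ?_
    exact Algebra.IsAlgebraic.isAlgebraic l
  obtain ⟨l', hl', h2⟩ := hmain _ h1
  rw [← s'.injective h2]
  exact hl'

end Pool.Agent.LibHP
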