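import Pool.Agent.LibHP2.C1
import Pool.Agent.LibHP2.C2

set_option autoImplicit false

namespace Pool.Agent.LibHP

theorem C3_map_quadEq {M N : Type} [Field M] [Field N] (φ : M →+* N) {n : ℕ}
    (B : Matrix (Fin (n + 1)) (Fin (n + 1)) M) :
    quadEq (B.map φ) = MvPolynomial.map φ (quadEq B) := by
  have h : ∀ i : Fin (n + 1), MvPolynomial.map φ
      ((Fin.cons 1 fun i => MvPolynomial.X i : Fin (n + 1) → MvPolynomial (Fin n) M) i) =
      (Fin.cons 1 fun i => MvPolynomial.X i : Fin (n + 1) → MvPolynomial (Fin n) N) i := by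
    intro i
    refine Fin.cases ?_ (fun i => ?_) i
    · simp
    · simp
  unfold quadEq
  rw [map_sum]
  refine Finset.sum_congr rfl fun i _ => ?_
  rw [map_sum]
  refine Finset.sum_congr rfl fun j _ => ?_
  rw [map_mul, map_mul, h, h, MvPolynomial.map_C, Matrix.map_apply]

/-- Application of a linear functional to the coefficients. -/
noncomputable def C3_fun {M N : Type} [Field M] [Field N] [Algebra M N] (f : N →ₗ[M] M) {n : ℕ}
    (P : MvPolynomial (Fin n) N) : MvPolynomial (Fin n) M :=
  ∑ s ∈ P.support, MvPolynomial.monomial s (f (P.coeff s))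

theorem C3_coeff {M N : Type} [Field M] [Field N] [Algebra M N] (f : N →ₗ[M] M) {n : ℕ}
    (P : MvPolynomial (Fin n) N) (s : Fin n →₀ ℕ) : (C3_fun f P).coeff s = f (P.coeff s) := by
  unfold C3_fun
  rw [MvPolynomial.coeff_sum]
  simp only [MvPolynomial.coeff_monomial]
  rw [Finset.sum_ite_eq']
  split_ifs with h
  · rfl
  · rw [MvPolynomial.notMem_support_iff.1 h, map_zero]

theorem C3_mul {M N : Type} [Field M] [Field N] [Algebra M N] (f : N →ₗ[M] M) {n : ℕ}
    (Q : MvPolynomial (Fin n) M) (P : MvPolynomial (Fin n) N) :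
    C3_fun f (MvPolynomial.map (algebraMap M N) Q * P) = Q * C3_fun f P := by
  ext s
  rw [C3_coeff, MvPolynomial.coeff_mul, MvPolynomial.coeff_mul, map_sum]
  refine Finset.sum_congr rfl fun x _ => ?_
  rw [C3_coeff, MvPolynomial.coeff_map, ← Algebra.smul_def, map_smul, smul_eq_mul]

/-- `M` is algebraically closed in the function field of a nondegenerate quadric over `M`. -/
theorem quad_algClosed (M K : Type) [Field M] [CharZero M] [Field K] [Algebra M K] (n : ℕ)
    (hn : 2 ≤ n) (B : Matrix (Fin (n + 1)) (Fin (n + 1)) M) (hB : B.IsSymm) (hdet : B.det ≠ 0)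
    (y : Fin n → K) (hy : IsGenericQuad B y) (c : K) (hc : IsAlgebraic M c) :
    ∃ a : M, algebraMap M K a = c := by
  by_contra hcon
  push Not at hcon
  set N := algebraicClosure M K with hN
  have hcN : c ∈ N := by
    rw [hN, mem_algebraicClosure_iff]
    exact hc
  let c' : N := ⟨c, hcN⟩
  have hc' : algebraMap N K c' = c := rfl
  haveI : CharZero N := charZero_of_injective_algebraMap (algebraMap M N).injective
  set φ : M →+* N := algebraMap M N with hφ
  set BN : Matrix (Fin (n + 1)) (Fin (n + 1)) N := B.map φ with hBN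
  have hBNs : BN.IsSymm := by
    rw [hBN]
    exact hB.map φ
  have hBNd : BN.det ≠ 0 := by
    have e : BN.det = φ B.det := by
      rw [hBN, RingHom.map_det]
      rfl
    rw [e]
    exact (map_ne_zero φ).2 hdet
  have hirrN : Irreducible (quadEq BN) := irreducible_quadEq N n hn BN hBNs hBNd
  have hirr : Irreducible (quadEq B) := irreducible_quadEq M n hn B hB hdet
  -- a variable which occurs
  obtain ⟨j, hj⟩ : ∃ j, (quadEq B).degreeOf j ≠ 0 := by
    by_contra hno
    push Not at hno
    have hv : (quadEq B).vars = ∅ := by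
      rw [Finset.eq_empty_iff_forall_notMem]
      intro i hi
      exact (MvPolynomial.mem_vars_iff_degreeOf_ne_zero.1 hi) (hno i)
    have hC := MvPolynomial.vars_eq_empty_iff_eq_C.1 hv
    by_cases h0 : (quadEq B).coeff 0 = 0
    · rw [h0, map_zero] at hC
      exact hirr.ne_zero hC
    · apply hirr.not_isUnit
      rw [hC]
      exact (IsUnit.mk0 _ h0).map MvPolynomial.C
  have hind : AlgebraicIndependent M (fun i : {i : Fin n // i ≠ j} => y i) :=
    (isTranscendenceBasis_of_generic M K (quadEq B) y hy.1 hy.2 j hj).1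
  have hindN : AlgebraicIndependent N (fun i : {i : Fin n // i ≠ j} => y i) :=
    hind.algebraicClosure
  have haev : ∀ G : MvPolynomial (Fin n) M, MvPolynomial.aeval y (MvPolynomial.map φ G) =
      MvPolynomial.aeval y G := by
    intro G
    rw [hφ, MvPolynomial.aeval_map_algebraMap]
  have hz : MvPolynomial.aeval y (quadEq BN) = 0 := by
    rw [hBN, C3_map_quadEq, haev]
    exact (hy.1 _).2 dvd_rfl
  obtain ⟨G, H, hH, hGH⟩ := hy.2 c
  have hvan : MvPolynomial.aeval y (MvPolynomial.C c' * MvPolynomial.map φ H -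
      MvPolynomial.map φ G) = 0 := by
    rw [map_sub, map_mul, haev, haev, MvPolynomial.aeval_C, hc', hGH, sub_self]
  obtain ⟨P, hP⟩ := dvd_of_algebraicIndependent N K (quadEq BN) hirrN y hz j hindN _ hvan
  -- a functional
  have hnot : c' ∉ Submodule.span M {(1 : N)} := by
    intro hmem
    obtain ⟨a, ha⟩ := Submodule.mem_span_singleton.1 hmem
    apply hcon a
    have h1 := congrArg (algebraMap N K) ha
    rw [hc', Algebra.smul_def, mul_one] at h1
    rw [← h1]
    exact IsScalarTower.algebraMap_apply M N K a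
  obtain ⟨f, hf1, hf2⟩ := Submodule.exists_dual_map_eq_bot_of_notMem hnot inferInstance
  have hf0 : f 1 = 0 := by
    have h1 : f 1 ∈ Submodule.map f (Submodule.span M {(1 : N)}) :=
      Submodule.mem_map_of_mem (Submodule.mem_span_singleton_self 1)
    rw [hf2] at h1
    exact (Submodule.mem_bot M).1 h1
  have hleft : C3_fun f (MvPolynomial.C c' * MvPolynomial.map φ H - MvPolynomial.map φ G) =
      MvPolynomial.C (f c') * H := by
    ext s
    rw [C3_coeff, MvPolynomial.coeff_sub, MvPolynomial.coeff_C_mul, MvPolynomial.coeff_map,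
      MvPolynomial.coeff_map, map_sub, MvPolynomial.coeff_C_mul]
    have e1 : c' * φ (MvPolynomial.coeff s H) = MvPolynomial.coeff s H • c' := by
      rw [Algebra.smul_def, mul_comm]
    have e2 : φ (MvPolynomial.coeff s G) = MvPolynomial.coeff s G • (1 : N) := by
      rw [Algebra.smul_def, mul_one]
    rw [e1, e2, map_smul, map_smul, hf0, smul_zero, sub_zero, smul_eq_mul, mul_comm]
  have hright : C3_fun f (quadEq BN * P) = quadEq B * C3_fun f P := by
    rw [hBN, C3_map_quadEq, hφ, C3_mul]
  rw [hP, hright] at hleft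
  have hdvd : quadEq B ∣ MvPolynomial.C (f c') * H := ⟨_, hleft.symm⟩
  have h0 := (hy.1 _).2 hdvd
  rw [map_mul, MvPolynomial.aeval_C] at h0
  rcases mul_eq_zero.1 h0 with h0 | h0
  · exact hf1 ((map_eq_zero (algebraMap M K)).1 h0)
  · exact hH h0

end Pool.Agent.LibHP
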