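import Pool.Agent.LibHP2.B3a
import Pool.Agent.LibHP2.C3

set_option autoImplicit false

namespace Pool.Agent.LibHP

/-- A transcendental element is a member of a transcendence basis. -/
theorem B3c_exists_basis (M K : Type) [Field M] [Field K] [Algebra M K] {d : ℕ} (T : Fin d → K)
    (hT : IsTranscendenceBasis M T) (c : K) (hc : Transcendental M c) :
    ∃ (T' : Fin d → K) (i : Fin d), IsTranscendenceBasis M T' ∧ T' i = c := by
  have h1 : AlgebraicIndepOn M id ({c} : Set K) :=
    algebraicIndependent_unique_type_iff.mpr hc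
  obtain ⟨t, hct, ht⟩ := exists_isTranscendenceBasis_superset h1
  have h2 : Cardinal.mk t = Cardinal.mk (Fin d) := ht.cardinalMk_eq hT
  obtain ⟨e⟩ := Cardinal.eq.mp h2
  have hc' : c ∈ t := hct (Set.mem_singleton c)
  refine ⟨fun i => (e.symm i : K), e ⟨c, hc'⟩, ?_, by simp⟩
  exact (isTranscendenceBasis_equiv e.symm).mpr ht

/-- The constants of all families on a quadric. -/
theorem const_of_quad (M K : Type) [Field M] [CharZero M] [Field K] [Algebra M K] (n : ℕ)
    (hn : 2 ≤ n) (B : Matrix (Fin (n + 1)) (Fin (n + 1)) M) (hB : B.IsSymm) (hdet : B.det ≠ 0)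
    (y : Fin n → K) (hy : IsGenericQuad B y) (c : K)
    (hc : ∀ (r : ℕ) (s : K →+* RF K r),
      (∀ a : M, s (algebraMap M K a) = algebraMap K (RF K r) (algebraMap M K a)) →
      (∀ a, HasVal (s a) a) → s c = algebraMap K (RF K r) c) :
    ∃ a : M, algebraMap M K a = c := by
  by_cases halg : IsAlgebraic M c
  · exact quad_algClosed M K n hn B hB hdet y hy c halg
  · exfalso
    obtain ⟨s, hs1, hs2, hs3⟩ := exists_stereo M K n hn B hB hdet y hy
    obtain ⟨T, hT, hT'⟩ := exists_free_basis M K n hn B hB hdet y hy s hs1 hs3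
    obtain ⟨T', i, hb, hi⟩ := B3c_exists_basis M K T hT c halg
    have h1 := (hT' T' hb).transcendental i
    rw [hi, hc _ s hs1 hs2] at h1
    exact h1 (isAlgebraic_algebraMap _)

end Pool.Agent.LibHP
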