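import Pool.Agent.LibHP2.Defs

set_option autoImplicit false

namespace Pool.Agent.LibHP

theorem C1a_independent {ι : Type} [Fintype ι] (N K : Type) [Field N] [Field K]
    [Algebra N K] (p : MvPolynomial ι N) (z : ι → K)
    (hp : ∀ G : MvPolynomial ι N, MvPolynomial.aeval z G = 0 ↔ p ∣ G)
    (j : ι) (hj : p.degreeOf j ≠ 0) :
    AlgebraicIndependent N (fun i : {i : ι // i ≠ j} => z i) := by
  classical
  rw [algebraicIndependent_iff]
  intro G hG
  have h1 : MvPolynomial.aeval z (MvPolynomial.rename Subtype.val G) = 0 := by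
    rw [MvPolynomial.aeval_rename]
    exact hG
  obtain ⟨Q, hQ⟩ := (hp _).1 h1
  have hinj : Function.Injective (MvPolynomial.rename (R := N) (Subtype.val : {i : ι // i ≠ j} → ι)) :=
    MvPolynomial.rename_injective _ Subtype.val_injective
  by_contra hne
  have hne' : MvPolynomial.rename (Subtype.val : {i : ι // i ≠ j} → ι) G ≠ 0 := by
    intro h0
    exact hne (hinj (by rw [h0, map_zero]))
  have hp0 : p ≠ 0 := by
    rintro rfl
    rw [zero_mul] at hQ
    exact hne' hQ
  have hQ0 : Q ≠ 0 := by
    rintro rfl
    rw [mul_zero] at hQ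
    exact hne' hQ
  have hdeg : (MvPolynomial.rename (Subtype.val : {i : ι // i ≠ j} → ι) G).degreeOf j =
      p.degreeOf j + Q.degreeOf j := by
    rw [hQ, MvPolynomial.degreeOf_mul_eq hp0 hQ0]
  have hmem : j ∈ (MvPolynomial.rename (Subtype.val : {i : ι // i ≠ j} → ι) G).vars := by
    rw [MvPolynomial.mem_vars_iff_degreeOf_ne_zero, hdeg]
    omega
  obtain ⟨i, -, hi⟩ := MvPolynomial.mem_vars_rename _ _ hmem
  exact i.2 hi

/-- The coordinates of the generic point of a hypersurface, except one which occurs in the
equation, form a transcendence basis. -/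
theorem isTranscendenceBasis_of_generic {ι : Type} [Fintype ι] (N K : Type) [Field N] [Field K]
    [Algebra N K] (p : MvPolynomial ι N) (z : ι → K)
    (hp : ∀ G : MvPolynomial ι N, MvPolynomial.aeval z G = 0 ↔ p ∣ G)
    (hgen : ∀ a : K, ∃ G H : MvPolynomial ι N, MvPolynomial.aeval z H ≠ 0 ∧
      a * MvPolynomial.aeval z H = MvPolynomial.aeval z G)
    (j : ι) (hj : p.degreeOf j ≠ 0) :
    IsTranscendenceBasis N (fun i : {i : ι // i ≠ j} => z i) := by
  classical
  have hind := C1a_independent N K p z hp j hj
  rw [hind.isTranscendenceBasis_iff_isAlgebraic]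
  set A := Algebra.adjoin N (Set.range fun i : {i : ι // i ≠ j} => z i) with hA
  have hzj : IsAlgebraic A (z j) := by
    by_contra htr
    have h2 := (hind.option_iff_transcendental (z j)).2 htr
    have h3 : AlgebraicIndependent N z := by
      rw [← algebraicIndependent_equiv' (Equiv.optionSubtypeNe j) (f := z)
        (g := fun o : Option {i : ι // i ≠ j} => o.elim (z j) fun i => z i)]
      · exact h2
      · funext o
        cases o with
        | none => rfl
        | some i => rfl
    have h4 : p = 0 := by
      rw [algebraicIndependent_iff] at h3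
      exact h3 p ((hp p).2 dvd_rfl)
    rw [h4] at hj
    simp at hj
  have hz : ∀ i, IsAlgebraic A (z i) := by
    intro i
    by_cases hi : i = j
    · rw [hi]
      exact hzj
    · have hmem : z i ∈ A := Algebra.subset_adjoin ⟨⟨i, hi⟩, rfl⟩
      exact isAlgebraic_algebraMap (A := K) (⟨z i, hmem⟩ : A)
  have hpoly : ∀ G : MvPolynomial ι N, IsAlgebraic A (MvPolynomial.aeval z G) := by
    intro G
    induction G using MvPolynomial.induction_on with
    | C c =>
      rw [MvPolynomial.aeval_C]
      exact isAlgebraic_algebraMap (A := K) (algebraMap N A c)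
    | add p q h1 h2 =>
      rw [map_add]
      exact h1.add h2
    | mul_X p i h =>
      rw [map_mul, MvPolynomial.aeval_X]
      exact h.mul (hz i)
  refine ⟨fun a => ?_⟩
  obtain ⟨G, H, hH, h⟩ := hgen a
  have : a = MvPolynomial.aeval z G * (MvPolynomial.aeval z H)⁻¹ := by
    rw [← h, mul_assoc, mul_inv_cancel₀ hH, mul_one]
  rw [this]
  exact (hpoly G).mul (hpoly H).inv

end Pool.Agent.LibHP
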