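import Pool.Agent.LibHP2.Defs

set_option autoImplicit false

namespace Pool.Agent.LibHP

open MvPolynomial

/-- the homogenising vector `(1, X_0, ..., X_{n-1})` -/
noncomputable def C2a_Y (M : Type) [Field M] (n : ℕ) : Fin (n + 1) → MvPolynomial (Fin n) M :=
  Fin.cons 1 fun i => X i

/-- linear polynomials -/
noncomputable def C2a_lin {M : Type} [Field M] {n : ℕ} (α : Fin (n + 1) → M) :
    MvPolynomial (Fin n) M := ∑ i, C (α i) * C2a_Y M n i

lemma C2a_eval_Y {M : Type} [Field M] {n : ℕ} (y : Fin n → M) (i : Fin (n + 1)) :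
    eval y (C2a_Y M n i) = (Fin.cons 1 y : Fin (n + 1) → M) i := by
  refine Fin.cases ?_ (fun i => ?_) i
  · simp [C2a_Y]
  · simp [C2a_Y]

lemma C2a_eval_quad {M : Type} [Field M] {n : ℕ} (B : Matrix (Fin (n + 1)) (Fin (n + 1)) M)
    (y : Fin n → M) : eval y (quadEq B) =
      ∑ i, ∑ j, B i j * ((Fin.cons 1 y : Fin (n + 1) → M) i * (Fin.cons 1 y : Fin (n + 1) → M) j) := by
  have h := C2a_eval_Y y
  simp only [C2a_Y] at h
  simp only [quadEq, map_sum, map_mul, eval_C, h]

lemma C2a_eval_quad' {M : Type} [Field M] {n : ℕ} (B : Matrix (Fin (n + 1)) (Fin (n + 1)) M)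
    (y : Fin n → M) : eval y (quadEq B) =
      B 0 0 + ∑ j : Fin n, B 0 j.succ * y j + ∑ i : Fin n, B i.succ 0 * y i +
        ∑ i : Fin n, ∑ j : Fin n, B i.succ j.succ * (y i * y j) := by
  rw [C2a_eval_quad, Fin.sum_univ_succ]
  simp only [Fin.sum_univ_succ, Fin.cons_zero, Fin.cons_succ, mul_one, one_mul]
  rw [Finset.sum_add_distrib]
  ring

/-- the symmetric matrix is determined by the polynomial -/
lemma C2a_zero {M : Type} [Field M] [CharZero M] {n : ℕ}
    (D : Matrix (Fin (n + 1)) (Fin (n + 1)) M) (hD : D.IsSymm)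
    (h : ∀ y : Fin n → M, eval y (quadEq D) = 0) : D = 0 := by
  have hs : ∀ i j, D i j = D j i := fun i j => by rw [← hD.apply]
  have h2 : (2 : M) ≠ 0 := two_ne_zero
  have h00 : D 0 0 = 0 := by
    have := h 0
    rw [C2a_eval_quad'] at this
    simpa using this
  have hone : ∀ (i : Fin n) (t : M), 2 * D 0 i.succ * t + D i.succ i.succ * t ^ 2 = 0 := by
    intro i t
    have := h (Pi.single i t)
    rw [C2a_eval_quad', h00] at this
    simp only [Pi.single_apply, mul_ite, mul_zero, ite_mul, zero_mul, Finset.sum_ite_eq',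
      Finset.mem_univ, if_true] at this
    rw [hs i.succ 0] at this
    linear_combination this
  have h0i : ∀ i : Fin n, D 0 i.succ = 0 := by
    intro i
    have a := hone i 1
    have b := hone i (-1)
    have c : 2 * (2 * D 0 i.succ) = 0 := by linear_combination a - b
    have := mul_ne_zero h2 h2
    rcases mul_eq_zero.1 c with h | h
    · exact absurd h h2
    · exact (mul_eq_zero.1 h).resolve_left h2
  have hii : ∀ i : Fin n, D i.succ i.succ = 0 := by
    intro i
    have a := hone i 1
    rw [h0i i] at a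
    linear_combination a
  have hij : ∀ i j : Fin n, D i.succ j.succ = 0 := by
    intro i j
    rcases eq_or_ne i j with rfl | hne
    · exact hii i
    · have := h (Pi.single i 1 + Pi.single j 1)
      rw [C2a_eval_quad', h00] at this
      simp only [h0i, hs _ 0, add_zero, zero_add, Pi.add_apply,
        Pi.single_apply, mul_add, Finset.sum_add_distrib, mul_ite, mul_one, mul_zero,
        Finset.sum_ite_eq', Finset.mem_univ, if_true] at this
      rw [hii i, hii j, hs j.succ i.succ] at this
      have h3 : 2 * D i.succ j.succ = 0 := by linear_combination this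
      exact (mul_eq_zero.1 h3).resolve_left h2
  ext i j
  refine Fin.cases ?_ (fun i => ?_) i
  · refine Fin.cases ?_ (fun j => ?_) j
    · exact h00
    · exact h0i j
  · refine Fin.cases ?_ (fun j => ?_) j
    · rw [hs]; exact h0i i
    · exact hij i j

lemma C2a_inj {M : Type} [Field M] [CharZero M] {n : ℕ}
    {B B' : Matrix (Fin (n + 1)) (Fin (n + 1)) M} (hB : B.IsSymm) (hB' : B'.IsSymm)
    (h : quadEq B = quadEq B') : B = B' := by
  have : B - B' = 0 := by
    refine C2a_zero (B - B') (hB.sub hB') fun y => ?_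
    have e1 : eval y (quadEq (B - B')) = eval y (quadEq B) - eval y (quadEq B') := by
      simp only [C2a_eval_quad, Matrix.sub_apply, sub_mul, Finset.sum_sub_distrib]
    rw [e1, h, sub_self]
  exact sub_eq_zero.1 this

lemma C2a_totalDegree_Y (M : Type) [Field M] (n : ℕ) (i : Fin (n + 1)) :
    (C2a_Y M n i).totalDegree ≤ 1 := by
  refine Fin.cases ?_ (fun i => ?_) i
  · simp [C2a_Y]
  · simp [C2a_Y]

lemma C2a_totalDegree_quad {M : Type} [Field M] {n : ℕ}
    (B : Matrix (Fin (n + 1)) (Fin (n + 1)) M) : (quadEq B).totalDegree ≤ 2 := by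
  refine totalDegree_finsetSum_le fun i _ => totalDegree_finsetSum_le fun j _ => ?_
  refine (totalDegree_mul _ _).trans ?_
  rw [totalDegree_C, zero_add]
  refine (totalDegree_mul _ _).trans ?_
  have h1 := C2a_totalDegree_Y M n i
  have h2 := C2a_totalDegree_Y M n j
  simp only [C2a_Y] at h1 h2
  omega

lemma C2a_eq_lin {M : Type} [Field M] {n : ℕ} (g : MvPolynomial (Fin n) M)
    (hg : g.totalDegree ≤ 1) : ∃ α : Fin (n + 1) → M, g = C2a_lin α := by
  refine ⟨Fin.cons (coeff 0 g) fun i => coeff (Finsupp.single i 1) g, ?_⟩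
  have e : C2a_lin (Fin.cons (coeff 0 g) fun i => coeff (Finsupp.single i 1) g) =
      C (coeff 0 g) + ∑ i : Fin n, C (coeff (Finsupp.single i 1) g) * X i := by
    rw [C2a_lin, Fin.sum_univ_succ]
    simp [C2a_Y]
  rw [e]
  ext s
  rw [coeff_add, coeff_sum, coeff_C]
  simp only [coeff_C_mul, coeff_X]
  rcases Nat.lt_or_ge 1 (s.sum fun _ a => a) with h | h
  · rw [coeff_eq_zero_of_totalDegree_lt (lt_of_le_of_lt hg h)]
    rw [if_neg, zero_add]
    · refine (Finset.sum_eq_zero fun i _ => ?_).symm
      rw [if_neg, mul_zero]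
      rintro rfl
      simp at h
    · rintro rfl
      simp at h
  · rcases Nat.eq_zero_or_pos (s.sum fun _ a => a) with h0 | h0
    · have hs : s = 0 := by
        ext i
        by_contra hi
        have : s i ≤ s.sum fun _ a => a :=
          Finset.single_le_sum (f := fun i => s i) (fun _ _ => Nat.zero_le _)
            (Finsupp.mem_support_iff.2 hi)
        simp at hi
        omega
      subst hs
      rw [if_pos rfl, Finset.sum_eq_zero, add_zero]
      intro i _
      rw [if_neg, mul_zero]
      intro h'
      have := DFunLike.congr_fun h' i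
      simp at this
    · have h1 : (s.sum fun _ a => a) = 1 := by omega
      obtain ⟨i, hi⟩ : ∃ i, s i ≠ 0 := by
        by_contra hcon
        push Not at hcon
        have : s = 0 := Finsupp.ext hcon
        rw [this] at h1
        simp at h1
      have hs : s = Finsupp.single i 1 := by
        have hle : s i ≤ s.sum fun _ a => a :=
          Finset.single_le_sum (f := fun i => s i) (fun _ _ => Nat.zero_le _)
            (Finsupp.mem_support_iff.2 hi)
        have hsi : s i = 1 := by omega
        ext j
        rcases eq_or_ne j i with rfl | hji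
        · rw [hsi]; simp
        · rw [Finsupp.single_apply, if_neg hji.symm]
          by_contra hj
          have hle2 : s i + s j ≤ s.sum fun _ a => a := by
            have hsub : ({i, j} : Finset (Fin n)) ⊆ s.support := by
              intro l hl
              rw [Finset.mem_insert, Finset.mem_singleton] at hl
              rcases hl with rfl | rfl
              · exact Finsupp.mem_support_iff.2 hi
              · exact Finsupp.mem_support_iff.2 hj
            have := Finset.sum_le_sum_of_subset (f := fun i => s i) hsub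
            rw [Finset.sum_pair hji.symm] at this
            exact this
          omega
      subst hs
      rw [if_neg, zero_add, Finset.sum_eq_single i]
      · rw [if_pos rfl, mul_one]
      · intro j _ hj
        rw [if_neg, mul_zero]
        intro h'
        exact hj (Finsupp.single_left_injective one_ne_zero h')
      · intro h'; exact absurd (Finset.mem_univ i) h'
      · intro h'
        have := DFunLike.congr_fun h' i
        simp at this

/-- the product of two linear polynomials -/
lemma C2a_lin_mul {M : Type} [Field M] [CharZero M] {n : ℕ} (α β : Fin (n + 1) → M) :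
    C2a_lin α * C2a_lin β =
      quadEq (Matrix.of fun i j => (α i * β j + β i * α j) / 2) := by
  have e1 : C2a_lin α * C2a_lin β = ∑ i, ∑ j, C (α i * β j) * (C2a_Y M n i * C2a_Y M n j) := by
    rw [C2a_lin, C2a_lin, Finset.sum_mul_sum]
    refine Finset.sum_congr rfl fun i _ => Finset.sum_congr rfl fun j _ => ?_
    rw [map_mul]; ring
  have e2 : C2a_lin α * C2a_lin β = ∑ i, ∑ j, C (β i * α j) * (C2a_Y M n i * C2a_Y M n j) := by
    rw [e1, Finset.sum_comm]
    refine Finset.sum_congr rfl fun i _ => Finset.sum_congr rfl fun j _ => ?_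
    rw [mul_comm (α j) (β i), mul_comm (C2a_Y M n j)]
  have e3 : quadEq (Matrix.of fun i j => (α i * β j + β i * α j) / 2) =
      ∑ i, ∑ j, C ((α i * β j + β i * α j) / 2) * (C2a_Y M n i * C2a_Y M n j) := rfl
  have h2 : (2 : M) ≠ 0 := two_ne_zero
  have hC : (C (2⁻¹ : M) : MvPolynomial (Fin n) M) * 2 = 1 := by
    have : (2 : MvPolynomial (Fin n) M) = C 2 := (map_ofNat C 2).symm
    rw [this, ← map_mul, inv_mul_cancel₀ h2, map_one]
  calc C2a_lin α * C2a_lin β = C (2⁻¹ : M) * (C2a_lin α * C2a_lin β + C2a_lin α * C2a_lin β) := by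
        rw [← two_mul, ← mul_assoc, hC, one_mul]
    _ = C (2⁻¹ : M) * (∑ i, ∑ j, C (α i * β j) * (C2a_Y M n i * C2a_Y M n j) +
        ∑ i, ∑ j, C (β i * α j) * (C2a_Y M n i * C2a_Y M n j)) := by rw [← e1, ← e2]
    _ = _ := by
        rw [e3, ← Finset.sum_add_distrib, Finset.mul_sum]
        refine Finset.sum_congr rfl fun i _ => ?_
        rw [← Finset.sum_add_distrib, Finset.mul_sum]
        refine Finset.sum_congr rfl fun j _ => ?_
        have e4 : (C ((α i * β j + β i * α j) / 2) : MvPolynomial (Fin n) M) =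
            C 2⁻¹ * (C (α i * β j) + C (β i * α j)) := by
          rw [div_eq_mul_inv, mul_comm, map_mul, map_add]
        rw [e4]
        ring

lemma C2a_lin_symm {M : Type} [Field M] {n : ℕ} (α β : Fin (n + 1) → M) :
    (Matrix.of fun i j => (α i * β j + β i * α j) / 2 :
      Matrix (Fin (n + 1)) (Fin (n + 1)) M).IsSymm := by
  ext i j
  simp only [Matrix.transpose_apply, Matrix.of_apply]
  ring

/-- two linear forms in at least three variables have a common zero -/
lemma C2a_exists_vec {M : Type} [Field M] {n : ℕ} (hn : 2 ≤ n) (α β : Fin (n + 1) → M) :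
    ∃ v : Fin (n + 1) → M, v ≠ 0 ∧ ∑ i, α i * v i = 0 ∧ ∑ i, β i * v i = 0 := by
  let A : Matrix (Fin 2) (Fin (n + 1)) M := Matrix.of ![α, β]
  have hk : LinearMap.ker A.mulVecLin ≠ ⊥ := by
    apply LinearMap.ker_ne_bot_of_finrank_lt
    simp
    omega
  obtain ⟨v, hAv, hv⟩ := (Submodule.ne_bot_iff _).1 hk
  rw [LinearMap.mem_ker, Matrix.mulVecLin_apply] at hAv
  refine ⟨v, hv, ?_, ?_⟩
  · have := congrFun hAv 0
    simpa [A, Matrix.mulVec, dotProduct] using this
  · have := congrFun hAv 1
    simpa [A, Matrix.mulVec, dotProduct] using this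

lemma C2a_const {M : Type} [Field M] [CharZero M] {n : ℕ}
    (B : Matrix (Fin (n + 1)) (Fin (n + 1)) M) (hB : B.IsSymm) (c : M) (h : quadEq B = C c) :
    B = Matrix.of fun i j => if i = 0 ∧ j = 0 then c else 0 := by
  refine C2a_inj hB ?_ ?_
  · ext i j
    simp only [Matrix.transpose_apply, Matrix.of_apply, and_comm]
  · rw [h]
    have : quadEq (Matrix.of fun i j : Fin (n + 1) => if i = 0 ∧ j = 0 then c else 0) =
        ∑ i, ∑ j, C (if i = 0 ∧ j = 0 then c else 0) * (C2a_Y M n i * C2a_Y M n j) := rfl
    rw [this, Finset.sum_eq_single 0, Finset.sum_eq_single 0]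
    · simp [C2a_Y]
    · intro j _ hj; simp [hj]
    · simp
    · intro i _ hi
      refine Finset.sum_eq_zero fun j _ => ?_
      simp [hi]
    · simp

/-- The equation of a nondegenerate quadric in at least three variables is irreducible. -/
theorem irreducible_quadEq (M : Type) [Field M] [CharZero M] (n : ℕ) (hn : 2 ≤ n)
    (B : Matrix (Fin (n + 1)) (Fin (n + 1)) M) (hB : B.IsSymm) (hdet : B.det ≠ 0) :
    Irreducible (quadEq B) := by
  have hconst : ∀ c : M, quadEq B ≠ C c := by
    intro c h
    have hBc := C2a_const B hB c h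
    apply hdet
    apply Matrix.det_eq_zero_of_row_eq_zero (⟨1, by omega⟩ : Fin (n + 1))
    intro j
    rw [hBc, Matrix.of_apply, if_neg]
    rintro ⟨h1, _⟩
    have := congrArg Fin.val h1
    simp at this
  have hne : quadEq B ≠ 0 := by
    have := hconst 0
    rwa [C_0] at this
  constructor
  · intro hu
    obtain ⟨c, _, hc⟩ := MvPolynomial.isUnit_iff_eq_C_of_isReduced.1 hu
    exact hconst c hc
  · intro g h hgh
    have hg : g ≠ 0 := by rintro rfl; rw [zero_mul] at hgh; exact hne hgh
    have hh : h ≠ 0 := by rintro rfl; rw [mul_zero] at hgh; exact hne hgh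
    have hdeg : g.totalDegree + h.totalDegree ≤ 2 := by
      rw [← totalDegree_mul_of_isDomain hg hh, ← hgh]
      exact C2a_totalDegree_quad B
    have hunit : ∀ p : MvPolynomial (Fin n) M, p ≠ 0 → p.totalDegree = 0 → IsUnit p := by
      intro p hp hp0
      rw [totalDegree_eq_zero_iff_eq_C] at hp0
      rw [hp0]
      refine (isUnit_iff_ne_zero.2 fun h0 => hp ?_).map C
      rw [hp0, h0, C_0]
    by_contra hcon
    push Not at hcon
    have h1 : g.totalDegree ≠ 0 := fun h0 => hcon.1 (hunit g hg h0)
    have h2 : h.totalDegree ≠ 0 := fun h0 => hcon.2 (hunit h hh h0)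
    obtain ⟨α, rfl⟩ := C2a_eq_lin g (by omega)
    obtain ⟨β, rfl⟩ := C2a_eq_lin h (by omega)
    rw [C2a_lin_mul] at hgh
    have hBeq := C2a_inj hB (C2a_lin_symm α β) hgh
    obtain ⟨v, hv, ha, hb⟩ := C2a_exists_vec hn α β
    apply hdet
    rw [← Matrix.exists_mulVec_eq_zero_iff]
    refine ⟨v, hv, ?_⟩
    ext i
    rw [hBeq, Matrix.mulVec, dotProduct]
    simp only [Matrix.of_apply, Pi.zero_apply]
    have : ∑ j, (α i * β j + β i * α j) / 2 * v j =
        α i / 2 * ∑ j, β j * v j + β i / 2 * ∑ j, α j * v j := by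
      rw [Finset.mul_sum, Finset.mul_sum, ← Finset.sum_add_distrib]
      refine Finset.sum_congr rfl fun j _ => ?_
      ring
    rw [this, ha, hb]
    simp

end Pool.Agent.LibHP
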