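import Pool.Agent.LibHP2.A1

set_option autoImplicit false

namespace Pool.Agent.LibHP

/-- the substitution `t_i ↦ e_i t` -/
noncomputable def C4_phi {K : Type} [Field K] {r : ℕ} (e : Fin r → K) :
    MvPolynomial (Fin r) K →+* Polynomial K :=
  MvPolynomial.eval₂Hom Polynomial.C (fun i => Polynomial.C (e i) * Polynomial.X)

theorem C4_phi_C {K : Type} [Field K] {r : ℕ} (e : Fin r → K) (a : K) :
    C4_phi e (MvPolynomial.C a) = Polynomial.C a := by
  simp [C4_phi]

theorem C4_phi_eval_one {K : Type} [Field K] {r : ℕ} (e : Fin r → K)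
    (p : MvPolynomial (Fin r) K) : (C4_phi e p).eval 1 = MvPolynomial.eval e p := by
  have h : (Polynomial.evalRingHom (1 : K)).comp (C4_phi e) = MvPolynomial.eval e := by
    apply MvPolynomial.ringHom_ext
    · intro a; simp [C4_phi]
    · intro i; simp [C4_phi]
  exact congrArg (fun f : MvPolynomial (Fin r) K →+* K => f p) h

theorem C4_phi_coeff_zero {K : Type} [Field K] {r : ℕ} (e : Fin r → K)
    (p : MvPolynomial (Fin r) K) : (C4_phi e p).coeff 0 = MvPolynomial.constantCoeff p := by
  have h : (Polynomial.evalRingHom (0 : K)).comp (C4_phi e) = MvPolynomial.constantCoeff := by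
    apply MvPolynomial.ringHom_ext
    · intro a; simp [C4_phi]
    · intro i; simp [C4_phi]
  rw [Polynomial.coeff_zero_eq_eval_zero]
  exact congrArg (fun f : MvPolynomial (Fin r) K →+* K => f p) h

/-- An element fixed by all one-parameter families is fixed by all families. -/
theorem fixed_multi_of_fixed_one (k K : Type) [Field k] [Field K] [CharZero K] [Algebra k K] (c : K)
    (h : ∀ σ : K →+* RatFunc K,
      (∀ a : k, σ (algebraMap k K a) = RatFunc.C (algebraMap k K a)) →
      (∀ a, ∃ b, HasJet (σ a) a b) → σ c = RatFunc.C c)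
    (r : ℕ) (s : K →+* RF K r)
    (hs : ∀ a : k, s (algebraMap k K a) = algebraMap K (RF K r) (algebraMap k K a))
    (hv : ∀ a, HasVal (s a) a) : s c = algebraMap K (RF K r) c := by
  classical
  have hinj : Function.Injective (algebraMap (MvPolynomial (Fin r) K) (RF K r)) :=
    IsFractionRing.injective _ _
  have hinjR : Function.Injective (algebraMap (Polynomial K) (RatFunc K)) :=
    IsFractionRing.injective _ _
  have hCalg : ∀ a : K, algebraMap K (RF K r) a =
      algebraMap (MvPolynomial (Fin r) K) (RF K r) (MvPolynomial.C a) := fun a =>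
    IsScalarTower.algebraMap_apply K (MvPolynomial (Fin r) K) (RF K r) a
  choose p q hq hp hpq using hv
  have hqne : ∀ a, algebraMap (MvPolynomial (Fin r) K) (RF K r) (q a) ≠ 0 := by
    intro a h0
    rw [← map_zero (algebraMap (MvPolynomial (Fin r) K) (RF K r)), hinj.eq_iff] at h0
    have := hq a
    rw [h0, map_zero] at this
    exact zero_ne_one this
  -- the substitution
  have key : ∀ e : Fin r → K, C4_phi e (p c) = Polynomial.C c * C4_phi e (q c) := by
    intro e
    have hne : ∀ u : MvPolynomial (Fin r) K, MvPolynomial.constantCoeff u = 1 →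
        algebraMap (Polynomial K) (RatFunc K) (C4_phi e u) ≠ 0 := by
      intro u hu h0
      rw [← map_zero (algebraMap (Polynomial K) (RatFunc K)), hinjR.eq_iff] at h0
      have h1 := C4_phi_coeff_zero e u
      rw [h0, hu] at h1
      simp at h1
    -- well-definedness
    have hwd : ∀ (f : RF K r) (p₁ q₁ p₂ q₂ : MvPolynomial (Fin r) K),
        MvPolynomial.constantCoeff q₁ = 1 → MvPolynomial.constantCoeff q₂ = 1 →
        f * algebraMap (MvPolynomial (Fin r) K) (RF K r) q₁ =
          algebraMap (MvPolynomial (Fin r) K) (RF K r) p₁ →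
        f * algebraMap (MvPolynomial (Fin r) K) (RF K r) q₂ =
          algebraMap (MvPolynomial (Fin r) K) (RF K r) p₂ →
        algebraMap (Polynomial K) (RatFunc K) (C4_phi e p₁) /
          algebraMap (Polynomial K) (RatFunc K) (C4_phi e q₁) =
        algebraMap (Polynomial K) (RatFunc K) (C4_phi e p₂) /
          algebraMap (Polynomial K) (RatFunc K) (C4_phi e q₂) := by
      intro f p₁ q₁ p₂ q₂ h1 h2 h3 h4
      have h5 : p₁ * q₂ = p₂ * q₁ := by
        apply hinj
        rw [map_mul, map_mul, ← h3, ← h4]
        ring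
      rw [div_eq_div_iff (hne q₁ h1) (hne q₂ h2), ← map_mul, ← map_mul, ← map_mul, ← map_mul, h5]
    let σ : K →+* RatFunc K :=
      { toFun := fun a => algebraMap (Polynomial K) (RatFunc K) (C4_phi e (p a)) /
          algebraMap (Polynomial K) (RatFunc K) (C4_phi e (q a))
        map_one' := by
          rw [hwd (s 1) (p 1) (q 1) 1 1 (hq 1) (map_one _) (hpq 1) (by rw [map_one s]; simp)]
          simp
        map_zero' := by
          rw [hwd (s 0) (p 0) (q 0) 0 1 (hq 0) (map_one _) (hpq 0) (by rw [map_zero s]; simp)]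
          simp
        map_mul' := fun a b => by
          rw [hwd (s (a * b)) (p (a * b)) (q (a * b)) (p a * p b) (q a * q b) (hq _)
            (by rw [map_mul, hq, hq, one_mul]) (hpq _) (by
              rw [map_mul s, map_mul, map_mul, ← hpq a, ← hpq b]; ring)]
          rw [map_mul, map_mul, map_mul, map_mul, mul_div_mul_comm]
        map_add' := fun a b => by
          rw [hwd (s (a + b)) (p (a + b)) (q (a + b)) (p a * q b + q a * p b) (q a * q b) (hq _)
            (by rw [map_mul, hq, hq, one_mul]) (hpq _) (by
              rw [map_add s, map_mul, map_add, map_mul, map_mul, ← hpq a, ← hpq b]; ring)]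
          rw [div_add_div _ _ (hne _ (hq a)) (hne _ (hq b))]
          simp only [map_mul, map_add] }
    have hσ : ∀ a, σ a = algebraMap (Polynomial K) (RatFunc K) (C4_phi e (p a)) /
          algebraMap (Polynomial K) (RatFunc K) (C4_phi e (q a)) := fun a => rfl
    have h1 : σ c = RatFunc.C c := by
      apply h σ
      · intro a
        rw [hσ, hwd (s (algebraMap k K a)) _ _ (MvPolynomial.C (algebraMap k K a)) 1 (hq _)
          (map_one _) (hpq _) (by rw [hs a, hCalg, map_one, mul_one])]
        rw [map_one, map_one, div_one, C4_phi_C, RatFunc.algebraMap_C]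
      · intro a
        refine ⟨(C4_phi e (p a)).coeff 1 - a * (C4_phi e (q a)).coeff 1, C4_phi e (p a),
          C4_phi e (q a), ?_, ?_, ?_, ?_⟩
        · rw [C4_phi_coeff_zero, hq]
        · rw [hσ, div_mul_cancel₀ _ (hne _ (hq a))]
        · rw [C4_phi_coeff_zero, hp]
        · ring
    rw [hσ, div_eq_iff (hne _ (hq c)), ← RatFunc.algebraMap_C, ← map_mul] at h1
    exact hinjR h1
  have h2 : p c = MvPolynomial.C c * q c := by
    apply MvPolynomial.funext
    intro e
    rw [← C4_phi_eval_one, ← C4_phi_eval_one, map_mul, C4_phi_C, ← key e]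
  have h3 := hpq c
  rw [h2, map_mul, ← hCalg] at h3
  exact mul_right_cancel₀ (hqne c) h3

end Pool.Agent.LibHP
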