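import Pool.Agent.LibHP2.Defs

set_option autoImplicit false

namespace Pool.Agent.LibHP

open IsDedekindDomain WithZero Polynomial

theorem D1_isDVR {K : Type} [Field K] (O : ValuationSubring K) (π : K) (hπ : IsUnif O π) :
    IsDiscreteValuationRing O := by
  obtain ⟨hπO, hπ0, hπi, hπf⟩ := hπ
  refine IsDiscreteValuationRing.ofHasUnitMulPowIrreducibleFactorization
    ⟨⟨π, hπO⟩, ⟨?_, ?_⟩, ?_⟩
  · intro hu
    obtain ⟨b, hb⟩ := hu.exists_right_inv
    have h1 : π * (b : K) = 1 := congrArg Subtype.val hb
    exact hπi (by rw [← eq_inv_of_mul_eq_one_right h1]; exact b.2)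
  · rintro a b hab
    have hab' : π = (a : K) * (b : K) := congrArg Subtype.val hab
    have ha0 : (a : K) ≠ 0 := by rintro h; rw [h, zero_mul] at hab'; exact hπ0 hab'
    obtain ⟨n, u, hu, hui, ha⟩ := hπf a a.2 ha0
    have hu0 : u ≠ 0 := by rintro rfl; rw [zero_mul] at ha; exact ha0 ha
    rcases n with _ | n
    · left
      rw [pow_zero, mul_one] at ha
      refine IsUnit.of_mul_eq_one ⟨u⁻¹, hui⟩ (Subtype.ext ?_)
      show (a : K) * u⁻¹ = 1
      rw [ha, mul_inv_cancel₀ hu0]
    · right
      refine IsUnit.of_mul_eq_one (⟨u, hu⟩ * ⟨π, hπO⟩ ^ n) (Subtype.ext ?_)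
      show (b : K) * (u * π ^ n) = 1
      rw [ha] at hab'
      have : π * 1 = π * ((b : K) * (u * π ^ n)) := by
        rw [mul_one]
        conv_lhs => rw [hab']
        ring
      exact (mul_left_cancel₀ hπ0 this).symm
  · intro x hx
    have hx0 : (x : K) ≠ 0 := fun h => hx (Subtype.ext h)
    obtain ⟨n, u, hu, hui, hxu⟩ := hπf x x.2 hx0
    have hu0 : u ≠ 0 := by rintro rfl; rw [zero_mul] at hxu; exact hx0 hxu
    refine ⟨n, ⟨⟨⟨u, hu⟩, ⟨u⁻¹, hui⟩, Subtype.ext (mul_inv_cancel₀ hu0),
      Subtype.ext (inv_mul_cancel₀ hu0)⟩, Subtype.ext ?_⟩⟩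
    show π ^ n * u = x
    rw [hxu, mul_comm]

theorem D1_eval {L : Type} [Field L] (D : Derivation ℤ L L) (b : L) (P : L[X]) :
    D (P.eval b) = (P.sum fun i a => D a * b ^ i) + P.derivative.eval b * D b := by
  induction P using Polynomial.induction_on' with
  | add p q hp hq =>
    rw [eval_add, map_add, hp, hq, derivative_add, eval_add,
      Polynomial.sum_add_index p q (fun i a => D a * b ^ i) (by simp) (by
        intro i x y; rw [map_add, add_mul])]
    ring
  | monomial n a =>
    rw [eval_monomial, derivative_monomial, eval_monomial,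
      Polynomial.sum_monomial_index a (fun i a => D a * b ^ i) (by simp), Derivation.leibniz,
      Derivation.leibniz_pow]
    simp only [smul_eq_mul, nsmul_eq_mul]
    ring

/-- One step of the descent. -/
theorem D1_step {B L : Type} [CommRing B] [IsDedekindDomain B] [Field L] [Algebra B L]
    [IsFractionRing B L] (v : HeightOneSpectrum B) (D : Derivation ℤ L L) (R : Subring L)
    (hR : ∀ x ∈ R, v.valuation L x ≤ 1) (hDR : ∀ x ∈ R, D x ∈ R)
    (π : L) (hπ : v.valuation L π < 1) (hπ0 : π ≠ 0)
    (hlog : v.valuation L (D π) ≤ v.valuation L π ∨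
      (v.valuation L (D π) ≤ 1 ∧ ∀ z, v.valuation L z < 1 → v.valuation L z ≤ v.valuation L π))
    (hmon : ∀ b : B, ∃ P : L[X], (∀ i, P.coeff i ∈ R) ∧
      v.valuation L (P.eval (algebraMap B L b)) < 1 ∧
      v.valuation L (P.derivative.eval (algebraMap B L b)) = 1)
    (hQ : ∀ n : ℕ, n ≠ 0 → v.valuation L (n : L) = 1)
    (n : ℕ) (h : ∀ b : B, v.valuation L (D (algebraMap B L b)) ≤ exp ((n : ℤ) + 1)) (b : B) :
    v.valuation L (D (algebraMap B L b)) ≤ exp (n : ℤ) := by
  set w := v.valuation L with hw
  have one_le : (1 : WithZero (Multiplicative ℤ)) ≤ exp (n : ℤ) := by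
    rw [← exp_zero, exp_le_exp]; positivity
  have H : ∀ x, w x ≤ 1 → w (D x) ≤ exp ((n : ℤ) + 1) := by
    intro x hx
    obtain ⟨m, d, hd⟩ := v.exists_primeCompl_mul_eq_of_integer x hx
    have hwd : w (algebraMap B L d) = 1 := by
      rw [hw, v.valuation_of_algebraMap]
      exact (v.intValuation_eq_one_iff_mem_primeCompl d).2 d.2
    have h1 : D (algebraMap B L m) =
        x * D (algebraMap B L d) + algebraMap B L d * D x := by
      rw [← hd, Derivation.leibniz]; rfl
    have h2 : algebraMap B L d * D x = D (algebraMap B L m) - x * D (algebraMap B L d) := by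
      rw [h1]; ring
    have h3 : w (D x) = w (algebraMap B L d * D x) := by rw [map_mul, hwd, one_mul]
    rw [h3, h2]
    refine (w.map_sub _ _).trans (max_le (h m) ?_)
    rw [map_mul]
    exact (mul_le_mul' hx (h d)).trans (by rw [one_mul])
  obtain ⟨ϖ, hϖ⟩ := v.valuation_exists_uniformizer L
  have hϖ0 : ϖ ≠ 0 := by
    rintro rfl
    rw [map_zero] at hϖ
    exact exp_ne_zero hϖ.symm
  -- the exponent of `π`
  obtain ⟨e, he1, he⟩ : ∃ e : ℕ, 1 ≤ e ∧ w π = exp (-(e : ℤ)) := by
    have h0 : w π ≠ 0 := (w.ne_zero_iff).2 hπ0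
    have h1 : w π = exp (log (w π)) := (exp_log h0).symm
    have h2 : log (w π) < 0 := by
      rw [h1, ← exp_zero, exp_lt_exp] at hπ
      exact hπ
    refine ⟨(-log (w π)).toNat, by omega, ?_⟩
    rw [Int.toNat_of_nonneg (by omega), neg_neg]
    exact h1
  have hDπ : w (D π) ≤ exp (-((e : ℤ) - 1)) * exp (n : ℤ) := by
    rcases hlog with h1 | ⟨h1, h2⟩
    · refine h1.trans ?_
      rw [he, ← exp_add, exp_le_exp]
      omega
    · have h3 := h2 ϖ (by rw [← hw] at hϖ; rw [hϖ, ← exp_zero, exp_lt_exp]; norm_num)
      rw [← hw] at hϖ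
      rw [hϖ, he, exp_le_exp] at h3
      have h4 : e = 1 := by omega
      refine h1.trans ?_
      rw [← exp_add, ← exp_zero, exp_le_exp]
      omega
  rw [← hw] at hϖ
  have hDϖ : w (D ϖ) ≤ exp (n : ℤ) := by
    set u := π / ϖ ^ e with hu
    have hπu : π = u * ϖ ^ e := by rw [hu, div_mul_cancel₀ _ (pow_ne_zero _ hϖ0)]
    have hwu : w u = 1 := by
      rw [hu, map_div₀, map_pow, he, hϖ, ← exp_nsmul, ← exp_sub]
      simp
    have h1 : D π = u * ((e : L) * ϖ ^ (e - 1) * D ϖ) + ϖ ^ e * D u := by
      conv_lhs => rw [hπu, Derivation.leibniz, Derivation.leibniz_pow]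
      simp only [smul_eq_mul, nsmul_eq_mul]
      ring
    have h2 : u * ((e : L) * ϖ ^ (e - 1) * D ϖ) = D π - ϖ ^ e * D u := by rw [h1]; ring
    have h3 : w (u * ((e : L) * ϖ ^ (e - 1) * D ϖ)) = exp (-((e : ℤ) - 1)) * w (D ϖ) := by
      rw [map_mul, map_mul, map_mul, hwu, hQ e (by omega), one_mul, one_mul, map_pow, hϖ,
        ← exp_nsmul]
      congr 2
      rw [nsmul_eq_mul]
      push_cast [Nat.cast_sub he1]
      ring
    have h4 : w (D π - ϖ ^ e * D u) ≤ exp (-((e : ℤ) - 1)) * exp (n : ℤ) := by
      refine (w.map_sub _ _).trans (max_le hDπ ?_)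
      rw [map_mul, map_pow, hϖ, ← exp_nsmul]
      refine (mul_le_mul' le_rfl (H u hwu.le)).trans ?_
      rw [← exp_add, ← exp_add, exp_le_exp, nsmul_eq_mul]
      omega
    rw [← h2, h3] at h4
    exact (mul_le_mul_iff_right₀ (by exact exp_pos)).1 h4
  have hm : ∀ x, w x < 1 → w (D x) ≤ exp (n : ℤ) := by
    intro x hx
    set c := x / ϖ with hc
    have hxc : x = c * ϖ := by rw [hc, div_mul_cancel₀ _ hϖ0]
    have hwc : w c ≤ 1 := by
      rcases eq_or_ne x 0 with rfl | hx0
      · rw [hc, zero_div, map_zero]; exact zero_le_one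
      have h0 : w x ≠ 0 := (w.ne_zero_iff).2 hx0
      have h1 : w x = exp (log (w x)) := (exp_log h0).symm
      rw [h1, ← exp_zero, exp_lt_exp] at hx
      rw [hc, map_div₀, hϖ, h1, ← exp_sub, ← exp_zero, exp_le_exp]
      omega
    rw [hxc, Derivation.leibniz]
    refine (w.map_add _ _).trans (max_le ?_ ?_)
    · rw [smul_eq_mul, map_mul]
      exact (mul_le_mul' hwc hDϖ).trans (by rw [one_mul])
    · rw [smul_eq_mul, map_mul, hϖ]
      refine (mul_le_mul' le_rfl (H c hwc)).trans ?_
      rw [← exp_add, exp_le_exp]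
      omega
  obtain ⟨P, hP1, hP2, hP3⟩ := hmon b
  have h1 := D1_eval D (algebraMap B L b) P
  have h2 : P.derivative.eval (algebraMap B L b) * D (algebraMap B L b) =
      D (P.eval (algebraMap B L b)) - (P.sum fun i a => D a * (algebraMap B L b) ^ i) := by
    rw [h1]; ring
  have h3 : w (D (algebraMap B L b)) =
      w (P.derivative.eval (algebraMap B L b) * D (algebraMap B L b)) := by
    rw [map_mul, hP3, one_mul]
  rw [h3, h2]
  refine (w.map_sub _ _).trans (max_le (hm _ hP2) (le_trans ?_ one_le))
  rw [Polynomial.sum_def]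
  refine w.map_sum_le fun i _ => ?_
  rw [map_mul, map_pow]
  exact mul_le_one' (hR _ (hDR _ (hP1 i))) (pow_le_one' (v.valuation_le_one b) i)

/-- A monic polynomial of least degree with value in the prime has unit derivative. -/
theorem D1_monic {A B L : Type} [CommRing A] [IsDomain A] [CommRing B] [IsDedekindDomain B] [Field L]
    [Algebra A B] [Algebra B L] [Algebra A L] [IsScalarTower A B L] [IsFractionRing B L]
    [Algebra.IsIntegral A B] [CharZero A]
    (v : HeightOneSpectrum B) (hQ : ∀ n : ℕ, n ≠ 0 → IsUnit (n : A)) (b : B) :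
    ∃ P : L[X], (∀ i, P.coeff i ∈ (algebraMap A L).range) ∧
      v.valuation L (P.eval (algebraMap B L b)) < 1 ∧
      v.valuation L (P.derivative.eval (algebraMap B L b)) = 1 := by
  classical
  have hex : ∃ n : ℕ, ∃ P : A[X], P.Monic ∧ P.natDegree = n ∧ aeval b P ∈ v.asIdeal := by
    obtain ⟨P, hP, hP0⟩ := Algebra.IsIntegral.isIntegral (R := A) b
    exact ⟨P.natDegree, P, hP, rfl, by rw [aeval_def, hP0]; exact v.asIdeal.zero_mem⟩
  obtain ⟨P, hPm, hPn, hP⟩ := Nat.find_spec hex
  have hmin := fun m hm => Nat.find_min hex (m := m) hm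
  set n := Nat.find hex
  have hn : n ≠ 0 := by
    intro h0
    have h1 : P = 1 := hPm.natDegree_eq_zero.1 (hPn.trans h0)
    rw [h1, map_one] at hP
    exact v.isPrime.ne_top ((Ideal.eq_top_iff_one _).2 hP)
  have hval : ∀ Q : A[X], v.valuation L ((Q.map (algebraMap A L)).eval (algebraMap B L b)) =
      v.valuation L (algebraMap B L (aeval b Q)) := by
    intro Q
    rw [eval_map_algebraMap, ← Polynomial.aeval_algebraMap_apply]
  refine ⟨P.map (algebraMap A L), ?_, ?_, ?_⟩
  · intro i
    rw [coeff_map]
    exact ⟨_, rfl⟩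
  · rw [hval, v.valuation_lt_one_iff_mem]
    exact hP
  · rw [derivative_map, hval, v.valuation_eq_one_iff_notMem]
    intro hD
    obtain ⟨u, hu⟩ := hQ n hn
    have hQm : (C (↑u⁻¹ : A) * derivative P).Monic := by
      refine monic_of_natDegree_le_of_coeff_eq_one (n - 1) ?_ ?_
      · refine (natDegree_C_mul_le _ _).trans ?_
        rw [← hPn]
        exact natDegree_derivative_le P
      · rw [coeff_C_mul, coeff_derivative]
        have h1 : n - 1 + 1 = n := Nat.succ_pred_eq_of_pos (Nat.pos_of_ne_zero hn)
        have h2 : P.coeff (n - 1 + 1) = 1 := by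
          rw [h1, ← hPn]; exact hPm.coeff_natDegree
        have h3 : ((n - 1 : ℕ) : A) + 1 = (n : A) := by
          exact_mod_cast congrArg (Nat.cast (R := A)) h1
        rw [h2, one_mul, h3, ← hu, Units.inv_mul]
    have hQd : (C (↑u⁻¹ : A) * derivative P).natDegree < n := by
      refine lt_of_le_of_lt (natDegree_C_mul_le _ _) (lt_of_le_of_lt (natDegree_derivative_le P) ?_)
      rw [hPn]
      omega
    refine hmin _ hQd ⟨_, hQm, rfl, ?_⟩
    rw [map_mul]
    exact v.asIdeal.mul_mem_left _ hD

/-- A derivation preserving a discrete valuation ring of residue characteristic zero preserves its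
integral closure in a finite extension if it is logarithmic or if the extension is unramified. -/
theorem isIntegral_derivation (K L : Type) [Field K] [CharZero K] [Field L] [Algebra K L]
    [FiniteDimensional K L] (O : ValuationSubring K) (π : K) (hπ : IsUnif O π)
    (hQ : ∀ n : ℕ, n ≠ 0 → ((n : K)⁻¹) ∈ O) (D : Derivation ℤ L L)
    (hD : ∀ a ∈ O, ∃ b ∈ O, D (algebraMap K L a) = algebraMap K L b)
    (h : (∃ c ∈ O, D (algebraMap K L π) = algebraMap K L (c * π)) ∨
      ∀ W : ValuationSubring L, W.comap (algebraMap K L) = O → Unram W (algebraMap K L π))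
    (z : L) (hz : IsIntegral O z) : IsIntegral O (D z) := by
  classical
  have := D1_isDVR O π hπ
  obtain ⟨hπO, hπ0, hπi, hπf⟩ := hπ
  have : Algebra.IsSeparable K L := inferInstance
  let B := integralClosure O L
  have : IsDedekindDomain B := integralClosure.isDedekindDomain O K L
  have : IsFractionRing B L := integralClosure.isFractionRing_of_finite_extension K L
  have : Module.Finite O B := IsIntegralClosure.finite O K L B
  have : Algebra.IsIntegral O B := IsIntegralClosure.isIntegral_algebra O L
  have hOcast : ∀ a : O, algebraMap B L (algebraMap O B a) = algebraMap K L (a : K) := fun a => rfl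
  have hle : ∀ (v : HeightOneSpectrum B), ∀ a ∈ O, v.valuation L (algebraMap K L a) ≤ 1 := by
    intro v a ha
    exact v.valuation_le_one (K := L) (algebraMap O B ⟨a, ha⟩)
  have hunit : ∀ (v : HeightOneSpectrum B), ∀ u ∈ O, u⁻¹ ∈ O → u ≠ 0 →
      v.valuation L (algebraMap K L u) = 1 := by
    intro v u hu hui hu0
    refine le_antisymm (hle v u hu) ?_
    have h1 := hle v _ hui
    rw [map_inv₀, map_inv₀] at h1
    have h2 : v.valuation L (algebraMap K L u) ≠ 0 := by
      rw [(v.valuation L).ne_zero_iff]
      exact fun h => hu0 ((algebraMap K L).injective (by rw [h, map_zero]))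
    by_contra hlt
    rw [not_le] at hlt
    have h3 := mul_lt_mul_of_pos_right hlt (zero_lt_iff.2 (inv_ne_zero h2))
    rw [mul_inv_cancel₀ h2, one_mul] at h3
    exact absurd h1 (not_le.2 h3)
  have hπlt : ∀ (v : HeightOneSpectrum B), v.valuation L (algebraMap K L π) < 1 := by
    intro v
    have h1 := Ideal.IsIntegral.comap_ne_bot O v.ne_bot
    obtain ⟨a, ha, ha0⟩ := (Submodule.ne_bot_iff _).1 h1
    have ha1 : v.valuation L (algebraMap K L (a : K)) < 1 := by
      rw [← hOcast, v.valuation_lt_one_iff_mem]
      exact ha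
    obtain ⟨n, u, hu, hui, hau⟩ := hπf a a.2 (fun h => ha0 (Subtype.ext h))
    have hu0 : u ≠ 0 := by
      rintro rfl
      rw [zero_mul] at hau
      exact ha0 (Subtype.ext hau)
    refine lt_of_le_of_ne (hle v π hπO) fun h2 => ?_
    rw [hau, map_mul, map_mul, hunit v u hu hui hu0, map_pow, map_pow, h2, one_pow, one_mul] at ha1
    exact lt_irrefl _ ha1
  have key : ∀ (v : HeightOneSpectrum B) (b : B), v.valuation L (D (algebraMap B L b)) ≤ 1 := by
    intro v
    -- a bound
    obtain ⟨N, hN⟩ : ∃ N : ℕ, ∀ b : B, v.valuation L (D (algebraMap B L b)) ≤ exp (N : ℤ) := by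
      obtain ⟨s, hs⟩ := (Module.Finite.fg_top : (⊤ : Submodule O B).FG)
      have hb : ∃ N : ℕ, ∀ b ∈ s, v.valuation L (D (algebraMap B L b)) ≤ exp (N : ℤ) := by
        clear hs
        induction s using Finset.induction_on with
        | empty => exact ⟨0, by simp⟩
        | insert a s _ ih =>
          obtain ⟨N, hN⟩ := ih
          obtain ⟨M, hM⟩ : ∃ M : ℕ, v.valuation L (D (algebraMap B L a)) ≤ exp (M : ℤ) := by
            rcases eq_or_ne (v.valuation L (D (algebraMap B L a))) 0 with h0 | h0
            · exact ⟨0, by rw [h0]; exact zero_le⟩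
            · refine ⟨(log (v.valuation L (D (algebraMap B L a)))).toNat, ?_⟩
              conv_lhs => rw [← exp_log h0]
              rw [exp_le_exp]
              exact Int.self_le_toNat _
          refine ⟨max M N, fun b hb => ?_⟩
          rcases Finset.mem_insert.1 hb with rfl | hb
          · refine hM.trans ?_
            rw [exp_le_exp]; exact_mod_cast le_max_left _ _
          · refine (hN b hb).trans ?_
            rw [exp_le_exp]; exact_mod_cast le_max_right _ _
      obtain ⟨N, hN⟩ := hb
      refine ⟨N, fun b => ?_⟩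
      have one_le : (1 : WithZero (Multiplicative ℤ)) ≤ exp (N : ℤ) := by
        rw [← exp_zero, exp_le_exp]; positivity
      have hbs : b ∈ Submodule.span O (s : Set B) := by rw [hs]; trivial
      induction hbs using Submodule.span_induction with
      | mem x hx => exact hN x hx
      | zero => rw [map_zero, map_zero, map_zero]; exact zero_le
      | add x y _ _ hx hy =>
        rw [map_add, map_add]
        exact ((v.valuation L).map_add _ _).trans (max_le hx hy)
      | smul a x _ hx =>
        obtain ⟨c, hc, hDc⟩ := hD a a.2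
        have h1 : algebraMap B L (a • x) = algebraMap K L (a : K) * algebraMap B L x := by
          rw [Algebra.smul_def, map_mul, hOcast]
        rw [h1, Derivation.leibniz, smul_eq_mul, smul_eq_mul, hDc]
        refine ((v.valuation L).map_add _ _).trans (max_le ?_ ?_)
        · rw [map_mul]
          exact (mul_le_mul' (hle v a a.2) hx).trans (by rw [one_mul])
        · rw [map_mul]
          exact (mul_le_one' (v.valuation_le_one x) (hle v c hc)).trans one_le
    -- descent
    have hdesc : ∀ j : ℕ, j ≤ N → ∀ b : B,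
        v.valuation L (D (algebraMap B L b)) ≤ exp ((N - j : ℕ) : ℤ) := by
      intro j
      induction j with
      | zero => intro _; simpa using hN
      | succ j ih =>
        intro hj
        have h1 := ih (by omega)
        refine D1_step v D (algebraMap O L).range ?_ ?_ (algebraMap K L π) (hπlt v) ?_ ?_ ?_ ?_
          (N - (j + 1)) ?_
        · rintro _ ⟨a, rfl⟩
          exact hle v a a.2
        · rintro _ ⟨a, rfl⟩
          obtain ⟨c, hc, hDc⟩ := hD a a.2
          exact ⟨⟨c, hc⟩, hDc.symm⟩
        · exact fun h => hπ0 ((algebraMap K L).injective (by rw [h, map_zero]))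
        · rcases h with ⟨c, hc, hDc⟩ | hW
          · left
            rw [hDc, map_mul, map_mul]
            exact (mul_le_mul' (hle v c hc) le_rfl).trans (by rw [one_mul])
          · right
            obtain ⟨c, hc, hDc⟩ := hD π hπO
            refine ⟨by rw [hDc]; exact hle v c hc, ?_⟩
            have hcomap : (v.valuation L).valuationSubring.comap (algebraMap K L) = O := by
              ext x
              rw [ValuationSubring.mem_comap, Valuation.mem_valuationSubring_iff]
              refine ⟨fun hx => ?_, fun hx => hle v x hx⟩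
              by_contra hxO
              have hxi : x⁻¹ ∈ O := (O.mem_or_inv_mem x).resolve_left hxO
              have hx0 : x ≠ 0 := by rintro rfl; exact hxO O.zero_mem
              obtain ⟨m, u, hu, hui, hxu⟩ := hπf _ hxi (inv_ne_zero hx0)
              have hu0 : u ≠ 0 := by
                rintro rfl; rw [zero_mul] at hxu; exact inv_ne_zero hx0 hxu
              have hm : m ≠ 0 := by
                rintro rfl
                rw [pow_zero, mul_one] at hxu
                rw [← hxu, inv_inv] at hui
                exact hxO hui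
              have h2 : v.valuation L (algebraMap K L x⁻¹) < 1 := by
                rw [hxu, map_mul, map_mul, hunit v u hu hui hu0, one_mul, map_pow, map_pow]
                exact pow_lt_one₀ zero_le (hπlt v) hm
              have h3 : v.valuation L (algebraMap K L x) * v.valuation L (algebraMap K L x⁻¹) = 1 := by
                rw [← map_mul, ← map_mul, mul_inv_cancel₀ hx0, map_one, map_one]
              have h4 : v.valuation L (algebraMap K L x) * v.valuation L (algebraMap K L x⁻¹) < 1 :=
                lt_of_le_of_lt (mul_le_mul' hx le_rfl) (by rw [one_mul]; exact h2)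
              exact absurd h3 h4.ne
            have hU := hW _ hcomap
            intro t ht
            have hequiv := (v.valuation L).isEquiv_valuation_valuationSubring
            rw [hequiv.le_iff_le]
            apply hU
            rw [← hequiv.lt_one_iff_lt_one]
            exact ht
        · intro b
          have : CharZero O := inferInstance
          exact D1_monic v (fun n hn => by
            refine IsUnit.of_mul_eq_one ⟨(n : K)⁻¹, hQ n hn⟩ (Subtype.ext ?_)
            show ((n : O) : K) * (n : K)⁻¹ = 1
            rw [show ((n : O) : K) = (n : K) from rfl]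
            exact mul_inv_cancel₀ (Nat.cast_ne_zero.2 hn)) b
        · intro m hm
          have h2 := hunit v (m : K) (by
            have : ((m : O) : K) ∈ O := (m : O).2
            exact this) (hQ m hm) (Nat.cast_ne_zero.2 hm)
          rwa [map_natCast] at h2
        · intro b
          refine (h1 b).trans ?_
          rw [exp_le_exp]
          omega
    intro b
    have := hdesc N le_rfl b
    simpa using this
  have hmem : D z ∈ (algebraMap B L).range := by
    refine HeightOneSpectrum.mem_integers_of_valuation_le_one L (D z) fun v => ?_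
    exact key v ⟨z, hz⟩
  obtain ⟨y, hy⟩ := hmem
  rw [← hy]
  exact y.2

end Pool.Agent.LibHP
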