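import Pool.Agent.LibHP2.Defs

set_option autoImplicit false

namespace Pool.Agent.LibHP

/-- The localization of a unique factorization domain at a prime element, as a valuation ring. -/
def D2b_ring {A M : Type} [CommRing A] [IsDomain A] [UniqueFactorizationMonoid A] [Field M]
    [Algebra A M] [IsFractionRing A M] (π : A) (hπ : Prime π) : ValuationSubring M where
  carrier := {z | ∃ p q : A, ¬ π ∣ q ∧ z * algebraMap A M q = algebraMap A M p}
  mul_mem' := by
    rintro x y ⟨p, q, hq, h⟩ ⟨p', q', hq', h'⟩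
    refine ⟨p * p', q * q', fun hd => (hπ.dvd_or_dvd hd).elim hq hq', ?_⟩
    rw [map_mul, map_mul, ← h, ← h']; ring
  one_mem' := ⟨1, 1, fun hd => hπ.not_isUnit (isUnit_of_dvd_one hd), by simp⟩
  add_mem' := by
    rintro x y ⟨p, q, hq, h⟩ ⟨p', q', hq', h'⟩
    refine ⟨p * q' + p' * q, q * q', fun hd => (hπ.dvd_or_dvd hd).elim hq hq', ?_⟩
    rw [map_add, map_mul, map_mul, map_mul, ← h, ← h']; ring
  zero_mem' := ⟨0, 1, fun hd => hπ.not_isUnit (isUnit_of_dvd_one hd), by simp⟩
  neg_mem' := by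
    rintro x ⟨p, q, hq, h⟩
    exact ⟨-p, q, hq, by rw [map_neg, ← h]; ring⟩
  mem_or_inv_mem' := by
    intro z
    obtain ⟨n, d, hco, hz'⟩ := IsFractionRing.exists_reduced_fraction (A := A) z
    have hz : z * algebraMap A M (d : A) = algebraMap A M n := by
      rw [← hz', IsLocalization.mk'_spec]
    by_cases hd : π ∣ (d : A)
    · right
      have hn : ¬ π ∣ n := fun hn => hπ.not_isUnit (hco hn hd)
      refine ⟨(d : A), n, hn, ?_⟩
      rw [← hz]
      have hz0 : z ≠ 0 := by
        intro h0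
        apply hn
        rw [h0, zero_mul] at hz
        have h1 : n = 0 := (IsFractionRing.injective A M) (by rw [← hz, map_zero])
        rw [h1]
        exact dvd_zero _
      rw [← mul_assoc, inv_mul_cancel₀ hz0, one_mul]
    · left
      exact ⟨_, _, hd, hz⟩

theorem D2b_mem {A M : Type} [CommRing A] [IsDomain A] [UniqueFactorizationMonoid A] [Field M]
    [Algebra A M] [IsFractionRing A M] (π : A) (hπ : Prime π) (z : M) :
    z ∈ D2b_ring (M := M) π hπ ↔
      ∃ p q : A, ¬ π ∣ q ∧ z * algebraMap A M q = algebraMap A M p := Iff.rfl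

/-- The valuation ring of an irreducible polynomial. -/
theorem exists_valPoly (k : Type) [Field k] [CharZero k] (m : ℕ) (M : Type) [Field M]
    [Algebra (MvPolynomial (Fin m) k) M] [IsFractionRing (MvPolynomial (Fin m) k) M]
    (π : MvPolynomial (Fin m) k) (hπ : Irreducible π) :
    ∃ O : ValuationSubring M,
      IsUnif O (algebraMap (MvPolynomial (Fin m) k) M π) ∧
      (∀ z : M, z ∈ O ↔ ∃ p q : MvPolynomial (Fin m) k, ¬ π ∣ q ∧
        z * algebraMap (MvPolynomial (Fin m) k) M q = algebraMap (MvPolynomial (Fin m) k) M p) ∧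
      (∀ p : MvPolynomial (Fin m) k,
        O.valuation (algebraMap (MvPolynomial (Fin m) k) M p) < 1 ↔ π ∣ p) := by
  have hp : Prime π := hπ.prime
  have hinj := IsFractionRing.injective (MvPolynomial (Fin m) k) M
  have hne : ∀ p : MvPolynomial (Fin m) k, p ≠ 0 →
      algebraMap (MvPolynomial (Fin m) k) M p ≠ 0 := fun p h0 h =>
    h0 (hinj (by rw [h, map_zero]))
  have h1 : ¬ π ∣ 1 := fun hd => hp.not_isUnit (isUnit_of_dvd_one hd)
  refine ⟨D2b_ring π hp, ⟨?_, hne _ hp.ne_zero, ?_, ?_⟩, fun z => Iff.rfl, ?_⟩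
  · exact ⟨π, 1, h1, by simp⟩
  · rintro ⟨p, q, hq, h⟩
    apply hq
    refine ⟨p, hinj ?_⟩
    rw [map_mul, ← h, ← mul_assoc, mul_inv_cancel₀ (hne _ hp.ne_zero), one_mul]
  · rintro a ⟨p, q, hq, h⟩ ha
    have hq0 : q ≠ 0 := fun h0 => hq (h0 ▸ dvd_zero _)
    have hp0 : p ≠ 0 := by
      rintro rfl
      rw [map_zero] at h
      rcases mul_eq_zero.1 h with h | h
      · exact ha h
      · exact hne _ hq0 h
    obtain ⟨n, c, hc, hpc⟩ := WfDvdMonoid.max_power_factor hp0 hπ
    have hc0 : c ≠ 0 := fun h0 => hc (h0 ▸ dvd_zero _)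
    refine ⟨n, a / (algebraMap (MvPolynomial (Fin m) k) M π) ^ n, ?_, ?_, ?_⟩
    · refine ⟨c, q, hq, ?_⟩
      rw [div_mul_eq_mul_div, h, hpc, map_mul, map_pow, mul_div_cancel_left₀]
      exact pow_ne_zero _ (hne _ hp.ne_zero)
    · refine ⟨q, c, hc, ?_⟩
      rw [hpc, map_mul, map_pow] at h
      rw [inv_div, div_mul_eq_mul_div, ← h, mul_div_cancel_left₀ _ ha]
    · rw [div_mul_cancel₀]
      exact pow_ne_zero _ (hne _ hp.ne_zero)
  · intro p
    by_cases hp0 : p = 0
    · subst hp0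
      simp
    · have hv : (D2b_ring (M := M) π hp).valuation (algebraMap (MvPolynomial (Fin m) k) M p) < 1 ↔
          ¬ (algebraMap (MvPolynomial (Fin m) k) M p)⁻¹ ∈ D2b_ring (M := M) π hp := by
        rw [← ValuationSubring.valuation_le_one_iff, map_inv₀, not_le]
        have h0 : (D2b_ring (M := M) π hp).valuation (algebraMap (MvPolynomial (Fin m) k) M p) ≠ 0 :=
          (map_ne_zero _).2 (hne _ hp0)
        rw [one_lt_inv₀ (zero_lt_iff.2 h0)]
      rw [hv]
      constructor
      · intro h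
        by_contra hd
        exact h ⟨1, p, hd, by rw [map_one, inv_mul_cancel₀ (hne _ hp0)]⟩
      · rintro hd ⟨p', q, hq, h⟩
        apply hq
        refine hd.trans ⟨p', hinj ?_⟩
        rw [map_mul, ← h, ← mul_assoc, mul_inv_cancel₀ (hne _ hp0), one_mul]

end Pool.Agent.LibHP
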