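import Pool.Agent.LibHP2.Defs

set_option autoImplicit false

namespace Pool.Agent.LibHP

open MvPolynomial

theorem D2a_totalDegree_mul {k : Type} [Field k] {n : ℕ} {p q : MvPolynomial (Fin n) k}
    (hp : p ≠ 0) (hq : q ≠ 0) : (p * q).totalDegree = p.totalDegree + q.totalDegree :=
  totalDegree_mul_of_isDomain hp hq

theorem D2a_totalDegree_pderiv {k : Type} [Field k] {n : ℕ} (i : Fin n)
    (p : MvPolynomial (Fin n) k) :
    pderiv i p = 0 ∨ (pderiv i p).totalDegree + 1 ≤ p.totalDegree := by
  by_cases h : pderiv i p = 0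
  · exact Or.inl h
  right
  obtain ⟨s, hs, hsd⟩ : ∃ s ∈ (pderiv i p).support,
      (pderiv i p).totalDegree = s.sum fun _ e => e := by
    have hne : (pderiv i p).support.Nonempty := by
      rwa [Finset.nonempty_iff_ne_empty, Ne, support_eq_empty]
    obtain ⟨s, hs, h2⟩ := Finset.exists_mem_eq_sup (pderiv i p).support hne
      (fun s => s.sum fun _ e => e)
    exact ⟨s, hs, h2⟩
  have hs2 : s + Finsupp.single i 1 ∈ p.support := by
    rw [mem_support_iff] at hs ⊢
    intro h0
    apply hs
    rw [coeff_pderiv, h0, zero_mul]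
  have := le_totalDegree hs2
  rw [Finsupp.sum_add_index' (fun _ => rfl) (fun _ _ _ => rfl)] at this
  simp only [Finsupp.sum_single_index] at this
  omega

section

variable {k : Type} [Field k] {n : ℕ} {M : Type} [Field M]
    [Algebra (MvPolynomial (Fin n) k) M] [IsFractionRing (MvPolynomial (Fin n) k) M]

theorem D2a_inj : Function.Injective (algebraMap (MvPolynomial (Fin n) k) M) :=
  IsFractionRing.injective _ _

theorem D2a_ne {q : MvPolynomial (Fin n) k} (hq : q ≠ 0) :
    algebraMap (MvPolynomial (Fin n) k) M q ≠ 0 := by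
  rw [Ne, map_eq_zero_iff _ D2a_inj]; exact hq

/-- membership in the valuation ring at infinity -/
def D2a_mem (k : Type) [Field k] (n : ℕ) {M : Type} [Field M]
    [Algebra (MvPolynomial (Fin n) k) M] (z : M) : Prop :=
  ∃ p q : MvPolynomial (Fin n) k, q ≠ 0 ∧
    z * algebraMap (MvPolynomial (Fin n) k) M q = algebraMap (MvPolynomial (Fin n) k) M p ∧
    p.totalDegree ≤ q.totalDegree

theorem D2a_mem_iff {z : M} {p q : MvPolynomial (Fin n) k} (hq : q ≠ 0)
    (hz : z * algebraMap (MvPolynomial (Fin n) k) M q = algebraMap (MvPolynomial (Fin n) k) M p) :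
    D2a_mem k n z ↔ p.totalDegree ≤ q.totalDegree := by
  constructor
  · rintro ⟨p', q', hq', hz', hd⟩
    by_cases hp : p = 0
    · simp [hp]
    have hz0 : z ≠ 0 := by
      rintro rfl
      rw [zero_mul] at hz
      exact D2a_ne (M := M) hp hz.symm
    have hp' : p' ≠ 0 := by
      rintro rfl
      rw [map_zero] at hz'
      exact mul_ne_zero hz0 (D2a_ne hq') hz'
    have hcross : p * q' = p' * q := by
      apply D2a_inj (M := M)
      rw [map_mul, map_mul, ← hz, ← hz']; ring
    have := congrArg totalDegree hcross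
    rw [D2a_totalDegree_mul hp hq', D2a_totalDegree_mul hp' hq] at this
    omega
  · intro h
    exact ⟨p, q, hq, hz, h⟩

/-- the valuation ring at infinity -/
def D2a_O (k : Type) [Field k] (n : ℕ) (M : Type) [Field M]
    [Algebra (MvPolynomial (Fin n) k) M] [IsFractionRing (MvPolynomial (Fin n) k) M] :
    ValuationSubring M where
  carrier := {z | D2a_mem k n z}
  mul_mem' := by
    rintro a b ⟨p, q, hq, hz, hd⟩ ⟨p', q', hq', hz', hd'⟩
    refine ⟨p * p', q * q', mul_ne_zero hq hq', ?_, ?_⟩
    · rw [map_mul, map_mul, ← hz, ← hz']; ring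
    · rw [D2a_totalDegree_mul hq hq']
      exact (totalDegree_mul _ _).trans (by omega)
  one_mem' := ⟨1, 1, one_ne_zero, by simp, le_rfl⟩
  add_mem' := by
    rintro a b ⟨p, q, hq, hz, hd⟩ ⟨p', q', hq', hz', hd'⟩
    refine ⟨p * q' + p' * q, q * q', mul_ne_zero hq hq', ?_, ?_⟩
    · rw [map_mul, map_add, map_mul, map_mul, ← hz, ← hz']; ring
    · rw [D2a_totalDegree_mul hq hq']
      refine (totalDegree_add _ _).trans (max_le ?_ ?_)
      · exact (totalDegree_mul _ _).trans (by omega)
      · exact (totalDegree_mul _ _).trans (by omega)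
  zero_mem' := ⟨0, 1, one_ne_zero, by simp, by simp⟩
  neg_mem' := by
    rintro a ⟨p, q, hq, hz, hd⟩
    refine ⟨-p, q, hq, ?_, ?_⟩
    · rw [map_neg, ← hz]; ring
    · rwa [totalDegree_neg]
  mem_or_inv_mem' := by
    intro z
    obtain ⟨p, q, hq, hz⟩ := IsFractionRing.div_surjective (A := MvPolynomial (Fin n) k) z
    have hq0 : q ≠ 0 := nonZeroDivisors.ne_zero hq
    have hq1 := D2a_ne (M := M) hq0
    by_cases hp : p = 0
    · left
      refine ⟨0, 1, one_ne_zero, ?_, by simp⟩
      rw [← hz, hp]; simp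
    have hp1 := D2a_ne (M := M) hp
    rcases le_total p.totalDegree q.totalDegree with h | h
    · left
      refine ⟨p, q, hq0, ?_, h⟩
      rw [← hz, div_mul_cancel₀ _ hq1]
    · right
      refine ⟨q, p, hp, ?_, h⟩
      rw [← hz, inv_div, div_mul_cancel₀ _ hp1]

theorem D2a_mem_O {z : M} {p q : MvPolynomial (Fin n) k} (hq : q ≠ 0)
    (hz : z * algebraMap (MvPolynomial (Fin n) k) M q = algebraMap (MvPolynomial (Fin n) k) M p) :
    z ∈ D2a_O k n M ↔ p.totalDegree ≤ q.totalDegree :=
  D2a_mem_iff hq hz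

end

/-- The valuation ring of the hyperplane at infinity of affine space. -/
theorem exists_valInf (k : Type) [Field k] [CharZero k] (m : ℕ) (M : Type) [Field M]
    [Algebra (MvPolynomial (Fin (m + 1)) k) M] [IsFractionRing (MvPolynomial (Fin (m + 1)) k) M] :
    ∃ O : ValuationSubring M,
      IsUnif O (algebraMap (MvPolynomial (Fin (m + 1)) k) M (MvPolynomial.X 0))⁻¹ ∧
      (∀ c : k, algebraMap (MvPolynomial (Fin (m + 1)) k) M (MvPolynomial.C c) ∈ O) ∧
      (∀ p : MvPolynomial (Fin (m + 1)) k,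
        algebraMap (MvPolynomial (Fin (m + 1)) k) M p *
          ((algebraMap (MvPolynomial (Fin (m + 1)) k) M (MvPolynomial.X 0))⁻¹) ^ p.totalDegree
            ∈ O) ∧
      (∀ p : MvPolynomial (Fin (m + 1)) k,
        algebraMap (MvPolynomial (Fin (m + 1)) k) M (p * MvPolynomial.X 0) ∈ O → p = 0) ∧
      (∀ (i : Fin (m + 1)) (D : Derivation ℤ M M),
        (∀ p : MvPolynomial (Fin (m + 1)) k,
          D (algebraMap (MvPolynomial (Fin (m + 1)) k) M p) =
            algebraMap (MvPolynomial (Fin (m + 1)) k) M (MvPolynomial.pderiv i p)) →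
        ∀ f ∈ O, algebraMap (MvPolynomial (Fin (m + 1)) k) M (MvPolynomial.X 0) * D f ∈ O) := by
  have hX0 : (X 0 : MvPolynomial (Fin (m + 1)) k) ≠ 0 := X_ne_zero 0
  have hX : algebraMap (MvPolynomial (Fin (m + 1)) k) M (X 0) ≠ 0 := D2a_ne hX0
  have hdX : ∀ d : ℕ, ((X 0 : MvPolynomial (Fin (m + 1)) k) ^ d).totalDegree = d :=
    fun d => totalDegree_X_pow 0 d
  refine ⟨D2a_O k (m + 1) M, ⟨?_, inv_ne_zero hX, ?_, ?_⟩, ?_, ?_, ?_, ?_⟩
  · rw [D2a_mem_O (p := 1) (q := X 0) hX0 (by rw [inv_mul_cancel₀ hX, map_one])]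
    simp
  · rw [inv_inv, D2a_mem_O (p := X 0) (q := 1) one_ne_zero (by rw [map_one, mul_one])]
    simp
  · intro a ha ha0
    obtain ⟨p, q, hq, hz, hd⟩ := ha
    have hp : p ≠ 0 := by
      rintro rfl
      rw [map_zero] at hz
      exact mul_ne_zero ha0 (D2a_ne hq) hz
    have hpX : p * X 0 ^ (q.totalDegree - p.totalDegree) ≠ 0 := mul_ne_zero hp (pow_ne_zero _ hX0)
    refine ⟨q.totalDegree - p.totalDegree,
      a * algebraMap (MvPolynomial (Fin (m + 1)) k) M (X 0) ^ (q.totalDegree - p.totalDegree),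
      ?_, ?_, ?_⟩
    · rw [D2a_mem_O (p := p * X 0 ^ (q.totalDegree - p.totalDegree)) (q := q) hq
        (by rw [map_mul, map_pow, ← hz]; ring)]
      rw [D2a_totalDegree_mul hp (pow_ne_zero _ hX0), hdX]
      omega
    · rw [D2a_mem_O (q := p * X 0 ^ (q.totalDegree - p.totalDegree)) (p := q) hpX
        (by
          rw [map_mul, map_pow, ← hz]
          have : a * algebraMap (MvPolynomial (Fin (m + 1)) k) M (X 0) ^
            (q.totalDegree - p.totalDegree) ≠ 0 := mul_ne_zero ha0 (pow_ne_zero _ hX)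
          field_simp)]
      rw [D2a_totalDegree_mul hp (pow_ne_zero _ hX0), hdX]
      omega
    · rw [mul_assoc, ← mul_pow, mul_inv_cancel₀ hX, one_pow, mul_one]
  · intro c
    rw [D2a_mem_O (p := C c) (q := 1) one_ne_zero (by rw [map_one, mul_one])]
    simp
  · intro p
    rw [D2a_mem_O (p := p) (q := X 0 ^ p.totalDegree) (pow_ne_zero _ hX0)
      (by rw [map_pow, mul_assoc, ← mul_pow, inv_mul_cancel₀ hX, one_pow, mul_one])]
    rw [hdX]
  · intro p hp
    rw [D2a_mem_O (p := p * X 0) (q := 1) one_ne_zero (by rw [map_one, mul_one])] at hp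
    by_contra hp0
    rw [D2a_totalDegree_mul hp0 hX0, totalDegree_X] at hp
    simp at hp
  · intro i D hD f hf
    obtain ⟨p, q, hq, hz, hd⟩ := hf
    have hDz : D f * algebraMap (MvPolynomial (Fin (m + 1)) k) M (q * q) =
        algebraMap (MvPolynomial (Fin (m + 1)) k) M (pderiv i p * q - p * pderiv i q) := by
      have h1 := congrArg D hz
      rw [Derivation.leibniz, hD, hD, smul_eq_mul, smul_eq_mul] at h1
      rw [map_mul, map_sub, map_mul, map_mul, ← hz, ← h1]
      ring
    have hqq : q * q ≠ 0 := mul_ne_zero hq hq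
    rw [D2a_mem_O (p := X 0 * (pderiv i p * q - p * pderiv i q)) (q := q * q) hqq
      (by rw [mul_assoc, hDz, map_mul])]
    rw [D2a_totalDegree_mul hq hq]
    by_cases h0 : pderiv i p * q - p * pderiv i q = 0
    · rw [h0]; simp
    rw [D2a_totalDegree_mul hX0 h0, totalDegree_X]
    have hA : (pderiv i p * q) = 0 ∨ (pderiv i p * q).totalDegree + 1 ≤
        q.totalDegree + q.totalDegree := by
      rcases D2a_totalDegree_pderiv i p with h | h
      · left; rw [h, zero_mul]
      · right
        have := totalDegree_mul (pderiv i p) q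
        omega
    have hB : (p * pderiv i q) = 0 ∨ (p * pderiv i q).totalDegree + 1 ≤
        q.totalDegree + q.totalDegree := by
      rcases D2a_totalDegree_pderiv i q with h | h
      · left; rw [h, mul_zero]
      · right
        have := totalDegree_mul p (pderiv i q)
        omega
    have hS := totalDegree_sub (pderiv i p * q) (p * pderiv i q)
    rcases hA with hA | hA
    · rcases hB with hB | hB
      · exact absurd (by rw [hA, hB, sub_zero]) h0
      · rw [hA, zero_sub, totalDegree_neg]
        omega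
    · rcases hB with hB | hB
      · rw [hB, sub_zero]; omega
      · have := max_lt_iff.mpr ⟨Nat.lt_of_succ_le hA, Nat.lt_of_succ_le hB⟩
        omega

end Pool.Agent.LibHP
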