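import Pool.Agent.LibHP2.Defs

set_option autoImplicit false

namespace Pool.Agent.LibHP

/-- the operator dividing the coefficient at `s` by `|s| + a` -/
noncomputable def D3a_phi (k : Type) [Field k] (m : ℕ) (a : ℕ) :
    MvPolynomial (Fin m) k →ₗ[k] MvPolynomial (Fin m) k :=
  (MvPolynomial.basisMonomials (Fin m) k).constr k
    (fun s => MvPolynomial.monomial s (1 / (((∑ i, s i : ℕ) : k) + a)))

theorem D3a_phi_monomial (k : Type) [Field k] (m : ℕ) (a : ℕ) (s : Fin m →₀ ℕ) :
    D3a_phi k m a (MvPolynomial.monomial s 1) =
      MvPolynomial.monomial s (1 / (((∑ i, s i : ℕ) : k) + a)) := by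
  have h := (MvPolynomial.basisMonomials (Fin m) k).constr_basis k
    (fun s => MvPolynomial.monomial s (1 / (((∑ i, s i : ℕ) : k) + a))) s
  rw [MvPolynomial.coe_basisMonomials] at h
  exact h

theorem D3a_pderiv_phi (k : Type) [Field k] [CharZero k] (m : ℕ) (j : Fin m)
    (p : MvPolynomial (Fin m) k) :
    MvPolynomial.pderiv j (D3a_phi k m 1 p) = D3a_phi k m 2 (MvPolynomial.pderiv j p) := by
  have key : ((MvPolynomial.pderiv j : Derivation k _ _) : MvPolynomial (Fin m) k →ₗ[k] _) ∘ₗ
      (D3a_phi k m 1) = (D3a_phi k m 2) ∘ₗ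
      ((MvPolynomial.pderiv j : Derivation k _ _) : MvPolynomial (Fin m) k →ₗ[k] _) := by
    refine (MvPolynomial.basisMonomials (Fin m) k).ext fun s => ?_
    rw [MvPolynomial.coe_basisMonomials]
    simp only [LinearMap.comp_apply, Derivation.coeFn_coe]
    rw [D3a_phi_monomial, MvPolynomial.pderiv_monomial, MvPolynomial.pderiv_monomial]
    have h1 : MvPolynomial.monomial (s - Finsupp.single j 1) ((1 : k) * (s j : k)) =
        (s j : k) • MvPolynomial.monomial (s - Finsupp.single j 1) (1 : k) := by
      rw [MvPolynomial.smul_monomial]; simp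
    rw [h1, map_smul, D3a_phi_monomial, MvPolynomial.smul_monomial]
    congr 1
    rcases Nat.eq_zero_or_pos (s j) with h0 | h0
    · rw [h0]; simp
    · have h2 : ∑ i, (s - Finsupp.single j 1 : Fin m →₀ ℕ) i + 1 = ∑ i, s i := by
        have h3 : s = (s - Finsupp.single j 1 : Fin m →₀ ℕ) + Finsupp.single j 1 := by
          ext i
          by_cases hi : i = j
          · subst hi; simp; omega
          · simp [Ne.symm hi]
        conv_rhs => rw [h3]
        simp only [Finsupp.add_apply, Finset.sum_add_distrib]
        congr 1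
        simp [Finsupp.single_apply]
      have h4 : ((∑ i, (s - Finsupp.single j 1 : Fin m →₀ ℕ) i : ℕ) : k) + 1 =
          ((∑ i, s i : ℕ) : k) := by
        exact_mod_cast h2
      rw [smul_eq_mul, ← h4]
      push_cast
      rw [mul_comm]
      congr 2
      ring
  have := LinearMap.congr_fun key p
  simpa only [LinearMap.comp_apply, Derivation.coeFn_coe] using this

theorem D3a_phi_euler (k : Type) [Field k] [CharZero k] (m : ℕ) (p : MvPolynomial (Fin m) k) :
    D3a_phi k m 1 p + ∑ i, MvPolynomial.X i * D3a_phi k m 2 (MvPolynomial.pderiv i p) = p := by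
  have key : (D3a_phi k m 1) + ∑ i, (LinearMap.mulLeft k (MvPolynomial.X i)) ∘ₗ
      ((MvPolynomial.pderiv i : Derivation k _ _) : MvPolynomial (Fin m) k →ₗ[k] _) ∘ₗ
      (D3a_phi k m 1) = LinearMap.id := by
    refine (MvPolynomial.basisMonomials (Fin m) k).ext fun s => ?_
    rw [MvPolynomial.coe_basisMonomials]
    simp only [LinearMap.add_apply, LinearMap.sum_apply, LinearMap.comp_apply,
      Derivation.coeFn_coe, LinearMap.mulLeft_apply, LinearMap.id_apply]
    rw [D3a_phi_monomial]
    simp only [MvPolynomial.X_mul_pderiv_monomial]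
    rw [← Finset.sum_smul]
    rw [MvPolynomial.smul_monomial, ← map_add]
    congr 1
    have hne : (((∑ i, s i : ℕ) : k) + ((1 : ℕ) : k)) ≠ 0 := by
      exact_mod_cast Nat.succ_ne_zero (∑ i, s i)
    rw [nsmul_eq_mul]
    field_simp
    push_cast
    ring
  have := LinearMap.congr_fun key p
  simp only [LinearMap.add_apply, LinearMap.sum_apply, LinearMap.comp_apply,
      Derivation.coeFn_coe, LinearMap.mulLeft_apply, LinearMap.id_apply] at this
  simp only [D3a_pderiv_phi] at this
  exact this

/-- Poincaré lemma for polynomials -/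
theorem D3a_poincare (k : Type) [Field k] [CharZero k] (m : ℕ) (g : Fin m → MvPolynomial (Fin m) k)
    (hg : ∀ i j, MvPolynomial.pderiv i (g j) = MvPolynomial.pderiv j (g i)) :
    ∃ G : MvPolynomial (Fin m) k, ∀ i, MvPolynomial.pderiv i G = g i := by
  refine ⟨∑ i, MvPolynomial.X i * D3a_phi k m 1 (g i), fun j => ?_⟩
  rw [map_sum]
  have h1 : ∀ i, MvPolynomial.pderiv j (MvPolynomial.X i * D3a_phi k m 1 (g i)) =
      (if i = j then D3a_phi k m 1 (g i) else 0) +
        MvPolynomial.X i * D3a_phi k m 2 (MvPolynomial.pderiv i (g j)) := by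
    intro i
    rw [MvPolynomial.pderiv_mul, D3a_pderiv_phi, hg j i]
    congr 1
    by_cases hij : i = j
    · subst hij; simp
    · rw [if_neg hij, MvPolynomial.pderiv_X_of_ne hij, zero_mul]
  simp_rw [h1]
  rw [Finset.sum_add_distrib, Finset.sum_ite_eq' Finset.univ j, if_pos (Finset.mem_univ j)]
  exact D3a_phi_euler k m (g j)

theorem D3a_totalDegree_pderiv (k : Type) [Field k] (m : ℕ) (i : Fin m)
    (q : MvPolynomial (Fin m) k) (h : MvPolynomial.pderiv i q ≠ 0) :
    (MvPolynomial.pderiv i q).totalDegree < q.totalDegree := by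
  have hne : (MvPolynomial.pderiv i q).support.Nonempty := by
    rwa [Finset.nonempty_iff_ne_empty, Ne, MvPolynomial.support_eq_empty]
  obtain ⟨s, hs, hs2⟩ := Finset.exists_mem_eq_sup _ hne (fun s : Fin m →₀ ℕ => s.sum fun _ e => e)
  have h1 : (MvPolynomial.pderiv i q).totalDegree = s.sum fun _ e => e := hs2
  rw [h1]
  rw [MvPolynomial.mem_support_iff, MvPolynomial.coeff_pderiv] at hs
  have h2 : MvPolynomial.coeff (s + Finsupp.single i 1) q ≠ 0 := left_ne_zero_of_mul hs
  have h3 := MvPolynomial.le_totalDegree (MvPolynomial.mem_support_iff.mpr h2)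
  have h4 : ((s + Finsupp.single i 1).sum fun _ e => e) = (s.sum fun _ e => e) + 1 := by
    rw [Finsupp.sum_add_index' (by simp) (by simp)]
    simp
  omega

theorem D3a_const_of_pderiv (k : Type) [Field k] [CharZero k] (m : ℕ)
    (p : MvPolynomial (Fin m) k) (h : ∀ i, MvPolynomial.pderiv i p = 0) :
    p = MvPolynomial.C (MvPolynomial.coeff 0 p) := by
  ext s
  rw [MvPolynomial.coeff_C]
  split_ifs with h0
  · rw [← h0]
  · have h1 : ∃ i, s i ≠ 0 := by
      by_contra hcon
      push Not at hcon
      apply h0
      ext i
      simp [hcon i]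
    obtain ⟨i, hi⟩ := h1
    have h2 := MvPolynomial.coeff_pderiv (i := i) p (s - Finsupp.single i 1)
    rw [h i] at h2
    have h3 : (s - Finsupp.single i 1) + Finsupp.single i 1 = s := by
      ext j
      by_cases hj : j = i
      · subst hj; simp; omega
      · simp [Ne.symm hj]
    rw [h3, MvPolynomial.coeff_zero] at h2
    have h4 : (((s - Finsupp.single i 1 : Fin m →₀ ℕ) i : ℕ) : k) + 1 ≠ 0 := by
      have h6 := Nat.succ_ne_zero ((s - Finsupp.single i (1 : ℕ) : Fin m →₀ ℕ) i)
      exact_mod_cast h6
    rcases mul_eq_zero.mp h2.symm with h5 | h5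
    · exact h5
    · exact absurd h5 h4

theorem D3a_const_frac (k : Type) [Field k] [CharZero k] (m : ℕ) (M : Type) [Field M]
    [Algebra (MvPolynomial (Fin m) k) M] [IsFractionRing (MvPolynomial (Fin m) k) M]
    (a : M) (h : ∀ (i : Fin m) (p q : MvPolynomial (Fin m) k),
      a * algebraMap (MvPolynomial (Fin m) k) M q = algebraMap (MvPolynomial (Fin m) k) M p →
      a * algebraMap (MvPolynomial (Fin m) k) M (MvPolynomial.pderiv i q) =
        algebraMap (MvPolynomial (Fin m) k) M (MvPolynomial.pderiv i p)) :
    ∃ e : k, a = algebraMap (MvPolynomial (Fin m) k) M (MvPolynomial.C e) := by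
  have hinj : Function.Injective (algebraMap (MvPolynomial (Fin m) k) M) :=
    IsFractionRing.injective _ _
  set p := IsFractionRing.num (MvPolynomial (Fin m) k) a with hp
  set q : MvPolynomial (Fin m) k := (IsFractionRing.den (MvPolynomial (Fin m) k) a : MvPolynomial (Fin m) k) with hq
  have hq0 : q ≠ 0 := nonZeroDivisors.ne_zero (IsFractionRing.den (MvPolynomial (Fin m) k) a).2
  have hrel : IsRelPrime p q := IsFractionRing.num_den_reduced (MvPolynomial (Fin m) k) a
  have hapq : a * algebraMap (MvPolynomial (Fin m) k) M q = algebraMap (MvPolynomial (Fin m) k) M p := by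
    have h1 := IsFractionRing.mk'_num_den' (MvPolynomial (Fin m) k) a
    rw [← hp, ← hq] at h1
    have h2 : algebraMap (MvPolynomial (Fin m) k) M q ≠ 0 := by
      rwa [Ne, ← map_zero (algebraMap (MvPolynomial (Fin m) k) M), hinj.eq_iff]
    rw [← h1, div_mul_cancel₀ _ h2]
  have hcross : ∀ i, p * MvPolynomial.pderiv i q = q * MvPolynomial.pderiv i p := by
    intro i
    apply hinj
    rw [map_mul, map_mul, ← hapq, ← h i p q hapq]
    ring
  have hq1 : ∀ i, MvPolynomial.pderiv i q = 0 := by
    intro i
    by_contra hne
    have h1 : q ∣ p * MvPolynomial.pderiv i q := ⟨_, hcross i⟩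
    have h2 : q ∣ MvPolynomial.pderiv i q := hrel.symm.dvd_of_dvd_mul_left h1
    obtain ⟨r, hr⟩ := h2
    have hr0 : r ≠ 0 := by
      rintro rfl
      rw [mul_zero] at hr
      exact hne hr
    have h3 := D3a_totalDegree_pderiv k m i q hne
    rw [hr, MvPolynomial.totalDegree_mul_of_isDomain hq0 hr0] at h3
    omega
  have hp1 : ∀ i, MvPolynomial.pderiv i p = 0 := by
    intro i
    have h1 := hcross i
    rw [hq1 i, mul_zero] at h1
    exact (mul_eq_zero.mp h1.symm).resolve_left hq0
  have hpC := D3a_const_of_pderiv k m p hp1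
  have hqC := D3a_const_of_pderiv k m q hq1
  set c := MvPolynomial.coeff 0 p
  set d := MvPolynomial.coeff 0 q
  have hd : d ≠ 0 := by
    intro hd
    rw [hd, map_zero] at hqC
    exact hq0 hqC
  refine ⟨c / d, ?_⟩
  have h2 : algebraMap (MvPolynomial (Fin m) k) M q ≠ 0 := by
    rwa [Ne, ← map_zero (algebraMap (MvPolynomial (Fin m) k) M), hinj.eq_iff]
  apply mul_right_cancel₀ h2
  rw [hapq, hpC, hqC, ← map_mul, ← map_mul, div_mul_cancel₀ _ hd]

/-- a derivation of `M'` killing `M` is zero -/
theorem D3a_derivation_zero (M : Type) [Field M] [CharZero M] (M' : Type) [Field M'] [Algebra M M']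
    [FiniteDimensional M M'] (δ : Derivation ℤ M' M') (h : ∀ a : M, δ (algebraMap M M' a) = 0)
    (z : M') : δ z = 0 := by
  let L : M' →ₗ[M] M' :=
    { toFun := δ
      map_add' := fun a b => map_add δ a b
      map_smul' := fun a b => by
        rw [Algebra.smul_def, δ.leibniz, h a, smul_zero, add_zero, RingHom.id_apply,
          smul_eq_mul, ← Algebra.smul_def] }
  let δ' : Derivation M M' M' := Derivation.mk' L (fun a b => δ.leibniz a b)
  have h1 : δ' (Polynomial.aeval z (minpoly M z)) =
      Polynomial.aeval z (Polynomial.derivative (minpoly M z)) • δ' z := δ'.map_aeval _ _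
  rw [minpoly.aeval, map_zero] at h1
  have hint : IsIntegral M z := Algebra.IsIntegral.isIntegral z
  have hsep : (minpoly M z).Separable := (minpoly.irreducible hint).separable
  have h2 : Polynomial.aeval z (Polynomial.derivative (minpoly M z)) ≠ 0 :=
    hsep.aeval_derivative_ne_zero (minpoly.aeval M z)
  have h3 : δ' z = 0 := by
    rw [smul_eq_mul] at h1
    exact (mul_eq_zero.mp h1.symm).resolve_left h2
  exact h3

/-- An element of a finite extension of `k(x_1, ..., x_m)` (in which `k` is algebraically closed)
killed by all derivatives of order `r` is a polynomial. -/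
theorem polynomial_of_nilpotent (k : Type) [Field k] [CharZero k] (m : ℕ) (M : Type) [Field M]
    [Algebra (MvPolynomial (Fin m) k) M] [IsFractionRing (MvPolynomial (Fin m) k) M]
    (M' : Type) [Field M'] [Algebra M M'] [FiniteDimensional M M']
    (hk : ∀ z : M', (∃ P : Polynomial k, P ≠ 0 ∧ P.eval₂ ((algebraMap M M').comp
        ((algebraMap (MvPolynomial (Fin m) k) M).comp MvPolynomial.C)) z = 0) →
      ∃ c : k, algebraMap M M' (algebraMap (MvPolynomial (Fin m) k) M (MvPolynomial.C c)) = z)
    (D : Fin m → Derivation ℤ M' M')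
    (hD : ∀ (i : Fin m) (p : MvPolynomial (Fin m) k),
      D i (algebraMap M M' (algebraMap (MvPolynomial (Fin m) k) M p)) =
        algebraMap M M' (algebraMap (MvPolynomial (Fin m) k) M (MvPolynomial.pderiv i p)))
    (r : ℕ) (b : M')
    (h : ∀ l : List (Fin m), l.length = r → l.foldr (fun i z => D i z) b = 0) :
    ∃ p : MvPolynomial (Fin m) k, algebraMap M M' (algebraMap (MvPolynomial (Fin m) k) M p) = b := by
  classical
  have hinj1 : Function.Injective (algebraMap (MvPolynomial (Fin m) k) M) :=
    IsFractionRing.injective _ _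
  have hinj2 : Function.Injective (algebraMap M M') := (algebraMap M M').injective
  have : CharZero M := charZero_of_injective_algebraMap hinj1
  -- the restriction of `D i` to `M`
  have hfrac : ∀ (i : Fin m) (a : M) (p q : MvPolynomial (Fin m) k),
      a * algebraMap (MvPolynomial (Fin m) k) M q = algebraMap (MvPolynomial (Fin m) k) M p →
      D i (algebraMap M M' a) * algebraMap M M' (algebraMap (MvPolynomial (Fin m) k) M q) =
        algebraMap M M' (algebraMap (MvPolynomial (Fin m) k) M (MvPolynomial.pderiv i p)) -
        algebraMap M M' a * algebraMap M M' (algebraMap (MvPolynomial (Fin m) k) M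
          (MvPolynomial.pderiv i q)) := by
    intro i a p q hapq
    have h1 := congrArg (fun x => D i (algebraMap M M' x)) hapq
    simp only [map_mul, (D i).leibniz, hD, smul_eq_mul] at h1
    rw [← h1]; ring
  have hdM : ∀ (i : Fin m) (a : M), ∃ a' : M, D i (algebraMap M M' a) = algebraMap M M' a' := by
    intro i a
    obtain ⟨p, q, hq, hpq⟩ := IsFractionRing.div_surjective (A := MvPolynomial (Fin m) k) a
    have hq0 : algebraMap (MvPolynomial (Fin m) k) M q ≠ 0 := by
      rw [Ne, ← map_zero (algebraMap (MvPolynomial (Fin m) k) M), hinj1.eq_iff]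
      exact nonZeroDivisors.ne_zero hq
    have hapq : a * algebraMap (MvPolynomial (Fin m) k) M q =
        algebraMap (MvPolynomial (Fin m) k) M p := by
      rw [← hpq, div_mul_cancel₀ _ hq0]
    have h1 := hfrac i a p q hapq
    have hq0' : algebraMap M M' (algebraMap (MvPolynomial (Fin m) k) M q) ≠ 0 := by
      rw [Ne, ← map_zero (algebraMap M M'), hinj2.eq_iff]
      exact hq0
    refine ⟨(algebraMap (MvPolynomial (Fin m) k) M (MvPolynomial.pderiv i p) -
      a * algebraMap (MvPolynomial (Fin m) k) M (MvPolynomial.pderiv i q)) /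
      algebraMap (MvPolynomial (Fin m) k) M q, ?_⟩
    rw [map_div₀, eq_div_iff hq0', h1, map_sub, map_mul]
  choose d hd using hdM
  -- commutation
  have hcomm : ∀ i j z, D i (D j z) = D j (D i z) := by
    intro i j z
    have h1 : ⁅D i, D j⁆ z = 0 := by
      refine D3a_derivation_zero M M' ⁅D i, D j⁆ ?_ z
      intro a
      obtain ⟨p, q, hq, hpq⟩ := IsFractionRing.div_surjective (A := MvPolynomial (Fin m) k) a
      have hq0 : algebraMap (MvPolynomial (Fin m) k) M q ≠ 0 := by
        rw [Ne, ← map_zero (algebraMap (MvPolynomial (Fin m) k) M), hinj1.eq_iff]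
        exact nonZeroDivisors.ne_zero hq
      have hq0' : algebraMap M M' (algebraMap (MvPolynomial (Fin m) k) M q) ≠ 0 := by
        rw [Ne, ← map_zero (algebraMap M M'), hinj2.eq_iff]
        exact hq0
      have hpoly : ∀ p : MvPolynomial (Fin m) k,
          ⁅D i, D j⁆ (algebraMap M M' (algebraMap (MvPolynomial (Fin m) k) M p)) = 0 := by
        intro p
        rw [Derivation.commutator_apply, hD, hD, hD, hD]
        have h5 : MvPolynomial.pderiv i (MvPolynomial.pderiv j p) =
            MvPolynomial.pderiv j (MvPolynomial.pderiv i p) := by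
          ext s
          simp only [MvPolynomial.coeff_pderiv]
          by_cases hij : i = j
          · subst hij; rfl
          · have e1 : s + Finsupp.single i 1 + Finsupp.single j 1 =
                s + Finsupp.single j 1 + Finsupp.single i 1 := by
              rw [add_assoc, add_assoc, add_comm (Finsupp.single i 1)]
            rw [e1]
            have e2 : (s + Finsupp.single i 1 : Fin m →₀ ℕ) j = s j := by
              simp [hij]
            have e3 : (s + Finsupp.single j 1 : Fin m →₀ ℕ) i = s i := by
              simp [Ne.symm hij]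
            rw [e2, e3]
            ring
        rw [h5, sub_self]
      have h2 : algebraMap M M' a = algebraMap M M' (algebraMap (MvPolynomial (Fin m) k) M p) /
          algebraMap M M' (algebraMap (MvPolynomial (Fin m) k) M q) := by
        rw [← hpq, map_div₀]
      rw [h2, Derivation.leibniz_div, hpoly, hpoly]
      simp
    rw [Derivation.commutator_apply] at h1
    exact sub_eq_zero.mp h1
  -- constants
  have hconst : ∀ c : M', (∀ i, D i c = 0) →
      ∃ e : k, algebraMap M M' (algebraMap (MvPolynomial (Fin m) k) M (MvPolynomial.C e)) = c := by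
    intro c hc
    apply hk c
    have hint : IsIntegral M c := Algebra.IsIntegral.isIntegral c
    have hcoef : ∀ (i : Fin m) (n : ℕ), D i (algebraMap M M' ((minpoly M c).coeff n)) = 0 := by
      intro i
      -- the polynomial with coefficients `d i`
      set f := minpoly M c with hf
      set g : Polynomial M := ∑ n ∈ Finset.range (f.natDegree), Polynomial.monomial n (d i (f.coeff n))
        with hg
      have hlead : D i (algebraMap M M' (f.coeff f.natDegree)) = 0 := by
        have : f.coeff f.natDegree = 1 := minpoly.monic hint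
        rw [this, map_one, Derivation.map_one_eq_zero]
      have h1 : Polynomial.aeval c g = 0 := by
        have h2 : D i (Polynomial.aeval c f) = 0 := by
          rw [hf, minpoly.aeval, map_zero]
        rw [Polynomial.aeval_eq_sum_range, map_sum] at h2
        have h3 : ∀ n, D i (f.coeff n • c ^ n) = D i (algebraMap M M' (f.coeff n)) * c ^ n := by
          intro n
          rw [Algebra.smul_def, (D i).leibniz, (D i).leibniz_pow, hc i]
          simp [mul_comm]
        simp_rw [h3] at h2
        rw [Finset.sum_range_succ, hlead, zero_mul, add_zero] at h2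
        rw [hg, map_sum]
        simp only [Polynomial.aeval_monomial]
        rw [← h2]
        refine Finset.sum_congr rfl fun n _ => ?_
        rw [hd]
      have hgdeg : g.degree < f.degree := by
        rw [Polynomial.degree_eq_natDegree (minpoly.ne_zero hint)]
        refine lt_of_le_of_lt (Polynomial.degree_sum_le _ _) ?_
        rw [Finset.sup_lt_iff (WithBot.bot_lt_coe _)]
        intro n hn
        rw [Finset.mem_range] at hn
        refine lt_of_le_of_lt (Polynomial.degree_monomial_le _ _) ?_
        exact_mod_cast hn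
      have hg0 : g = 0 := by
        by_contra hne
        have := minpoly.degree_le_of_ne_zero M c hne h1
        exact absurd (lt_of_le_of_lt this hgdeg) (lt_irrefl _)
      intro n
      rcases lt_trichotomy n f.natDegree with hn | hn | hn
      · have h4 : g.coeff n = d i (f.coeff n) := by
          rw [hg, Polynomial.finsetSum_coeff]
          simp only [Polynomial.coeff_monomial]
          rw [Finset.sum_ite_eq' (Finset.range f.natDegree) n, if_pos (Finset.mem_range.mpr hn)]
        rw [hg0, Polynomial.coeff_zero] at h4
        rw [hd, ← h4, map_zero]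
      · rw [hn]; exact hlead
      · rw [Polynomial.coeff_eq_zero_of_natDegree_lt hn, map_zero, map_zero]
    have hlift : ∀ n, (minpoly M c).coeff n ∈
        Set.range ((algebraMap (MvPolynomial (Fin m) k) M).comp MvPolynomial.C) := by
      intro n
      obtain ⟨e, he⟩ := D3a_const_frac k m M ((minpoly M c).coeff n) (by
        intro i p q hpq
        have h5 := hfrac i _ p q hpq
        rw [hcoef i n, zero_mul] at h5
        apply hinj2
        rw [map_mul]
        exact (sub_eq_zero.mp h5.symm).symm)
      exact ⟨e, he.symm⟩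
    obtain ⟨P, hP⟩ := (Polynomial.lifts_iff_coeff_lifts (minpoly M c)).mpr hlift
    refine ⟨P, ?_, ?_⟩
    · rintro rfl
      apply minpoly.ne_zero hint
      rw [← hP]
      simp
    · have h6 : Polynomial.aeval c (minpoly M c) = 0 := minpoly.aeval M c
      rw [← hP] at h6
      rw [Polynomial.aeval_def] at h6
      simp only [Polynomial.coe_mapRingHom] at h6
      rw [Polynomial.eval₂_map] at h6
      exact h6
  induction r generalizing b with
  | zero =>
    have h1 := h [] rfl
    simp only [List.foldr_nil] at h1
    exact ⟨0, by rw [h1, map_zero, map_zero]⟩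
  | succ r ih =>
    have h1 : ∀ i, ∃ g : MvPolynomial (Fin m) k,
        algebraMap M M' (algebraMap (MvPolynomial (Fin m) k) M g) = D i b := by
      intro i
      apply ih
      intro l hl
      have h2 := h (l ++ [i]) (by simp [hl])
      rw [List.foldr_append] at h2
      simpa using h2
    choose g hg using h1
    obtain ⟨G, hG⟩ := D3a_poincare k m g (by
      intro i j
      apply hinj1
      apply hinj2
      rw [← hD, ← hD, hg, hg, hcomm])
    obtain ⟨e, he⟩ := hconst (b - algebraMap M M' (algebraMap (MvPolynomial (Fin m) k) M G)) (by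
      intro i
      rw [map_sub, hD, hG, hg, sub_self])
    refine ⟨MvPolynomial.C e + G, ?_⟩
    rw [map_add, map_add, he]
    ring

end Pool.Agent.LibHP
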