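import Pool.Agent.LibHP2.D1
import Pool.Agent.LibHP2.D2
import Pool.Agent.LibHP2.D3a
import Pool.Agent.LibHP.E3

set_option autoImplicit false

namespace Pool.Agent.LibHP

section D3bAux

theorem D3b_val_lt {L : Type} [Field L] (W : ValuationSubring L) {x : L} (hx : x ≠ 0) :
    W.valuation x < 1 ↔ x⁻¹ ∉ W := by
  rw [← W.valuation_le_one_iff x⁻¹, map_inv₀, not_le, one_lt_inv₀]
  exact (Valuation.pos_iff W.valuation).2 hx

theorem D3b_lift {M M' : Type} [Field M] [Field M'] [Algebra M M'] (O : ValuationSubring M)
    (P : Polynomial M) (hP : P.Monic) (hc : ∀ i, P.coeff i ∈ O) (z : M')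
    (hz : P.eval₂ (algebraMap M M') z = 0) : IsIntegral O z := by
  have h1 : P ∈ Polynomial.lifts (algebraMap O M) := by
    rw [Polynomial.lifts_iff_coeff_lifts]
    intro n
    exact ⟨⟨P.coeff n, hc n⟩, rfl⟩
  obtain ⟨Q, hQ, -, hQm⟩ := Polynomial.lifts_and_natDegree_eq_and_monic h1 hP
  refine ⟨Q, hQm, ?_⟩
  rw [← hQ, Polynomial.eval₂_map] at hz
  exact hz

/-- a derivation of the fraction field compatible with a derivation of the extension -/
theorem D3b_compat {R M M' : Type} [CommRing R] [IsDomain R] [Field M] [Algebra R M]
    [IsFractionRing R M] [Field M'] [Algebra M M'] (d : R → R)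
    (DM : Derivation ℤ M M) (hDM : ∀ a : R, DM (algebraMap R M a) = algebraMap R M (d a))
    (D : Derivation ℤ M' M')
    (hD : ∀ a : R, D (algebraMap M M' (algebraMap R M a)) =
      algebraMap M M' (algebraMap R M (d a))) (x : M) :
    D (algebraMap M M' x) = algebraMap M M' (DM x) := by
  obtain ⟨a, b, hb, rfl⟩ := IsFractionRing.div_surjective (A := R) x
  have hb0 : algebraMap R M b ≠ 0 :=
    (IsFractionRing.to_map_eq_zero_iff (K := M)).not.mpr (nonZeroDivisors.ne_zero hb)
  set x := algebraMap R M a / algebraMap R M b with hx
  have hxb : x * algebraMap R M b = algebraMap R M a := by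
    rw [hx]; field_simp
  have e1 : DM (x * algebraMap R M b) = algebraMap R M (d a) := by rw [hxb, hDM]
  have e2 : D (algebraMap M M' (x * algebraMap R M b)) = algebraMap M M' (algebraMap R M (d a)) := by
    rw [hxb, hD]
  rw [Derivation.leibniz, hDM, smul_eq_mul, smul_eq_mul] at e1
  rw [map_mul, Derivation.leibniz, hD, smul_eq_mul, smul_eq_mul, ← e1, map_add, map_mul,
    map_mul] at e2
  have hb1 : algebraMap M M' (algebraMap R M b) ≠ 0 := by
    simpa using hb0
  have e3 := add_left_cancel e2
  exact mul_left_cancel₀ hb1 e3

end D3bAux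

/-- Affine space is simply connected: a nontrivial finite extension of `k(x_1, ..., x_m)` in which
`k` is algebraically closed is ramified over some irreducible polynomial. -/
theorem exists_ramified (k : Type) [Field k] [CharZero k] (m : ℕ) (M : Type) [Field M]
    [Algebra (MvPolynomial (Fin m) k) M] [IsFractionRing (MvPolynomial (Fin m) k) M]
    (M' : Type) [Field M'] [Algebra M M'] [FiniteDimensional M M']
    (hk : ∀ z : M', (∃ P : Polynomial k, P ≠ 0 ∧ P.eval₂ ((algebraMap M M').comp
        ((algebraMap (MvPolynomial (Fin m) k) M).comp MvPolynomial.C)) z = 0) →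
      ∃ c : k, algebraMap M M' (algebraMap (MvPolynomial (Fin m) k) M (MvPolynomial.C c)) = z)
    (hne : ¬ Function.Surjective (algebraMap M M')) :
    ∃ (π : MvPolynomial (Fin m) k) (W : ValuationSubring M'), Irreducible π ∧
      (∀ p : MvPolynomial (Fin m) k,
        algebraMap M M' (algebraMap (MvPolynomial (Fin m) k) M p) ∈ W) ∧
      (∀ p : MvPolynomial (Fin m) k,
        W.valuation (algebraMap M M' (algebraMap (MvPolynomial (Fin m) k) M p)) < 1 ↔ π ∣ p) ∧
      ¬ Unram W (algebraMap M M' (algebraMap (MvPolynomial (Fin m) k) M π)) := by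
  classical
  by_contra hno
  push Not at hno
  apply hne
  let R := MvPolynomial (Fin m) k
  let _ : Algebra R M' := ((algebraMap M M').comp (algebraMap R M)).toAlgebra
  have : IsScalarTower R M M' := IsScalarTower.of_algebraMap_eq (fun _ => rfl)
  have hRM : ∀ p : R, algebraMap R M' p = algebraMap M M' (algebraMap R M p) := fun p => rfl
  have hinj : Function.Injective (algebraMap R M) := IsFractionRing.injective R M
  have : CharZero M := charZero_of_injective_algebraMap
    (R := R) (A := M) hinj
  have : CharZero M' := charZero_of_injective_algebraMap (R := M) (A := M')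
    (algebraMap M M').injective
  -- derivations
  have hder : ∀ i : Fin m, ∃ D' : Derivation ℤ M' M', ∀ a : R,
      D' (algebraMap R M' a) = algebraMap R M' (MvPolynomial.pderiv i a) := fun i =>
    exists_derivation_extends R M M' ((MvPolynomial.pderiv i).restrictScalars ℤ)
  choose D hD using hder
  have hderM : ∀ i : Fin m, ∃ D' : Derivation ℤ M M, ∀ a : R,
      D' (algebraMap R M a) = algebraMap R M (MvPolynomial.pderiv i a) := fun i =>
    exists_derivation_extends R M M ((MvPolynomial.pderiv i).restrictScalars ℤ)
  choose DM hDM using hderM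
  have hcompat : ∀ (i : Fin m) (x : M), D i (algebraMap M M' x) = algebraMap M M' (DM i x) :=
    fun i x => D3b_compat (fun a => MvPolynomial.pderiv i a) (DM i) (hDM i) (D i) (hD i) x
  -- step 1
  have step1 : ∀ (i : Fin m) (z : M'), IsIntegral R z → IsIntegral R (D i z) := by
    intro i z hz
    refine isIntegral_of_height_one R M M' (D i z) ?_
    intro P hP hht
    obtain ⟨⟨π, hπ⟩⟩ := UniqueFactorizationMonoid.isPrincipal_of_height_eq_one hht
    have hPbot : P ≠ ⊥ := P.ne_bot_of_height_eq_one hht
    have hπ0 : π ≠ 0 := by
      rintro rfl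
      apply hPbot
      rw [hπ]
      simp
    have hP' : P = Ideal.span {π} := hπ
    have hprime : Prime π := by
      rw [← Ideal.span_singleton_prime hπ0, ← hP']
      exact hP
    have hmemP : ∀ r : R, r ∈ P ↔ π ∣ r := by
      intro r; rw [hP', Ideal.mem_span_singleton]
    obtain ⟨O, hO1, hO2, hO3⟩ := exists_valPoly k m M π hprime.irreducible
    have hRO : ∀ p : R, algebraMap R M p ∈ O := by
      intro p
      rw [hO2]
      refine ⟨p, 1, ?_, by rw [map_one, mul_one]⟩
      exact fun h => hprime.not_isUnit (isUnit_of_dvd_one h)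
    have hQ : ∀ n : ℕ, n ≠ 0 → ((n : M)⁻¹) ∈ O := by
      intro n hn
      have h1 : ((n : M)⁻¹) = algebraMap R M (MvPolynomial.C ((n : k)⁻¹)) := by
        have h2 : (MvPolynomial.C ((n : k)⁻¹) : R) * (n : R) = 1 := by
          rw [← map_natCast (MvPolynomial.C : k →+* R) n, ← map_mul,
            inv_mul_cancel₀ (Nat.cast_ne_zero.2 hn), map_one]
        have h3 : algebraMap R M (MvPolynomial.C ((n : k)⁻¹)) * (n : M) = 1 := by
          rw [← map_natCast (algebraMap R M) n, ← map_mul, h2, map_one]
        exact (eq_inv_of_mul_eq_one_left h3).symm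
      rw [h1]
      exact hRO _
    have hDO : ∀ a ∈ O, ∃ b ∈ O, D i (algebraMap M M' a) = algebraMap M M' b := by
      intro a ha
      refine ⟨DM i a, ?_, hcompat i a⟩
      rw [hO2] at ha
      obtain ⟨p, q, hq, hpq⟩ := ha
      have e1 : DM i (a * algebraMap R M q) = algebraMap R M (MvPolynomial.pderiv i p) := by
        rw [hpq, hDM]
      rw [Derivation.leibniz, hDM, smul_eq_mul, smul_eq_mul] at e1
      rw [hO2]
      refine ⟨MvPolynomial.pderiv i p * q - p * MvPolynomial.pderiv i q, q * q, ?_, ?_⟩
      · intro h
        rcases hprime.dvd_or_dvd h with h | h <;> exact hq h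
      · rw [map_mul, map_sub, map_mul, map_mul, ← e1, ← hpq]
        ring
    have hun : ∀ W : ValuationSubring M', W.comap (algebraMap M M') = O →
        Unram W (algebraMap M M' (algebraMap R M π)) := by
      intro W hW
      refine hno π W hprime.irreducible ?_ ?_
      · intro p
        rw [← ValuationSubring.mem_comap, hW]
        exact hRO p
      · intro p
        by_cases hp : p = 0
        · subst hp
          simp
        · have hp1 : algebraMap R M p ≠ 0 :=
            (IsFractionRing.to_map_eq_zero_iff (K := M)).not.mpr hp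
          have hp2 : algebraMap M M' (algebraMap R M p) ≠ 0 := by simpa using hp1
          rw [← hO3 p, D3b_val_lt W hp2, D3b_val_lt O hp1, ← map_inv₀,
            ← ValuationSubring.mem_comap, hW]
    have hzO : IsIntegral O z := by
      obtain ⟨Q, hQm, hQz⟩ := hz
      refine D3b_lift O (Q.map (algebraMap R M)) (hQm.map _) ?_ z ?_
      · intro j
        rw [Polynomial.coeff_map]
        exact hRO _
      · rw [Polynomial.eval₂_map]
        exact hQz
    have hDz : IsIntegral O (D i z) :=
      isIntegral_derivation M M' O (algebraMap R M π) hO1 hQ (D i) hDO (Or.inr hun) z hzO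
    let _ : Algebra R O := ((algebraMap R M).codRestrict O.toSubring hRO).toAlgebra
    have hRO' : ∀ p : R, ((algebraMap R O p : O) : M) = algebraMap R M p := fun p => rfl
    have : IsScalarTower R O M' := IsScalarTower.of_algebraMap_eq (fun _ => rfl)
    have : IsLocalization P.primeCompl O := by
      refine ⟨?_, ?_, ?_⟩
      · rintro ⟨y, hy⟩
        have hy' : ¬ π ∣ y := fun h => hy ((hmemP y).2 h)
        have hy0 : algebraMap R M y ≠ 0 := by
          refine (IsFractionRing.to_map_eq_zero_iff (K := M)).not.mpr ?_
          rintro rfl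
          exact hy' (dvd_zero _)
        have hinvO : (algebraMap R M y)⁻¹ ∈ O := by
          rw [hO2]
          exact ⟨1, y, hy', by rw [map_one, inv_mul_cancel₀ hy0]⟩
        refine IsUnit.of_mul_eq_one ⟨_, hinvO⟩ ?_
        apply Subtype.ext
        change algebraMap R M y * (algebraMap R M y)⁻¹ = 1
        exact mul_inv_cancel₀ hy0
      · rintro ⟨w, hw⟩
        obtain ⟨p, q, hq, hpq⟩ := (hO2 w).1 hw
        refine ⟨⟨p, ⟨q, fun h => hq ((hmemP q).1 h)⟩⟩, ?_⟩
        apply Subtype.ext
        exact hpq
      · intro x y hxy
        refine ⟨1, ?_⟩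
        have : algebraMap R M x = algebraMap R M y := by
          rw [← hRO', ← hRO', hxy]
        rw [hinj this]
    obtain ⟨⟨r, hr⟩, hri⟩ :=
      IsIntegral.exists_multiple_integral_of_isLocalization P.primeCompl (Rₘ := O) (D i z) hDz
    refine ⟨r, hr, ?_⟩
    rw [← Algebra.smul_def]
    exact hri
  -- the integral elements are polynomials
  have hmain : ∀ z : M', IsIntegral R z → ∃ p : R, algebraMap M M' (algebraMap R M p) = z := by
    rcases m with _ | m'
    · intro z hz
      obtain ⟨Q, hQm, hQz⟩ := hz
      obtain ⟨c, hc⟩ := hk z ⟨Q.map MvPolynomial.constantCoeff, (hQm.map _).ne_zero, by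
        rw [Polynomial.eval₂_map]
        rw [← hQz]
        congr 1
        refine RingHom.ext fun r => ?_
        have hr : MvPolynomial.C (MvPolynomial.constantCoeff r) = r := by
          conv_rhs => rw [MvPolynomial.eq_C_of_isEmpty r]
          rfl
        simp only [RingHom.comp_apply]
        rw [hr]
        rfl⟩
      exact ⟨_, hc⟩
    · obtain ⟨O, hO1, hO2, hO3, hO4, hO5⟩ := exists_valInf k m' M
      set x0 : M := algebraMap R M (MvPolynomial.X 0) with hx0
      set x0' : M' := algebraMap M M' x0 with hx0'
      have hx0O : x0⁻¹ ∈ O := hO1.1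
      have hx0ne : x0 ≠ 0 := fun h => hO1.2.1 (by rw [h, inv_zero])
      have hx0ne' : x0' ≠ 0 := by rw [hx0']; simpa using hx0ne
      have hQ : ∀ n : ℕ, n ≠ 0 → ((n : M)⁻¹) ∈ O := by
        intro n hn
        have h1 : ((n : M)⁻¹) = algebraMap R M (MvPolynomial.C ((n : k)⁻¹)) := by
          have h2 : (MvPolynomial.C ((n : k)⁻¹) : R) * (n : R) = 1 := by
            rw [← map_natCast (MvPolynomial.C : k →+* R) n, ← map_mul,
              inv_mul_cancel₀ (Nat.cast_ne_zero.2 hn), map_one]
          have h3 : algebraMap R M (MvPolynomial.C ((n : k)⁻¹)) * (n : M) = 1 := by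
            rw [← map_natCast (algebraMap R M) n, ← map_mul, h2, map_one]
          exact (eq_inv_of_mul_eq_one_left h3).symm
        rw [h1]
        exact hO2 _
      have hDx : ∀ i, DM i x0 ∈ O := by
        intro i
        rw [hx0, hDM, MvPolynomial.pderiv_X]
        by_cases hi : i = 0
        · subst hi
          rw [Pi.single_eq_same, map_one]
          exact O.one_mem
        · rw [Pi.single_eq_of_ne (Ne.symm hi), map_zero]
          exact O.zero_mem
      have claimA : ∀ (i : Fin (m' + 1)) (s : ℤ) (w : M'), IsIntegral O (x0' ^ (-s) * w) →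
          IsIntegral O (x0' ^ (-(s - 1)) * D i w) := by
        intro i s w hy
        have hE : IsIntegral O ((x0' • D i) (x0' ^ (-s) * w)) := by
          refine isIntegral_derivation M M' O x0⁻¹ hO1 hQ (x0' • D i) ?_ (Or.inl ?_) _ hy
          · intro a ha
            refine ⟨x0 * DM i a, hO5 i (DM i) (hDM i) a ha, ?_⟩
            rw [Derivation.smul_apply, hcompat, smul_eq_mul, map_mul]
          · refine ⟨-DM i x0, neg_mem (hDx i), ?_⟩
            rw [Derivation.smul_apply, hcompat, smul_eq_mul, Derivation.leibniz_inv, hx0',
              ← map_mul, smul_eq_mul]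
            congr 1
            field_simp
        have hDx' : D i x0' = algebraMap M M' (DM i x0) := hcompat i x0
        have hs : IsIntegral O (D i x0') := by
          rw [hDx']
          exact isIntegral_algebraMap (R := O) (A := M') (x := ⟨DM i x0, hDx i⟩)
        have e : x0' ^ (-(s - 1)) * D i w =
            (x0' • D i) (x0' ^ (-s) * w) + (s : M') * (D i x0' * (x0' ^ (-s) * w)) := by
          rw [Derivation.smul_apply, Derivation.leibniz, Derivation.leibniz_zpow]
          simp only [smul_eq_mul, zsmul_eq_mul]
          have h1 : x0' ^ (-(s - 1)) = x0' * x0' ^ (-s) := by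
            rw [← zpow_one_add₀ hx0ne']; congr 1; ring
          have h2 : x0' ^ (-s - 1) = x0'⁻¹ * x0' ^ (-s) := by
            rw [zpow_sub_one₀ hx0ne']; ring
          rw [h1, h2]
          push_cast
          field_simp
          ring
        rw [e]
        exact hE.add ((isIntegral_intCast s).mul (hs.mul hy))
      have claimD : ∀ w : M', IsIntegral R w → IsIntegral O (x0' * w) → w = 0 := by
        intro w hw hw'
        have h1 : IsIntegral R (Algebra.norm M w) := Algebra.isIntegral_norm M hw
        obtain ⟨a, ha⟩ := IsIntegrallyClosed.isIntegral_iff.1 h1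
        have h2 : IsIntegral O (Algebra.norm M (x0' * w)) := Algebra.isIntegral_norm M hw'
        obtain ⟨b, hb⟩ := IsIntegrallyClosed.isIntegral_iff.1 h2
        rw [map_mul, hx0', Algebra.norm_algebraMap, ← ha] at hb
        have hd : 0 < Module.finrank M M' := Module.finrank_pos
        obtain ⟨d, hd'⟩ := Nat.exists_eq_succ_of_ne_zero hd.ne'
        have h3 : algebraMap R M (MvPolynomial.X 0 ^ d * a * MvPolynomial.X 0) ∈ O := by
          have : algebraMap R M (MvPolynomial.X 0 ^ d * a * MvPolynomial.X 0) = (b : M) := by
            rw [map_mul, map_mul, map_pow, ← hx0]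
            change _ = algebraMap O M b
            rw [hb, hd', pow_succ]
            ring
          rw [this]
          exact b.2
        have h4 := hO4 _ h3
        have h5 : a = 0 := by
          rcases mul_eq_zero.1 h4 with h | h
          · exact absurd h (pow_ne_zero _ (MvPolynomial.X_ne_zero 0))
          · exact h
        rw [h5, map_zero] at ha
        exact (Algebra.norm_eq_zero_iff.1 ha.symm)
      have claimC : ∀ z : M', IsIntegral R z → ∃ s : ℕ, IsIntegral O (x0' ^ (-(s : ℤ)) * z) := by
        intro z hz
        obtain ⟨Q, hQm, hQz⟩ := hz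
        refine ⟨Q.support.sup (fun j => (Q.coeff j).totalDegree), ?_⟩
        set s := Q.support.sup (fun j => (Q.coeff j).totalDegree) with hs
        have hQM : (Q.map (algebraMap R M)).Monic := hQm.map _
        refine D3b_lift O ((Q.map (algebraMap R M)).scaleRoots (x0⁻¹ ^ s)) ?_ ?_ _ ?_
        · rwa [Polynomial.monic_scaleRoots_iff]
        · intro j
          rw [Polynomial.coeff_scaleRoots, hQm.natDegree_map, Polynomial.coeff_map]
          rcases lt_trichotomy j Q.natDegree with hj | hj | hj
          · by_cases hj0 : Q.coeff j = 0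
            · rw [hj0, map_zero, zero_mul]; exact O.zero_mem
            · have h1 : (Q.coeff j).totalDegree ≤ s := by
                rw [hs]
                exact Finset.le_sup (f := fun j => (Q.coeff j).totalDegree)
                  (Polynomial.mem_support_iff.2 hj0)
              have h2 : (Q.coeff j).totalDegree ≤ s * (Q.natDegree - j) := by
                calc (Q.coeff j).totalDegree ≤ s := h1
                  _ = s * 1 := (mul_one s).symm
                  _ ≤ s * (Q.natDegree - j) := Nat.mul_le_mul_left s (by omega)
              rw [← pow_mul]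
              obtain ⟨t, ht⟩ := Nat.exists_eq_add_of_le h2
              rw [ht, pow_add, ← mul_assoc]
              exact O.mul_mem _ _ (hO3 _) (pow_mem hx0O t)
          · subst hj
            rw [Nat.sub_self, pow_zero, mul_one, hQm.coeff_natDegree, map_one]
            exact O.one_mem
          · rw [Polynomial.coeff_eq_zero_of_natDegree_lt hj, map_zero, zero_mul]
            exact O.zero_mem
        · have h1 : x0' ^ (-(s : ℤ)) = algebraMap M M' (x0⁻¹ ^ s) := by
            rw [zpow_neg, zpow_natCast, map_pow, map_inv₀, inv_pow]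
          rw [h1]
          apply Polynomial.scaleRoots_eval₂_eq_zero
          rw [Polynomial.eval₂_map]
          exact hQz
      intro z hz
      obtain ⟨s, hs⟩ := claimC z hz
      have claimB : ∀ l : List (Fin (m' + 1)),
          IsIntegral R (l.foldr (fun i z => D i z) z) ∧
          IsIntegral O (x0' ^ (-((s : ℤ) - l.length)) * l.foldr (fun i z => D i z) z) := by
        intro l
        induction l with
        | nil => exact ⟨hz, by simpa using hs⟩
        | cons i l ih =>
          refine ⟨step1 i _ ih.1, ?_⟩
          have := claimA i _ _ ih.2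
          rw [List.foldr_cons, List.length_cons]
          have e : (s : ℤ) - ((l.length + 1 : ℕ) : ℤ) = (s : ℤ) - l.length - 1 := by
            push_cast; ring
          rw [e]
          exact this
      refine polynomial_of_nilpotent k (m' + 1) M M' hk D hD (s + 1) z ?_
      intro l hl
      refine claimD _ (claimB l).1 ?_
      have := (claimB l).2
      rw [hl] at this
      have e : (-((s : ℤ) - ((s + 1 : ℕ) : ℤ))) = 1 := by push_cast; ring
      rw [e, zpow_one] at this
      exact this
  intro z
  have hzalg : IsAlgebraic R z := by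
    have h1 : IsAlgebraic M z := Algebra.IsAlgebraic.isAlgebraic z
    exact (IsFractionRing.isAlgebraic_iff R M M').2 h1
  obtain ⟨y, hy, hyz⟩ := hzalg.exists_integral_multiple
  obtain ⟨p, hp⟩ := hmain _ hyz
  refine ⟨algebraMap R M p / algebraMap R M y, ?_⟩
  have hy1 : algebraMap R M y ≠ 0 := (IsFractionRing.to_map_eq_zero_iff (K := M)).not.mpr hy
  have hy2 : algebraMap M M' (algebraMap R M y) ≠ 0 := by simpa using hy1
  rw [map_div₀, hp, Algebra.smul_def, hRM]
  field_simp

end Pool.Agent.LibHP
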