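import Pool.Agent.LibHP2.C1

set_option autoImplicit false

namespace Pool.Agent.LibHP

theorem G2_deg {σ : Type} [Fintype σ] {N : Type} [Field N] (e : ℕ) (ψ : MvPolynomial σ N)
    (hψ : ψ.IsHomogeneous e) (s : σ →₀ ℕ) (hs : s ∈ ψ.support) : ∑ i, s i = e := by
  have h2 : (Finsupp.weight (fun _ : σ => 1)) s = e := hψ (MvPolynomial.mem_support_iff.1 hs)
  rw [← Finsupp.degree_eq_weight_one, Finsupp.degree_eq_sum] at h2
  exact h2

theorem G2_aeval_smul {σ A : Type} [Fintype σ] {N : Type} [Field N] [CommRing A] [Algebra N A] (t : A)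
    (y : σ → A) (e : ℕ) (ψ : MvPolynomial σ N) (hψ : ψ.IsHomogeneous e) :
    MvPolynomial.aeval (fun i => t * y i) ψ = t ^ e * MvPolynomial.aeval y ψ := by
  rw [MvPolynomial.aeval_def, MvPolynomial.eval₂_eq', MvPolynomial.aeval_def, MvPolynomial.eval₂_eq',
    Finset.mul_sum]
  refine Finset.sum_congr rfl fun s hs => ?_
  have h1 : ∑ i, s i = e := G2_deg e ψ hψ s hs
  have h3 : ∏ i, (t * y i) ^ s i = t ^ e * ∏ i, y i ^ s i := by
    rw [← h1, ← Finset.prod_pow_eq_pow_sum, ← Finset.prod_mul_distrib]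
    exact Finset.prod_congr rfl fun i _ => mul_pow _ _ _
  rw [h3]
  ring

/-- A homogeneous polynomial vanishing at a point with first coordinate one and the others
independent is zero. -/
theorem G2_homog_zero {σ : Type} [Fintype σ] {N κ : Type} [Field N] [Field κ] [Algebra N κ] (i0 : σ)
    (y : σ → κ) (hy0 : y i0 = 1)
    (hind : AlgebraicIndependent N (fun i : {i : σ // i ≠ i0} => y i)) (e : ℕ)
    (G : MvPolynomial σ N) (hG : G.IsHomogeneous e) (h : MvPolynomial.aeval y G = 0) : G = 0 := by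
  classical
  obtain ⟨D, hD⟩ : ∃ D : MvPolynomial σ N →ₐ[N] MvPolynomial {i : σ // i ≠ i0} N,
      D = MvPolynomial.aeval (fun i => if h : i = i0 then 1 else MvPolynomial.X ⟨i, h⟩) := ⟨_, rfl⟩
  have h1 : (MvPolynomial.aeval (fun i : {i : σ // i ≠ i0} => y i)).comp D = MvPolynomial.aeval y := by
    apply MvPolynomial.algHom_ext
    intro i
    rw [AlgHom.comp_apply, hD, MvPolynomial.aeval_X, MvPolynomial.aeval_X]
    by_cases hi : i = i0
    · rw [dif_pos hi, map_one, hi, hy0]
    · rw [dif_neg hi, MvPolynomial.aeval_X]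
  have h2 : D G = 0 := by
    have h3 : MvPolynomial.aeval (fun i : {i : σ // i ≠ i0} => y i) (D G) = 0 := by
      rw [← AlgHom.comp_apply, h1, h]
    exact (injective_iff_map_eq_zero _).1 hind _ h3
  by_contra hG0
  obtain ⟨s0, hs0⟩ := MvPolynomial.support_nonempty.2 hG0
  have hmono : ∀ (s : σ →₀ ℕ) (c : N), D (MvPolynomial.monomial s c) =
      MvPolynomial.monomial (s.subtypeDomain (fun i => i ≠ i0)) c := by
    intro s c
    rw [hD, MvPolynomial.aeval_monomial, MvPolynomial.monomial_eq,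
      Finsupp.prod_fintype _ _ (fun i => pow_zero _), Finsupp.prod_fintype _ _ (fun i => pow_zero _)]
    congr 1
    rw [← Fintype.prod_subtype_mul_prod_subtype (fun i => i ≠ i0)]
    have h4 : ∏ i : {x : σ // ¬ x ≠ i0}, (if h : (i : σ) = i0 then (1 : MvPolynomial {i : σ // i ≠ i0} N)
        else MvPolynomial.X ⟨i, h⟩) ^ s i = 1 := by
      refine Finset.prod_eq_one fun i _ => ?_
      rw [dif_pos (not_not.1 i.2), one_pow]
    rw [h4, mul_one]
    refine Finset.prod_congr rfl fun i _ => ?_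
    rw [dif_neg i.2]
    rfl
  have hc : MvPolynomial.coeff (s0.subtypeDomain (fun i => i ≠ i0)) (D G) = MvPolynomial.coeff s0 G := by
    conv_lhs => rw [MvPolynomial.as_sum G]
    rw [map_sum, MvPolynomial.coeff_sum, Finset.sum_eq_single s0]
    · rw [hmono, MvPolynomial.coeff_monomial, if_pos rfl]
    · intro s hs hne
      rw [hmono, MvPolynomial.coeff_monomial, if_neg]
      intro heq
      apply hne
      have h5 : ∀ i, i ≠ i0 → s i = s0 i := fun i hi => by
        have := DFunLike.congr_fun heq ⟨i, hi⟩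
        simpa using this
      have h6 : ∑ i, s i = ∑ i, s0 i := by
        rw [G2_deg e G hG s hs, G2_deg e G hG s0 hs0]
      have h9 : s i0 = s0 i0 := by
        have h10 := Finset.add_sum_erase Finset.univ (fun i => s i) (Finset.mem_univ i0)
        have h11 := Finset.add_sum_erase Finset.univ (fun i => s0 i) (Finset.mem_univ i0)
        have h12 : ∑ i ∈ Finset.univ.erase i0, s i = ∑ i ∈ Finset.univ.erase i0, s0 i :=
          Finset.sum_congr rfl fun i hi => h5 i (Finset.ne_of_mem_erase hi)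
        rw [h12] at h10
        omega
      ext i
      by_cases hi : i = i0
      · rw [hi, h9]
      · exact h5 i hi
    · intro hs
      exact absurd hs0 hs
  rw [h2, MvPolynomial.coeff_zero] at hc
  exact (MvPolynomial.mem_support_iff.1 hs0) hc.symm

/-- The homogeneous components of a polynomial vanishing at `t y` vanish at `y`. -/
theorem G2_comp {σ : Type} [Fintype σ] {N κ : Type} [Field N] [Field κ] [Algebra N κ] (y : σ → κ)
    (G : MvPolynomial σ N)
    (h : MvPolynomial.aeval (fun i => (RatFunc.X : RatFunc κ) * algebraMap κ (RatFunc κ) (y i)) G = 0)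
    (e : ℕ) : MvPolynomial.aeval y (MvPolynomial.homogeneousComponent e G) = 0 := by
  classical
  have hc : ∀ ψ : MvPolynomial σ N, MvPolynomial.aeval (fun i => algebraMap κ (RatFunc κ) (y i)) ψ =
      algebraMap κ (RatFunc κ) (MvPolynomial.aeval y ψ) := by
    intro ψ
    exact (MvPolynomial.aeval_algebraMap_apply (RatFunc κ) y ψ)
  have h1 : MvPolynomial.aeval (fun i => (RatFunc.X : RatFunc κ) * algebraMap κ (RatFunc κ) (y i)) G =
      algebraMap (Polynomial κ) (RatFunc κ) (∑ i ∈ Finset.range (G.totalDegree + 1),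
        Polynomial.X ^ i * Polynomial.C (MvPolynomial.aeval y (MvPolynomial.homogeneousComponent i G))) := by
    conv_lhs => rw [← MvPolynomial.sum_homogeneousComponent G]
    rw [map_sum, map_sum]
    refine Finset.sum_congr rfl fun i _ => ?_
    rw [G2_aeval_smul _ _ i _ (MvPolynomial.homogeneousComponent_isHomogeneous i G), hc, map_mul,
      map_pow, RatFunc.algebraMap_X, RatFunc.algebraMap_C]
    rfl
  rw [h1] at h
  have h2 : (∑ i ∈ Finset.range (G.totalDegree + 1),
        Polynomial.X ^ i * Polynomial.C (MvPolynomial.aeval y (MvPolynomial.homogeneousComponent i G))) = 0 :=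
    (FaithfulSMul.algebraMap_injective (Polynomial κ) (RatFunc κ)) (by rw [h, map_zero])
  by_cases he : e ∈ Finset.range (G.totalDegree + 1)
  · have h3 := congrArg (fun p => Polynomial.coeff p e) h2
    simp only [Polynomial.finsetSum_coeff, Polynomial.coeff_zero] at h3
    rw [Finset.sum_eq_single e] at h3
    · rwa [Polynomial.coeff_X_pow_mul', if_pos le_rfl, Nat.sub_self, Polynomial.coeff_C_zero] at h3
    · intro i _ hi
      rw [mul_comm, Polynomial.coeff_C_mul, Polynomial.coeff_X_pow, if_neg (Ne.symm hi), mul_zero]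
    · intro hh
      exact absurd he hh
  · rw [MvPolynomial.homogeneousComponent_eq_zero, map_zero]
    simpa using he

theorem G2_ind {σ : Type} [Fintype σ] {N κ : Type} [Field N] [Field κ] [Algebra N κ] (i0 : σ)
    (y : σ → κ) (hy0 : y i0 = 1)
    (hind : AlgebraicIndependent N (fun i : {i : σ // i ≠ i0} => y i)) :
    AlgebraicIndependent N (fun i => (RatFunc.X : RatFunc κ) * algebraMap κ (RatFunc κ) (y i)) := by
  rw [algebraicIndependent_iff]
  intro G hG
  rw [← MvPolynomial.sum_homogeneousComponent G]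
  refine Finset.sum_eq_zero fun e _ => ?_
  exact G2_homog_zero i0 y hy0 hind e _ (MvPolynomial.homogeneousComponent_isHomogeneous e G)
    (G2_comp y G hG e)

theorem G2_factor {R S : Type} [CommRing R] [IsDomain R] [UniqueFactorizationMonoid R] [CommRing S]
    [IsDomain S] (φ : R →+* S) (a : R) (ha : a ≠ 0) (h : φ a = 0) :
    ∃ w, Irreducible w ∧ φ w = 0 := by
  obtain ⟨f, hf, u, hu⟩ := WfDvdMonoid.exists_factors a ha
  rw [← hu, map_mul, mul_eq_zero] at h
  rcases h with h | h
  · rw [map_multiset_prod, Multiset.prod_eq_zero_iff, Multiset.mem_map] at h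
    obtain ⟨w, hw, h0⟩ := h
    exact ⟨w, hf w hw, h0⟩
  · exact absurd h (IsUnit.map φ u.isUnit).ne_zero

/-- The homogeneous ideal of a point all of whose coordinates but one are independent. -/
theorem exists_homog_gen (N κ : Type) [Field N] [Field κ] [Algebra N κ] (m : ℕ)
    (ξ : Fin (m + 1) → κ) (hξ : ξ 0 = 1) (j : Fin (m + 1)) (hj : j ≠ 0)
    (hind : AlgebraicIndependent N (fun i : {i : Fin (m + 1) // i ≠ 0 ∧ i ≠ j} => ξ i)) :
    ∃ (d : ℕ) (w : MvPolynomial (Fin (m + 1)) N), 1 ≤ d ∧ w ≠ 0 ∧ w.IsHomogeneous d ∧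
      ∀ (e : ℕ) (ψ : MvPolynomial (Fin (m + 1)) N), ψ.IsHomogeneous e →
        MvPolynomial.aeval ξ ψ = 0 → w ∣ ψ := by
  by_cases hex : ∃ (e : ℕ) (ψ : MvPolynomial (Fin (m + 1)) N), ψ ≠ 0 ∧ ψ.IsHomogeneous e ∧
      MvPolynomial.aeval ξ ψ = 0
  · obtain ⟨e0, ψ0, hψ0, hh0, hv0⟩ := hex
    have hz : ∀ (e : ℕ) (ψ : MvPolynomial (Fin (m + 1)) N), ψ.IsHomogeneous e →
        MvPolynomial.aeval ξ ψ = 0 → MvPolynomial.aeval
          (fun i => (RatFunc.X : RatFunc κ) * algebraMap κ (RatFunc κ) (ξ i)) ψ = 0 := by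
      intro e ψ h1 h2
      have h3 : MvPolynomial.aeval (fun i => algebraMap κ (RatFunc κ) (ξ i)) ψ =
          algebraMap κ (RatFunc κ) (MvPolynomial.aeval ξ ψ) :=
        MvPolynomial.aeval_algebraMap_apply (RatFunc κ) ξ ψ
      rw [G2_aeval_smul _ _ e ψ h1, h3, h2, map_zero, mul_zero]
    have hind' : AlgebraicIndependent N (fun i : {i : Fin (m + 1) // i ≠ j} =>
        (RatFunc.X : RatFunc κ) * algebraMap κ (RatFunc κ) (ξ i)) := by
      refine G2_ind (⟨0, hj.symm⟩ : {i : Fin (m + 1) // i ≠ j}) (fun i => ξ i) hξ ?_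
      have h3 := hind.comp (fun i : {i : {i : Fin (m + 1) // i ≠ j} // i ≠ ⟨0, hj.symm⟩} =>
        (⟨i.1.1, fun h => i.2 (Subtype.ext h), i.1.2⟩ : {i : Fin (m + 1) // i ≠ 0 ∧ i ≠ j}))
        (fun a b hab => by
          apply Subtype.ext
          apply Subtype.ext
          exact congrArg (fun x : {i : Fin (m + 1) // i ≠ 0 ∧ i ≠ j} => x.1) hab)
      exact h3
    obtain ⟨w, hw, hw0⟩ := G2_factor (MvPolynomial.aeval (R := N)
      (fun i => (RatFunc.X : RatFunc κ) * algebraMap κ (RatFunc κ) (ξ i))).toRingHom ψ0 hψ0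
      (hz e0 ψ0 hh0 hv0)
    have hdvd : ∀ G : MvPolynomial (Fin (m + 1)) N, MvPolynomial.aeval
        (fun i => (RatFunc.X : RatFunc κ) * algebraMap κ (RatFunc κ) (ξ i)) G = 0 → w ∣ G :=
      fun G hG => dvd_of_algebraicIndependent N (RatFunc κ) w hw _ hw0 j hind' G hG
    have hwne := hw.ne_zero
    have hcomp : ∃ e, MvPolynomial.homogeneousComponent e w ≠ 0 := by
      by_contra hcon
      push Not at hcon
      apply hwne
      rw [← MvPolynomial.sum_homogeneousComponent w]
      exact Finset.sum_eq_zero fun e _ => hcon e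
    obtain ⟨e, he⟩ := hcomp
    have hhe := MvPolynomial.homogeneousComponent_isHomogeneous e w
    obtain ⟨q, hq⟩ := hdvd _ (hz e _ hhe (G2_comp ξ w hw0 e))
    have hq0 : q ≠ 0 := by
      rintro rfl
      rw [mul_zero] at hq
      exact he hq
    have hdeg : q.totalDegree = 0 := by
      have h4 := hhe.totalDegree he
      have h5 : (w * q).totalDegree = w.totalDegree + q.totalDegree :=
        MvPolynomial.totalDegree_mul_of_isDomain hwne hq0
      have h6 : e ≤ w.totalDegree := by
        by_contra h7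
        exact he (MvPolynomial.homogeneousComponent_eq_zero e w (not_le.1 h7))
      rw [← hq, h4] at h5
      omega
    rw [MvPolynomial.totalDegree_eq_zero_iff_eq_C] at hdeg
    obtain ⟨c, hc⟩ : ∃ c, c = MvPolynomial.coeff 0 q := ⟨_, rfl⟩
    rw [← hc] at hdeg
    have hc0 : c ≠ 0 := by
      rintro rfl
      rw [map_zero] at hdeg
      exact hq0 hdeg
    have hwh : w = MvPolynomial.C c⁻¹ * MvPolynomial.homogeneousComponent e w := by
      rw [hq, hdeg, mul_comm w, ← mul_assoc, ← MvPolynomial.C_mul, inv_mul_cancel₀ hc0, map_one, one_mul]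
    have hwhom : w.IsHomogeneous e := by
      rw [hwh]
      exact hhe.C_mul _
    refine ⟨e, w, ?_, hwne, hwhom, fun e' ψ h1 h2 => hdvd ψ (hz e' ψ h1 h2)⟩
    rcases Nat.eq_zero_or_pos e with h0 | h0
    · exfalso
      rw [h0] at hwhom
      have h8 := hwhom.totalDegree hwne
      rw [MvPolynomial.totalDegree_eq_zero_iff_eq_C] at h8
      apply hw.not_isUnit
      rw [h8]
      refine IsUnit.map MvPolynomial.C (isUnit_iff_ne_zero.2 fun h9 => hwne ?_)
      rw [h8, h9, map_zero]
    · exact h0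
  · push Not at hex
    refine ⟨1, MvPolynomial.X 0, le_rfl, MvPolynomial.X_ne_zero 0, MvPolynomial.isHomogeneous_X N 0,
      fun e ψ h1 h2 => ?_⟩
    have h3 : ψ = 0 := by
      by_contra h4
      exact hex e ψ h4 h1 h2
    rw [h3]
    exact dvd_zero _

end Pool.Agent.LibHP
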