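import Pool.Agent.LibHP2.G3

set_option autoImplicit false

namespace Pool.Agent.LibHP

/-- The exponent of the `i`-th coordinate of `(1, y_1, ..., y_n)`. -/
noncomputable def G4_mu {n : ℕ} : Fin (n + 1) → (Fin n →₀ ℕ) :=
  Fin.cons 0 fun i => Finsupp.single i 1

theorem G4_mu_zero {n : ℕ} : G4_mu (n := n) 0 = 0 := rfl

theorem G4_mu_succ {n : ℕ} (i : Fin n) : G4_mu (Fin.succ i) = Finsupp.single i 1 := rfl

theorem G4_mu_add_eq {n : ℕ} (i j i' j' : Fin (n + 1)) :
    G4_mu i' + G4_mu j' = G4_mu i + G4_mu j ↔ (i' = i ∧ j' = j) ∨ (i' = j ∧ j' = i) := by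
  constructor
  · intro h
    have hd := congrArg Finsupp.degree h
    simp only [map_add] at hd
    induction i using Fin.cases with
    | zero =>
      induction j using Fin.cases with
      | zero =>
        induction i' using Fin.cases with
        | zero =>
          induction j' using Fin.cases with
          | zero => simp
          | succ j' => simp [G4_mu_zero, G4_mu_succ, Finsupp.degree_single] at hd
        | succ i' => 
          induction j' using Fin.cases with
          | zero => simp [G4_mu_zero, G4_mu_succ, Finsupp.degree_single] at hd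
          | succ j' => simp [G4_mu_zero, G4_mu_succ, Finsupp.degree_single] at hd
      | succ j =>
        induction i' using Fin.cases with
        | zero =>
          induction j' using Fin.cases with
          | zero => simp [G4_mu_zero, G4_mu_succ, Finsupp.degree_single] at hd
          | succ j' =>
            simp only [G4_mu_zero, G4_mu_succ, zero_add] at h
            have := Finsupp.single_left_injective one_ne_zero h
            subst this
            simp
        | succ i' => 
          induction j' using Fin.cases with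
          | zero =>
            simp only [G4_mu_zero, G4_mu_succ, zero_add, add_zero] at h
            have := Finsupp.single_left_injective one_ne_zero h
            subst this
            simp
          | succ j' => simp [G4_mu_zero, G4_mu_succ, Finsupp.degree_single] at hd
    | succ i =>
      induction j using Fin.cases with
      | zero =>
        induction i' using Fin.cases with
        | zero =>
          induction j' using Fin.cases with
          | zero => simp [G4_mu_zero, G4_mu_succ, Finsupp.degree_single] at hd
          | succ j' =>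
            simp only [G4_mu_zero, G4_mu_succ, zero_add, add_zero] at h
            have := Finsupp.single_left_injective one_ne_zero h
            subst this
            simp
        | succ i' => 
          induction j' using Fin.cases with
          | zero =>
            simp only [G4_mu_zero, G4_mu_succ, add_zero] at h
            have := Finsupp.single_left_injective one_ne_zero h
            subst this
            simp
          | succ j' => simp [G4_mu_zero, G4_mu_succ, Finsupp.degree_single] at hd
      | succ j =>
        induction i' using Fin.cases with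
        | zero =>
          induction j' using Fin.cases with
          | zero => simp [G4_mu_zero, G4_mu_succ, Finsupp.degree_single] at hd
          | succ j' => simp [G4_mu_zero, G4_mu_succ, Finsupp.degree_single] at hd
        | succ i' => 
          induction j' using Fin.cases with
          | zero => simp [G4_mu_zero, G4_mu_succ, Finsupp.degree_single] at hd
          | succ j' =>
            simp only [G4_mu_succ] at h
            rw [Finsupp.single_add_single_eq_single_add_single one_ne_zero one_ne_zero] at h
            rcases h with ⟨h1, h2⟩ | ⟨_, h1, h2⟩ | ⟨h0, _⟩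
            · left; simp [h1, h2]
            · right; simp [h1, h2]
            · simp at h0
  · rintro (⟨rfl, rfl⟩ | ⟨rfl, rfl⟩)
    · rfl
    · exact add_comm _ _

theorem G4_coord {M : Type} [Field M] {n : ℕ} (i : Fin (n + 1)) :
    (Fin.cons 1 fun i => MvPolynomial.X i : Fin (n + 1) → MvPolynomial (Fin n) M) i =
      MvPolynomial.monomial (G4_mu i) 1 := by
  induction i using Fin.cases with
  | zero => simp [G4_mu_zero]
  | succ i => simp [G4_mu_succ, MvPolynomial.X]

theorem G4_quadEq {M : Type} [Field M] {n : ℕ} (B : Matrix (Fin (n + 1)) (Fin (n + 1)) M) :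
    quadEq B = ∑ i, ∑ j, MvPolynomial.monomial (G4_mu i + G4_mu j) (B i j) := by
  unfold quadEq
  refine Finset.sum_congr rfl fun i _ => Finset.sum_congr rfl fun j _ => ?_
  rw [G4_coord, G4_coord, MvPolynomial.monomial_mul, MvPolynomial.C_mul_monomial]
  simp

theorem G4_coeff_quadEq {M : Type} [Field M] {n : ℕ} (B : Matrix (Fin (n + 1)) (Fin (n + 1)) M)
    (i j : Fin (n + 1)) :
    (quadEq B).coeff (G4_mu i + G4_mu j) * (if i = j then 2 else 1) = B i j + B j i := by
  classical
  rw [G4_quadEq]
  simp only [MvPolynomial.coeff_sum, MvPolynomial.coeff_monomial, G4_mu_add_eq]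
  by_cases hij : i = j
  · subst hij
    simp only [or_self, if_true]
    rw [Finset.sum_eq_single i]
    · rw [Finset.sum_eq_single i]
      · simp; ring
      · intro b _ hb; simp [hb]
      · simp
    · intro b _ hb
      refine Finset.sum_eq_zero fun c _ => ?_
      simp [hb]
    · simp
  · rw [if_neg hij, mul_one]
    rw [← Finset.add_sum_erase _ _ (Finset.mem_univ i), ← Finset.add_sum_erase _ _ (Finset.mem_erase.2 ⟨Ne.symm hij, Finset.mem_univ j⟩)]
    have h1 : (∑ j' : Fin (n+1), if i = i ∧ j' = j ∨ i = j ∧ j' = i then B i j' else 0) = B i j := by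
      simp [hij]
    have h2 : (∑ j' : Fin (n+1), if j = i ∧ j' = j ∨ j = j ∧ j' = i then B j j' else 0) = B j i := by
      simp [Ne.symm hij]
    rw [h1, h2]
    rw [Finset.sum_eq_zero]
    · ring
    · intro a ha
      simp only [Finset.mem_erase] at ha
      refine Finset.sum_eq_zero fun c _ => ?_
      simp [ha.1, ha.2.1]

theorem G4_degree_mu_le {n : ℕ} (i : Fin (n + 1)) : (G4_mu i).degree ≤ 1 := by
  induction i using Fin.cases with
  | zero => simp [G4_mu_zero]
  | succ i => simp [G4_mu_succ, Finsupp.degree_single]

theorem G4_totalDegree {M : Type} [Field M] {n : ℕ} (B : Matrix (Fin (n + 1)) (Fin (n + 1)) M) :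
    (quadEq B).totalDegree ≤ 2 := by
  rw [G4_quadEq]
  refine MvPolynomial.totalDegree_finsetSum_le fun i _ =>
    MvPolynomial.totalDegree_finsetSum_le fun j _ => ?_
  refine (MvPolynomial.totalDegree_monomial_le _ _).trans ?_
  have h3 := G4_degree_mu_le i
  have h4 := G4_degree_mu_le j
  have h5 : ((G4_mu i + G4_mu j).sum fun _ => id) = (G4_mu i + G4_mu j).degree := by
    simp [Finsupp.degree_eq_sum, Finsupp.sum_fintype]
  rw [h5, map_add]
  omega

theorem G4_linear {M : Type} [Field M] {n : ℕ} (p : MvPolynomial (Fin n) M)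
    (hp : p.totalDegree ≤ 1) :
    p = ∑ i, MvPolynomial.monomial (G4_mu i) (p.coeff (G4_mu i)) := by
  classical
  ext s
  rw [MvPolynomial.coeff_sum]
  simp only [MvPolynomial.coeff_monomial]
  by_cases hs : ∃ i : Fin (n + 1), G4_mu i = s
  · obtain ⟨i, rfl⟩ := hs
    rw [Finset.sum_eq_single i]
    · simp
    · intro b _ hb
      rw [if_neg]
      intro h
      apply hb
      have := (G4_mu_add_eq i i b b).1 (by rw [h])
      rcases this with h | h <;> exact h.1
    · simp
  · push Not at hs
    rw [Finset.sum_eq_zero (fun i _ => by rw [if_neg (hs i)])]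
    by_contra hc
    have hd : s.degree ≤ 1 := by
      have := MvPolynomial.le_totalDegree (MvPolynomial.mem_support_iff.2 hc)
      have h5 : (s.sum fun _ e => e) = s.degree := by
        simp [Finsupp.degree_eq_sum, Finsupp.sum_fintype]
      omega
    have h0 : s ≠ 0 := fun h => hs 0 (by rw [h, G4_mu_zero])
    obtain ⟨a, ha⟩ := Finsupp.ne_iff.1 h0
    refine hs (Fin.succ a) ?_
    rw [G4_mu_succ]
    have hle : Finsupp.single a 1 ≤ s := by
      rw [Finsupp.single_le_iff]
      exact Nat.one_le_iff_ne_zero.2 ha
    obtain ⟨t, ht⟩ := exists_add_of_le hle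
    have ht0 : t.degree = 0 := by
      rw [ht, map_add, Finsupp.degree_single] at hd
      omega
    rw [Finsupp.degree_eq_zero_iff] at ht0
    rw [ht, ht0, add_zero]

/-- If the quadric `B` over `κ` has a component which is also a component of a hypersurface defined
over `k`, then `B` is either proportional to a matrix over the algebraic closure `N` of `k` in `κ`,
or a product of two linear forms the first of which is defined over `N`. -/
theorem matrix_of_common_factor (k κ : Type) [Field k] [CharZero k] [Field κ] [Algebra k κ] (n : ℕ)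
    (B : Matrix (Fin (n + 1)) (Fin (n + 1)) κ) (hB : B.IsSymm) (hB0 : quadEq B ≠ 0)
    (h : MvPolynomial (Fin n) κ) (hirr : Irreducible h) (h1 : h ∣ quadEq B)
    (ω : MvPolynomial (Fin n) k) (hω : ω ≠ 0) (h2 : h ∣ MvPolynomial.map (algebraMap k κ) ω) :
    (∃ (H : Matrix (Fin (n + 1)) (Fin (n + 1)) (algebraicClosure k κ)) (i₀ j₀ : Fin (n + 1)) (c : κ),
      H.IsSymm ∧ H i₀ j₀ = 1 ∧ ∀ i j, B i j = c * (H i j : κ)) ∨
    (∃ (η : Fin (n + 1) → algebraicClosure k κ) (j₀ : Fin (n + 1)) (γ : Fin (n + 1) → κ),
      η j₀ = 1 ∧ ∀ i j, B i j = (η i : κ) * γ j + γ i * (η j : κ)) := by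
  classical
  have hch : CharZero κ := charZero_of_injective_algebraMap (algebraMap k κ).injective
  obtain ⟨c, hc, halg⟩ := coeff_algebraic_of_dvd k κ n h hirr ω hω h2
  obtain ⟨g0, hg0⟩ := h1
  set p : MvPolynomial (Fin n) κ := MvPolynomial.C c * h with hp
  set g : MvPolynomial (Fin n) κ := MvPolynomial.C c⁻¹ * g0 with hg
  have hpg : quadEq B = p * g := by
    rw [hg0, hp, hg]
    have : MvPolynomial.C c * h * (MvPolynomial.C c⁻¹ * g0) =
      (MvPolynomial.C c * MvPolynomial.C c⁻¹) * (h * g0) := by ring
    rw [this, ← MvPolynomial.C_mul, mul_inv_cancel₀ hc, MvPolynomial.C_1, one_mul]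
  have hpalg : ∀ s, p.coeff s ∈ algebraicClosure k κ := fun s => by
    rw [mem_algebraicClosure_iff, hp, MvPolynomial.coeff_C_mul]
    exact halg s
  have hp0 : p ≠ 0 := fun h => hB0 (by rw [hpg, h, zero_mul])
  have hq0 : g ≠ 0 := fun h => hB0 (by rw [hpg, h, mul_zero])
  have hdeg := MvPolynomial.totalDegree_mul_of_isDomain hp0 hq0
  rw [← hpg] at hdeg
  have hdeg2 := G4_totalDegree B
  have hp1 : p.totalDegree ≠ 0 := by
    intro h0
    rw [MvPolynomial.totalDegree_eq_zero_iff_eq_C] at h0
    apply hirr.not_isUnit
    have hc0 : p.coeff 0 ≠ 0 := fun h => hp0 (by rw [h0, h, MvPolynomial.C_0])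
    have hh : h = MvPolynomial.C (c⁻¹ * p.coeff 0) := by
      rw [MvPolynomial.C_mul, ← h0, hp, ← mul_assoc, ← MvPolynomial.C_mul, inv_mul_cancel₀ hc,
        MvPolynomial.C_1, one_mul]
    rw [hh]
    exact (IsUnit.mk0 _ (mul_ne_zero (inv_ne_zero hc) hc0)).map MvPolynomial.C
  have h20 : (2 : κ) ≠ 0 := two_ne_zero
  by_cases hd : g.totalDegree = 0
  · left
    rw [MvPolynomial.totalDegree_eq_zero_iff_eq_C] at hd
    set γ := g.coeff 0 with hγ
    have hBij : ∀ i j, B i j = γ * (p.coeff (G4_mu i + G4_mu j) * (if i = j then 1 else 2⁻¹)) := by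
      intro i j
      have h3 := G4_coeff_quadEq B i j
      rw [hpg, hd, mul_comm p, MvPolynomial.coeff_C_mul] at h3
      have hsym : B j i = B i j := hB.apply i j
      rw [hsym] at h3
      split_ifs with hij
      · rw [if_pos hij] at h3
        have h4 : 2 * B i j = 2 * (γ * (p.coeff (G4_mu i + G4_mu j) * 1)) := by
          rw [two_mul, ← h3]; ring
        exact mul_left_cancel₀ h20 h4
      · rw [if_neg hij] at h3
        have h4 : 2 * B i j = 2 * (γ * (p.coeff (G4_mu i + G4_mu j) * 2⁻¹)) := by
          rw [two_mul, ← h3]; field_simp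
        exact mul_left_cancel₀ h20 h4
    have hmem : ∀ i j, p.coeff (G4_mu i + G4_mu j) * (if i = j then 1 else 2⁻¹) ∈
        algebraicClosure k κ := by
      intro i j
      refine mul_mem (hpalg _) ?_
      split_ifs
      · exact one_mem _
      · refine inv_mem ?_
        have h2m := (algebraicClosure k κ).algebraMap_mem (2 : k)
        rwa [map_ofNat] at h2m
    set H' : Matrix (Fin (n + 1)) (Fin (n + 1)) (algebraicClosure k κ) := fun i j => ⟨_, hmem i j⟩
      with hH'
    have hex : ∃ i j, H' i j ≠ 0 := by
      by_contra hcon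
      push Not at hcon
      apply hB0
      rw [G4_quadEq]
      refine Finset.sum_eq_zero fun i _ => Finset.sum_eq_zero fun j _ => ?_
      rw [hBij i j]
      have h5 := congrArg (Subtype.val) (hcon i j)
      simp only [hH'] at h5
      rw [h5]
      simp
    obtain ⟨i₀, j₀, h0⟩ := hex
    refine ⟨fun i j => (H' i₀ j₀)⁻¹ * H' i j, i₀, j₀, γ * (H' i₀ j₀ : κ), ?_, ?_, ?_⟩
    · ext i j
      simp only [Matrix.transpose_apply, hH', eq_comm (a := i), add_comm (G4_mu i)]
    · exact inv_mul_cancel₀ h0
    · intro i j
      have h0' : (H' i₀ j₀ : κ) ≠ 0 := fun h => h0 (Subtype.ext h)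
      rw [hBij i j]
      have : (((H' i₀ j₀)⁻¹ * H' i j : algebraicClosure k κ) : κ) = (H' i₀ j₀ : κ)⁻¹ * (H' i j : κ) := by
        simp
      rw [this]
      have h6 : (H' i j : κ) = p.coeff (G4_mu i + G4_mu j) * (if i = j then 1 else 2⁻¹) := rfl
      rw [← h6]
      field_simp
  · right
    have hd1 : g.totalDegree ≤ 1 := by omega
    have hd2 : p.totalDegree ≤ 1 := by omega
    have hBij : ∀ i j, 2 * B i j = p.coeff (G4_mu i) * g.coeff (G4_mu j) +
        g.coeff (G4_mu i) * p.coeff (G4_mu j) := by
      intro i j
      have h3 := G4_coeff_quadEq B i j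
      have h4 := G4_coeff_quadEq (fun i j => p.coeff (G4_mu i) * g.coeff (G4_mu j) : Matrix _ _ κ) i j
      have h5 : quadEq (fun i j => p.coeff (G4_mu i) * g.coeff (G4_mu j) : Matrix _ _ κ) = quadEq B := by
        rw [hpg, G4_quadEq]
        conv_rhs => rw [G4_linear p hd2, G4_linear g hd1]
        rw [Finset.sum_mul_sum]
        simp [MvPolynomial.monomial_mul]
      have hsym : B j i = B i j := hB.apply i j
      rw [h5, h3, hsym] at h4
      rw [two_mul]
      linear_combination h4
    have hex : ∃ j, p.coeff (G4_mu j) ≠ 0 := by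
      by_contra hcon
      push Not at hcon
      apply hp0
      rw [G4_linear p hd2]
      exact Finset.sum_eq_zero fun i _ => by rw [hcon i, map_zero]
    obtain ⟨j₀, h0⟩ := hex
    refine ⟨fun i => ⟨(p.coeff (G4_mu j₀))⁻¹ * p.coeff (G4_mu i), mul_mem (inv_mem (hpalg _)) (hpalg _)⟩,
      j₀, fun i => 2⁻¹ * p.coeff (G4_mu j₀) * g.coeff (G4_mu i), ?_, ?_⟩
    · exact Subtype.ext (inv_mul_cancel₀ h0)
    · intro i j
      have h6 : B i j = 2⁻¹ * (2 * B i j) := by rw [← mul_assoc, inv_mul_cancel₀ h20, one_mul]
      rw [h6, hBij i j]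
      field_simp

end Pool.Agent.LibHP
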