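import Pool.Agent.LibHP2.G8a

set_option autoImplicit false

namespace Pool.Agent.LibHP

/-- A quotient of a form of degree two by a form of degree `d`. -/
theorem G5_quot {N : Type} [Field N] {m : ℕ} (d : ℕ) (hd : 1 ≤ d)
    (w : MvPolynomial (Fin (m + 1)) N) (hw : w.IsHomogeneous d) :
    ∃ (d1 : ℕ) (w1 : MvPolynomial (Fin (m + 1)) N), 1 ≤ d1 ∧ d1 ≤ 2 ∧ w1.IsHomogeneous d1 ∧
      ∀ ψ : MvPolynomial (Fin (m + 1)) N, ψ.IsHomogeneous 2 → w ∣ ψ →
        ∃ P : MvPolynomial (Fin (m + 1)) N, P.IsHomogeneous (2 - d1) ∧ ψ = w1 * P := by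
  let _ := MvPolynomial.gradedAlgebra (σ := Fin (m + 1)) (R := N)
  by_cases hd2 : d ≤ 2
  · refine ⟨d, w, hd, hd2, hw, ?_⟩
    rintro ψ hψ ⟨P, rfl⟩
    refine ⟨(DirectSum.decompose (MvPolynomial.homogeneousSubmodule (Fin (m + 1)) N) P (2 - d) :
      MvPolynomial (Fin (m + 1)) N), ?_, ?_⟩
    · exact (MvPolynomial.mem_homogeneousSubmodule _ _).1
        (DirectSum.decompose (MvPolynomial.homogeneousSubmodule (Fin (m + 1)) N) P (2 - d)).2
    · have h1 := DirectSum.decompose_of_mem_same
        (MvPolynomial.homogeneousSubmodule (Fin (m + 1)) N) (x := w * P) (i := 2) hψ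
      have h2 := DirectSum.coe_decompose_mul_of_left_mem_of_le
        (MvPolynomial.homogeneousSubmodule (Fin (m + 1)) N) (a := w) (b := P) (i := d) (n := 2)
        hw hd2
      rw [← h1, h2]
  · refine ⟨1, MvPolynomial.X 0, le_refl _, by norm_num, MvPolynomial.isHomogeneous_X _ _, ?_⟩
    rintro ψ hψ ⟨P, rfl⟩
    refine ⟨0, MvPolynomial.isHomogeneous_zero _ _ _, ?_⟩
    have h1 := DirectSum.decompose_of_mem_same
      (MvPolynomial.homogeneousSubmodule (Fin (m + 1)) N) (x := w * P) (i := 2) hψ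
    have h2 := DirectSum.coe_decompose_mul_of_left_mem_of_not_le
      (MvPolynomial.homogeneousSubmodule (Fin (m + 1)) N) (a := w) (b := P) (i := d) (n := 2)
      hw hd2
    rw [← h1, h2, mul_zero]

theorem G5_bihom_mul {N : Type} [Field N] {m n : ℕ} {d e d' e' : ℕ}
    {F G : MvPolynomial (Fin (m + 1) ⊕ Fin (n + 1)) N} (hF : IsBihom d e F)
    (hG : IsBihom d' e' G) : IsBihom (d + d') (e + e') (F * G) := by
  rw [G8a_isBihom_iff] at *
  exact ⟨hF.1.mul hG.1, hF.2.mul hG.2⟩

theorem G5_bihom_sum {N ι : Type} [Field N] {m n : ℕ} {d e : ℕ} (s : Finset ι)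
    {F : ι → MvPolynomial (Fin (m + 1) ⊕ Fin (n + 1)) N} (hF : ∀ i ∈ s, IsBihom d e (F i)) :
    IsBihom d e (∑ i ∈ s, F i) := by
  rw [G8a_isBihom_iff]
  exact ⟨MvPolynomial.IsWeightedHomogeneous.sum _ _ _ fun i hi =>
      ((G8a_isBihom_iff _).1 (hF i hi)).1,
    MvPolynomial.IsWeightedHomogeneous.sum _ _ _ fun i hi => ((G8a_isBihom_iff _).1 (hF i hi)).2⟩

theorem G5_bihom_C {N : Type} [Field N] {m n : ℕ} (c : N) :
    IsBihom 0 0 (MvPolynomial.C c : MvPolynomial (Fin (m + 1) ⊕ Fin (n + 1)) N) := by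
  rw [G8a_isBihom_iff]
  exact ⟨MvPolynomial.isWeightedHomogeneous_C _ _, MvPolynomial.isWeightedHomogeneous_C _ _⟩

theorem G5_bihom_X {N : Type} [Field N] {m n : ℕ} (j : Fin (n + 1)) :
    IsBihom 0 1 (MvPolynomial.X (Sum.inr j) : MvPolynomial (Fin (m + 1) ⊕ Fin (n + 1)) N) := by
  rw [G8a_isBihom_iff]
  exact ⟨MvPolynomial.isWeightedHomogeneous_X _ _ _, MvPolynomial.isWeightedHomogeneous_X _ _ _⟩

theorem G5_bihom_rename {N : Type} [Field N] {m n : ℕ} {d : ℕ}
    {p : MvPolynomial (Fin (m + 1)) N} (hp : p.IsHomogeneous d) :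
    IsBihom d 0 (MvPolynomial.rename Sum.inl p :
      MvPolynomial (Fin (m + 1) ⊕ Fin (n + 1)) N) := by
  intro s hs
  obtain ⟨u, rfl, hu⟩ := MvPolynomial.coeff_rename_ne_zero _ _ _ (MvPolynomial.mem_support_iff.1 hs)
  have h1 := hp hu
  rw [Finsupp.weight_apply, Finsupp.sum_fintype _ _ (by intro i; simp)] at h1
  constructor
  · simp_rw [Finsupp.mapDomain_apply Sum.inl_injective]
    simpa using h1
  · refine Finset.sum_eq_zero fun j _ => ?_
    exact Finsupp.mapDomain_of_notMem_range _ _ (by simp)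

/-- The gram matrix over a larger field. -/
theorem G5_gram {k N : Type} [Field k] [CharZero k] [Field N] [Algebra k N] {m n : ℕ}
    (F : MvPolynomial (Fin (m + 1) ⊕ Fin (n + 1)) k) (hF : IsBiquadratic F) :
    2 * MvPolynomial.map (algebraMap k N) F =
      ∑ i, ∑ j, MvPolynomial.rename Sum.inl (MvPolynomial.map (algebraMap k N) (gramH F i j)) *
        (MvPolynomial.X (Sum.inr i) * MvPolynomial.X (Sum.inr j)) := by
  have h := congrArg (MvPolynomial.map (algebraMap k N)) (two_mul_eq_gram F hF)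
  simpa [map_sum, MvPolynomial.map_rename] using h

/-- Reassembling the quadratic form. -/
theorem G5_half {N : Type} [Field N] [CharZero N] {σ : Type} (p q : MvPolynomial σ N)
    (h : 2 * p = q) : p = MvPolynomial.C (1 / 2) * q := by
  rw [← h, ← mul_assoc]
  have : (MvPolynomial.C (1 / 2) : MvPolynomial σ N) * 2 = 1 := by
    have h2 : (2 : MvPolynomial σ N) = MvPolynomial.C 2 :=
      (map_ofNat (MvPolynomial.C : N →+* MvPolynomial σ N) 2).symm
    rw [h2, ← MvPolynomial.C_mul]
    norm_num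
  rw [this, one_mul]

/-- The decomposition `F = w1 P + w2 Q` when the fibre over the generic point `ξ` of a
hypersurface of `P^m` has a component defined over `N`. -/
theorem exists_decomp (k N κ : Type) [Field k] [CharZero k] [Field N] [Algebra k N] [Field κ]
    [Algebra N κ] (m n : ℕ)
    (F : MvPolynomial (Fin (m + 1) ⊕ Fin (n + 1)) k) (hF : IsBiquadratic F)
    (ξ : Fin (m + 1) → κ)
    (d : ℕ) (hd : 1 ≤ d) (w : MvPolynomial (Fin (m + 1)) N) (hw0 : w ≠ 0) (hw : w.IsHomogeneous d)
    (hdvd : ∀ ψ : MvPolynomial (Fin (m + 1)) N, ψ.IsHomogeneous 2 → MvPolynomial.aeval ξ ψ = 0 →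
      w ∣ ψ)
    (B : Matrix (Fin (n + 1)) (Fin (n + 1)) κ)
    (hB : ∀ i j, B i j = MvPolynomial.aeval ξ (MvPolynomial.map (algebraMap k N) (gramH F i j)))
    (hcase :
      (∃ (H : Matrix (Fin (n + 1)) (Fin (n + 1)) N) (i₀ j₀ : Fin (n + 1)) (c : κ),
        H.IsSymm ∧ H i₀ j₀ = 1 ∧ ∀ i j, B i j = c * algebraMap N κ (H i j)) ∨
      (∃ (η : Fin (n + 1) → N) (j₀ : Fin (n + 1)) (γ : Fin (n + 1) → κ),
        η j₀ = 1 ∧ ∀ i j, B i j = algebraMap N κ (η i) * γ j + γ i * algebraMap N κ (η j))) :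
    ∃ (d1 d2 : ℕ) (w1 w2 P Q : MvPolynomial (Fin (m + 1) ⊕ Fin (n + 1)) N),
      1 ≤ d1 ∧ d1 ≤ 2 ∧ 1 ≤ d2 ∧ d2 ≤ 2 ∧ IsBihom d1 0 w1 ∧ IsBihom 0 d2 w2 ∧
      IsBihom (2 - d1) 2 P ∧ IsBihom 2 (2 - d2) Q ∧
      MvPolynomial.map (algebraMap k N) F = w1 * P + w2 * Q := by
  have hN : CharZero N := charZero_of_injective_algebraMap (algebraMap k N).injective
  have hκ : CharZero κ := charZero_of_injective_algebraMap (algebraMap N κ).injective
  obtain ⟨d1, w1, h1d, hd1, hw1, hdiv⟩ := G5_quot d hd w hw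
  set G : Fin (n + 1) → Fin (n + 1) → MvPolynomial (Fin (m + 1)) N :=
    fun i j => MvPolynomial.map (algebraMap k N) (gramH F i j) with hG
  have hGh : ∀ i j, (G i j).IsHomogeneous 2 := fun i j => (gramH_isHomogeneous F hF i j).map _
  have hE := G5_gram (N := N) F hF
  have hB' : ∀ i j, MvPolynomial.aeval ξ (G i j) = B i j := fun i j => (hB i j).symm
  rcases hcase with ⟨H, i₀, j₀, c, hHs, hH1, hBH⟩ | ⟨η, j₀, γ, hη, hBη⟩
  · -- first case
    have hc : B i₀ j₀ = c := by rw [hBH, hH1]; simp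
    have hψ : ∀ i j, ∃ P : MvPolynomial (Fin (m + 1)) N, P.IsHomogeneous (2 - d1) ∧
        G i j - MvPolynomial.C (H i j) * G i₀ j₀ = w1 * P := by
      intro i j
      have hhom : (G i j - MvPolynomial.C (H i j) * G i₀ j₀).IsHomogeneous 2 := by
        refine (hGh i j).sub ?_
        simpa using (MvPolynomial.isHomogeneous_C (Fin (m + 1)) (H i j)).mul (hGh i₀ j₀)
      refine hdiv _ hhom (hdvd _ hhom ?_)
      rw [map_sub, map_mul, hB', hB', MvPolynomial.aeval_C, hc, hBH i j]
      ring
    choose P hP hPeq using hψ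
    refine ⟨d1, 2, MvPolynomial.rename Sum.inl w1,
      MvPolynomial.C (1 / 2) * ∑ i, ∑ j, MvPolynomial.C (H i j) *
        (MvPolynomial.X (Sum.inr i) * MvPolynomial.X (Sum.inr j)),
      MvPolynomial.C (1 / 2) * ∑ i, ∑ j, MvPolynomial.rename Sum.inl (P i j) *
        (MvPolynomial.X (Sum.inr i) * MvPolynomial.X (Sum.inr j)),
      MvPolynomial.rename Sum.inl (G i₀ j₀), h1d, hd1, by norm_num, le_refl _,
      G5_bihom_rename hw1, ?_, ?_, ?_, ?_⟩
    · have := G5_bihom_mul (G5_bihom_C (m := m) (n := n) (1 / 2 : N))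
        (G5_bihom_sum Finset.univ fun i _ => G5_bihom_sum Finset.univ fun j _ =>
          G5_bihom_mul (G5_bihom_C (m := m) (n := n) (H i j))
            (G5_bihom_mul (G5_bihom_X (N := N) (m := m) i) (G5_bihom_X j)))
      simpa using this
    · have := G5_bihom_mul (G5_bihom_C (m := m) (n := n) (1 / 2 : N))
        (G5_bihom_sum Finset.univ fun i _ => G5_bihom_sum Finset.univ fun j _ =>
          G5_bihom_mul (G5_bihom_rename (n := n) (hP i j))
            (G5_bihom_mul (G5_bihom_X (N := N) (m := m) i) (G5_bihom_X j)))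
      simpa using this
    · exact G5_bihom_rename (hGh i₀ j₀)
    · rw [G5_half _ _ hE]
      have hsum : ∑ i, ∑ j, MvPolynomial.rename Sum.inl
            (MvPolynomial.map (algebraMap k N) (gramH F i j)) *
          (MvPolynomial.X (Sum.inr i) * MvPolynomial.X (Sum.inr j)) =
          MvPolynomial.rename Sum.inl w1 * (∑ i, ∑ j, MvPolynomial.rename Sum.inl (P i j) *
            (MvPolynomial.X (Sum.inr i) * MvPolynomial.X (Sum.inr j))) +
          (∑ i, ∑ j, MvPolynomial.C (H i j) *
            (MvPolynomial.X (Sum.inr i) * MvPolynomial.X (Sum.inr j))) *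
            (MvPolynomial.rename Sum.inl (G i₀ j₀) :
              MvPolynomial (Fin (m + 1) ⊕ Fin (n + 1)) N) := by
        simp only [Finset.mul_sum, Finset.sum_mul]
        simp only [← Finset.sum_add_distrib]
        refine Finset.sum_congr rfl fun i _ => Finset.sum_congr rfl fun j _ => ?_
        have h3 : MvPolynomial.map (algebraMap k N) (gramH F i j) =
            w1 * P i j + MvPolynomial.C (H i j) * G i₀ j₀ := by
          rw [← hPeq i j]; ring
        rw [h3, map_add, map_mul, map_mul, MvPolynomial.rename_C]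
        ring
      rw [hsum]
      ring
  · -- second case
    have hγ0 : B j₀ j₀ = 2 * γ j₀ := by rw [hBη, hη]; simp; ring
    have hγ : ∀ j, γ j = B j j₀ - algebraMap N κ (η j / 2) * B j₀ j₀ := by
      intro j
      rw [hγ0, hBη j j₀, hη, map_div₀, map_one]
      have : algebraMap N κ 2 = 2 := map_ofNat (algebraMap N κ) 2
      rw [this]
      field_simp
      ring
    set g : Fin (n + 1) → MvPolynomial (Fin (m + 1)) N :=
      fun j => G j j₀ - MvPolynomial.C (η j / 2) * G j₀ j₀ with hg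
    have hgh : ∀ j, (g j).IsHomogeneous 2 := by
      intro j
      refine (hGh j j₀).sub ?_
      simpa using (MvPolynomial.isHomogeneous_C (Fin (m + 1)) (η j / 2)).mul (hGh j₀ j₀)
    have hgξ : ∀ j, MvPolynomial.aeval ξ (g j) = γ j := by
      intro j
      rw [hg, hγ j]
      simp only [map_sub, map_mul, hB', MvPolynomial.aeval_C]
    have hψ : ∀ i j, ∃ P : MvPolynomial (Fin (m + 1)) N, P.IsHomogeneous (2 - d1) ∧
        G i j - MvPolynomial.C (η i) * g j - MvPolynomial.C (η j) * g i = w1 * P := by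
      intro i j
      have hhom : (G i j - MvPolynomial.C (η i) * g j -
          MvPolynomial.C (η j) * g i).IsHomogeneous 2 := by
        refine ((hGh i j).sub ?_).sub ?_
        · simpa using (MvPolynomial.isHomogeneous_C (Fin (m + 1)) (η i)).mul (hgh j)
        · simpa using (MvPolynomial.isHomogeneous_C (Fin (m + 1)) (η j)).mul (hgh i)
      refine hdiv _ hhom (hdvd _ hhom ?_)
      rw [map_sub, map_sub, map_mul, map_mul, hB', hgξ, hgξ, MvPolynomial.aeval_C,
        MvPolynomial.aeval_C, hBη i j]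
      ring
    choose P hP hPeq using hψ
    refine ⟨d1, 1, MvPolynomial.rename Sum.inl w1,
      ∑ i, MvPolynomial.C (η i) * MvPolynomial.X (Sum.inr i),
      MvPolynomial.C (1 / 2) * ∑ i, ∑ j, MvPolynomial.rename Sum.inl (P i j) *
        (MvPolynomial.X (Sum.inr i) * MvPolynomial.X (Sum.inr j)),
      ∑ j, MvPolynomial.rename Sum.inl (g j) * MvPolynomial.X (Sum.inr j),
      h1d, hd1, le_refl _, by norm_num, G5_bihom_rename hw1, ?_, ?_, ?_, ?_⟩
    · have := (G5_bihom_sum Finset.univ fun i _ =>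
          G5_bihom_mul (G5_bihom_C (m := m) (n := n) (η i)) (G5_bihom_X (N := N) (m := m) i))
      simpa using this
    · have := G5_bihom_mul (G5_bihom_C (m := m) (n := n) (1 / 2 : N))
        (G5_bihom_sum Finset.univ fun i _ => G5_bihom_sum Finset.univ fun j _ =>
          G5_bihom_mul (G5_bihom_rename (n := n) (hP i j))
            (G5_bihom_mul (G5_bihom_X (N := N) (m := m) i) (G5_bihom_X j)))
      simpa using this
    · have := (G5_bihom_sum Finset.univ fun i _ =>
          G5_bihom_mul (G5_bihom_rename (n := n) (hgh i)) (G5_bihom_X (N := N) (m := m) i))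
      simpa using this
    · rw [G5_half _ _ hE]
      have hsum : ∑ i, ∑ j, MvPolynomial.rename Sum.inl
            (MvPolynomial.map (algebraMap k N) (gramH F i j)) *
          (MvPolynomial.X (Sum.inr i) * MvPolynomial.X (Sum.inr j)) =
          MvPolynomial.rename Sum.inl w1 * (∑ i, ∑ j, MvPolynomial.rename Sum.inl (P i j) *
            (MvPolynomial.X (Sum.inr i) * MvPolynomial.X (Sum.inr j))) +
          ((∑ i, MvPolynomial.C (η i) * MvPolynomial.X (Sum.inr i)) *
            (∑ j, MvPolynomial.rename Sum.inl (g j) * MvPolynomial.X (Sum.inr j)) +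
          (∑ i, MvPolynomial.C (η i) * MvPolynomial.X (Sum.inr i)) *
            (∑ j, MvPolynomial.rename Sum.inl (g j) * MvPolynomial.X (Sum.inr j)) :
              MvPolynomial (Fin (m + 1) ⊕ Fin (n + 1)) N) := by
        have h4 : (∑ i, MvPolynomial.C (η i) * MvPolynomial.X (Sum.inr i)) *
            (∑ j, MvPolynomial.rename Sum.inl (g j) * MvPolynomial.X (Sum.inr j)) =
            ∑ i, ∑ j, (MvPolynomial.C (η i) * MvPolynomial.rename Sum.inl (g j)) *
              (MvPolynomial.X (Sum.inr i) * MvPolynomial.X (Sum.inr j) :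
              MvPolynomial (Fin (m + 1) ⊕ Fin (n + 1)) N) := by
          rw [Finset.sum_mul_sum]
          refine Finset.sum_congr rfl fun i _ => Finset.sum_congr rfl fun j _ => ?_
          ring
        have h5 : (∑ i, MvPolynomial.C (η i) * MvPolynomial.X (Sum.inr i)) *
            (∑ j, MvPolynomial.rename Sum.inl (g j) * MvPolynomial.X (Sum.inr j)) =
            ∑ i, ∑ j, (MvPolynomial.C (η j) * MvPolynomial.rename Sum.inl (g i)) *
              (MvPolynomial.X (Sum.inr i) * MvPolynomial.X (Sum.inr j) :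
              MvPolynomial (Fin (m + 1) ⊕ Fin (n + 1)) N) := by
          rw [h4, Finset.sum_comm]
          refine Finset.sum_congr rfl fun i _ => Finset.sum_congr rfl fun j _ => ?_
          ring
        have h6 : (∑ i, MvPolynomial.C (η i) * MvPolynomial.X (Sum.inr i)) *
            (∑ j, MvPolynomial.rename Sum.inl (g j) * MvPolynomial.X (Sum.inr j)) +
            (∑ i, MvPolynomial.C (η i) * MvPolynomial.X (Sum.inr i)) *
            (∑ j, MvPolynomial.rename Sum.inl (g j) * MvPolynomial.X (Sum.inr j)) =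
            ∑ i, ∑ j, (MvPolynomial.C (η i) * MvPolynomial.rename Sum.inl (g j) +
              MvPolynomial.C (η j) * MvPolynomial.rename Sum.inl (g i)) *
              (MvPolynomial.X (Sum.inr i) * MvPolynomial.X (Sum.inr j) :
              MvPolynomial (Fin (m + 1) ⊕ Fin (n + 1)) N) := by
          nth_rewrite 1 [h4]
          rw [h5]
          simp only [← Finset.sum_add_distrib]
          refine Finset.sum_congr rfl fun i _ => Finset.sum_congr rfl fun j _ => ?_
          ring
        rw [h6]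
        simp only [Finset.mul_sum]
        simp only [← Finset.sum_add_distrib]
        refine Finset.sum_congr rfl fun i _ => Finset.sum_congr rfl fun j _ => ?_
        have h3 : MvPolynomial.map (algebraMap k N) (gramH F i j) =
            w1 * P i j + MvPolynomial.C (η i) * g j + MvPolynomial.C (η j) * g i := by
          rw [← hPeq i j]; ring
        rw [h3, map_add, map_add, map_mul, map_mul, map_mul, MvPolynomial.rename_C,
          MvPolynomial.rename_C]
        ring
      rw [hsum]
      have h2 : (MvPolynomial.C (1 / 2) : MvPolynomial (Fin (m + 1) ⊕ Fin (n + 1)) N) * 2 = 1 := by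
        have h2 : (2 : MvPolynomial (Fin (m + 1) ⊕ Fin (n + 1)) N) = MvPolynomial.C 2 :=
          (map_ofNat (MvPolynomial.C : N →+* MvPolynomial (Fin (m + 1) ⊕ Fin (n + 1)) N) 2).symm
        rw [h2, ← MvPolynomial.C_mul]
        norm_num
      linear_combination ((∑ i, MvPolynomial.C (η i) * MvPolynomial.X (Sum.inr i)) *
            (∑ j, MvPolynomial.rename Sum.inl (g j) * MvPolynomial.X (Sum.inr j))) * h2

end Pool.Agent.LibHP
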