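import Pool.Agent.LibHP2.Defs

set_option autoImplicit false

namespace Pool.Agent.LibHP

theorem G7_hom_field (k κ : Type) [Field k] [Field κ] [Algebra k κ] [Algebra.FiniteType k κ] :
    Nonempty (κ →ₐ[k] AlgebraicClosure k) := by
  have : Module.Finite k κ := finite_of_finite_type_of_isJacobsonRing k κ
  have : Algebra.IsAlgebraic k κ := Algebra.IsAlgebraic.of_finite k κ
  exact ⟨IsAlgClosed.lift⟩

theorem G7_hom (k A : Type) [Field k] [CommRing A] [Nontrivial A] [Algebra k A]
    [Algebra.FiniteType k A] : Nonempty (A →ₐ[k] AlgebraicClosure k) := by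
  obtain ⟨M, hM⟩ := Ideal.exists_maximal A
  let : Field (A ⧸ M) := Ideal.Quotient.field M
  have : Algebra.FiniteType k (A ⧸ M) :=
    Algebra.FiniteType.of_surjective (Ideal.Quotient.mkₐ k M) (Ideal.Quotient.mkₐ_surjective k M)
  obtain ⟨ψ⟩ := G7_hom_field k (A ⧸ M)
  exact ⟨ψ.comp (Ideal.Quotient.mkₐ k M)⟩

theorem G7_swap_injective {α β : Type} : Function.Injective (Sum.swap : α ⊕ β → β ⊕ α) :=
  (Equiv.sumComm α β).injective

/-- Specialisation of a point to the algebraic closure, keeping two coordinates nonzero. -/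
theorem G7_spec (k Λ : Type) [Field k] [Field Λ] [Algebra k Λ] {ι : Type} [Finite ι] (z : ι → Λ)
    (s t : ι) (hs : z s ≠ 0) (ht : z t ≠ 0) :
    ∃ z' : ι → AlgebraicClosure k, z' s ≠ 0 ∧ z' t ≠ 0 ∧
      ∀ G : MvPolynomial ι k, MvPolynomial.aeval z G = 0 → MvPolynomial.aeval z' G = 0 := by
  classical
  set S : Set Λ := Set.range z ∪ {(z s)⁻¹, (z t)⁻¹} with hS
  have hSfin : S.Finite := (Set.finite_range z).union (Set.toFinite _)
  set A := Algebra.adjoin k S with hA
  have hfg : A.FG := by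
    have := Subalgebra.fg_adjoin_finset (R := k) hSfin.toFinset
    rw [Set.Finite.coe_toFinset] at this
    exact this
  have : Algebra.FiniteType k A := (Subalgebra.fg_iff_finiteType A).1 hfg
  obtain ⟨φ⟩ := G7_hom k A
  have hmem : ∀ i, z i ∈ A := fun i => Algebra.subset_adjoin (Or.inl ⟨i, rfl⟩)
  let zA : ι → A := fun i => ⟨z i, hmem i⟩
  have hsi : (z s)⁻¹ ∈ A := Algebra.subset_adjoin (Or.inr (Or.inl rfl))
  have hti : (z t)⁻¹ ∈ A := Algebra.subset_adjoin (Or.inr (Or.inr rfl))
  have hne : ∀ (i : ι) (hi : z i ≠ 0) (h : (z i)⁻¹ ∈ A), φ (zA i) ≠ 0 := by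
    intro i hi h h0
    have h1 : zA i * ⟨(z i)⁻¹, h⟩ = 1 := Subtype.ext (mul_inv_cancel₀ hi)
    have h2 := congrArg φ h1
    rw [map_mul, h0, zero_mul, map_one] at h2
    exact zero_ne_one h2
  refine ⟨fun i => φ (zA i), hne s hs hsi, hne t ht hti, ?_⟩
  intro G hG
  have h1 : MvPolynomial.aeval zA G = 0 := by
    apply Subtype.ext
    have h2 : (A.val : A →ₐ[k] Λ) (MvPolynomial.aeval zA G) = MvPolynomial.aeval z G := by
      rw [← AlgHom.comp_apply, MvPolynomial.comp_aeval]
      rfl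
    rw [hG] at h2
    exact h2
  have h3 : MvPolynomial.aeval (fun i => φ (zA i)) G = φ (MvPolynomial.aeval zA G) := by
    rw [← AlgHom.comp_apply, MvPolynomial.comp_aeval]
  rw [h3, h1, map_zero]

/-- A form with a singular point over some extension field is not smooth. -/
theorem not_isSmoothForm_of_hasSing (k Λ : Type) [Field k] [Field Λ] [Algebra k Λ] (m n : ℕ)
    (F : MvPolynomial (Fin (m + 1) ⊕ Fin (n + 1)) k)
    (h : HasSing (MvPolynomial.map (algebraMap k Λ) F)) : ¬ IsSmoothForm F := by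
  obtain ⟨a, b, ha, hb, hF, hd⟩ := h
  intro hsm
  obtain ⟨i, hi⟩ := Function.ne_iff.1 ha
  obtain ⟨j, hj⟩ := Function.ne_iff.1 hb
  obtain ⟨z', h1, h2, h3⟩ := G7_spec k Λ (Sum.elim a b) (Sum.inl i) (Sum.inr j) hi hj
  have he : z' = Sum.elim (fun i => z' (Sum.inl i)) (fun j => z' (Sum.inr j)) := by
    ext v
    rcases v with v | v <;> rfl
  have hF0 : MvPolynomial.aeval (Sum.elim a b) F = 0 := by
    rw [MvPolynomial.eval_map] at hF
    exact hF
  obtain ⟨v, hv⟩ := hsm (fun i => z' (Sum.inl i)) (fun j => z' (Sum.inr j))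
    (fun h => h1 (congrFun h i)) (fun h => h2 (congrFun h j)) (by rw [← he]; exact h3 F hF0)
  apply hv
  rw [← he]
  apply h3
  have := hd v
  rw [MvPolynomial.pderiv_map, MvPolynomial.eval_map] at this
  exact this

/-- Symmetry. -/
theorem IsBiquadratic.swap {k : Type} [Field k] {m n : ℕ}
    {F : MvPolynomial (Fin (m + 1) ⊕ Fin (n + 1)) k} (hF : IsBiquadratic F) :
    IsBiquadratic (swapForm F) := by
  classical
  intro d hd
  rw [swapForm, MvPolynomial.support_rename_of_injective G7_swap_injective] at hd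
  obtain ⟨d', hd', rfl⟩ := Finset.mem_image.1 hd
  have h := hF d' hd'
  have h1 : ∀ i, Finsupp.mapDomain Sum.swap d' (Sum.inl i) = d' (Sum.inr i) := fun i =>
    Finsupp.mapDomain_apply G7_swap_injective d' (Sum.inr i)
  have h2 : ∀ i, Finsupp.mapDomain Sum.swap d' (Sum.inr i) = d' (Sum.inl i) := fun i =>
    Finsupp.mapDomain_apply G7_swap_injective d' (Sum.inl i)
  simp only [h1, h2]
  exact ⟨h.2, h.1⟩

theorem G7_aeval_swap {k K : Type} [Field k] [CommRing K] [Algebra k K] {α β : Type}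
    (a : α → K) (b : β → K) (G : MvPolynomial (β ⊕ α) k) :
    MvPolynomial.aeval (Sum.elim a b) (MvPolynomial.rename Sum.swap G) =
      MvPolynomial.aeval (Sum.elim b a) G := by
  rw [MvPolynomial.aeval_rename]
  congr 2
  ext v
  rcases v with v | v <;> rfl

theorem IsSmoothForm.swap {k : Type} [Field k] {m n : ℕ}
    {F : MvPolynomial (Fin (m + 1) ⊕ Fin (n + 1)) k} (hF : IsSmoothForm F) :
    IsSmoothForm (swapForm F) := by
  intro a b ha hb h0
  rw [swapForm, G7_aeval_swap] at h0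
  obtain ⟨v, hv⟩ := hF b a hb ha h0
  refine ⟨Sum.swap v, ?_⟩
  rw [swapForm, MvPolynomial.pderiv_rename G7_swap_injective, G7_aeval_swap]
  exact hv

theorem G7_dehom_swap {k : Type} [Field k] {m n : ℕ}
    (F : MvPolynomial (Fin (m + 1) ⊕ Fin (n + 1)) k) :
    dehom (swapForm F) = MvPolynomial.rename Sum.swap (dehom F) := by
  rw [dehom, dehom, swapForm, G7_aeval_swap, ← AlgHom.comp_apply, MvPolynomial.comp_aeval]
  congr 2
  ext1 v
  rcases v with v | v
  · refine Fin.cases ?_ (fun i => ?_) v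
    · simp
    · simp
  · refine Fin.cases ?_ (fun i => ?_) v
    · simp
    · simp

theorem G7_rename_dvd {k : Type} [Field k] {α β : Type} (P G : MvPolynomial (α ⊕ β) k) :
    MvPolynomial.rename Sum.swap P ∣ MvPolynomial.rename Sum.swap G ↔ P ∣ G := by
  have h := map_dvd_iff (MvPolynomial.renameEquiv k (Equiv.sumComm α β)) (a := P) (b := G)
  exact h

theorem G7_rename_rename {k : Type} [Field k] {α β : Type} (G : MvPolynomial (α ⊕ β) k) :
    MvPolynomial.rename Sum.swap (MvPolynomial.rename (Sum.swap : α ⊕ β → β ⊕ α) G) = G := by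
  rw [MvPolynomial.rename_rename]
  have : (Sum.swap ∘ Sum.swap : α ⊕ β → α ⊕ β) = id := by
    ext v
    simp
  rw [this, MvPolynomial.rename_id]
  rfl

theorem IsGenericPt.swap {k K : Type} [Field k] [Field K] [Algebra k K] {m n : ℕ}
    {F : MvPolynomial (Fin (m + 1) ⊕ Fin (n + 1)) k} {x : Fin m → K} {y : Fin n → K}
    (h : IsGenericPt F x y) : IsGenericPt (swapForm F) y x := by
  obtain ⟨h1, h2⟩ := h
  refine ⟨?_, ?_⟩
  · intro G
    have e : MvPolynomial.aeval (Sum.elim y x) G =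
        MvPolynomial.aeval (Sum.elim x y) (MvPolynomial.rename Sum.swap G) := by
      rw [G7_aeval_swap]
    rw [e, h1, G7_dehom_swap]
    conv_rhs => rw [← G7_rename_rename G]
    rw [G7_rename_dvd]
  · intro z
    obtain ⟨G, H, hH, hz⟩ := h2 z
    refine ⟨MvPolynomial.rename Sum.swap G, MvPolynomial.rename Sum.swap H, ?_, ?_⟩
    · rw [G7_aeval_swap]
      exact hH
    · rw [G7_aeval_swap, G7_aeval_swap]
      exact hz

end Pool.Agent.LibHP
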