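import Pool.Agent.LibHP2.Defs

set_option autoImplicit false

namespace Pool.Agent.LibHP

/-- The weight counting the first group of variables. -/
def G8a_wx (m n : ℕ) : Fin (m + 1) ⊕ Fin (n + 1) → ℕ := Sum.elim (fun _ => 1) (fun _ => 0)

/-- The weight counting the second group of variables. -/
def G8a_wy (m n : ℕ) : Fin (m + 1) ⊕ Fin (n + 1) → ℕ := Sum.elim (fun _ => 0) (fun _ => 1)

theorem G8a_weight_wx {m n : ℕ} (d : Fin (m + 1) ⊕ Fin (n + 1) →₀ ℕ) :
    Finsupp.weight (G8a_wx m n) d = ∑ i, d (Sum.inl i) := by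
  rw [Finsupp.weight_apply, Finsupp.sum_fintype _ _ (by intro i; simp), Fintype.sum_sum_type]
  simp [G8a_wx]

theorem G8a_weight_wy {m n : ℕ} (d : Fin (m + 1) ⊕ Fin (n + 1) →₀ ℕ) :
    Finsupp.weight (G8a_wy m n) d = ∑ j, d (Sum.inr j) := by
  rw [Finsupp.weight_apply, Finsupp.sum_fintype _ _ (by intro i; simp), Fintype.sum_sum_type]
  simp [G8a_wy]

theorem G8a_isBihom_iff {k : Type} [Field k] {m n : ℕ} {d e : ℕ}
    (F : MvPolynomial (Fin (m + 1) ⊕ Fin (n + 1)) k) :
    IsBihom d e F ↔ (MvPolynomial.IsWeightedHomogeneous (G8a_wx m n) F d ∧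
      MvPolynomial.IsWeightedHomogeneous (G8a_wy m n) F e) := by
  constructor
  · intro h
    constructor
    · intro s hs
      rw [G8a_weight_wx]
      exact (h s (MvPolynomial.mem_support_iff.2 hs)).1
    · intro s hs
      rw [G8a_weight_wy]
      exact (h s (MvPolynomial.mem_support_iff.2 hs)).2
  · rintro ⟨h1, h2⟩ s hs
    have hs' := MvPolynomial.mem_support_iff.1 hs
    refine ⟨?_, ?_⟩
    · rw [← G8a_weight_wx]; exact h1 hs'
    · rw [← G8a_weight_wy]; exact h2 hs'

theorem G8a_pderiv_comm {σ R : Type} [CommSemiring R] (i j : σ) (p : MvPolynomial σ R) :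
    MvPolynomial.pderiv i (MvPolynomial.pderiv j p) =
      MvPolynomial.pderiv j (MvPolynomial.pderiv i p) := by
  classical
  by_cases hij : i = j
  · subst hij; rfl
  · ext s
    rw [MvPolynomial.coeff_pderiv, MvPolynomial.coeff_pderiv, MvPolynomial.coeff_pderiv,
      MvPolynomial.coeff_pderiv]
    have h1 : (s + Finsupp.single i 1 : σ →₀ ℕ) j = s j := by
      simp [hij]
    have h2 : (s + Finsupp.single j 1 : σ →₀ ℕ) i = s i := by
      simp [Ne.symm hij]
    rw [h1, h2, add_right_comm s]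
    ring

/-- A polynomial without `y` variables. -/
theorem G8a_rename_aeval {k : Type} [Field k] {m n : ℕ}
    (G : MvPolynomial (Fin (m + 1) ⊕ Fin (n + 1)) k)
    (hG : MvPolynomial.IsWeightedHomogeneous (G8a_wy m n) G 0) :
    MvPolynomial.rename Sum.inl (MvPolynomial.aeval (Sum.elim MvPolynomial.X (fun _ => 0) :
      Fin (m + 1) ⊕ Fin (n + 1) → MvPolynomial (Fin (m + 1)) k) G) = G := by
  have key := MvPolynomial.hom_congr_vars (p₁ := G) (p₂ := G)
    (f₁ := ((MvPolynomial.rename Sum.inl).comp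
      (MvPolynomial.aeval (Sum.elim MvPolynomial.X (fun _ => 0) :
      Fin (m + 1) ⊕ Fin (n + 1) → MvPolynomial (Fin (m + 1)) k)) :
        MvPolynomial (Fin (m + 1) ⊕ Fin (n + 1)) k →ₐ[k]
          MvPolynomial (Fin (m + 1) ⊕ Fin (n + 1)) k).toRingHom)
    (f₂ := RingHom.id _) ?_ ?_ rfl
  · simpa using key
  · ext c
    simp
  · intro v hv _
    rcases v with i | j
    · simp
    · exfalso
      obtain ⟨s, hs, hs2⟩ := (MvPolynomial.mem_vars_iff_mem_support _).1 hv
      have h0 := hG (MvPolynomial.mem_support_iff.1 hs)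
      rw [G8a_weight_wy, Finset.sum_eq_zero_iff] at h0
      exact (Finsupp.mem_support_iff.1 hs2) (h0 j (Finset.mem_univ _))

theorem G8a_rename_gramH {k : Type} [Field k] {m n : ℕ}
    (F : MvPolynomial (Fin (m + 1) ⊕ Fin (n + 1)) k) (hF : IsBiquadratic F) (i j : Fin (n + 1)) :
    MvPolynomial.rename Sum.inl (gramH F i j) =
      MvPolynomial.pderiv (Sum.inr i) (MvPolynomial.pderiv (Sum.inr j) F) := by
  have hb : IsBihom 2 2 F := hF
  rw [G8a_isBihom_iff] at hb
  refine G8a_rename_aeval _ ?_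
  exact (hb.2.pderiv (i := Sum.inr j) (n' := 1) (by simp [G8a_wy])).pderiv (by simp [G8a_wy])

theorem G8a_euler {k : Type} [Field k] {m n : ℕ} {e : ℕ}
    (F : MvPolynomial (Fin (m + 1) ⊕ Fin (n + 1)) k)
    (hF : MvPolynomial.IsWeightedHomogeneous (G8a_wy m n) F e) :
    ∑ j, MvPolynomial.X (Sum.inr j) * MvPolynomial.pderiv (Sum.inr j) F = e • F := by
  have h := hF.sum_weight_X_mul_pderiv
  rw [Fintype.sum_sum_type] at h
  simpa [G8a_wy] using h

/-- Euler relations for a form of bidegree `(2,2)`. -/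
theorem two_mul_eq_gram {k : Type} [Field k] [CharZero k] {m n : ℕ}
    (F : MvPolynomial (Fin (m + 1) ⊕ Fin (n + 1)) k) (hF : IsBiquadratic F) :
    2 * F = ∑ i, ∑ j, MvPolynomial.rename Sum.inl (gramH F i j) *
      (MvPolynomial.X (Sum.inr i) * MvPolynomial.X (Sum.inr j)) := by
  have hb : IsBihom 2 2 F := hF
  rw [G8a_isBihom_iff] at hb
  have h1 := G8a_euler F hb.2
  have h2 : ∀ j : Fin (n + 1),
      ∑ i, MvPolynomial.X (Sum.inr i) * MvPolynomial.pderiv (Sum.inr i)
        (MvPolynomial.pderiv (Sum.inr j) F) = MvPolynomial.pderiv (Sum.inr j) F := by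
    intro j
    have := G8a_euler (e := 1) (MvPolynomial.pderiv (Sum.inr j) F)
      (hb.2.pderiv (i := Sum.inr j) (n' := 1) (by simp [G8a_wy]))
    simpa using this
  have h3 : 2 * F = 2 • F := by simp
  rw [h3, ← h1, Finset.sum_comm]
  refine Finset.sum_congr rfl fun j _ => ?_
  rw [← h2 j, Finset.mul_sum]
  refine Finset.sum_congr rfl fun i _ => ?_
  rw [G8a_rename_gramH F hF]
  ring

theorem gramH_isHomogeneous {k : Type} [Field k] {m n : ℕ}
    (F : MvPolynomial (Fin (m + 1) ⊕ Fin (n + 1)) k) (hF : IsBiquadratic F) (i j : Fin (n + 1)) :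
    (gramH F i j).IsHomogeneous 2 := by
  have hb : IsBihom 2 2 F := hF
  rw [G8a_isBihom_iff] at hb
  rw [← MvPolynomial.IsHomogeneous.rename_isHomogeneous_iff
    (Sum.inl_injective (α := Fin (m + 1)) (β := Fin (n + 1))), G8a_rename_gramH F hF]
  have hx := (hb.1.pderiv (i := Sum.inr j) (n' := 2) (by simp [G8a_wx])).pderiv
    (i := Sum.inr i) (n' := 2) (by simp [G8a_wx])
  have hy := (hb.2.pderiv (i := Sum.inr j) (n' := 1) (by simp [G8a_wy])).pderiv
    (i := Sum.inr i) (n' := 0) (by simp [G8a_wy])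
  intro s hs
  have h1 := hx hs
  have h2 := hy hs
  rw [G8a_weight_wx] at h1
  rw [G8a_weight_wy] at h2
  rw [Finsupp.weight_apply, Finsupp.sum_fintype _ _ (by intro i; simp), Fintype.sum_sum_type]
  simp [h1, h2]

theorem gramH_symm {k : Type} [Field k] {m n : ℕ}
    (F : MvPolynomial (Fin (m + 1) ⊕ Fin (n + 1)) k) (i j : Fin (n + 1)) :
    gramH F i j = gramH F j i := by
  unfold gramH
  rw [G8a_pderiv_comm]

end Pool.Agent.LibHP
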