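import Pool.Agent.LibHP2.G6
import Pool.Agent.LibHP2.G7
import Pool.Agent.LibHP2.G8a

set_option autoImplicit false

namespace Pool.Agent.LibHP

/-- Values of the partly dehomogenised form in a commutative algebra. -/
theorem G8b_two_mul {k : Type} [Field k] [CharZero k] {m n : ℕ}
    (F : MvPolynomial (Fin (m + 1) ⊕ Fin (n + 1)) k) (hF : IsBiquadratic F)
    {S : Type} [CommRing S] [Algebra k S] (a : Fin m → S) (b : Fin (n + 1) → S) :
    2 * MvPolynomial.aeval (Sum.elim (Fin.cons 1 a : Fin (m + 1) → S) b) F =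
      ∑ i, ∑ j, MvPolynomial.aeval a (gramY F i j) * (b i * b j) := by
  have h := congrArg (MvPolynomial.aeval (Sum.elim (Fin.cons 1 a : Fin (m + 1) → S) b))
    (two_mul_eq_gram F hF)
  rw [map_mul, map_ofNat] at h
  rw [h, map_sum]
  refine Finset.sum_congr rfl fun i _ => ?_
  rw [map_sum]
  refine Finset.sum_congr rfl fun j _ => ?_
  rw [map_mul, map_mul, MvPolynomial.aeval_X, MvPolynomial.aeval_X, MvPolynomial.aeval_rename,
    Sum.elim_inr, Sum.elim_inr]
  congr 1
  rw [gramY, ← AlgHom.comp_apply, MvPolynomial.comp_aeval]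
  have he : (fun i => (MvPolynomial.aeval a)
      ((Fin.cons 1 fun i => MvPolynomial.X i : Fin (m + 1) → MvPolynomial (Fin m) k) i)) =
      (Fin.cons 1 a : Fin (m + 1) → S) := by
    funext i
    refine Fin.cases ?_ (fun i => ?_) i
    · simp
    · simp
  rw [he]
  rfl

/-- First component of a value in the dual numbers. -/
theorem G8b_fst {k Λ : Type} [Field k] [Field Λ] [Algebra k Λ] {σ : Type}
    (c : σ → Λ) (d : σ → DualNumber Λ) (h : ∀ s, (d s).fst = c s) (P : MvPolynomial σ k) :
    (MvPolynomial.aeval d P).fst = MvPolynomial.aeval c P := by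
  induction P using MvPolynomial.induction_on with
  | C r => 
    rw [MvPolynomial.aeval_C, MvPolynomial.aeval_C]
    rfl
  | add p q hp hq => rw [map_add, map_add, TrivSqZeroExt.fst_add, hp, hq]
  | mul_X p s hp =>
    rw [map_mul, map_mul, MvPolynomial.aeval_X, MvPolynomial.aeval_X, TrivSqZeroExt.fst_mul, hp, h]

/-- Second component of a value in the dual numbers. -/
theorem G8b_snd {k Λ : Type} [Field k] [Field Λ] [Algebra k Λ] {σ : Type} [DecidableEq σ]
    (c : σ → Λ) (v : σ) (d : σ → DualNumber Λ) (h : ∀ s, (d s).fst = c s)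
    (h' : ∀ s, (d s).snd = if s = v then 1 else 0) (P : MvPolynomial σ k) :
    (MvPolynomial.aeval d P).snd = MvPolynomial.aeval c (MvPolynomial.pderiv v P) := by
  induction P using MvPolynomial.induction_on with
  | C r =>
    rw [MvPolynomial.aeval_C, MvPolynomial.pderiv_C, map_zero]
    rfl
  | add p q hp hq => rw [map_add, map_add, map_add, TrivSqZeroExt.snd_add, hp, hq]
  | mul_X p s hp =>
    rw [map_mul, MvPolynomial.pderiv_mul, map_add, map_mul, map_mul, MvPolynomial.aeval_X,
      MvPolynomial.aeval_X, DualNumber.snd_mul, hp, h, h', G8b_fst c d h]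
    by_cases hs : s = v
    · subst hs
      simp
      ring
    · rw [if_neg hs, MvPolynomial.pderiv_X_of_ne (Ne.symm (Ne.symm hs)), map_zero]
      ring

/-- Multiplication by a dual number with nonzero first component is injective. -/
theorem G8b_cancel {Λ : Type} [Field Λ] (x y : DualNumber Λ) (hx : x.fst ≠ 0) (h : x * y = 0) :
    y = 0 := by
  have h1 : x.fst * y.fst = 0 := by
    have := congrArg TrivSqZeroExt.fst h
    rwa [TrivSqZeroExt.fst_mul, TrivSqZeroExt.fst_zero] at this
  have h2 : x.fst * y.snd + x.snd * y.fst = 0 := by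
    have := congrArg TrivSqZeroExt.snd h
    rwa [DualNumber.snd_mul, TrivSqZeroExt.snd_zero] at this
  have h3 : y.fst = 0 := (mul_eq_zero.1 h1).resolve_left hx
  rw [h3, mul_zero, add_zero] at h2
  have h4 : y.snd = 0 := (mul_eq_zero.1 h2).resolve_left hx
  exact TrivSqZeroExt.ext h3 h4

/-- The product of two infinitesimal dual numbers is zero. -/
theorem G8b_mul_eq_zero {Λ : Type} [Field Λ] (x y : DualNumber Λ) (hx : x.fst = 0)
    (hy : y.fst = 0) : x * y = 0 := by
  refine TrivSqZeroExt.ext ?_ ?_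
  · rw [TrivSqZeroExt.fst_mul, hx, zero_mul, TrivSqZeroExt.fst_zero]
  · rw [DualNumber.snd_mul, hx, hy, zero_mul, mul_zero, add_zero, TrivSqZeroExt.snd_zero]

/-- The form vanishes at all infinitesimal deformations of the singular point with `x_0 = 1`. -/
theorem G8b_vanish {k : Type} [Field k] [CharZero k] {m n : ℕ}
    (F : MvPolynomial (Fin (m + 1) ⊕ Fin (n + 1)) k) (hF : IsBiquadratic F)
    (π β : MvPolynomial (Fin m) k) (lam : Fin (n + 1) → MvPolynomial (Fin m) k)
    (g : Fin (n + 1) → Fin (n + 1) → MvPolynomial (Fin m) k)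
    (hid : ∀ j l, β * gramY F j l = lam j * lam l + π * g j l)
    {Λ : Type} [Field Λ] [CharZero Λ] [Algebra k Λ] (a : Fin m → Λ) (b : Fin (n + 1) → Λ)
    (hπ : MvPolynomial.aeval a π = 0) (hβ : MvPolynomial.aeval a β ≠ 0)
    (hl : ∑ j, MvPolynomial.aeval a (lam j) * b j = 0)
    (hg : ∑ j, ∑ l, MvPolynomial.aeval a (g j l) * (b j * b l) = 0)
    (a' : Fin m → DualNumber Λ) (b' : Fin (n + 1) → DualNumber Λ)
    (ha' : ∀ i, (a' i).fst = a i) (hb' : ∀ i, (b' i).fst = b i) :
    MvPolynomial.aeval (Sum.elim (Fin.cons 1 a' : Fin (m + 1) → DualNumber Λ) b') F = 0 := by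
  apply G8b_cancel (MvPolynomial.aeval a' β * 2)
  · rw [TrivSqZeroExt.fst_mul, G8b_fst a a' ha']
    refine mul_ne_zero hβ ?_
    have : (2 : DualNumber Λ).fst = (2 : Λ) := rfl
    rw [this]
    exact two_ne_zero
  · rw [mul_assoc, G8b_two_mul F hF, Finset.mul_sum]
    have h1 : ∀ i, MvPolynomial.aeval a' β *
        ∑ j, MvPolynomial.aeval a' (gramY F i j) * (b' i * b' j) =
        ∑ j, ((MvPolynomial.aeval a' (lam i) * b' i) * (MvPolynomial.aeval a' (lam j) * b' j) +
          MvPolynomial.aeval a' π * (MvPolynomial.aeval a' (g i j) * (b' i * b' j))) := by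
      intro i
      rw [Finset.mul_sum]
      refine Finset.sum_congr rfl fun j _ => ?_
      have h2 := congrArg (MvPolynomial.aeval a') (hid i j)
      rw [map_mul, map_add, map_mul, map_mul] at h2
      rw [← mul_assoc, h2]
      ring
    rw [Finset.sum_congr rfl fun i _ => h1 i]
    have h3 : ∑ i, ∑ j, ((MvPolynomial.aeval a' (lam i) * b' i) *
          (MvPolynomial.aeval a' (lam j) * b' j) +
          MvPolynomial.aeval a' π * (MvPolynomial.aeval a' (g i j) * (b' i * b' j))) =
        (∑ i, MvPolynomial.aeval a' (lam i) * b' i) * (∑ i, MvPolynomial.aeval a' (lam i) * b' i) +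
        MvPolynomial.aeval a' π * ∑ i, ∑ j, MvPolynomial.aeval a' (g i j) * (b' i * b' j) := by
      rw [Finset.sum_mul_sum, Finset.mul_sum, ← Finset.sum_add_distrib]
      refine Finset.sum_congr rfl fun i _ => ?_
      rw [Finset.mul_sum, ← Finset.sum_add_distrib]
    rw [h3]
    have h4 : (∑ i, MvPolynomial.aeval a' (lam i) * b' i).fst = 0 := by
      rw [← hl, TrivSqZeroExt.fst_sum]
      refine Finset.sum_congr rfl fun i _ => ?_
      rw [TrivSqZeroExt.fst_mul, G8b_fst a a' ha', hb']
    have h5 : (∑ i, ∑ j, MvPolynomial.aeval a' (g i j) * (b' i * b' j)).fst = 0 := by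
      rw [← hg, TrivSqZeroExt.fst_sum]
      refine Finset.sum_congr rfl fun i _ => ?_
      rw [TrivSqZeroExt.fst_sum]
      refine Finset.sum_congr rfl fun j _ => ?_
      rw [TrivSqZeroExt.fst_mul, TrivSqZeroExt.fst_mul, G8b_fst a a' ha', hb', hb']
    rw [G8b_mul_eq_zero _ _ h4 h4, G8b_mul_eq_zero _ _ (by rw [G8b_fst a a' ha', hπ]) h5,
      add_zero]

/-- A common zero of a linear and a quadratic form. -/
theorem G8b_exists (Λ : Type) [Field Λ] [CharZero Λ] [IsAlgClosed Λ] (n : ℕ) (hn : 2 ≤ n)
    (u : Fin (n + 1) → Λ) (w : Fin (n + 1) → Fin (n + 1) → Λ) :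
    ∃ b : Fin (n + 1) → Λ, b ≠ 0 ∧ ∑ j, u j * b j = 0 ∧ ∑ j, ∑ l, w j l * (b j * b l) = 0 := by
  have h1 : (∑ j, MvPolynomial.C (u j) * MvPolynomial.X j :
      MvPolynomial (Fin (n + 1)) Λ).IsHomogeneous 1 := by
    refine MvPolynomial.IsHomogeneous.sum _ _ _ fun j _ => ?_
    have h := (MvPolynomial.isHomogeneous_C (Fin (n + 1)) (u j)).mul
      (MvPolynomial.isHomogeneous_X Λ j)
    rwa [zero_add] at h
  have h2 : (∑ j, ∑ l, MvPolynomial.C (w j l) * (MvPolynomial.X j * MvPolynomial.X l) :
      MvPolynomial (Fin (n + 1)) Λ).IsHomogeneous 2 := by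
    refine MvPolynomial.IsHomogeneous.sum _ _ _ fun j _ =>
      MvPolynomial.IsHomogeneous.sum _ _ _ fun l _ => ?_
    have h := (MvPolynomial.isHomogeneous_C (Fin (n + 1)) (w j l)).mul
      ((MvPolynomial.isHomogeneous_X Λ j).mul (MvPolynomial.isHomogeneous_X Λ l))
    rwa [zero_add] at h
  obtain ⟨b, hb0, hb1, hb2⟩ := exists_common_zero Λ n hn 1 2 le_rfl (by norm_num) (by norm_num)
    le_rfl _ _ h1 h2
  refine ⟨b, hb0, ?_, ?_⟩
  · simpa only [map_sum, map_mul, MvPolynomial.eval_C, MvPolynomial.eval_X] using hb1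
  · simpa only [map_sum, map_mul, MvPolynomial.eval_C, MvPolynomial.eval_X] using hb2

/-- The main step. -/
theorem G8b_core (k : Type) [Field k] [CharZero k] (m n : ℕ) (hn : 2 ≤ n)
    (F : MvPolynomial (Fin (m + 1) ⊕ Fin (n + 1)) k) (hF : IsBiquadratic F)
    (π : MvPolynomial (Fin m) k) (hπ : Irreducible π) (β : MvPolynomial (Fin m) k)
    (hβ : ¬ π ∣ β) (lam : Fin (n + 1) → MvPolynomial (Fin m) k)
    (g : Fin (n + 1) → Fin (n + 1) → MvPolynomial (Fin m) k)
    (hid : ∀ j l, β * gramY F j l = lam j * lam l + π * g j l) :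
    ¬ IsSmoothForm F := by
  classical
  have : CharZero (AlgebraicClosure k) := charZero_of_injective_algebraMap
    (FaithfulSMul.algebraMap_injective k (AlgebraicClosure k))
  -- the point `a`
  have hprime : (Ideal.span {π}).IsPrime := by
    rw [Ideal.span_singleton_prime hπ.ne_zero]
    exact hπ.prime
  obtain ⟨a, haπ, haβ⟩ : ∃ a : Fin m → AlgebraicClosure k,
      MvPolynomial.aeval a π = 0 ∧ MvPolynomial.aeval a β ≠ 0 := by
    by_contra hno
    push Not at hno
    apply hβ
    rw [← Ideal.mem_span_singleton,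
      ← MvPolynomial.IsPrime.vanishingIdeal_zeroLocus (K := AlgebraicClosure k)
        (Ideal.span {π})]
    intro x hx
    exact hno x (hx π (Ideal.mem_span_singleton_self π))
  -- the point `b`
  obtain ⟨b, hb0, hbl, hbg⟩ := G8b_exists (AlgebraicClosure k) n hn
    (fun j => MvPolynomial.aeval a (lam j)) (fun j l => MvPolynomial.aeval a (g j l))
  have hvan := G8b_vanish F hF π β lam g hid a b haπ haβ hbl hbg
  set c : Fin (m + 1) ⊕ Fin (n + 1) → AlgebraicClosure k :=
    Sum.elim (Fin.cons 1 a : Fin (m + 1) → AlgebraicClosure k) b with hc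
  -- the form vanishes
  have hF0 : MvPolynomial.aeval c F = 0 := by
    have h := hvan (fun i => TrivSqZeroExt.inl (a i)) (fun i => TrivSqZeroExt.inl (b i))
      (fun i => rfl) (fun i => rfl)
    have h' := G8b_fst c (Sum.elim (Fin.cons 1 (fun i => TrivSqZeroExt.inl (a i)) :
      Fin (m + 1) → DualNumber (AlgebraicClosure k)) (fun i => TrivSqZeroExt.inl (b i)))
      (by
        rintro (s | s)
        · refine Fin.cases ?_ (fun i => ?_) s <;> simp [hc]
        · simp [hc]) F
    rw [← h', h, TrivSqZeroExt.fst_zero]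
  have hd1 : ∀ i : Fin m, MvPolynomial.aeval c (MvPolynomial.pderiv (Sum.inl i.succ) F) = 0 := by
    intro i
    have h := hvan (fun t => TrivSqZeroExt.inl (a t) + if t = i then DualNumber.eps else 0)
      (fun t => TrivSqZeroExt.inl (b t))
      (fun t => by by_cases ht : t = i <;> simp [ht]) (fun t => rfl)
    rw [← G8b_snd c (Sum.inl i.succ) _ _ _ F, h, TrivSqZeroExt.snd_zero]
    · rintro (s | s)
      · refine Fin.cases ?_ (fun t => ?_) s
        · simp [hc]
        · by_cases ht : t = i <;> simp [hc, ht]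
      · simp [hc]
    · rintro (s | s)
      · refine Fin.cases ?_ (fun t => ?_) s
        · simp [(Fin.succ_ne_zero i).symm]
        · by_cases ht : t = i <;> simp [ht]
      · simp
  have hd2 : ∀ i : Fin (n + 1), MvPolynomial.aeval c (MvPolynomial.pderiv (Sum.inr i) F) = 0 := by
    intro i
    have h := hvan (fun t => TrivSqZeroExt.inl (a t))
      (fun t => TrivSqZeroExt.inl (b t) + if t = i then DualNumber.eps else 0)
      (fun t => rfl) (fun t => by by_cases ht : t = i <;> simp [ht])
    rw [← G8b_snd c (Sum.inr i) _ _ _ F, h, TrivSqZeroExt.snd_zero]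
    · rintro (s | s)
      · refine Fin.cases ?_ (fun t => ?_) s <;> simp [hc]
      · by_cases ht : s = i <;> simp [hc, ht]
    · rintro (s | s)
      · refine Fin.cases ?_ (fun t => ?_) s
        · simp
        · simp
      · by_cases ht : s = i <;> simp [ht]
  have hd0 : MvPolynomial.aeval c (MvPolynomial.pderiv (Sum.inl 0) F) = 0 := by
    have hw : F.IsWeightedHomogeneous
        (Sum.elim (fun _ => 1) (fun _ => 0) : Fin (m + 1) ⊕ Fin (n + 1) → ℕ) 2 := by
      intro d hd
      have h := (hF d (MvPolynomial.mem_support_iff.2 hd)).1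
      rw [← h, Finsupp.weight_apply, Finsupp.sum_fintype _ _ (by simp), Fintype.sum_sum_type]
      simp
    have he := congrArg (MvPolynomial.aeval c) hw.sum_weight_X_mul_pderiv
    rw [map_sum, map_nsmul, hF0, smul_zero, Fintype.sum_sum_type, Fin.sum_univ_succ] at he
    simp only [Sum.elim_inl, Sum.elim_inr, one_smul, zero_smul, map_mul, MvPolynomial.aeval_X,
      map_zero, Finset.sum_const_zero, add_zero, hd1, mul_zero] at he
    simpa [hc] using he
  intro hs
  obtain ⟨v, hv⟩ := hs (Fin.cons 1 a) b (fun h => one_ne_zero (congrFun h 0)) hb0 hF0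
  apply hv
  rcases v with v | v
  · exact Fin.cases hd0 hd1 v
  · exact hd2 v

/-- If the quadratic form in `y` has rank at most one along a divisor of the `x` space then `F` is
not smooth. -/
theorem not_smooth_of_minors (k : Type) [Field k] [CharZero k] (m n : ℕ) (hn : 2 ≤ n)
    (F : MvPolynomial (Fin (m + 1) ⊕ Fin (n + 1)) k) (hF : IsBiquadratic F)
    (π : MvPolynomial (Fin m) k) (hπ : Irreducible π)
    (hmin : ∀ i j i' j', π ∣ gramY F i j * gramY F i' j' - gramY F i j' * gramY F i' j) :
    ¬ IsSmoothForm F := by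
  have hsymm : ∀ i j, gramY F i j = gramY F j i := fun i j => by
    rw [gramY, gramY, gramH_symm]
  by_cases hcase : ∃ i, ¬ π ∣ gramY F i i
  · obtain ⟨i, hi⟩ := hcase
    choose g hg using fun j l => hmin i i j l
    refine G8b_core k m n hn F hF π hπ (gramY F i i) hi (fun j => gramY F i j) g ?_
    intro j l
    rw [← hg, hsymm j i]
    ring
  · push Not at hcase
    have hall : ∀ i j, π ∣ gramY F i j := by
      intro i j
      have h1 := hmin i i j j
      have h2 : π ∣ gramY F i j * gramY F i j := by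
        have h3 : gramY F i j * gramY F i j = gramY F i i * gramY F j j -
            (gramY F i i * gramY F j j - gramY F i j * gramY F j i) := by
          rw [hsymm j i]; ring
        rw [h3]
        exact dvd_sub ((hcase i).mul_right _) h1
      exact (hπ.prime.dvd_or_dvd h2).elim id id
    choose g hg using hall
    refine G8b_core k m n hn F hF π hπ 1 (fun hd => hπ.prime.not_isUnit (isUnit_of_dvd_one hd))
      (fun _ => 0) g ?_
    intro j l
    rw [← hg]
    ring

end Pool.Agent.LibHP
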