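import Pool.Agent.LibHP2.G7
import Pool.Agent.LibHP2.G8a

set_option autoImplicit false

namespace Pool.Agent.LibHP

open MvPolynomial

/-- Chain rule for a polynomial substitution. -/
theorem G8c_chain {k : Type} [Field k] {σ τ : Type} [Fintype σ] [DecidableEq σ] [DecidableEq τ]
    (g : σ → MvPolynomial τ k) (i : τ) (G : MvPolynomial σ k) :
    pderiv i (aeval g G) = ∑ u, aeval g (pderiv u G) * pderiv i (g u) := by
  induction G using MvPolynomial.induction_on with
  | C a => simp
  | add p q hp hq =>
    simp only [map_add, hp, hq, add_mul, Finset.sum_add_distrib]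
  | mul_X p w hp =>
    simp only [map_mul, aeval_X, Derivation.leibniz, smul_eq_mul, map_add, hp, add_mul,
      Finset.sum_add_distrib]
    congr 1
    · rw [Finset.sum_eq_single w]
      · simp
      · intro u _ hu
        rw [pderiv_X_of_ne hu.symm]
        simp
      · simp
    · rw [Finset.mul_sum]
      apply Finset.sum_congr rfl
      intro u _
      ring

theorem G8c_euler {k : Type} [Field k] {m n : ℕ}
    (F : MvPolynomial (Fin (m + 1) ⊕ Fin (n + 1)) k) (hF : IsBiquadratic F) :
    ∑ i : Fin (m + 1), X (Sum.inl i) * pderiv (Sum.inl i) F = 2 * F := by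
  have hw : F.IsWeightedHomogeneous (Sum.elim (fun _ => 1) (fun _ => 0) :
      Fin (m + 1) ⊕ Fin (n + 1) → ℕ) 2 := by
    intro s hs
    have h1 := (hF s (mem_support_iff.mpr hs)).1
    rw [Finsupp.weight_apply, Finsupp.sum_fintype _ _ (by simp)]
    simpa using h1
  have h2 := hw.sum_weight_X_mul_pderiv
  simp only [Fintype.sum_sum_type, Sum.elim_inl, Sum.elim_inr, one_smul, zero_smul,
    Finset.sum_const_zero, add_zero] at h2
  rw [h2, nsmul_eq_mul]
  norm_num

/-- The derivatives with respect to the second group of variables. -/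
theorem G8c_pderiv_inr {k : Type} [Field k] [CharZero k] {m n : ℕ}
    (F : MvPolynomial (Fin (m + 1) ⊕ Fin (n + 1)) k) (hF : IsBiquadratic F) (l : Fin (n + 1)) :
    2 * pderiv (Sum.inr l) F =
      2 * ∑ j, rename Sum.inl (gramH F l j) * X (Sum.inr j) := by
  have h := congrArg (pderiv (Sum.inr l)) (two_mul_eq_gram F hF)
  have hl : pderiv (Sum.inr l) (2 * F) = 2 * pderiv (Sum.inr l) F := by
    rw [Derivation.leibniz]
    have : pderiv (Sum.inr l : Fin (m + 1) ⊕ Fin (n + 1))
        (2 : MvPolynomial (Fin (m + 1) ⊕ Fin (n + 1)) k) = 0 := by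
      have h2 : (2 : MvPolynomial (Fin (m + 1) ⊕ Fin (n + 1)) k) = C 2 := (map_ofNat C 2).symm
      rw [h2, pderiv_C]
    rw [this]
    simp
  rw [hl] at h
  rw [h]
  have hren : ∀ G : MvPolynomial (Fin (m + 1)) k,
      pderiv (Sum.inr l : Fin (m + 1) ⊕ Fin (n + 1)) (rename Sum.inl G) = 0 := by
    intro G
    induction G using MvPolynomial.induction_on with
    | C a => simp
    | add p q hp hq => simp [hp, hq]
    | mul_X p w hp =>
      rw [map_mul, Derivation.leibniz, hp, rename_X, pderiv_X_of_ne (by simp)]
      simp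
  simp only [map_sum, Derivation.leibniz, hren, mul_zero, add_zero, smul_eq_mul]
  have e1 : ∀ i j : Fin (n + 1),
      (rename Sum.inl (gramH F i j) : MvPolynomial (Fin (m + 1) ⊕ Fin (n + 1)) k) *
        (X (Sum.inr i) * pderiv (Sum.inr l) (X (Sum.inr j)) +
          X (Sum.inr j) * pderiv (Sum.inr l) (X (Sum.inr i))) =
      (if j = l then rename Sum.inl (gramH F i j) * X (Sum.inr i) else 0) +
        (if i = l then rename Sum.inl (gramH F i j) * X (Sum.inr j) else 0) := by
    intro i j
    by_cases hi : i = l
    · by_cases hj : j = l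
      · subst hi
        subst hj
        simp
        ring
      · subst hi
        rw [if_neg hj, if_pos rfl, pderiv_X_self, pderiv_X_of_ne (by simpa using hj)]
        ring
    · by_cases hj : j = l
      · subst hj
        rw [if_neg hi, if_pos rfl, pderiv_X_self, pderiv_X_of_ne (by simpa using hi)]
        ring
      · rw [if_neg hi, if_neg hj, pderiv_X_of_ne (by simpa using hj),
          pderiv_X_of_ne (by simpa using hi)]
        ring
  simp only [e1, Finset.sum_add_distrib]
  have e2 : ∑ i, ∑ j, (if j = l then
      (rename Sum.inl (gramH F i j) : MvPolynomial (Fin (m + 1) ⊕ Fin (n + 1)) k) *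
        X (Sum.inr i) else 0) = ∑ j, rename Sum.inl (gramH F l j) * X (Sum.inr j) := by
    apply Finset.sum_congr rfl
    intro i _
    rw [Finset.sum_ite_eq' Finset.univ l, if_pos (Finset.mem_univ _), gramH_symm]
  have e3 : ∑ i, ∑ j, (if i = l then
      (rename Sum.inl (gramH F i j) : MvPolynomial (Fin (m + 1) ⊕ Fin (n + 1)) k) *
        X (Sum.inr j) else 0) = ∑ j, rename Sum.inl (gramH F l j) * X (Sum.inr j) := by
    rw [Finset.sum_eq_single l]
    · simp
    · intro b _ hb
      simp [hb]
    · simp
  rw [e2, e3]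
  ring

/-- The generic fibre is a nondegenerate quadric. -/
theorem gramY_det_ne_zero (k : Type) [Field k] [CharZero k] (m n : ℕ)
    (F : MvPolynomial (Fin (m + 1) ⊕ Fin (n + 1)) k) (hF : IsBiquadratic F)
    (hsm : IsSmoothForm F) : (gramY F).det ≠ 0 := by
  classical
  intro hdet
  obtain ⟨v, hv0, hv⟩ := Matrix.exists_mulVec_eq_zero_iff.mpr hdet
  set g : Fin (m + 1) ⊕ Fin (n + 1) → MvPolynomial (Fin m) k :=
    Sum.elim (Fin.cons 1 fun i => X i : Fin (m + 1) → MvPolynomial (Fin m) k) v with hg
  have hgram : ∀ i j, aeval g (rename Sum.inl (gramH F i j)) = gramY F i j := by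
    intro i j
    rw [aeval_rename]
    rfl
  have h2 : (2 : MvPolynomial (Fin m) k) ≠ 0 := by
    have : (2 : MvPolynomial (Fin m) k) = C 2 := (map_ofNat C 2).symm
    rw [this]
    intro h
    exact two_ne_zero (C_injective _ _ (by rw [h, C_0]) : (2 : k) = 0)
  have hvi : ∀ i, ∑ j, gramY F i j * v j = 0 := by
    intro i
    have := congrFun hv i
    simpa [Matrix.mulVec, dotProduct] using this
  -- the value of `F`
  have hF0 : aeval g F = 0 := by
    have h := congrArg (aeval g) (two_mul_eq_gram F hF)
    simp only [map_mul, map_sum, hgram, aeval_X, map_ofNat] at h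
    have h3 : ∑ i, ∑ j, gramY F i j * (g (Sum.inr i) * g (Sum.inr j)) = 0 := by
      apply Finset.sum_eq_zero
      intro i _
      have : ∑ j, gramY F i j * (g (Sum.inr i) * g (Sum.inr j)) =
          v i * ∑ j, gramY F i j * v j := by
        rw [Finset.mul_sum]
        apply Finset.sum_congr rfl
        intro j _
        simp only [hg, Sum.elim_inr]
        ring
      rw [this, hvi i, mul_zero]
    rw [h3] at h
    rcases mul_eq_zero.mp h with h | h
    · exact absurd h h2
    · exact h
  have hy : ∀ l, aeval g (pderiv (Sum.inr l) F) = 0 := by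
    intro l
    have h := congrArg (aeval g) (G8c_pderiv_inr F hF l)
    simp only [map_mul, map_sum, hgram, aeval_X, map_ofNat] at h
    have h3 : ∑ j, gramY F l j * g (Sum.inr j) = 0 := by
      simpa [hg] using hvi l
    rw [h3, mul_zero] at h
    rcases mul_eq_zero.mp h with h | h
    · exact absurd h h2
    · exact h
  have hx : ∀ i : Fin m, aeval g (pderiv (Sum.inl i.succ) F) = 0 := by
    intro i
    have h := G8c_chain g i F
    rw [hF0, map_zero, Fintype.sum_sum_type, Fin.sum_univ_succ] at h
    simp only [hy, zero_mul, Finset.sum_const_zero, add_zero] at h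
    have h4 : g (Sum.inl 0) = 1 := by simp [hg]
    have h5 : ∀ j : Fin m, g (Sum.inl j.succ) = X j := by
      intro j
      simp [hg]
    rw [h4] at h
    simp only [h5] at h
    rw [Finset.sum_eq_single i] at h
    · rw [pderiv_X_self, mul_one] at h
      have h6 : pderiv i (1 : MvPolynomial (Fin m) k) = 0 := by
        rw [← C_1, pderiv_C]
      rw [h6, mul_zero, zero_add] at h
      exact h.symm
    · intro j _ hj
      rw [pderiv_X_of_ne hj, mul_zero]
    · simp
  have hx0 : aeval g (pderiv (Sum.inl 0) F) = 0 := by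
    have h := congrArg (aeval g) (G8c_euler F hF)
    rw [Fin.sum_univ_succ] at h
    simp only [map_add, map_mul, map_sum, hx, hF0, mul_zero, Finset.sum_const_zero, add_zero,
      aeval_X] at h
    have h4 : g (Sum.inl 0) = 1 := by simp [hg]
    rw [h4, one_mul] at h
    exact h
  have hall : ∀ u, aeval g (pderiv u F) = 0 := by
    rintro (i | j)
    · refine Fin.cases hx0 hx i
    · exact hy j
  -- the singular point over the fraction field
  let Λ := FractionRing (MvPolynomial (Fin m) k)
  have hev : ∀ G : MvPolynomial (Fin (m + 1) ⊕ Fin (n + 1)) k,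
      eval (Sum.elim (fun i => algebraMap (MvPolynomial (Fin m) k) Λ (g (Sum.inl i)))
        (fun j => algebraMap (MvPolynomial (Fin m) k) Λ (g (Sum.inr j))))
        (MvPolynomial.map (algebraMap k Λ) G) = algebraMap (MvPolynomial (Fin m) k) Λ
          (aeval g G) := by
    intro G
    rw [eval_map]
    induction G using MvPolynomial.induction_on with
    | C a =>
      simp only [eval₂_C, algHom_C]
      rw [← IsScalarTower.algebraMap_apply]
    | add p q hp hq => simp only [eval₂_add, hp, hq, map_add]
    | mul_X p w hp =>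
      simp only [eval₂_mul, hp, map_mul, eval₂_X, aeval_X]
      rcases w with i | j <;> rfl
  refine not_isSmoothForm_of_hasSing k Λ m n F ⟨
    fun i => algebraMap (MvPolynomial (Fin m) k) Λ (g (Sum.inl i)),
    fun j => algebraMap (MvPolynomial (Fin m) k) Λ (g (Sum.inr j)), ?_, ?_, ?_, ?_⟩ hsm
  · intro h
    have := congrFun h 0
    simp [hg] at this
  · intro h
    apply hv0
    funext j
    have := congrFun h j
    simp only [hg, Sum.elim_inr, Pi.zero_apply] at this
    exact (IsFractionRing.injective (MvPolynomial (Fin m) k) Λ) (by rw [this]; simp)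
  · rw [hev, hF0, map_zero]
  · intro u
    rw [pderiv_map, hev, hall, map_zero]

end Pool.Agent.LibHP
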