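import Pool.Agent.LibHP2.Defs

set_option autoImplicit false

namespace Pool.Agent.LibHP

open MvPolynomial

section G9
variable {k : Type} [Field k] {m n : ℕ}

/-- Polynomials in `x, y` as polynomials in `y` over `k[x]`. -/
noncomputable def G9_W (k : Type) [Field k] (m n : ℕ) :
    MvPolynomial (Fin m ⊕ Fin n) k ≃ₐ[k] MvPolynomial (Fin n) (MvPolynomial (Fin m) k) :=
  (MvPolynomial.renameEquiv k (Equiv.sumComm (Fin m) (Fin n))).trans
    (MvPolynomial.sumAlgEquiv k (Fin n) (Fin m))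

theorem G9_W_inl (i : Fin m) : G9_W k m n (X (Sum.inl i)) = C (X i) := by
  simp [G9_W]

theorem G9_W_inr (j : Fin n) : G9_W k m n (X (Sum.inr j)) = X j := by
  simp [G9_W]

theorem G9_W_rename (p : MvPolynomial (Fin m) k) :
    G9_W k m n (rename Sum.inl p) = C p := by
  induction p using MvPolynomial.induction_on with
  | C a => simp [G9_W]
  | add p q hp hq => simp only [map_add, hp, hq]
  | mul_X p i hp => simp only [map_mul, hp, rename_X, G9_W_inl]

variable {κ : Type} [Field κ] [Algebra k κ]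

theorem G9_spec (ξ : Fin m → κ) (P : MvPolynomial (Fin m ⊕ Fin n) k) :
    specX ξ P = MvPolynomial.map (aeval ξ : MvPolynomial (Fin m) k →ₐ[k] κ).toRingHom
      (G9_W k m n P) := by
  induction P using MvPolynomial.induction_on with
  | C a =>
    have h1 : (C a : MvPolynomial (Fin m ⊕ Fin n) k) = algebraMap k _ a := rfl
    rw [h1, AlgEquiv.commutes, AlgHom.commutes]
    have h2 : (algebraMap k (MvPolynomial (Fin n) (MvPolynomial (Fin m) k)) a) = C (C a) := rfl
    rw [h2, map_C]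
    simp
  | add p q hp hq => simp only [map_add, hp, hq]
  | mul_X p i hp =>
    rw [map_mul, hp, map_mul, map_mul]
    congr 1
    rcases i with i | j
    · rw [G9_W_inl]; simp [specX]
    · rw [G9_W_inr]; simp [specX]

theorem G9_spec_rename (ξ : Fin m → κ) (p : MvPolynomial (Fin m) k) :
    specX ξ (rename Sum.inl p : MvPolynomial (Fin m ⊕ Fin n) k) = C (aeval ξ p) := by
  rw [G9_spec, G9_W_rename, map_C]; rfl

theorem G9_zero (ξ : Fin m → κ) (π : MvPolynomial (Fin m) k)
    (hξ : ∀ p : MvPolynomial (Fin m) k, aeval ξ p = 0 ↔ π ∣ p)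
    (V : MvPolynomial (Fin m ⊕ Fin n) k) (hV : specX ξ V = 0) :
    ∃ S, V = rename Sum.inl π * S := by
  have h1 : C π ∣ G9_W k m n V := by
    rw [C_dvd_iff_dvd_coeff]
    intro d
    rw [← hξ]
    have h2 := congrArg (coeff d) hV
    rw [G9_spec, coeff_map] at h2
    simpa using h2
  obtain ⟨S, hS⟩ := h1
  refine ⟨(G9_W k m n).symm S, ?_⟩
  apply (G9_W k m n).injective
  rw [map_mul, G9_W_rename, AlgEquiv.apply_symm_apply, hS]

theorem G9_denom (ξ : Fin m → κ)
    (hξgen : ∀ a : κ, ∃ p q : MvPolynomial (Fin m) k, aeval ξ q ≠ 0 ∧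
      a * aeval ξ q = aeval ξ p) (u : MvPolynomial (Fin n) κ) :
    ∃ (D : MvPolynomial (Fin m) k) (U : MvPolynomial (Fin m ⊕ Fin n) k), aeval ξ D ≠ 0 ∧
      specX ξ U = C (aeval ξ D) * u := by
  induction u using MvPolynomial.induction_on' with
  | monomial d a =>
    obtain ⟨p, q, hq, hpq⟩ := hξgen a
    refine ⟨q, rename Sum.inl p * rename Sum.inr (monomial d 1), hq, ?_⟩
    rw [map_mul, G9_spec_rename, C_mul_monomial]
    have h1 : specX ξ (rename Sum.inr (monomial d (1 : k)) : MvPolynomial (Fin m ⊕ Fin n) k) =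
        (monomial d 1 : MvPolynomial (Fin n) κ) := by
      rw [specX, aeval_rename]
      simp only [Sum.elim_comp_inr]
      rw [aeval_monomial]
      simp [MvPolynomial.monomial_eq]
    rw [h1, C_mul_monomial, mul_one, mul_comm, ← hpq, mul_comm]
  | add u v hu hv =>
    obtain ⟨D1, U1, h1, h2⟩ := hu
    obtain ⟨D2, U2, h3, h4⟩ := hv
    refine ⟨D1 * D2, rename Sum.inl D2 * U1 + rename Sum.inl D1 * U2, ?_, ?_⟩
    · rw [map_mul]; exact mul_ne_zero h1 h3
    · rw [map_add, map_mul, map_mul, G9_spec_rename, G9_spec_rename, h2, h4, map_mul, C_mul]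
      ring

theorem G9_key (ξ : Fin m → κ) (π : MvPolynomial (Fin m) k)
    (hξ : ∀ p : MvPolynomial (Fin m) k, aeval ξ p = 0 ↔ π ∣ p)
    (hξgen : ∀ a : κ, ∃ p q : MvPolynomial (Fin m) k, aeval ξ q ≠ 0 ∧
      a * aeval ξ q = aeval ξ p)
    (G : MvPolynomial (Fin m ⊕ Fin n) k)
    (h : MvPolynomial (Fin n) κ) (hirr : Irreducible h)
    (h1 : h ∣ specX ξ G) (h2 : ¬ h ^ 2 ∣ specX ξ G) (P : MvPolynomial (Fin m ⊕ Fin n) k)
    (hP : h ∣ specX ξ P) :
    ∃ P' S : MvPolynomial (Fin m ⊕ Fin n) k, ¬ h ∣ specX ξ P' ∧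
      G ∣ P * P' - rename Sum.inl π * S := by
  obtain ⟨g, hg⟩ := h1
  obtain ⟨P1, hP1⟩ := hP
  have hgh : ¬ h ∣ g := by
    rintro ⟨c, rfl⟩
    exact h2 ⟨c, by rw [hg]; ring⟩
  obtain ⟨D1, g', hD1, hg'⟩ := G9_denom ξ hξgen g
  obtain ⟨D2, Q', hD2, hQ'⟩ := G9_denom ξ hξgen P1
  obtain ⟨S, hS⟩ := G9_zero ξ π hξ
    (P * (rename Sum.inl D2 * g') - G * (rename Sum.inl D1 * Q')) (by
      rw [map_sub, map_mul, map_mul, map_mul, map_mul, G9_spec_rename, G9_spec_rename, hg', hQ',
        hg, hP1]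
      ring)
  refine ⟨rename Sum.inl D2 * g', S, ?_, ⟨rename Sum.inl D1 * Q', ?_⟩⟩
  · rw [map_mul, G9_spec_rename, hg']
    intro hd
    have hp := hirr.prime
    have hu : ∀ a : κ, a ≠ 0 → ¬ h ∣ C a := by
      intro a ha hda
      exact hp.not_isUnit (isUnit_of_dvd_unit hda (by
        rw [show (C a : MvPolynomial (Fin n) κ) = C a from rfl]
        exact (isUnit_iff_ne_zero.2 ha).map C))
    rcases hp.dvd_or_dvd hd with h3 | h3
    · exact hu _ hD2 h3
    · rcases hp.dvd_or_dvd h3 with h4 | h4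
      · exact hu _ hD1 h4
      · exact hgh h4
  · linear_combination hS

theorem G9_ne (ξ : Fin m → κ) (π : MvPolynomial (Fin m) k) (hπ : Irreducible π)
    (G : MvPolynomial (Fin m ⊕ Fin n) k)
    (h : MvPolynomial (Fin n) κ) (hirr : Irreducible h)
    (h1 : h ∣ specX ξ G) (h2 : ¬ h ^ 2 ∣ specX ξ G) : ¬ G ∣ rename Sum.inl π := by
  rintro ⟨U, hU⟩
  have h3 := congrArg (G9_W k m n) hU
  rw [G9_W_rename, map_mul] at h3
  have hne : (C π : MvPolynomial (Fin n) (MvPolynomial (Fin m) k)) ≠ 0 := by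
    rw [Ne, C_eq_zero]; exact hπ.ne_zero
  rw [h3] at hne
  have hG0 := left_ne_zero_of_mul hne
  have hU0 := right_ne_zero_of_mul hne
  have h4 := totalDegree_mul_of_isDomain hG0 hU0
  rw [← h3, totalDegree_C] at h4
  have h5 : (G9_W k m n G).totalDegree = 0 := by omega
  rw [totalDegree_eq_zero_iff_eq_C] at h5
  have h6 : specX ξ G = C (aeval ξ (coeff 0 (G9_W k m n G))) := by
    rw [G9_spec, h5, map_C, coeff_zero_C]; rfl
  rw [h6] at h1 h2
  by_cases h7 : aeval ξ (coeff 0 (G9_W k m n G)) = 0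
  · rw [h7, C_0] at h2
    exact h2 (dvd_zero _)
  · exact hirr.not_isUnit (isUnit_of_dvd_unit h1 ((isUnit_iff_ne_zero.2 h7).map C))

end G9

/-- The discrete valuation ring of a simple component of the fibre over the generic point of the
hypersurface `π = 0`. -/
theorem exists_valuation (k : Type) [Field k] (m n : ℕ) (K : Type) [Field K] [Algebra k K]
    (z : Fin m ⊕ Fin n → K) (G : MvPolynomial (Fin m ⊕ Fin n) k)
    (hG : ∀ P : MvPolynomial (Fin m ⊕ Fin n) k, MvPolynomial.aeval z P = 0 ↔ G ∣ P)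
    (hgen : ∀ a : K, ∃ P Q : MvPolynomial (Fin m ⊕ Fin n) k, MvPolynomial.aeval z Q ≠ 0 ∧
      a * MvPolynomial.aeval z Q = MvPolynomial.aeval z P)
    (π : MvPolynomial (Fin m) k) (hπ : Irreducible π)
    (κ : Type) [Field κ] [Algebra k κ] (ξ : Fin m → κ)
    (hξ : ∀ p : MvPolynomial (Fin m) k, MvPolynomial.aeval ξ p = 0 ↔ π ∣ p)
    (hξgen : ∀ a : κ, ∃ p q : MvPolynomial (Fin m) k, MvPolynomial.aeval ξ q ≠ 0 ∧
      a * MvPolynomial.aeval ξ q = MvPolynomial.aeval ξ p)
    (h : MvPolynomial (Fin n) κ) (hirr : Irreducible h)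
    (h1 : h ∣ specX ξ G) (h2 : ¬ h ^ 2 ∣ specX ξ G) :
    ∃ O : ValuationSubring K, IsUnif O (MvPolynomial.aeval (fun i => z (Sum.inl i)) π) ∧
      (∀ P : MvPolynomial (Fin m ⊕ Fin n) k, MvPolynomial.aeval z P ∈ O) ∧
      (∀ P : MvPolynomial (Fin m ⊕ Fin n) k,
        O.valuation (MvPolynomial.aeval z P) < 1 ↔ h ∣ specX ξ P) := by
  have hprime := hirr.prime
  -- the prime ideal
  set q : Ideal (MvPolynomial (Fin m ⊕ Fin n) k) :=
    Ideal.comap (specX ξ : MvPolynomial (Fin m ⊕ Fin n) k →ₐ[k] MvPolynomial (Fin n) κ)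
      (Ideal.span {h}) with hq
  have hmem : ∀ P, P ∈ q ↔ h ∣ specX ξ P := fun P => by
    rw [hq, Ideal.mem_comap, Ideal.mem_span_singleton]
  have hsp : (Ideal.span {h} : Ideal (MvPolynomial (Fin n) κ)).IsPrime :=
    (Ideal.span_singleton_prime hprime.ne_zero).2 hprime
  have hqp : q.IsPrime := by rw [hq]; exact Ideal.comap_isPrime _ _
  have hne : ∀ Q : MvPolynomial (Fin m ⊕ Fin n) k, ¬ h ∣ specX ξ Q → aeval z Q ≠ 0 := by
    intro Q hQ hz
    obtain ⟨c, hc⟩ := (hG Q).1 hz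
    exact hQ (by rw [hc, map_mul]; exact h1.mul_right _)
  -- the localization and its image
  set g : MvPolynomial (Fin m ⊕ Fin n) k →+* K := (aeval z).toRingHom with hg
  have hgu : ∀ y : q.primeCompl, IsUnit (g y) := by
    intro y
    apply isUnit_iff_ne_zero.2
    exact hne _ (fun hy => y.2 ((hmem _).2 hy))
  set ψ : Localization.AtPrime q →+* K := IsLocalization.lift (M := q.primeCompl) hgu with hψ
  have hψmem : ∀ x : K, x ∈ ψ.range ↔ ∃ P Q : MvPolynomial (Fin m ⊕ Fin n) k,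
      ¬ h ∣ specX ξ Q ∧ x * aeval z Q = aeval z P := by
    intro x
    constructor
    · rintro ⟨a, rfl⟩
      obtain ⟨P, Q, rfl⟩ := IsLocalization.exists_mk'_eq q.primeCompl a
      refine ⟨P, Q, fun hy => Q.2 ((hmem _).2 hy), ?_⟩
      have := (IsLocalization.lift_mk'_spec (M := q.primeCompl) (hg := hgu) P
        (ψ (IsLocalization.mk' (Localization.AtPrime q) P Q)) Q).1 rfl
      rw [mul_comm]
      exact this.symm
    · rintro ⟨P, Q, hQ, hx⟩
      refine ⟨IsLocalization.mk' (Localization.AtPrime q) P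
        (⟨Q, fun hy => hQ ((hmem _).1 hy)⟩ : q.primeCompl), ?_⟩
      rw [hψ, IsLocalization.lift_mk'_spec]
      show aeval z P = aeval z Q * x
      rw [← hx, mul_comm]
  have hbase : ∀ P : MvPolynomial (Fin m ⊕ Fin n) k, aeval z P ∈ ψ.range := by
    intro P
    rw [hψmem]
    refine ⟨P, 1, ?_, by simp⟩
    rw [map_one]
    exact fun hd => hprime.not_isUnit (isUnit_of_dvd_one hd)
  set O0 : Subring K := ψ.range with hO0
  have : IsLocalRing O0 := IsLocalRing.of_surjective' ψ.rangeRestrict ψ.rangeRestrict_surjective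
  have : IsNoetherianRing O0 :=
    isNoetherianRing_of_surjective (Localization.AtPrime q) O0 ψ.rangeRestrict
      ψ.rangeRestrict_surjective
  -- nonunits
  have hunit : ∀ P : MvPolynomial (Fin m ⊕ Fin n) k,
      (⟨aeval z P, hbase P⟩ : O0) ∈ IsLocalRing.maximalIdeal O0 ↔ h ∣ specX ξ P := by
    intro P
    rw [IsLocalRing.mem_maximalIdeal, mem_nonunits_iff, ← not_iff_not, not_not]
    constructor
    · intro hu hd
      obtain ⟨b, hb⟩ := hu.exists_right_inv
      have hb1 : aeval z P * (b : K) = 1 := congrArg Subtype.val hb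
      obtain ⟨P2, Q2, hQ2, hx⟩ := (hψmem _).1 b.2
      have h5 : aeval z (Q2 - P * P2) = 0 := by
        rw [map_sub, map_mul, ← hx, ← mul_assoc, hb1, one_mul, sub_self]
      obtain ⟨c, hc⟩ := (hG _).1 h5
      apply hQ2
      have h6 : Q2 = G * c + P * P2 := by rw [← hc]; ring
      rw [h6, map_add, map_mul, map_mul]
      exact dvd_add (h1.mul_right _) (hd.mul_right _)
    · intro hd
      have hz := hne P hd
      have hinv : (aeval z P)⁻¹ ∈ O0 := by
        rw [hO0, hψmem]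
        exact ⟨1, P, hd, by rw [inv_mul_cancel₀ hz, map_one]⟩
      exact isUnit_iff_exists_inv.2 ⟨⟨_, hinv⟩, Subtype.ext (mul_inv_cancel₀ hz)⟩
  -- the uniformizer
  set π' : MvPolynomial (Fin m ⊕ Fin n) k := rename Sum.inl π with hπ'
  have hπz : aeval z π' = aeval (fun i => z (Sum.inl i)) π := by
    rw [hπ', aeval_rename]; rfl
  have hπ0 : aeval z π' ≠ 0 := by
    intro h0
    exact G9_ne ξ π hπ G h hirr h1 h2 ((hG _).1 h0)
  have hπh : h ∣ specX ξ π' := by
    rw [hπ', G9_spec_rename, (hξ π).2 dvd_rfl, C_0]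
    exact dvd_zero _
  have hmax : IsLocalRing.maximalIdeal O0 = Ideal.span {(⟨aeval z π', hbase π'⟩ : O0)} := by
    apply le_antisymm
    · rintro ⟨a, ha⟩ haM
      obtain ⟨P, Q, hQ, hx⟩ := (hψmem _).1 ha
      have hQz := hne Q hQ
      have hPM : h ∣ specX ξ P := by
        rw [← hunit]
        have h7 : (⟨aeval z P, hbase P⟩ : O0) = ⟨a, ha⟩ * ⟨aeval z Q, hbase Q⟩ :=
          Subtype.ext hx.symm
        rw [h7]
        exact Ideal.mul_mem_right _ _ haM
      obtain ⟨P', S, hP', hd⟩ := G9_key ξ π hξ hξgen G h hirr h1 h2 P hPM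
      have h8 : aeval z P * aeval z P' = aeval z π' * aeval z S := by
        have := (hG _).2 hd
        rw [map_sub, map_mul, map_mul, sub_eq_zero] at this
        exact this
      have hP'z := hne P' hP'
      rw [Ideal.mem_span_singleton]
      have hin : aeval z S / (aeval z Q * aeval z P') ∈ O0 := by
        rw [hO0, hψmem]
        refine ⟨S, Q * P', ?_, ?_⟩
        · rw [map_mul]
          intro hd
          rcases hprime.dvd_or_dvd hd with h9 | h9
          · exact hQ h9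
          · exact hP' h9
        · rw [map_mul, div_mul_cancel₀ _ (mul_ne_zero hQz hP'z)]
      refine ⟨⟨_, hin⟩, Subtype.ext ?_⟩
      show a = aeval z π' * (aeval z S / (aeval z Q * aeval z P'))
      rw [← mul_div_assoc, ← h8, eq_div_iff (mul_ne_zero hQz hP'z), ← hx]
      ring
    · rw [Ideal.span_singleton_le_iff_mem, hunit]
      exact hπh
  have hTFAE := tfae_of_isNoetherianRing_of_isLocalRing_of_isDomain O0
  have hprinc : (IsLocalRing.maximalIdeal O0).IsPrincipal := by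
    rw [hmax]; exact ⟨⟨_, rfl⟩⟩
  have hval : ValuationRing O0 := (hTFAE.out 1 4).2 hprinc
  have hpow : ∀ I : Ideal O0, I ≠ ⊥ → ∃ n : ℕ, I = IsLocalRing.maximalIdeal O0 ^ n :=
    (hTFAE.out 4 6).1 hprinc
  have hOmem : ∀ x : K, x ∈ O0 ∨ x⁻¹ ∈ O0 := by
    intro x
    obtain ⟨P, Q, hQ, hx⟩ := hgen x
    obtain ⟨c, hc | hc⟩ := ValuationRing.cond (⟨aeval z P, hbase P⟩ : O0) ⟨aeval z Q, hbase Q⟩
    · right
      have hc' : aeval z P * (c : K) = aeval z Q := congrArg Subtype.val hc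
      have hP0 : aeval z P ≠ 0 := by
        intro h0; rw [h0, zero_mul] at hc'; exact hQ hc'.symm
      have : x⁻¹ = c := by
        rw [← hc'] at hx hQ
        have hc0 : (c : K) ≠ 0 := right_ne_zero_of_mul hQ
        have h9 : x * c = 1 := by
          apply mul_left_cancel₀ hP0
          rw [mul_one]
          linear_combination hx
        exact inv_eq_of_mul_eq_one_right h9
      rw [this]; exact c.2
    · left
      have hc' : aeval z Q * (c : K) = aeval z P := congrArg Subtype.val hc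
      have : x = c := by
        apply mul_left_cancel₀ hQ
        rw [hc', ← hx, mul_comm]
      rw [this]; exact c.2
  let O : ValuationSubring K := { O0 with mem_or_inv_mem' := hOmem }
  have hOO : ∀ x : K, x ∈ O ↔ x ∈ O0 := fun x => Iff.rfl
  refine ⟨O, ⟨?_, ?_, ?_, ?_⟩, fun P => (hOO _).2 (hbase P), ?_⟩
  · rw [← hπz]; exact hbase π'
  · rw [← hπz]; exact hπ0
  · rw [← hπz]
    intro hin
    have h10 : IsUnit (⟨aeval z π', hbase π'⟩ : O0) :=
      isUnit_iff_exists_inv.2 ⟨⟨_, hin⟩, Subtype.ext (mul_inv_cancel₀ hπ0)⟩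
    exact (IsLocalRing.mem_maximalIdeal _).1 ((hunit π').2 hπh) h10
  · intro a ha ha0
    have hI : (Ideal.span {(⟨a, ha⟩ : O0)} : Ideal O0) ≠ ⊥ := by
      rw [Ne, Ideal.span_singleton_eq_bot]
      exact fun h0 => ha0 (congrArg Subtype.val h0)
    obtain ⟨N, hN⟩ := hpow _ hI
    rw [hmax, Ideal.span_singleton_pow, Ideal.span_singleton_eq_span_singleton] at hN
    obtain ⟨u, hu⟩ := hN.symm
    have hu' : aeval z π' ^ N * ((u : O0) : K) = a := congrArg Subtype.val hu
    refine ⟨N, ((u : O0) : K), (u : O0).2, ?_, ?_⟩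
    · have h11 : (((u : O0) : K))⁻¹ = (((u⁻¹ : O0ˣ) : O0) : K) := by
        apply inv_eq_of_mul_eq_one_right
        exact congrArg Subtype.val (Units.mul_inv u)
      rw [h11]
      exact ((u⁻¹ : O0ˣ) : O0).2
    · rw [← hπz, ← hu', mul_comm]
  · intro P
    have h12 := ValuationSubring.valuation_lt_one_iff O (⟨aeval z P, hbase P⟩ : O)
    rw [← hunit]
    exact h12.symm

end Pool.Agent.LibHP
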