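import Pool.Agent.LibHP2.G8

set_option autoImplicit false

namespace Pool.Agent.LibHP

/-- The substitution `x = ξ` in a polynomial in `x, y`, with values in any algebra. -/
noncomputable def G11_spec {k A : Type} [Field k] [CommRing A] [Algebra k A] {m n : ℕ}
    (ξ : Fin m → A) : MvPolynomial (Fin m ⊕ Fin n) k →ₐ[k] MvPolynomial (Fin n) A :=
  MvPolynomial.aeval (Sum.elim (fun i => MvPolynomial.C (ξ i)) MvPolynomial.X)

theorem G11_spec_dehom {k A : Type} [Field k] [CharZero k] [CommRing A] [Algebra k A] {m n : ℕ}
    (F : MvPolynomial (Fin (m + 1) ⊕ Fin (n + 1)) k) (hF : IsBiquadratic F) (ξ : Fin m → A) :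
    2 * G11_spec (n := n) ξ (dehom F) =
      ∑ i, ∑ j, MvPolynomial.C (MvPolynomial.aeval ξ (gramY F i j)) *
        ((Fin.cons 1 fun i => MvPolynomial.X i : Fin (n + 1) → MvPolynomial (Fin n) A) i *
          (Fin.cons 1 fun i => MvPolynomial.X i : Fin (n + 1) → MvPolynomial (Fin n) A) j) := by
  -- the substitution `x = (1, ξ)`, `y = (1, y)` directly
  let Φ : MvPolynomial (Fin (m + 1) ⊕ Fin (n + 1)) k →ₐ[k] MvPolynomial (Fin n) A :=
    MvPolynomial.aeval (Sum.elim
      (Fin.cons 1 fun i => MvPolynomial.C (ξ i) : Fin (m + 1) → MvPolynomial (Fin n) A)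
      (Fin.cons 1 fun j => MvPolynomial.X j : Fin (n + 1) → MvPolynomial (Fin n) A))
  have h1 : G11_spec (n := n) ξ (dehom F) = Φ F := by
    have : (G11_spec (n := n) ξ).comp (MvPolynomial.aeval (Sum.elim
        (Fin.cons 1 fun i => MvPolynomial.X (Sum.inl i) :
          Fin (m + 1) → MvPolynomial (Fin m ⊕ Fin n) k)
        (Fin.cons 1 fun j => MvPolynomial.X (Sum.inr j) :
          Fin (n + 1) → MvPolynomial (Fin m ⊕ Fin n) k))) = Φ := by
      apply MvPolynomial.algHom_ext
      rintro (i | j)
      · refine Fin.cases ?_ (fun i => ?_) i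
        · simp [Φ, G11_spec]
        · simp [Φ, G11_spec]
      · refine Fin.cases ?_ (fun j => ?_) j
        · simp [Φ, G11_spec]
        · simp [Φ, G11_spec]
    rw [← this]
    rfl
  have h2 : ∀ g : MvPolynomial (Fin (m + 1)) k,
      Φ (MvPolynomial.rename Sum.inl g) = MvPolynomial.C (MvPolynomial.aeval ξ
        (MvPolynomial.aeval (Fin.cons 1 fun i => MvPolynomial.X i :
          Fin (m + 1) → MvPolynomial (Fin m) k) g)) := by
    intro g
    have : (Φ.comp (MvPolynomial.rename Sum.inl)) =
        ((Algebra.ofId A (MvPolynomial (Fin n) A)).restrictScalars k).comp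
          ((MvPolynomial.aeval ξ).comp (MvPolynomial.aeval (Fin.cons 1 fun i => MvPolynomial.X i :
          Fin (m + 1) → MvPolynomial (Fin m) k))) := by
      apply MvPolynomial.algHom_ext
      intro i
      refine Fin.cases ?_ (fun i => ?_) i
      · simp [Φ]
      · simp [Φ, Algebra.ofId_apply, MvPolynomial.algebraMap_eq]
    exact DFunLike.congr_fun this g
  rw [h1, show (2 : MvPolynomial (Fin n) A) * Φ F = Φ (2 * F) by rw [map_mul, map_ofNat],
    two_mul_eq_gram F hF, map_sum]
  refine Finset.sum_congr rfl fun i _ => ?_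
  rw [map_sum]
  refine Finset.sum_congr rfl fun j _ => ?_
  rw [map_mul, h2, map_mul]
  simp [Φ, gramY]

/-- A symmetric matrix whose quadratic form is constant on `v_0 = 1` is degenerate. -/
theorem G11_det {P : Type} [CommRing P] [IsDomain P] [CharZero P] {n : ℕ} (hn : 1 ≤ n)
    (g : Matrix (Fin (n + 1)) (Fin (n + 1)) P) (hg : ∀ i j, g i j = g j i) (f : P)
    (h : ∀ y : Fin n → P, ∑ i, ∑ j, g i j * ((Fin.cons 1 y : Fin (n + 1) → P) i *
      (Fin.cons 1 y : Fin (n + 1) → P) j) = f) : g.det = 0 := by
  classical
  -- the bilinear form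
  let b : (Fin (n + 1) → P) → (Fin (n + 1) → P) → P := fun v w => ∑ i, ∑ j, g i j * (v i * w j)
  have hadd : ∀ u v w, b (u + v) w = b u w + b v w := by
    intro u v w
    simp only [b, Pi.add_apply, ← Finset.sum_add_distrib]
    refine Finset.sum_congr rfl fun i _ => Finset.sum_congr rfl fun j _ => by ring
  have hadd' : ∀ u v w, b u (v + w) = b u v + b u w := by
    intro u v w
    simp only [b, Pi.add_apply, ← Finset.sum_add_distrib]
    refine Finset.sum_congr rfl fun i _ => Finset.sum_congr rfl fun j _ => by ring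
  have hneg : ∀ u v, b (-u) v = - b u v := by
    intro u v
    simp only [b, Pi.neg_apply, ← Finset.sum_neg_distrib]
    refine Finset.sum_congr rfl fun i _ => Finset.sum_congr rfl fun j _ => by ring
  have hneg' : ∀ u v, b u (-v) = - b u v := by
    intro u v
    simp only [b, Pi.neg_apply, ← Finset.sum_neg_distrib]
    refine Finset.sum_congr rfl fun i _ => Finset.sum_congr rfl fun j _ => by ring
  have hsymm : ∀ u v, b u v = b v u := by
    intro u v
    simp only [b]
    rw [Finset.sum_comm]
    refine Finset.sum_congr rfl fun i _ => Finset.sum_congr rfl fun j _ => ?_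
    rw [hg j i]; ring
  have hq : ∀ v : Fin (n + 1) → P, v 0 = 1 → b v v = f := by
    intro v hv
    have hv' : v = Fin.cons 1 (fun i => v (Fin.succ i)) := by
      funext i
      refine Fin.cases ?_ (fun i => ?_) i
      · simp [hv]
      · simp
    rw [hv']
    exact h _
  have hB : ∀ v u : Fin (n + 1) → P, v 0 = 1 → u 0 = 0 → b v u = 0 := by
    intro v u hv hu
    have e1 := hq (v + u) (by simp [hv, hu])
    have e2 := hq (v + -u) (by simp [hv, hu])
    have e0 := hq v hv
    rw [hadd, hadd', hadd'] at e1
    rw [hadd, hadd', hadd', hneg, hneg', hneg', hneg] at e2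
    rw [hsymm u v] at e1 e2
    have h4 : (4 : P) * b v u = 0 := by linear_combination e1 - e2
    rcases mul_eq_zero.1 h4 with h5 | h5
    · exact absurd h5 (by norm_num)
    · exact h5
  obtain ⟨n, rfl⟩ : ∃ n', n = n' + 1 := ⟨n - 1, by omega⟩
  let u : Fin (n + 1 + 1) → P := Pi.single 1 1
  have hu0 : u 0 = 0 := by simp [u]
  let e0 : Fin (n + 1 + 1) → P := Pi.single 0 1
  have he0 : e0 0 = 1 := by simp [e0]
  have hb : ∀ v, b v u = ∑ i, v i * g i 1 := by
    intro v
    simp only [b, u]
    refine Finset.sum_congr rfl fun i _ => ?_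
    rw [Finset.sum_eq_single (1 : Fin (n + 1 + 1))]
    · simp [mul_comm]
    · intro j _ hj
      simp [Pi.single_eq_of_ne hj]
    · intro hh; exact absurd (Finset.mem_univ _) hh
  have hcol : ∀ i, g i 1 = 0 := by
    have h00 : g 0 1 = 0 := by
      have := hB e0 u he0 hu0
      rw [hb] at this
      simpa [e0, Pi.single_apply] using this
    intro i
    refine Fin.cases h00 (fun i => ?_) i
    have := hB (e0 + Pi.single (Fin.succ i) 1) u (by simp [he0]) hu0
    rw [hadd, hB e0 u he0 hu0, zero_add, hb] at this
    simpa [Pi.single_apply] using this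
  exact Matrix.det_eq_zero_of_column_eq_zero 1 hcol

theorem algebraicIndependent_of_isGenericPt (k : Type) [Field k] [CharZero k] (m n : ℕ)
    (hn : 1 ≤ n) (F : MvPolynomial (Fin (m + 1) ⊕ Fin (n + 1)) k) (hF : IsBiquadratic F)
    (hsm : IsSmoothForm F) (K : Type) [Field K] [Algebra k K] (x : Fin m → K) (y : Fin n → K)
    (hxy : IsGenericPt F x y) : AlgebraicIndependent k x := by
  classical
  have hchar : CharZero (MvPolynomial (Fin m) k) :=
    charZero_of_injective_algebraMap (R := k) (MvPolynomial.C_injective (Fin m) k)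
  have key : ∀ p : MvPolynomial (Fin m) k, MvPolynomial.aeval x p = 0 → p = 0 := by
    intro p hp
    by_contra hp0
    have h1 : MvPolynomial.aeval (Sum.elim x y) (MvPolynomial.rename Sum.inl p) = 0 := by
      rw [MvPolynomial.aeval_rename]
      simpa using hp
    obtain ⟨Q, hQ⟩ := (hxy.1 _).1 h1
    let ψ := G11_spec (k := k) (A := MvPolynomial (Fin m) k) (m := m) (n := n) MvPolynomial.X
    have h2 : ψ (MvPolynomial.rename Sum.inl p) = MvPolynomial.C p := by
      have : ψ.comp (MvPolynomial.rename Sum.inl) =
          (Algebra.ofId (MvPolynomial (Fin m) k)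
            (MvPolynomial (Fin n) (MvPolynomial (Fin m) k))).restrictScalars k := by
        apply MvPolynomial.algHom_ext
        intro i
        simp [ψ, G11_spec, Algebra.ofId_apply, MvPolynomial.algebraMap_eq]
      exact DFunLike.congr_fun this p
    have h3 : MvPolynomial.C p = ψ (dehom F) * ψ Q := by
      rw [← h2, hQ, map_mul]
    have hCp : (MvPolynomial.C p : MvPolynomial (Fin n) (MvPolynomial (Fin m) k)) ≠ 0 := by
      rwa [Ne, MvPolynomial.C_eq_zero]
    have hne1 : ψ (dehom F) ≠ 0 := fun h0 => hCp (by rw [h3, h0, zero_mul])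
    have hne2 : ψ Q ≠ 0 := fun h0 => hCp (by rw [h3, h0, mul_zero])
    have hdeg := congrArg MvPolynomial.totalDegree h3
    rw [MvPolynomial.totalDegree_mul_of_isDomain hne1 hne2, MvPolynomial.totalDegree_C] at hdeg
    have hd0 : (ψ (dehom F)).totalDegree = 0 := by omega
    obtain ⟨f, hf⟩ : ∃ f, ψ (dehom F) = MvPolynomial.C f :=
      ⟨_, MvPolynomial.totalDegree_eq_zero_iff_eq_C.1 hd0⟩
    apply gramY_det_ne_zero k m n F hF hsm
    apply G11_det hn (gramY F) (fun i j => by rw [gramY, gramY, gramH_symm]) (2 * f)
    intro v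
    have h4 := G11_spec_dehom (A := MvPolynomial (Fin m) k) F hF MvPolynomial.X
    change 2 * ψ (dehom F) = _ at h4
    rw [hf] at h4
    have h5 := congrArg (MvPolynomial.eval v) h4
    simp only [map_mul, MvPolynomial.eval_C, map_ofNat, map_sum, MvPolynomial.aeval_X_left,
      AlgHom.id_apply] at h5
    rw [h5]
    refine Finset.sum_congr rfl fun i _ => Finset.sum_congr rfl fun j _ => ?_
    have h6 : ∀ i : Fin (n + 1), MvPolynomial.eval v
        ((Fin.cons 1 fun i => MvPolynomial.X i :
          Fin (n + 1) → MvPolynomial (Fin n) (MvPolynomial (Fin m) k)) i) =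
        (Fin.cons 1 v : Fin (n + 1) → MvPolynomial (Fin m) k) i := by
      intro i
      refine Fin.cases ?_ (fun i => ?_) i
      · simp
      · simp
    rw [h6, h6]
  rw [AlgebraicIndependent, injective_iff_map_eq_zero]
  exact key

/-- The quadric bundle structure on the function field. -/
theorem exists_quad_structure (k : Type) [Field k] [CharZero k] (m n : ℕ) (hn : 1 ≤ n)
    (F : MvPolynomial (Fin (m + 1) ⊕ Fin (n + 1)) k) (hF : IsBiquadratic F)
    (hsm : IsSmoothForm F) (K : Type) [Field K] [Algebra k K] (x : Fin m → K) (y : Fin n → K)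
    (hxy : IsGenericPt F x y) :
    ∃ B : Matrix (Fin (n + 1)) (Fin (n + 1)) (IntermediateField.adjoin k (Set.range x)),
      B.IsSymm ∧ B.det ≠ 0 ∧ IsGenericQuad B y := by
  classical
  have hind := algebraicIndependent_of_isGenericPt k m n hn F hF hsm K x y hxy
  let x' : Fin m → IntermediateField.adjoin k (Set.range x) := fun i =>
    ⟨x i, IntermediateField.subset_adjoin k _ ⟨i, rfl⟩⟩
  have hx' : ∀ p : MvPolynomial (Fin m) k,
      ((MvPolynomial.aeval x' p : IntermediateField.adjoin k (Set.range x)) : K) =
        MvPolynomial.aeval x p := by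
    intro p
    have : (IntermediateField.val (IntermediateField.adjoin k (Set.range x))).comp
        (MvPolynomial.aeval x') = MvPolynomial.aeval x := by
      apply MvPolynomial.algHom_ext
      intro i
      simp [x']
    exact DFunLike.congr_fun this p
  have hinj : Function.Injective (MvPolynomial.aeval (R := k) x') := by
    intro p q hpq
    apply hind
    rw [← hx', ← hx', hpq]
  let ι : MvPolynomial (Fin m) k →+* IntermediateField.adjoin k (Set.range x) :=
    (MvPolynomial.aeval (R := k) x').toRingHom
  have hCZ : CharZero (IntermediateField.adjoin k (Set.range x)) :=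
    charZero_of_injective_algebraMap (R := k) (algebraMap k _).injective
  let Φ := G11_spec (k := k) (m := m) (n := n) x'
  have hΦ : ∀ G : MvPolynomial (Fin m ⊕ Fin n) k,
      MvPolynomial.aeval y (Φ G) = MvPolynomial.aeval (Sum.elim x y) G := by
    intro G
    have : ((MvPolynomial.aeval (R := IntermediateField.adjoin k (Set.range x)) y).restrictScalars
        k).comp Φ = MvPolynomial.aeval (Sum.elim x y) := by
      apply MvPolynomial.algHom_ext
      rintro (i | j)
      · simp [Φ, G11_spec, x']
      · simp [Φ, G11_spec]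
    exact DFunLike.congr_fun this G
  refine ⟨(gramY F).map ι, ?_, ?_, ?_, ?_⟩
  · ext i j
    simp only [Matrix.transpose_apply, Matrix.map_apply]
    rw [gramY, gramY, gramH_symm]
  · have : ((gramY F).map ι).det = ι (gramY F).det := by
      rw [RingHom.map_det]; rfl
    rw [this]
    intro h0
    apply gramY_det_ne_zero k m n F hF hsm
    apply hinj
    rw [map_zero]
    exact h0
  · have hq : quadEq ((gramY F).map ι) = 2 * Φ (dehom F) := by
      rw [G11_spec_dehom F hF x', quadEq]
      rfl
    have h2u : IsUnit (2 : MvPolynomial (Fin n) (IntermediateField.adjoin k (Set.range x))) := by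
      have : (2 : MvPolynomial (Fin n) (IntermediateField.adjoin k (Set.range x))) =
          MvPolynomial.C 2 := by rw [map_ofNat]
      rw [this]
      exact (IsUnit.mk0 (2 : IntermediateField.adjoin k (Set.range x)) (by norm_num)).map
        MvPolynomial.C
    intro G
    rw [hq, h2u.mul_left_dvd]
    constructor
    · intro hG
      -- clear denominators
      have hden : ∀ G : MvPolynomial (Fin n) (IntermediateField.adjoin k (Set.range x)),
          ∃ (d : IntermediateField.adjoin k (Set.range x)) (G' : MvPolynomial (Fin m ⊕ Fin n) k),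
            d ≠ 0 ∧ (∃ d' : MvPolynomial (Fin m) k, MvPolynomial.aeval x' d' = d) ∧
            Φ G' = MvPolynomial.C d * G := by
        intro G
        have hΦl : ∀ p : MvPolynomial (Fin m) k, Φ (MvPolynomial.rename Sum.inl p) =
            MvPolynomial.C (MvPolynomial.aeval x' p) := by
          intro p
          have : Φ.comp (MvPolynomial.rename Sum.inl) =
              ((Algebra.ofId (IntermediateField.adjoin k (Set.range x))
                (MvPolynomial (Fin n) (IntermediateField.adjoin k (Set.range x)))).restrictScalars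
                k).comp (MvPolynomial.aeval x') := by
            apply MvPolynomial.algHom_ext
            intro i
            simp [Φ, G11_spec, Algebra.ofId_apply, MvPolynomial.algebraMap_eq]
          exact DFunLike.congr_fun this p
        induction G using MvPolynomial.induction_on with
        | C a =>
          obtain ⟨r, s, hrs⟩ := (IntermediateField.mem_adjoin_range_iff k x (a : K)).1 a.2
          by_cases hs : MvPolynomial.aeval x s = 0
          · have ha : a = 0 := by
              apply Subtype.ext
              rw [hrs, hs, div_zero]; rfl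
            exact ⟨1, 0, one_ne_zero, ⟨1, map_one _⟩, by simp [ha]⟩
          · refine ⟨MvPolynomial.aeval x' s, MvPolynomial.rename Sum.inl r, ?_, ⟨s, rfl⟩, ?_⟩
            · intro h0
              apply hs
              rw [← hx', h0]; rfl
            · rw [hΦl, ← map_mul]
              congr 1
              apply Subtype.ext
              rw [hx' r, MulMemClass.coe_mul, hx' s, hrs]
              field_simp
        | add p q hp hq =>
          obtain ⟨d, G', hd, ⟨d', hd'⟩, hG'⟩ := hp
          obtain ⟨e, H', he, ⟨e', he'⟩, hH'⟩ := hq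
          refine ⟨d * e, MvPolynomial.rename Sum.inl e' * G' + MvPolynomial.rename Sum.inl d' * H',
            mul_ne_zero hd he, ⟨d' * e', by rw [map_mul, hd', he']⟩, ?_⟩
          rw [map_add, map_mul, map_mul, hΦl, hΦl, hG', hH', hd', he', map_mul]
          ring
        | mul_X p i hp =>
          obtain ⟨d, G', hd, hd', hG'⟩ := hp
          refine ⟨d, G' * MvPolynomial.X (Sum.inr i), hd, hd', ?_⟩
          rw [map_mul, hG', mul_assoc]
          simp [Φ, G11_spec]
      obtain ⟨d, G', hd, -, hG'⟩ := hden G
      have h0 : MvPolynomial.aeval (Sum.elim x y) G' = 0 := by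
        rw [← hΦ, hG', map_mul, hG, mul_zero]
      obtain ⟨Q, hQ⟩ := (hxy.1 _).1 h0
      have h1 : MvPolynomial.C d * G = Φ (dehom F) * Φ Q := by
        rw [← hG', hQ, map_mul]
      refine ⟨MvPolynomial.C d⁻¹ * Φ Q, ?_⟩
      calc G = MvPolynomial.C d⁻¹ * (MvPolynomial.C d * G) := by
            rw [← mul_assoc, ← map_mul, inv_mul_cancel₀ hd, map_one, one_mul]
        _ = Φ (dehom F) * (MvPolynomial.C d⁻¹ * Φ Q) := by rw [h1]; ring
    · rintro ⟨Q, rfl⟩
      rw [map_mul, hΦ, (hxy.1 _).2 dvd_rfl, zero_mul]
  · intro z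
    obtain ⟨G, H, hH, hz⟩ := hxy.2 z
    exact ⟨Φ G, Φ H, by rwa [hΦ], by rw [hΦ, hΦ, hz]⟩

end Pool.Agent.LibHP
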