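import Pool.Agent.LibHP2.Defs

set_option autoImplicit false

namespace Pool.Agent.LibHP

/-- Derivations extend along formally etale extensions. -/
theorem G3_exists_derivation (S T : Type) [CommRing S] [CommRing T] [Algebra S T]
    [Algebra.FormallyEtale S T] (D : Derivation ℤ S S) :
    ∃ D' : Derivation ℤ T T, ∀ s : S, D' (algebraMap S T s) = algebraMap S T (D s) := by
  let e := KaehlerDifferential.tensorKaehlerEquivOfFormallyEtale ℤ S T
  let ψ : TensorProduct S T (KaehlerDifferential ℤ S) →ₗ[T] T :=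
    LinearMap.liftBaseChange T ((Algebra.linearMap S T).comp D.liftKaehlerDifferential)
  refine ⟨(ψ.comp e.symm.toLinearMap).compDer (KaehlerDifferential.D ℤ T), fun s => ?_⟩
  change ψ (e.symm (KaehlerDifferential.D ℤ T (algebraMap S T s))) = _
  rw [KaehlerDifferential.tensorKaehlerEquivOfFormallyEtale_symm_D_algebraMap]
  simp [ψ]

open scoped IntermediateField.algebraAdjoinAdjoin in
/-- A transcendental element is not killed by some derivation over the base field. -/
theorem G3_derivation_of_transcendental (k κ : Type) [Field k] [CharZero k] [Field κ]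
    [Algebra k κ] (a : κ) (ha : Transcendental k a) :
    ∃ D : Derivation ℤ κ κ, (∀ c : k, D (algebraMap k κ c) = 0) ∧ D a = 1 := by
  classical
  have hsing : AlgebraicIndepOn k id ({a} : Set κ) := by
    have := (algebraicIndependent_unique_type_iff (ι := ({a} : Set κ)) (R := k)
      (x := fun i => (i : κ))).mpr (by simpa using ha)
    exact this
  obtain ⟨s, has, hs⟩ := exists_isTranscendenceBasis_superset hsing
  have ha' : a ∈ s := has rfl
  have hind : AlgebraicIndependent k ((↑) : s → κ) := hs.1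
  let R := Set.range ((↑) : s → κ)
  have : Algebra.IsAlgebraic (IntermediateField.adjoin k R) κ := hs.isAlgebraic_field
  have : CharZero κ := charZero_of_injective_algebraMap (algebraMap k κ).injective
  have : Algebra.FormallyEtale (Algebra.adjoin k R) (IntermediateField.adjoin k R) :=
    Algebra.FormallyEtale.of_isLocalization (nonZeroDivisors (Algebra.adjoin k R))
  have : Algebra.FormallyEtale (IntermediateField.adjoin k R) κ :=
    Algebra.FormallyEtale.of_isSeparable _ κ
  have : Algebra.FormallyEtale (Algebra.adjoin k R) κ :=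
    Algebra.FormallyEtale.comp _ (IntermediateField.adjoin k R) κ
  let e : MvPolynomial s k ≃ₐ[k] Algebra.adjoin k R := hind.aevalEquiv
  let D0 : Derivation k (MvPolynomial s k) (MvPolynomial s k) := MvPolynomial.pderiv ⟨a, ha'⟩
  let DA : Derivation ℤ (Algebra.adjoin k R) (Algebra.adjoin k R) :=
    Derivation.mk' ((e.toLinearMap.comp (D0.toLinearMap.comp e.symm.toLinearMap)).restrictScalars ℤ)
      (by
        intro x y
        change e (D0 (e.symm (x * y))) = x • e (D0 (e.symm y)) + y • e (D0 (e.symm x))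
        rw [map_mul, Derivation.leibniz, map_add, smul_eq_mul, smul_eq_mul, map_mul, map_mul,
          AlgEquiv.apply_symm_apply, AlgEquiv.apply_symm_apply, smul_eq_mul, smul_eq_mul])
  obtain ⟨D, hD⟩ := G3_exists_derivation (Algebra.adjoin k R) κ DA
  refine ⟨D, fun c => ?_, ?_⟩
  · have h1 : algebraMap k κ c =
        algebraMap (Algebra.adjoin k R) κ (algebraMap k (Algebra.adjoin k R) c) := rfl
    rw [h1, hD]
    have h2 : DA (algebraMap k (Algebra.adjoin k R) c) = 0 := by
      change e (D0 (e.symm (algebraMap k (Algebra.adjoin k R) c))) = 0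
      rw [AlgEquiv.commutes, Derivation.map_algebraMap, map_zero]
    rw [h2, map_zero]
  · have h0 : e (MvPolynomial.X ⟨a, ha'⟩) = ⟨a, Algebra.subset_adjoin ⟨⟨a, ha'⟩, rfl⟩⟩ := by
      apply Subtype.ext
      exact (hind.algebraMap_aevalEquiv _).trans (by simp)
    have h1 : a = algebraMap (Algebra.adjoin k R) κ (e (MvPolynomial.X ⟨a, ha'⟩)) := by
      rw [h0]; rfl
    conv_lhs => rw [h1]
    rw [hD]
    have h2 : DA (e (MvPolynomial.X ⟨a, ha'⟩)) = 1 := by
      change e (D0 (e.symm (e (MvPolynomial.X ⟨a, ha'⟩)))) = 1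
      rw [AlgEquiv.symm_apply_apply]
      simp [D0]
    rw [h2, map_one]

section coeffDer

variable {κ : Type} [Field κ] {n : ℕ} (D : Derivation ℤ κ κ)

/-- a derivation applied to the coefficients -/
noncomputable def G3_dc (p : MvPolynomial (Fin n) κ) : MvPolynomial (Fin n) κ :=
  ∑ s ∈ p.support, MvPolynomial.monomial s (D (p.coeff s))

theorem G3_coeff_dc (p : MvPolynomial (Fin n) κ) (s : Fin n →₀ ℕ) :
    (G3_dc D p).coeff s = D (p.coeff s) := by
  classical
  unfold G3_dc
  rw [MvPolynomial.coeff_sum]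
  simp only [MvPolynomial.coeff_monomial]
  rw [Finset.sum_ite_eq']
  split_ifs with h
  · rfl
  · rw [MvPolynomial.notMem_support_iff.mp h, map_zero]

theorem G3_dc_mul (p q : MvPolynomial (Fin n) κ) :
    G3_dc D (p * q) = G3_dc D p * q + p * G3_dc D q := by
  classical
  ext s
  rw [G3_coeff_dc, MvPolynomial.coeff_mul, MvPolynomial.coeff_add, MvPolynomial.coeff_mul,
    MvPolynomial.coeff_mul, map_sum, ← Finset.sum_add_distrib]
  refine Finset.sum_congr rfl fun x _ => ?_
  rw [G3_coeff_dc, G3_coeff_dc, Derivation.leibniz, smul_eq_mul, smul_eq_mul]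
  ring

theorem G3_dc_pow (p : MvPolynomial (Fin n) κ) (e : ℕ) :
    G3_dc D (p ^ (e + 1)) = ((e + 1 : ℕ) : MvPolynomial (Fin n) κ) * p ^ e * G3_dc D p := by
  induction e with
  | zero => simp
  | succ e ih =>
    rw [pow_succ, G3_dc_mul, ih]
    push_cast
    ring

theorem G3_totalDegree_dc (p : MvPolynomial (Fin n) κ) :
    (G3_dc D p).totalDegree ≤ p.totalDegree := by
  refine MvPolynomial.totalDegree_le_of_support_subset fun s hs => ?_
  rw [MvPolynomial.mem_support_iff] at hs ⊢
  intro h
  apply hs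
  rw [G3_coeff_dc, h, map_zero]

end coeffDer

/-- A factor over `κ` of a polynomial over `k` has coefficients algebraic over `k`, up to a
constant. -/
theorem coeff_algebraic_of_dvd (k κ : Type) [Field k] [CharZero k] [Field κ] [Algebra k κ] (n : ℕ)
    (h : MvPolynomial (Fin n) κ) (hirr : Irreducible h) (ω : MvPolynomial (Fin n) k) (hω : ω ≠ 0)
    (hdvd : h ∣ MvPolynomial.map (algebraMap k κ) ω) :
    ∃ c : κ, c ≠ 0 ∧ ∀ s, IsAlgebraic k (c * h.coeff s) := by
  classical
  have : CharZero κ := charZero_of_injective_algebraMap (algebraMap k κ).injective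
  have h0 : h ≠ 0 := hirr.ne_zero
  obtain ⟨s0, hs0⟩ : ∃ s0, h.coeff s0 ≠ 0 := by
    by_contra hcon
    push Not at hcon
    exact h0 (MvPolynomial.ext _ _ (by simpa using hcon))
  -- normalise
  set h' : MvPolynomial (Fin n) κ := MvPolynomial.C (h.coeff s0)⁻¹ * h with hh'
  have hCu : IsUnit (MvPolynomial.C (h.coeff s0)⁻¹ : MvPolynomial (Fin n) κ) :=
    (isUnit_iff_ne_zero.mpr (inv_ne_zero hs0)).map _
  have hirr' : Irreducible h' := (irreducible_isUnit_mul hCu).mpr hirr
  have hprime : Prime h' := hirr'.prime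
  have hdvd' : h' ∣ MvPolynomial.map (algebraMap k κ) ω := by
    rw [hh', hCu.mul_left_dvd]
    exact hdvd
  have hω' : MvPolynomial.map (algebraMap k κ) ω ≠ 0 := by
    intro h1
    apply hω
    exact MvPolynomial.map_injective _ (algebraMap k κ).injective (by rw [h1, map_zero])
  have hcoeff1 : h'.coeff s0 = 1 := by
    rw [hh', MvPolynomial.coeff_C_mul, inv_mul_cancel₀ hs0]
  have hfin : FiniteMultiplicity h' (MvPolynomial.map (algebraMap k κ) ω) :=
    FiniteMultiplicity.of_not_isUnit hirr'.not_isUnit hω'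
  obtain ⟨g, hg, hng⟩ := hfin.exists_eq_pow_mul_and_not_dvd
  have hepos : multiplicity h' (MvPolynomial.map (algebraMap k κ) ω) ≠ 0 := by
    intro h1
    rw [h1, pow_zero, one_mul] at hg
    exact hng (hg ▸ hdvd')
  obtain ⟨e, he⟩ := Nat.exists_eq_succ_of_ne_zero hepos
  rw [he] at hg
  refine ⟨(h.coeff s0)⁻¹, inv_ne_zero hs0, fun s => ?_⟩
  rw [← MvPolynomial.coeff_C_mul, ← hh']
  by_contra htr
  obtain ⟨D, hDk, hDa⟩ := G3_derivation_of_transcendental k κ (h'.coeff s) htr
  have hz : G3_dc D (MvPolynomial.map (algebraMap k κ) ω) = 0 := by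
    ext u
    rw [G3_coeff_dc, MvPolynomial.coeff_map, hDk, MvPolynomial.coeff_zero]
  rw [hg, G3_dc_mul, Nat.succ_eq_add_one, G3_dc_pow] at hz
  have hz2 : h' ^ e * (((e + 1 : ℕ) : MvPolynomial (Fin n) κ) * G3_dc D h' * g +
      h' * G3_dc D g) = 0 := by
    rw [← hz]
    ring
  have hz3 := (mul_eq_zero.mp hz2).resolve_left (pow_ne_zero _ hirr'.ne_zero)
  have hd1 : h' ∣ ((e + 1 : ℕ) : MvPolynomial (Fin n) κ) * G3_dc D h' * g := by
    refine ⟨-G3_dc D g, ?_⟩
    linear_combination hz3
  have hd2 : h' ∣ ((e + 1 : ℕ) : MvPolynomial (Fin n) κ) * G3_dc D h' :=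
    (hprime.dvd_or_dvd hd1).resolve_right hng
  have hun : IsUnit (((e + 1 : ℕ) : MvPolynomial (Fin n) κ)) := by
    have : (((e + 1 : ℕ) : MvPolynomial (Fin n) κ)) = MvPolynomial.C (((e + 1 : ℕ) : κ)) := by
      simp
    rw [this]
    exact (isUnit_iff_ne_zero.mpr (by exact_mod_cast Nat.succ_ne_zero e)).map _
  have hd3 : h' ∣ G3_dc D h' := (hun.dvd_mul_left).mp hd2
  obtain ⟨c, hc⟩ := hd3
  have hne : G3_dc D h' ≠ 0 := by
    intro h1
    have h2 := G3_coeff_dc D h' s
    rw [h1, MvPolynomial.coeff_zero, hDa] at h2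
    exact zero_ne_one h2
  have hc0 : c ≠ 0 := by
    rintro rfl
    exact hne (by rw [hc, mul_zero])
  have hdeg : (G3_dc D h').totalDegree = h'.totalDegree + c.totalDegree := by
    rw [hc]
    exact MvPolynomial.totalDegree_mul_of_isDomain hirr'.ne_zero hc0
  have hdeg2 := G3_totalDegree_dc D h'
  have hc1 : c.totalDegree = 0 := by omega
  have hc2 := MvPolynomial.totalDegree_eq_zero_iff_eq_C.mp hc1
  have h3 := G3_coeff_dc D h' s0
  rw [hc, hc2, mul_comm, MvPolynomial.coeff_C_mul, hcoeff1, mul_one, Derivation.map_one_eq_zero] at h3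
  apply hc0
  rw [hc2, h3, map_zero]

end Pool.Agent.LibHP
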