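import Pool.Agent.LibHP2.Defs

set_option autoImplicit false

namespace Pool.Agent.LibHP

open MvPolynomial

/-- The endomorphism killing the first `t` variables. -/
noncomputable def G6_kill (Λ : Type) [Field Λ] (n t : ℕ) :
    MvPolynomial (Fin (n + 1)) Λ →ₐ[Λ] MvPolynomial (Fin (n + 1)) Λ :=
  aeval fun i : Fin (n + 1) => if i.val < t then 0 else X i

lemma G6_ker_lt (Λ : Type) [Field Λ] (n t : ℕ) (ht : t < n + 1) :
    RingHom.ker (G6_kill Λ n t) < RingHom.ker (G6_kill Λ n (t + 1)) := by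
  refine lt_of_le_of_ne ?_ ?_
  · intro p hp
    have hcomp : (G6_kill Λ n (t + 1)) = (G6_kill Λ n (t + 1)).comp (G6_kill Λ n t) := by
      apply MvPolynomial.algHom_ext
      intro i
      simp only [G6_kill, AlgHom.comp_apply, aeval_X]
      by_cases h : i.val < t
      · have h2 : i.val < t + 1 := by omega
        simp [h, h2]
      · simp only [if_neg h, aeval_X]
    rw [RingHom.mem_ker] at hp ⊢
    rw [hcomp, AlgHom.comp_apply, hp, map_zero]
  · intro heq
    have h1 : (X ⟨t, ht⟩ : MvPolynomial (Fin (n + 1)) Λ) ∈ RingHom.ker (G6_kill Λ n (t + 1)) := by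
      rw [RingHom.mem_ker]
      simp [G6_kill]
    rw [← heq, RingHom.mem_ker] at h1
    simp [G6_kill] at h1

lemma G6_height (Λ : Type) [Field Λ] (n t : ℕ) (ht : t ≤ n + 1) :
    (t : ℕ∞) ≤ (RingHom.ker (G6_kill Λ n t)).height := by
  induction t with
  | zero => simp
  | succ t ih =>
    have h1 := ih (by omega)
    have hp1 : (RingHom.ker (G6_kill Λ n t)).IsPrime := RingHom.ker_isPrime _
    have hp2 : (RingHom.ker (G6_kill Λ n (t + 1))).IsPrime := RingHom.ker_isPrime _
    have h2 := Ideal.height_strict_mono_of_isPrime_of_isPrime (G6_ker_lt Λ n t (by omega))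
    have h3 : (t : ℕ∞) < (RingHom.ker (G6_kill Λ n (t + 1))).height := lt_of_le_of_lt h1 h2
    have h4 := Order.add_one_le_of_lt h3
    exact_mod_cast h4

/-- Two forms of degrees one or two in at least three variables have a common zero. -/
theorem exists_common_zero (Λ : Type) [Field Λ] [CharZero Λ] [IsAlgClosed Λ] (n : ℕ) (hn : 2 ≤ n)
    (d e : ℕ) (hd1 : 1 ≤ d) (hd2 : d ≤ 2) (he1 : 1 ≤ e) (he2 : e ≤ 2)
    (f g : MvPolynomial (Fin (n + 1)) Λ) (hf : f.IsHomogeneous d) (hg : g.IsHomogeneous e) :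
    ∃ a : Fin (n + 1) → Λ, a ≠ 0 ∧ MvPolynomial.eval a f = 0 ∧ MvPolynomial.eval a g = 0 := by
  classical
  by_contra hno
  push Not at hno
  -- the zero locus of (f, g) is the origin
  have hf0 : eval 0 f = 0 := by
    rw [← coe_aeval_eq_eval, RingHom.coe_coe, aeval_zero, constantCoeff_eq]
    rw [hf.coeff_eq_zero (d := 0) (by simp; omega)]
    simp
  have hg0 : eval 0 g = 0 := by
    rw [← coe_aeval_eq_eval, RingHom.coe_coe, aeval_zero, constantCoeff_eq]
    rw [hg.coeff_eq_zero (d := 0) (by simp; omega)]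
    simp
  have hloc : zeroLocus Λ (Ideal.span {f, g}) = {(0 : Fin (n + 1) → Λ)} := by
    rw [zeroLocus_span]
    ext a
    simp only [Set.mem_insert_iff, Set.mem_singleton_iff, forall_eq_or_imp, forall_eq,
      Set.mem_ofPred_eq]
    constructor
    · rintro ⟨h1, h2⟩
      by_contra ha
      exact hno a ha (by simpa [coe_aeval_eq_eval] using h1) (by simpa [coe_aeval_eq_eval] using h2)
    · rintro rfl
      exact ⟨by simpa [coe_aeval_eq_eval] using hf0, by simpa [coe_aeval_eq_eval] using hg0⟩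
  have hrad := vanishingIdeal_zeroLocus_eq_radical (k := Λ) (K := Λ) (Ideal.span {f, g})
  rw [hloc] at hrad
  have hprime : (vanishingIdeal Λ {(0 : Fin (n + 1) → Λ)} :
    Ideal (MvPolynomial (Fin (n + 1)) Λ)).IsPrime := inferInstance
  have hmin : (vanishingIdeal Λ {(0 : Fin (n + 1) → Λ)} :
      Ideal (MvPolynomial (Fin (n + 1)) Λ)) ∈ (Ideal.span {f, g}).minimalPrimes := by
    rw [← Ideal.radical_minimalPrimes, ← hrad, Ideal.minimalPrimes_eq_subsingleton_self]
    exact Set.mem_singleton _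
  have hle := Ideal.height_le_card_of_mem_minimalPrimes_span
    (Set.toFinite ({f, g} : Set (MvPolynomial (Fin (n + 1)) Λ))) hmin
  have hcard : ({f, g} : Set (MvPolynomial (Fin (n + 1)) Λ)).ncard ≤ 2 := by
    refine (Set.ncard_insert_le f {g}).trans ?_
    rw [Set.ncard_singleton]
  have hker : RingHom.ker (G6_kill Λ n (n + 1)) ≤
      (vanishingIdeal Λ {(0 : Fin (n + 1) → Λ)} : Ideal (MvPolynomial (Fin (n + 1)) Λ)) := by
    intro p hp
    rw [mem_vanishingIdeal_singleton_iff]
    rw [RingHom.mem_ker] at hp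
    have h2 : aeval (0 : Fin (n + 1) → Λ) = (aeval (0 : Fin (n + 1) → Λ)).comp
        (G6_kill Λ n (n + 1)) := by
      apply MvPolynomial.algHom_ext
      intro i
      have : i.val < n + 1 := i.isLt
      simp only [G6_kill, AlgHom.comp_apply, aeval_X, if_pos this, map_zero, Pi.zero_apply]
    rw [h2, AlgHom.comp_apply, hp, map_zero]
  have h3 := (G6_height Λ n (n + 1) le_rfl).trans ((Ideal.height_mono hker).trans hle)
  have h4 : n + 1 ≤ 2 := by
    have h5 : ((n + 1 : ℕ) : ℕ∞) ≤ ((2 : ℕ) : ℕ∞) := h3.trans (by exact_mod_cast hcard)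
    exact_mod_cast h5
  omega

end Pool.Agent.LibHP
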