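import Pool.Agent.LibHP2.Defs

set_option autoImplicit false

namespace Pool.Agent.LibHP

/-- The minimal polynomial over `K` of an element algebraic over `M1` has the same degree as the
one over `M1`, when `M1` is algebraically closed in `K`. -/
theorem R1_natDegree_minpoly (M1 K L : Type) [Field M1] [Field K] [Field L]
    [Algebra M1 K] [Algebra K L] [Algebra M1 L] [IsScalarTower M1 K L]
    (hcl : ∀ c : K, IsAlgebraic M1 c → ∃ a : M1, algebraMap M1 K a = c)
    (α : L) (hα : IsIntegral M1 α) :
    (minpoly K α).natDegree = (minpoly M1 α).natDegree := by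
  have hαK : IsIntegral K α := hα.tower_top
  have hdvd : minpoly K α ∣ (minpoly M1 α).map (algebraMap M1 K) := by
    apply minpoly.dvd
    rw [Polynomial.aeval_map_algebraMap, minpoly.aeval]
  have hmem := integralClosure.mem_lifts_of_monic_of_dvd_map K (minpoly.monic hα)
    (minpoly.monic hαK) hdvd
  have hmem2 : minpoly K α ∈ Polynomial.lifts (algebraMap M1 K) := by
    rw [Polynomial.lifts_iff_coeff_lifts] at hmem ⊢
    intro n
    obtain ⟨c, hc⟩ := hmem n
    obtain ⟨a, ha⟩ := hcl ((minpoly K α).coeff n) (by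
      rw [← hc]
      exact (c.2 : IsIntegral M1 (c : K)).isAlgebraic)
    exact ⟨a, ha⟩
  rw [Polynomial.mem_lifts] at hmem2
  obtain ⟨g, hg⟩ := hmem2
  have h0 : Polynomial.aeval α g = 0 := by
    rw [← Polynomial.aeval_map_algebraMap K, hg, minpoly.aeval]
  have hg0 : g ≠ 0 := by
    rintro rfl
    rw [Polynomial.map_zero] at hg
    exact minpoly.ne_zero hαK hg.symm
  apply le_antisymm
  · refine (Polynomial.natDegree_le_of_dvd hdvd ?_).trans (Polynomial.natDegree_map_le)
    exact (Polynomial.map_ne_zero (minpoly.ne_zero hα))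
  · refine (Polynomial.natDegree_le_of_dvd (minpoly.dvd M1 α h0) hg0).trans ?_
    rw [← hg, Polynomial.natDegree_map]

/-- `M1`-linear functionals on the finite extension `M'` extend to `K`-linear functionals on `L`. -/
theorem R1_extend (M1 K L : Type) [Field M1] [CharZero M1] [Field K] [Field L]
    [Algebra M1 K] [Algebra K L] [Algebra M1 L] [IsScalarTower M1 K L]
    (hcl : ∀ c : K, IsAlgebraic M1 c → ∃ a : M1, algebraMap M1 K a = c)
    (M' : IntermediateField M1 L) [FiniteDimensional M1 M'] (ψ : M' →ₗ[M1] M1) :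
    ∃ Ψ : L →ₗ[K] K, ∀ x : M', Ψ (x : L) = algebraMap M1 K (ψ x) := by
  obtain ⟨α, hα⟩ := Field.exists_primitive_element M1 M'
  have hint : IsIntegral M1 (α : L) := (Algebra.IsIntegral.isIntegral (R := M1) α).map M'.val
  have hdeg : (minpoly K (α : L)).natDegree = (minpoly M1 α).natDegree := by
    rw [R1_natDegree_minpoly M1 K L hcl (α : L) hint]
    congr 1
    exact (minpoly.algHom_eq M'.val M'.val.injective α)
  have hli := linearIndependent_pow (K := K) (α : L)
  obtain ⟨Ψ, hΨ⟩ := LinearMap.exists_extend ((Module.Basis.span hli).constr K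
    (fun i => algebraMap M1 K (ψ (α ^ (i : ℕ)))))
  have hpow : ∀ i : Fin (minpoly M1 α).natDegree,
      Ψ ((α ^ (i : ℕ) : M') : L) = algebraMap M1 K (ψ (α ^ (i : ℕ))) := by
    intro i
    let j : Fin (minpoly K (α : L)).natDegree := ⟨i, by rw [hdeg]; exact i.2⟩
    have h1 := congrArg (fun f => f (Module.Basis.span hli j)) hΨ
    simp only [Module.Basis.constr_basis, LinearMap.comp_apply, Submodule.subtype_apply] at h1
    rw [Module.Basis.span_apply] at h1
    simpa [j] using h1
  refine ⟨Ψ, fun x => ?_⟩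
  have hx : x ∈ Submodule.span M1
      (Set.range fun i : Fin (minpoly M1 α).natDegree => α ^ (i : ℕ)) := by
    apply IsIntegral.mem_span_pow (Algebra.IsIntegral.isIntegral (R := M1) α)
    have h1 : x ∈ (IntermediateField.adjoin M1 {α}).toSubalgebra := by
      rw [hα]; trivial
    rw [IntermediateField.adjoin_simple_toSubalgebra_of_isAlgebraic
      (Algebra.IsIntegral.isIntegral (R := M1) α).isAlgebraic] at h1
    obtain ⟨f, hf⟩ := (Algebra.adjoin_singleton_eq_range_aeval M1 α ▸ h1 :
      x ∈ (Polynomial.aeval α).range)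
    exact ⟨f, hf.symm⟩
  induction hx using Submodule.span_induction with
  | mem y hy =>
    obtain ⟨i, rfl⟩ := hy
    exact hpow i
  | zero => simp
  | add y z _ _ hy hz =>
    rw [map_add, map_add, ← hy, ← hz, ← map_add]
    rfl
  | smul a y _ hy =>
    rw [map_smul, smul_eq_mul, map_mul, ← hy]
    have : ((a • y : M') : L) = (algebraMap M1 K a) • (y : L) := by
      rw [algebraMap_smul]
      rfl
    rw [this, map_smul, smul_eq_mul]

theorem R1_isUnit_iff {M : Type} [Field M] (O : ValuationSubring M) (x : O) :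
    IsUnit x ↔ (x : M)⁻¹ ∈ O ∧ (x : M) ≠ 0 := by
  constructor
  · rintro ⟨u, rfl⟩
    have h : ((u : O) : M) * ((u⁻¹ : Oˣ) : O) = 1 := by
      rw [← MulMemClass.coe_mul, Units.mul_inv]; rfl
    refine ⟨?_, left_ne_zero_of_mul_eq_one h⟩
    rw [← eq_inv_of_mul_eq_one_right h]
    exact Subtype.mem _
  · rintro ⟨h1, h2⟩
    exact IsUnit.of_mul_eq_one ⟨(x : M)⁻¹, h1⟩ (Subtype.ext (mul_inv_cancel₀ h2))

theorem R1_dvr {M : Type} [Field M] (O : ValuationSubring M) (π : M) (hπ : IsUnif O π) :
    IsDiscreteValuationRing O := by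
  obtain ⟨h1, h2, h3, h4⟩ := hπ
  apply IsDiscreteValuationRing.ofHasUnitMulPowIrreducibleFactorization
  have key : ∀ a : O, a ≠ 0 → ¬ IsUnit a → ∃ (n : ℕ) (u : O), (a : M) = u * π ^ (n + 1) := by
    intro a ha hau
    obtain ⟨n, u, hu, hu', he⟩ := h4 a a.2 (by simpa using ha)
    rcases n with _ | n
    · exfalso
      apply hau
      rw [R1_isUnit_iff]
      rw [pow_zero, mul_one] at he
      rw [he]
      refine ⟨hu', ?_⟩
      rw [← he]
      simpa using ha
    · exact ⟨n, ⟨u, hu⟩, he⟩
  refine ⟨⟨π, h1⟩, ⟨?_, ?_⟩, ?_⟩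
  · rw [R1_isUnit_iff]
    rintro ⟨h, -⟩
    exact h3 h
  · intro a b hab
    by_contra hcon
    rw [not_or] at hcon
    have hab' : (a : M) * b = π := by
      rw [← MulMemClass.coe_mul, ← hab]
    have ha0 : a ≠ 0 := by
      rintro rfl
      apply h2
      rw [← hab']; simp
    have hb0 : b ≠ 0 := by
      rintro rfl
      apply h2
      rw [← hab']; simp
    obtain ⟨n, u, hu⟩ := key a ha0 hcon.1
    obtain ⟨m, v, hv⟩ := key b hb0 hcon.2
    apply h3
    have h5 : π⁻¹ = ((u * v * ⟨π, h1⟩ ^ (n + m) : O) : M) := by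
      apply inv_eq_of_mul_eq_one_right
      apply mul_left_cancel₀ h2
      rw [mul_one]
      conv_rhs => rw [← hab', hu, hv]
      push_cast
      ring
    rw [h5]
    exact Subtype.mem _
  · intro x hx
    obtain ⟨n, u, hu, hu', he⟩ := h4 x x.2 (by simpa using hx)
    refine ⟨n, ?_⟩
    have hu0 : u ≠ 0 := by
      rintro rfl
      apply hx
      apply Subtype.ext
      rw [he]; simp
    obtain ⟨w, hw⟩ := (R1_isUnit_iff O ⟨u, hu⟩).2 ⟨hu', hu0⟩
    refine ⟨w, Subtype.ext ?_⟩
    rw [he, hw]
    push_cast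
    ring

theorem R1_functional {M1 M' : Type} [Field M1] [Field M'] [Algebra M1 M']
    (O1 : ValuationSubring M1) (π : M1) (hπ1 : IsUnif O1 π) (W' : ValuationSubring M')
    (hO : W'.comap (algebraMap M1 M') = O1) (t : Finset M') (ht : ∀ x ∈ t, x ∈ W') :
    ∃ ψ : M' →ₗ[M1] M1, (∀ x ∈ t, ψ x ∈ O1) ∧ (∀ x ∈ t, W'.valuation x < 1 →
      O1.valuation (ψ x) < 1) ∧ O1.valuation (ψ 1) = 1 := by
  classical
  have hO' : ∀ x : M1, x ∈ O1 ↔ algebraMap M1 M' x ∈ W' := by
    intro x
    rw [← hO]; rfl
  have := R1_dvr O1 π hπ1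
  have hmem : ∀ x : O1, algebraMap M1 M' x ∈ W' := fun x => (hO' x).1 x.2
  let alg1 : Algebra O1 W' := RingHom.toAlgebra
    ((algebraMap M1 M').comp O1.subtype |>.codRestrict W'.toSubring hmem)
  have halg : ∀ x : O1, ((algebraMap O1 W' x : W') : M') = algebraMap M1 M' x := fun x => rfl
  have : IsLocalHom (algebraMap O1 W') := by
    constructor
    intro x hx
    rw [R1_isUnit_iff] at hx ⊢
    rw [halg, ← map_inv₀] at hx
    refine ⟨(hO' _).2 hx.1, ?_⟩
    intro h0
    apply hx.2
    rw [h0, map_zero]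
  obtain ⟨lam, hlam⟩ := LinearMap.exists_leftInverse_of_injective
    (Algebra.linearMap (IsLocalRing.ResidueField O1) (IsLocalRing.ResidueField W'))
    (LinearMap.ker_eq_bot.2
      (algebraMap (IsLocalRing.ResidueField O1) (IsLocalRing.ResidueField W')).injective)
  -- the finite module
  let s : Finset W' := insert 1 (t.subtype (· ∈ W'))
  let N : Submodule O1 W' := Submodule.span O1 (s : Set W')
  have hNfin : Module.Finite O1 N := Module.Finite.span_of_finite _ s.finite_toSet
  have hsmul : ∀ (a : O1) (x : W'), ((a • x : W') : M') = algebraMap M1 M' a * x := by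
    intro a x
    rw [Algebra.smul_def]; rfl
  have htf : Module.IsTorsionFree O1 W' := by
    refine Module.IsTorsionFree.of_smul_eq_zero fun a x hax => ?_
    have h1 := congrArg (Subtype.val) hax
    rw [hsmul] at h1
    rcases mul_eq_zero.1 h1 with h | h
    · left
      exact Subtype.ext ((map_eq_zero _).1 h)
    · right
      exact Subtype.ext h
  have hNfree : Module.Free O1 N := inferInstance
  have hres : ∀ (a : O1) (x : W'), IsLocalRing.residue W' (a • x) =
      (algebraMap (IsLocalRing.ResidueField O1) (IsLocalRing.ResidueField W')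
        (IsLocalRing.residue O1 a)) * IsLocalRing.residue W' x := by
    intro a x
    rw [Algebra.smul_def, map_mul]
    rfl
  let g : N →ₗ[O1] IsLocalRing.ResidueField O1 :=
    { toFun := fun x => lam (IsLocalRing.residue W' x)
      map_add' := by intro x y; simp
      map_smul' := by
        intro a x
        have h1 : ((a • x : N) : W') = a • (x : W') := rfl
        rw [h1, hres, ← Algebra.smul_def, map_smul]
        simp [Algebra.smul_def] }
  obtain ⟨φ, hφ⟩ := Module.projective_lifting_property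
    (Algebra.linearMap O1 (IsLocalRing.ResidueField O1)) g (IsLocalRing.residue_surjective)
  have hφ' : ∀ x : N, IsLocalRing.residue O1 (φ x) = lam (IsLocalRing.residue W' x) := by
    intro x
    exact congrArg (fun f => f x) hφ
  let incl : W' →ₗ[O1] M' :=
    { toFun := fun x => (x : M')
      map_add' := fun _ _ => rfl
      map_smul' := by
        intro a x
        rw [hsmul, RingHom.id_apply]
        exact (Algebra.smul_def (a : M1) (x : M')).symm }
  let incl2 : N →ₗ[O1] M' := incl ∘ₗ N.subtype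
  have hincl2 : Function.Injective incl2 := by
    intro x y hxy
    exact Subtype.ext (Subtype.ext hxy)
  let e := Module.Free.chooseBasis O1 N
  have hli : LinearIndependent M1 (fun i => incl2 (e i)) := by
    rw [← LinearIndependent.iff_fractionRing O1 M1]
    exact e.linearIndependent.map' incl2 (LinearMap.ker_eq_bot.2 hincl2)
  obtain ⟨ψ, hψ⟩ := LinearMap.exists_extend ((Module.Basis.span hli).constr M1
    (fun i => ((φ (e i) : O1) : M1)))
  have hψ1 : ∀ i, ψ (incl2 (e i)) = ((φ (e i) : O1) : M1) := by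
    intro i
    have h1 := congrArg (fun f => f (Module.Basis.span hli i)) hψ
    simp only [Module.Basis.constr_basis, LinearMap.comp_apply, Submodule.subtype_apply] at h1
    rw [Module.Basis.span_apply] at h1
    exact h1
  have hψ2 : ∀ x : N, ψ (incl2 x) = ((φ x : O1) : M1) := by
    intro x
    have h1 : (ψ.restrictScalars O1) ∘ₗ incl2 = (Algebra.linearMap O1 M1) ∘ₗ φ := by
      apply e.ext
      intro i
      exact hψ1 i
    exact congrArg (fun f => f x) h1
  have hmemN : ∀ x (hx : x ∈ t), (⟨x, ht x hx⟩ : W') ∈ N := by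
    intro x hx
    apply Submodule.subset_span
    simp only [s, Finset.coe_insert, Set.mem_insert_iff, Finset.mem_coe, Finset.mem_subtype]
    right
    exact hx
  have h1N : (1 : W') ∈ N := by
    apply Submodule.subset_span
    simp [s]
  refine ⟨ψ, ?_, ?_, ?_⟩
  · intro x hx
    have h1 := hψ2 ⟨_, hmemN x hx⟩
    have h2 : incl2 ⟨_, hmemN x hx⟩ = x := rfl
    rw [h2] at h1
    rw [h1]
    exact Subtype.mem _
  · intro x hx hv
    have h1 := hψ2 ⟨_, hmemN x hx⟩
    have h2 : incl2 ⟨_, hmemN x hx⟩ = x := rfl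
    rw [h2] at h1
    rw [h1, ← ValuationSubring.valuation_lt_one_iff, ← IsLocalRing.residue_eq_zero_iff, hφ']
    have h3 : IsLocalRing.residue W' (⟨x, ht x hx⟩ : W') = 0 := by
      rw [IsLocalRing.residue_eq_zero_iff, ValuationSubring.valuation_lt_one_iff]
      exact hv
    rw [h3, map_zero]
  · have h1 := hψ2 ⟨_, h1N⟩
    have h2 : incl2 ⟨_, h1N⟩ = 1 := rfl
    rw [h2] at h1
    rw [h1, ← ValuationSubring.valuation_eq_one_iff, ← IsLocalRing.residue_ne_zero_iff_isUnit,
      hφ']
    have h3 := congrArg (fun f => f 1) hlam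
    simp only [LinearMap.comp_apply, Algebra.linearMap_apply, map_one, LinearMap.id_apply] at h3
    simp only [map_one]
    rw [h3]
    exact one_ne_zero


theorem R1_lt_one_iff {M : Type} [Field M] (O : ValuationSubring M) (x : M) :
    O.valuation x < 1 ↔ x = 0 ∨ x⁻¹ ∉ O := by
  rw [← ValuationSubring.mem_nonunits_iff, ValuationSubring.mem_nonunits_iff_or]

/-- A common extension of a discrete valuation of `K` and a valuation of a finite extension `M'` of
`M1`, where `M1` is algebraically closed in `K`. -/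
theorem exists_common_valuation (M1 K L : Type) [Field M1] [CharZero M1] [Field K] [Field L]
    [Algebra M1 K] [Algebra K L] [Algebra M1 L] [IsScalarTower M1 K L] [FiniteDimensional K L]
    (hcl : ∀ c : K, IsAlgebraic M1 c → ∃ a : M1, algebraMap M1 K a = c)
    (M' : IntermediateField M1 L) [FiniteDimensional M1 M']
    (O : ValuationSubring K) (π : M1) (hπ : IsUnif O (algebraMap M1 K π))
    (hπ1 : IsUnif (O.comap (algebraMap M1 K)) π) (W' : ValuationSubring M')
    (hO : W'.comap (algebraMap M1 M') = O.comap (algebraMap M1 K)) :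
    ∃ W : ValuationSubring L, W.comap (algebraMap K L) = O ∧
      W.comap (algebraMap M' L) = W' := by
  classical
  let R : Subring L := Subring.closure ((algebraMap K L '' (O : Set K)) ∪
    ((fun x : M' => (x : L)) '' (W' : Set M')))
  have hRO : ∀ x ∈ O, algebraMap K L x ∈ R := fun x hx =>
    Subring.subset_closure (Or.inl ⟨x, hx, rfl⟩)
  have hRW : ∀ x ∈ W', (x : L) ∈ R := fun x hx => Subring.subset_closure (Or.inr ⟨x, hx, rfl⟩)
  let S : Set R := {z | (∃ a : K, O.valuation a < 1 ∧ (z : L) = algebraMap K L a) ∨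
    (∃ x : M', W'.valuation x < 1 ∧ (z : L) = x)}
  let J : L → Prop := fun z => ∃ t : Finset M', (∀ x ∈ t, x ∈ W') ∧ ∀ Φ : L →ₗ[K] K,
    (∀ x ∈ t, Φ (x : L) ∈ O) → (∀ x ∈ t, W'.valuation x < 1 → O.valuation (Φ (x : L)) < 1) →
      O.valuation (Φ z) < 1
  have hJ0 : J 0 := by
    refine ⟨∅, by simp, fun Φ _ _ => ?_⟩
    rw [map_zero, map_zero]
    exact zero_lt_one
  have hJadd : ∀ z w, J z → J w → J (z + w) := by
    rintro z w ⟨t, ht, hz⟩ ⟨u, hu, hw⟩
    refine ⟨t ∪ u, ?_, fun Φ h1 h2 => ?_⟩
    · intro x hx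
      rcases Finset.mem_union.1 hx with h | h
      · exact ht x h
      · exact hu x h
    · rw [map_add]
      refine lt_of_le_of_lt (Valuation.map_add _ _ _) (max_lt ?_ ?_)
      · exact hz Φ (fun x hx => h1 x (Finset.mem_union_left _ hx))
          (fun x hx => h2 x (Finset.mem_union_left _ hx))
      · exact hw Φ (fun x hx => h1 x (Finset.mem_union_right _ hx))
          (fun x hx => h2 x (Finset.mem_union_right _ hx))
  have hJneg : ∀ z, J z → J (-z) := by
    rintro z ⟨t, ht, hz⟩
    refine ⟨t, ht, fun Φ h1 h2 => ?_⟩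
    rw [map_neg, Valuation.map_neg]
    exact hz Φ h1 h2
  have hJK : ∀ y ∈ O, ∀ z, J z → J (algebraMap K L y * z) := by
    rintro y hy z ⟨t, ht, hz⟩
    refine ⟨t, ht, fun Φ h1 h2 => ?_⟩
    rw [← Algebra.smul_def, map_smul, smul_eq_mul, map_mul]
    exact lt_of_le_of_lt (mul_le_of_le_one_left' ((O.valuation_le_one_iff y).2 hy)) (hz Φ h1 h2)
  have hJW : ∀ w ∈ W', ∀ z, J z → J ((w : L) * z) := by
    rintro w hw z ⟨t, ht, hz⟩
    refine ⟨t.image (fun x => w * x), ?_, fun Φ h1 h2 => ?_⟩
    · intro x hx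
      obtain ⟨y, hy, rfl⟩ := Finset.mem_image.1 hx
      exact W'.mul_mem _ _ hw (ht y hy)
    · have := hz (Φ ∘ₗ (LinearMap.mulLeft K (w : L))) ?_ ?_
      · simpa using this
      · intro x hx
        have := h1 _ (Finset.mem_image_of_mem (fun x => w * x) hx)
        simpa using this
      · intro x hx hv
        have := h2 _ (Finset.mem_image_of_mem (fun x => w * x) hx) (by
          rw [map_mul]
          exact lt_of_le_of_lt (mul_le_of_le_one_left' ((W'.valuation_le_one_iff w).2 hw)) hv)
        simpa using this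
  have hJR : ∀ r ∈ R, ∀ z, J z → J (r * z) := by
    intro r hr
    induction hr using Subring.closure_induction with
    | mem x hx =>
      rcases hx with ⟨y, hy, rfl⟩ | ⟨y, hy, rfl⟩
      · exact hJK y hy
      · exact hJW y hy
    | zero => intro z _; rw [zero_mul]; exact hJ0
    | one => intro z hz; rw [one_mul]; exact hz
    | add x y _ _ hx hy => intro z hz; rw [add_mul]; exact hJadd _ _ (hx z hz) (hy z hz)
    | neg x _ hx => intro z hz; rw [neg_mul]; exact hJneg _ (hx z hz)
    | mul x y _ _ hx hy => intro z hz; rw [mul_assoc]; exact hx _ (hy z hz)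
  have hJS : ∀ z : R, z ∈ Ideal.span S → J (z : L) := by
    intro z hz
    induction hz using Submodule.span_induction with
    | mem x hx =>
      rcases hx with ⟨a, ha, he⟩ | ⟨y, hy, he⟩
      · rw [he]
        refine ⟨{1}, ?_, fun Φ h1 h2 => ?_⟩
        · intro x hx
          rw [Finset.mem_singleton.1 hx]
          exact W'.one_mem
        · have h3 := h1 1 (Finset.mem_singleton_self _)
          rw [Algebra.algebraMap_eq_smul_one, map_smul, smul_eq_mul, map_mul]
          exact lt_of_le_of_lt (mul_le_of_le_one_right' ((O.valuation_le_one_iff _).2 h3)) ha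
      · rw [he]
        refine ⟨{y}, ?_, fun Φ h1 h2 => ?_⟩
        · intro x hx
          rw [Finset.mem_singleton.1 hx]
          exact (W'.valuation_le_one_iff _).1 hy.le
        · exact h2 y (Finset.mem_singleton_self _) hy
    | zero => exact hJ0
    | add x y _ _ hx hy => exact hJadd _ _ hx hy
    | smul a x _ hx => exact hJR _ a.2 _ hx
  have hne : Ideal.span S ≠ ⊤ := by
    intro htop
    obtain ⟨t, ht, hz⟩ := hJS 1 (by rw [htop]; trivial)
    obtain ⟨ψ, h1, h2, h3⟩ := R1_functional (O.comap (algebraMap M1 K)) π hπ1 W' hO t ht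
    obtain ⟨Ψ, hΨ⟩ := R1_extend M1 K L hcl M' ψ
    have h4 := hz Ψ (fun x hx => by rw [hΨ]; exact h1 x hx) (fun x hx hv => by
      have h5 := h2 x hx hv
      rw [hΨ, R1_lt_one_iff]
      rw [R1_lt_one_iff] at h5
      rcases h5 with h5 | h5
      · left; rw [h5, map_zero]
      · right
        rw [← map_inv₀]
        exact h5)
    have h6 : ((1 : R) : L) = ((1 : M') : L) := rfl
    rw [h6, hΨ, R1_lt_one_iff] at h4
    have h7 : ¬ (O.comap (algebraMap M1 K)).valuation (ψ 1) < 1 := by
      rw [h3]; exact lt_irrefl _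
    apply h7
    rw [R1_lt_one_iff]
    rcases h4 with h4 | h4
    · left; exact (map_eq_zero _).1 h4
    · right
      rw [← map_inv₀] at h4
      exact h4
  obtain ⟨W, hW1, hW2⟩ := Ideal.image_subset_nonunits_valuationSubring _ hne
  refine ⟨W, ?_, ?_⟩
  · ext x
    rw [ValuationSubring.mem_comap]
    constructor
    · intro hx
      by_contra hxO
      have hx0 : x ≠ 0 := by rintro rfl; exact hxO O.zero_mem
      have h1 : O.valuation x⁻¹ < 1 := by
        rw [R1_lt_one_iff, inv_inv]; exact Or.inr hxO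
      have h2 : x⁻¹ ∈ O := (O.valuation_le_one_iff _).1 h1.le
      have h3 : algebraMap K L x⁻¹ ∈ W.nonunits :=
        hW2 ⟨⟨_, hRO _ h2⟩, Ideal.subset_span (Or.inl ⟨_, h1, rfl⟩), rfl⟩
      rw [ValuationSubring.mem_nonunits_iff_or, ← map_inv₀, inv_inv] at h3
      rcases h3 with h3 | h3
      · exact hx0 (inv_eq_zero.1 ((map_eq_zero _).1 h3))
      · exact h3 hx
    · intro hx
      exact hW1 (hRO x hx)
  · ext x
    rw [ValuationSubring.mem_comap]
    constructor
    · intro hx
      by_contra hxO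
      have hx0 : x ≠ 0 := by rintro rfl; exact hxO W'.zero_mem
      have h1 : W'.valuation x⁻¹ < 1 := by
        rw [R1_lt_one_iff, inv_inv]; exact Or.inr hxO
      have h2 : x⁻¹ ∈ W' := (W'.valuation_le_one_iff _).1 h1.le
      have h3 : ((x⁻¹ : M') : L) ∈ W.nonunits :=
        hW2 ⟨⟨_, hRW _ h2⟩, Ideal.subset_span (Or.inr ⟨_, h1, rfl⟩), rfl⟩
      rw [ValuationSubring.mem_nonunits_iff_or] at h3
      rcases h3 with h3 | h3
      · exact hx0 (inv_eq_zero.1 ((map_eq_zero (algebraMap M' L)).1 h3))
      · apply h3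
        have h4 : ((x⁻¹ : M') : L)⁻¹ = algebraMap M' L x := by
          change (algebraMap M' L x⁻¹)⁻¹ = _
          rw [map_inv₀, inv_inv]
        rw [h4]
        exact hx
    · intro hx
      exact hW1 (hRW x hx)

end Pool.Agent.LibHP
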