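import Pool.Agent.LibHP2.Defs

set_option autoImplicit false

namespace Pool.Agent.LibHP

open Polynomial

theorem R2_prim (M2 L : Type) [Field M2] [CharZero M2] [Field L] [Algebra M2 L] (a b : L)
    (ha : IsAlgebraic M2 a) (hb : IsAlgebraic M2 b) :
    ∃ θ : L, IsAlgebraic M2 θ ∧ a ∈ Algebra.adjoin M2 {θ} ∧ b ∈ Algebra.adjoin M2 {θ} := by
  classical
  have hfd : FiniteDimensional M2 (IntermediateField.adjoin M2 ({a, b} : Set L)) := by
    apply IntermediateField.finiteDimensional_adjoin
    intro x hx
    rcases hx with rfl | rfl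
    · exact ha.isIntegral
    · exact hb.isIntegral
  obtain ⟨α, hα⟩ := Field.exists_primitive_element M2
    (IntermediateField.adjoin M2 ({a, b} : Set L))
  have halg : IsAlgebraic M2 α := Algebra.IsAlgebraic.isAlgebraic α
  refine ⟨(α : L), ?_, ?_, ?_⟩
  · exact halg.algebraMap
  all_goals
    have key : ∀ x : IntermediateField.adjoin M2 ({a, b} : Set L),
        (x : L) ∈ Algebra.adjoin M2 {(α : L)} := by
      intro x
      have hx : x ∈ (IntermediateField.adjoin M2 ({α} : Set
          (IntermediateField.adjoin M2 ({a, b} : Set L)))).toSubalgebra := by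
        rw [hα]; trivial
      rw [IntermediateField.adjoin_simple_toSubalgebra_of_isAlgebraic halg] at hx
      rw [Algebra.adjoin_singleton_eq_range_aeval] at hx ⊢
      obtain ⟨p, hp⟩ := hx
      refine ⟨p, ?_⟩
      have h3 : aeval α p = x := hp
      rw [← h3]
      have h2 := Polynomial.aeval_algebraMap_apply L α p
      exact h2
  · exact key ⟨a, IntermediateField.subset_adjoin _ _ (by simp)⟩
  · exact key ⟨b, IntermediateField.subset_adjoin _ _ (by simp)⟩

theorem R2_exists_prim (M2 K L : Type) [Field M2] [CharZero M2] [Field K] [Field L]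
    [Algebra M2 K] [Algebra K L] [Algebra M2 L] [IsScalarTower M2 K L]
    (hgen : Subfield.closure (Set.range (algebraMap K L) ∪ {z : L | IsAlgebraic M2 z}) = ⊤)
    (z : L) : ∃ θ : L, IsAlgebraic M2 θ ∧ ∃ P : K[X], z = aeval θ P := by
  have halg : ∀ x ∈ {z : L | IsAlgebraic M2 z}, IsAlgebraic K x := by
    intro x hx
    exact IsAlgebraic.tower_top (L := K) hx
  have hz : z ∈ Algebra.adjoin K {z : L | IsAlgebraic M2 z} := by
    rw [← IntermediateField.adjoin_toSubalgebra_of_isAlgebraic halg]
    have h1 : Subfield.closure (Set.range (algebraMap K L) ∪ {z : L | IsAlgebraic M2 z}) ≤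
        (IntermediateField.adjoin K {z : L | IsAlgebraic M2 z}).toSubfield := by
      rw [Subfield.closure_le]
      rintro x (⟨y, rfl⟩ | hx)
      · exact (IntermediateField.adjoin K {z : L | IsAlgebraic M2 z}).algebraMap_mem y
      · exact IntermediateField.subset_adjoin K _ hx
    have h2 : z ∈ Subfield.closure (Set.range (algebraMap K L) ∪ {z : L | IsAlgebraic M2 z}) := by
      rw [hgen]; trivial
    exact h1 h2
  have comb : ∀ θ a : L, a ∈ Algebra.adjoin M2 {θ} → ∀ x : L, x ∈ Algebra.adjoin K {a} →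
      x ∈ Algebra.adjoin K {θ} := by
    intro θ a ha x hx
    have h1 : a ∈ Algebra.adjoin K {θ} := by
      rw [Algebra.adjoin_singleton_eq_range_aeval] at ha ⊢
      obtain ⟨p, hp⟩ := ha
      refine ⟨p.map (algebraMap M2 K), ?_⟩
      rw [← hp]
      simp
    have h2 : Algebra.adjoin K {a} ≤ Algebra.adjoin K {θ} := by
      apply Algebra.adjoin_le
      simpa using h1
    exact h2 hx
  have main : ∃ θ : L, IsAlgebraic M2 θ ∧ z ∈ Algebra.adjoin K {θ} := by
    refine Algebra.adjoin_induction (p := fun z _ => ∃ θ : L, IsAlgebraic M2 θ ∧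
      z ∈ Algebra.adjoin K {θ}) ?_ ?_ ?_ ?_ hz
    · intro x hx
      exact ⟨x, hx, Algebra.subset_adjoin (by simp)⟩
    · intro r
      exact ⟨0, isAlgebraic_zero, Subalgebra.algebraMap_mem _ r⟩
    · rintro x y _ _ ⟨a, ha, hxa⟩ ⟨b, hb, hyb⟩
      obtain ⟨θ, hθ, h1, h2⟩ := R2_prim M2 L a b ha hb
      exact ⟨θ, hθ, Subalgebra.add_mem _ (comb θ a h1 x hxa) (comb θ b h2 y hyb)⟩
    · rintro x y _ _ ⟨a, ha, hxa⟩ ⟨b, hb, hyb⟩
      obtain ⟨θ, hθ, h1, h2⟩ := R2_prim M2 L a b ha hb
      exact ⟨θ, hθ, Subalgebra.mul_mem _ (comb θ a h1 x hxa) (comb θ b h2 y hyb)⟩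
  obtain ⟨θ, hθ, hm⟩ := main
  rw [Algebra.adjoin_singleton_eq_range_aeval] at hm
  obtain ⟨P, hP⟩ := hm
  exact ⟨θ, hθ, P, hP.symm⟩

/-- coefficientwise divisibility by the uniformizer -/
theorem R2_dvd {K : Type} [Field K] (O : ValuationSubring K) (π : K) (hπ : IsUnif O π)
    (P : O[X]) (hP : P.map (IsLocalRing.residue O) = 0) :
    ∃ R : O[X], P = C (⟨π, hπ.1⟩ : O) * R := by
  have : C (⟨π, hπ.1⟩ : O) ∣ P := by
    rw [Polynomial.C_dvd_iff_dvd_coeff]
    intro i
    have h1 : IsLocalRing.residue O (P.coeff i) = 0 := by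
      rw [← Polynomial.coeff_map, hP, Polynomial.coeff_zero]
    rw [IsLocalRing.residue_eq_zero_iff] at h1
    by_cases h0 : P.coeff i = 0
    · rw [h0]; exact dvd_zero _
    obtain ⟨n, u, hu, hui, hau⟩ := hπ.2.2.2 (P.coeff i : K) (P.coeff i).2
      (by simpa using h0)
    rcases n with _ | n
    · exfalso
      rw [pow_zero, mul_one] at hau
      apply h1
      have hune : u ≠ 0 := by
        rintro rfl
        exact h0 (by exact_mod_cast Subtype.ext hau)
      refine isUnit_iff_exists_inv.mpr ⟨⟨u⁻¹, hui⟩, ?_⟩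
      apply Subtype.ext
      simp [hau, hune]
    · refine ⟨⟨u, hu⟩ * ⟨π, hπ.1⟩ ^ n, ?_⟩
      apply Subtype.ext
      simp [hau, pow_succ]
      ring
  exact this

/-- If `L` is generated over `K` by elements algebraic over a subfield `M2` contained in the
discrete valuation ring `O`, then `L` is unramified over `O`. -/
theorem unram_of_subfield (M2 K L : Type) [Field M2] [CharZero M2] [Field K] [Field L]
    [Algebra M2 K] [Algebra K L] [Algebra M2 L] [IsScalarTower M2 K L] [FiniteDimensional K L]
    (hgen : Subfield.closure (Set.range (algebraMap K L) ∪ {z : L | IsAlgebraic M2 z}) = ⊤)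
    (O : ValuationSubring K) (π : K) (hπ : IsUnif O π) (hM : ∀ a : M2, algebraMap M2 K a ∈ O)
    (W : ValuationSubring L) (hW : W.comap (algebraMap K L) = O) :
    Unram W (algebraMap K L π) := by
  classical
  intro z hz
  obtain ⟨θ, hθ, P, hzP⟩ := R2_exists_prim M2 K L hgen z
  have hOW : ∀ a : K, a ∈ O → algebraMap K L a ∈ W := by
    intro a ha
    rw [← hW] at ha
    exact ha
  have hWO : ∀ a : K, algebraMap K L a ∈ W → a ∈ O := by
    intro a ha
    rw [← hW]
    exact ha
  -- the maps
  let ι : M2 →+* O := (algebraMap M2 K).codRestrict O hM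
  have hι : ∀ a : M2, ((ι a : O) : K) = algebraMap M2 K a := fun a => rfl
  let j : O →+* L := (algebraMap K L).comp O.subtype
  have hj : ∀ a : O, j a = algebraMap K L (a : K) := fun a => rfl
  let ev : O[X] →+* L := Polynomial.eval₂RingHom j θ
  -- θ ∈ W
  have hθW : θ ∈ W := by
    have h1 : IsIntegral M2 θ := hθ.isIntegral
    obtain ⟨f, hf, hf0⟩ := h1
    let ρ : M2 →+* W := (algebraMap M2 L).codRestrict W (fun a => by
      rw [IsScalarTower.algebraMap_apply M2 K L]
      exact hOW _ (hM a))
    have h2 : IsIntegral W θ := by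
      refine ⟨f.map ρ, hf.map ρ, ?_⟩
      rw [Polynomial.eval₂_map]
      exact hf0
    obtain ⟨y, hy⟩ := IsIntegrallyClosed.isIntegral_iff.mp h2
    rw [← hy]
    exact y.2
  have hev1 : ∀ A : O[X], W.valuation (ev A) ≤ 1 := by
    intro A
    rw [ValuationSubring.valuation_le_one_iff]
    show Polynomial.eval₂ j θ A ∈ W
    rw [Polynomial.eval₂_eq_sum, Polynomial.sum]
    apply Subring.sum_mem W.toSubring
    intro i _
    exact W.mul_mem _ _ (hOW _ (A.coeff i).2) (pow_mem hθW i)
  -- the uniformizer
  have hπ0 : algebraMap K L π ≠ 0 := by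
    simpa using hπ.2.1
  have hvπ0 : W.valuation (algebraMap K L π) ≠ 0 := by
    simpa using hπ0
  have hvπ : W.valuation (algebraMap K L π) < 1 := by
    rw [lt_iff_le_and_ne]
    refine ⟨(W.valuation_le_one_iff _).mpr (hOW _ hπ.1), ?_⟩
    intro h1
    apply hπ.2.2.1
    apply hWO
    rw [map_inv₀]
    rw [← W.valuation_le_one_iff, map_inv₀, h1, inv_one]
  let ϖ : O := ⟨π, hπ.1⟩
  have hevϖ : ∀ R : O[X], ev (C ϖ * R) = algebraMap K L π * ev R := by
    intro R
    rw [map_mul]
    congr 1
    show Polynomial.eval₂ j θ (C ϖ) = _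
    rw [Polynomial.eval₂_C]
    rfl
  have hlift : ∀ q : (IsLocalRing.ResidueField O)[X], ∃ Q : O[X],
      Q.map (IsLocalRing.residue O) = q := by
    intro q
    exact Polynomial.map_surjective _ IsLocalRing.residue_surjective q
  have hcmp : ∀ A B : O[X], A.map (IsLocalRing.residue O) = B.map (IsLocalRing.residue O) →
      ∃ R : O[X], ev A = ev B + algebraMap K L π * ev R := by
    intro A B hAB
    obtain ⟨R, hR⟩ := R2_dvd O π hπ (A - B) (by rw [Polynomial.map_sub, hAB, sub_self])
    refine ⟨R, ?_⟩
    rw [← hevϖ, ← map_add]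
    congr 1
    rw [← hR]; ring
  -- the minimal polynomial
  let f := minpoly M2 θ
  let f0 : O[X] := f.map ι
  have hf0 : ev f0 = 0 := by
    show Polynomial.eval₂ j θ (f.map ι) = 0
    rw [Polynomial.eval₂_map]
    have : (j.comp ι) = algebraMap M2 L := by
      ext a
      rw [IsScalarTower.algebraMap_apply M2 K L]
      rfl
    rw [this]
    exact minpoly.aeval M2 θ
  have hfsep : (f0.map (IsLocalRing.residue O)).Separable := by
    show ((f.map ι).map _).Separable
    rw [Polynomial.map_map]
    have hsep : f.Separable := (minpoly.irreducible hθ.isIntegral).separable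
    exact hsep.map
  -- key claim
  have key : ∀ A : O[X], W.valuation (ev A) < 1 → ∃ E R : O[X], W.valuation (ev E) = 1 ∧
      ev E * ev A = algebraMap K L π * ev R := by
    intro A hA
    obtain ⟨e, he⟩ := EuclideanDomain.gcd_dvd_right (A.map (IsLocalRing.residue O))
      (f0.map (IsLocalRing.residue O))
    obtain ⟨t, ht⟩ := EuclideanDomain.gcd_dvd_left (A.map (IsLocalRing.residue O))
      (f0.map (IsLocalRing.residue O))
    have hbz := EuclideanDomain.gcd_eq_gcd_ab (A.map (IsLocalRing.residue O))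
      (f0.map (IsLocalRing.residue O))
    generalize EuclideanDomain.gcd (A.map (IsLocalRing.residue O))
      (f0.map (IsLocalRing.residue O)) = d at he ht hbz
    have hcop : IsCoprime d e := by
      apply Polynomial.Separable.isCoprime
      rw [← he]; exact hfsep
    obtain ⟨x', y', hxy⟩ := hcop
    obtain ⟨D, hD⟩ := hlift d
    obtain ⟨E, hE⟩ := hlift e
    obtain ⟨T, hT⟩ := hlift t
    obtain ⟨X', hX'⟩ := hlift x'
    obtain ⟨Y', hY'⟩ := hlift y'
    obtain ⟨GA, hGA⟩ := hlift (EuclideanDomain.gcdA (A.map (IsLocalRing.residue O))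
      (f0.map (IsLocalRing.residue O)))
    obtain ⟨GB, hGB⟩ := hlift (EuclideanDomain.gcdB (A.map (IsLocalRing.residue O))
      (f0.map (IsLocalRing.residue O)))
    obtain ⟨R1, hR1⟩ := hcmp (E * A) (T * f0) (by
      rw [Polynomial.map_mul, Polynomial.map_mul, hE, hT, he]
      nth_rewrite 1 [ht]
      ring)
    obtain ⟨R2, hR2⟩ := hcmp D (A * GA + f0 * GB) (by
      rw [Polynomial.map_add, Polynomial.map_mul, Polynomial.map_mul, hD, hGA, hGB]
      exact hbz)
    obtain ⟨R3, hR3⟩ := hcmp (X' * D + Y' * E) 1 (by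
      rw [Polynomial.map_add, Polynomial.map_mul, Polynomial.map_mul, hD, hE, hX', hY',
        Polynomial.map_one]
      exact hxy)
    rw [map_mul, map_mul, hf0, mul_zero, zero_add] at hR1
    rw [map_add, map_mul, map_mul, hf0, zero_mul, add_zero] at hR2
    rw [map_add, map_mul, map_mul, map_one] at hR3
    refine ⟨E, R1, ?_, hR1⟩
    by_contra hne
    have hElt : W.valuation (ev E) < 1 := lt_of_le_of_ne (hev1 E) hne
    have hmul : ∀ x y : L, W.valuation x ≤ 1 → W.valuation y < 1 → W.valuation (x * y) < 1 := by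
      intro x y hx hy
      rw [map_mul]
      exact lt_of_le_of_lt (mul_le_of_le_one_left' hx) hy
    have hDlt : W.valuation (ev D) < 1 := by
      rw [hR2]
      refine lt_of_le_of_lt (W.valuation.map_add _ _) (max_lt ?_ ?_)
      · rw [mul_comm]; exact hmul _ _ (hev1 _) hA
      · rw [mul_comm]; exact hmul _ _ (hev1 _) hvπ
    have h1 : (1 : L) = (ev X' * ev D + ev Y' * ev E) - ev R3 * algebraMap K L π := by
      rw [hR3]; ring
    have h2 : W.valuation (1 : L) < 1 := by
      rw [h1]
      refine lt_of_le_of_lt (W.valuation.map_sub _ _) (max_lt ?_ ?_)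
      · refine lt_of_le_of_lt (W.valuation.map_add _ _) (max_lt ?_ ?_)
        · exact hmul _ _ (hev1 _) hDlt
        · exact hmul _ _ (hev1 _) hElt
      · exact hmul _ _ (hev1 _) hvπ
    rw [map_one] at h2
    exact lt_irrefl _ h2
  have ind : ∀ (m : ℕ) (A : O[X]), W.valuation (ev A) < W.valuation (algebraMap K L π) ^ m →
      W.valuation (ev A) ≤ W.valuation (algebraMap K L π) ^ (m + 1) := by
    intro m
    induction m with
    | zero =>
      intro A hA
      rw [pow_zero] at hA
      obtain ⟨E, R, hE, hER⟩ := key A hA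
      have h1 : W.valuation (ev A) = W.valuation (algebraMap K L π) * W.valuation (ev R) := by
        rw [← map_mul, ← hER, map_mul, hE, one_mul]
      rw [h1, zero_add, pow_one]
      exact mul_le_of_le_one_right' (hev1 R)
    | succ m ih =>
      intro A hA
      have hA1 : W.valuation (ev A) < 1 :=
        lt_of_lt_of_le hA (pow_le_one' hvπ.le _)
      obtain ⟨E, R, hE, hER⟩ := key A hA1
      have h1 : W.valuation (ev A) = W.valuation (algebraMap K L π) * W.valuation (ev R) := by
        rw [← map_mul, ← hER, map_mul, hE, one_mul]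
      rw [h1, pow_succ'] at hA
      have h2 : W.valuation (ev R) < W.valuation (algebraMap K L π) ^ m := by
        exact lt_of_mul_lt_mul_left hA zero_le
      have h3 := ih R h2
      rw [h1, pow_succ' _ (m + 1)]
      gcongr
  -- clearing denominators
  have hden : ∀ Q : K[X], ∃ (m : ℕ) (A : O[X]), ev A = algebraMap K L π ^ m * aeval θ Q := by
    intro Q
    induction Q using Polynomial.induction_on' with
    | add p q hp hq =>
      obtain ⟨m, A, hA⟩ := hp
      obtain ⟨m', A', hA'⟩ := hq
      refine ⟨m + m', C ϖ ^ m' * A + C ϖ ^ m * A', ?_⟩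
      have hpow : ∀ (i : ℕ) (R : O[X]), ev (C ϖ ^ i * R) = algebraMap K L π ^ i * ev R := by
        intro i
        induction i with
        | zero => intro R; simp
        | succ i ih =>
          intro R
          rw [pow_succ, mul_assoc, ih, hevϖ]; ring
      rw [map_add, hpow, hpow, hA, hA', map_add, pow_add]
      ring
    | monomial n a =>
      have : ∃ (m : ℕ) (b : O), (b : K) = π ^ m * a := by
        by_cases ha : a ∈ O
        · exact ⟨0, ⟨a, ha⟩, by simp⟩
        · have ha' : a⁻¹ ∈ O := (O.mem_or_inv_mem a).resolve_left ha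
          have ha0 : a ≠ 0 := by
            rintro rfl
            exact ha O.zero_mem
          obtain ⟨m, u, hu, hui, hau⟩ := hπ.2.2.2 a⁻¹ ha' (inv_ne_zero ha0)
          refine ⟨m, ⟨u⁻¹, hui⟩, ?_⟩
          show u⁻¹ = π ^ m * a
          have hu0 : u ≠ 0 := by
            rintro rfl
            rw [zero_mul] at hau
            exact ha0 (by simpa using hau)
          field_simp
          have : a = (u * π ^ m)⁻¹ := by rw [← hau, inv_inv]
          rw [this]
          have := hπ.2.1
          field_simp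
      obtain ⟨m, b, hb⟩ := this
      refine ⟨m, Polynomial.monomial n b, ?_⟩
      show Polynomial.eval₂ j θ (Polynomial.monomial n b) = _
      rw [Polynomial.eval₂_monomial, Polynomial.aeval_monomial, hj, hb]
      simp [mul_assoc]
  obtain ⟨m, A, hA⟩ := hden P
  rw [← hzP] at hA
  have h1 : W.valuation (ev A) < W.valuation (algebraMap K L π) ^ m := by
    rw [hA, map_mul, map_pow]
    calc W.valuation (algebraMap K L π) ^ m * W.valuation z
        < W.valuation (algebraMap K L π) ^ m * 1 := by
          apply mul_lt_mul_of_pos_left hz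
          exact zero_lt_iff.mpr (pow_ne_zero _ hvπ0)
      _ = _ := mul_one _
  have h2 := ind m A h1
  rw [hA, map_mul, map_pow, pow_succ] at h2
  exact le_of_mul_le_mul_left h2 (zero_lt_iff.mpr (pow_ne_zero _ hvπ0))

end Pool.Agent.LibHP
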