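import Pool.Agent.LibHP2.Defs

set_option autoImplicit false

namespace Pool.Agent.LibHP

/-- The polynomial `F` with the variables of the group `i` set to zero. -/
noncomputable def setZero {k σ ι : Type} [Field k] [DecidableEq ι] (g : σ → ι) (i : ι) :
    MvPolynomial σ k →ₐ[k] MvPolynomial σ k :=
  MvPolynomial.aeval (fun v => if g v = i then 0 else MvPolynomial.X v)

/-- For `F` of degree at most two in the variables of the group `i`: twice the symmetric matrix of
`F` as a quadratic polynomial in these variables (the index `none` stands for the constant `1`). -/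
noncomputable def gramGroup {k σ ι : Type} [Field k] [DecidableEq ι] (g : σ → ι)
    (F : MvPolynomial σ k) (i : ι) :
    Matrix (Option {v : σ // g v = i}) (Option {v : σ // g v = i}) (MvPolynomial σ k)
  | some a, some b => setZero g i (MvPolynomial.pderiv a.1 (MvPolynomial.pderiv b.1 F))
  | some a, none => setZero g i (MvPolynomial.pderiv a.1 F)
  | none, some b => setZero g i (MvPolynomial.pderiv b.1 F)
  | none, none => 2 * setZero g i F

/-- `F` is of degree at most two in each group of variables, and nondegenerate as a quadratic
polynomial in each group of variables. -/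
def IsMultiquadratic {k σ ι : Type} [Field k] [Fintype σ] [DecidableEq σ] [DecidableEq ι]
    (g : σ → ι) (F : MvPolynomial σ k) : Prop :=
  (∀ i, ∀ s ∈ F.support, ∑ v with g v = i, s v ≤ 2) ∧ ∀ i, (gramGroup g F i).det ≠ 0

/-- `F` has no nonconstant factor free of the variables of the group `i`. -/
def NoFactorFreeOf {k σ ι : Type} [Field k] (g : σ → ι) (F : MvPolynomial σ k) (i : ι) : Prop :=
  ∀ p : MvPolynomial σ k, p ∣ F → (∀ v ∈ p.vars, g v ≠ i) → IsUnit p

/-- `K = k(x)(w)` with `x` algebraically independent and `w ^ 2 = F(x)`. -/
def IsDoublePt {k K σ : Type} [Field k] [Field K] [Algebra k K] (F : MvPolynomial σ k) (x : σ → K)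
    (w : K) : Prop :=
  AlgebraicIndependent k x ∧ w ^ 2 = MvPolynomial.aeval x F ∧
    ∀ z : K, ∃ P Q R : MvPolynomial σ k, MvPolynomial.aeval x R ≠ 0 ∧
      z * MvPolynomial.aeval x R = MvPolynomial.aeval x P + MvPolynomial.aeval x Q * w

end Pool.Agent.LibHP
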