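import Pool.Agent.LibHP2.W0

set_option autoImplicit false
set_option linter.unusedSectionVars false
set_option linter.unusedSimpArgs false

namespace Pool.Agent.LibHP

section W1

variable {k σ ι : Type} [Field k] [Fintype σ] [DecidableEq σ] [DecidableEq ι]

/-- the degree of a monomial in the group `i` -/
private def W1_D (g : σ → ι) (i : ι) (s : σ →₀ ℕ) : ℕ := ∑ v with g v = i, s v

private lemma W1_D_add (g : σ → ι) (i : ι) (s t : σ →₀ ℕ) :
    W1_D g i (s + t) = W1_D g i s + W1_D g i t := by
  simp [W1_D, Finset.sum_add_distrib]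

private lemma W1_D_single (g : σ → ι) (i : ι) (v : σ) (hv : g v = i) :
    W1_D g i (Finsupp.single v 1) = 1 := by
  unfold W1_D
  rw [Finset.sum_eq_single v]
  · simp
  · intro u _ hu
    exact Finsupp.single_eq_of_ne hu
  · intro h
    exact absurd (Finset.mem_filter.2 ⟨Finset.mem_univ v, hv⟩) h

private lemma W1_D_sub (g : σ → ι) (i : ι) (s : σ →₀ ℕ) (v : σ) (hv : g v = i) (h : s v ≠ 0) :
    W1_D g i (s - Finsupp.single v 1) + 1 = W1_D g i s := by
  have h1 : s - Finsupp.single v 1 + Finsupp.single v 1 = s := by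
    ext u
    by_cases hu : u = v
    · subst hu
      simp only [Finsupp.add_apply, Finsupp.tsub_apply, Finsupp.single_eq_same]
      omega
    · simp [Finsupp.single_eq_of_ne hu]
  conv_rhs => rw [← h1, W1_D_add, W1_D_single g i v hv]

private lemma W1_D_zero (g : σ → ι) (i : ι) (s : σ →₀ ℕ) (h : W1_D g i s = 0) (v : σ)
    (hv : g v = i) : s v = 0 := by
  unfold W1_D at h
  rw [Finset.sum_eq_zero_iff] at h
  exact h v (Finset.mem_filter.2 ⟨Finset.mem_univ v, hv⟩)

private lemma W1_setZero_monomial (g : σ → ι) (i : ι) (s : σ →₀ ℕ) (c : k) :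
    setZero g i (MvPolynomial.monomial s c) =
      if W1_D g i s = 0 then MvPolynomial.monomial s c else 0 := by
  unfold setZero
  rw [MvPolynomial.aeval_monomial, Finsupp.prod_fintype _ _ (fun v => by simp)]
  by_cases h : W1_D g i s = 0
  · rw [if_pos h, MvPolynomial.monomial_eq, Finsupp.prod_fintype _ _ (fun v => by simp),
      MvPolynomial.algebraMap_eq]
    congr 1
    refine Finset.prod_congr rfl fun v _ => ?_
    by_cases hv : g v = i
    · rw [if_pos hv, W1_D_zero g i s h v hv, pow_zero, pow_zero]
    · rw [if_neg hv]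
  · rw [if_neg h]
    have : ∃ v, g v = i ∧ s v ≠ 0 := by
      by_contra hcon
      push Not at hcon
      apply h
      unfold W1_D
      exact Finset.sum_eq_zero fun v hv => hcon v (Finset.mem_filter.1 hv).2
    obtain ⟨v, hv, hs⟩ := this
    rw [Finset.prod_eq_zero (Finset.mem_univ v) (by rw [if_pos hv, zero_pow hs]), mul_zero]

private lemma W1_setZero_setZero (g : σ → ι) (i : ι) (p : MvPolynomial σ k) :
    setZero g i (setZero g i p) = setZero g i p := by
  have h : (setZero g i).comp (setZero g i) = (setZero g i : MvPolynomial σ k →ₐ[k] _) := by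
    apply MvPolynomial.algHom_ext
    intro v
    simp only [AlgHom.comp_apply, setZero, MvPolynomial.aeval_X]
    by_cases hv : g v = i
    · simp [hv]
    · simp [hv]
  exact DFunLike.congr_fun h p

private lemma W1_setZero_gram (g : σ → ι) (F : MvPolynomial σ k) (i : ι)
    (a b : Option {v : σ // g v = i}) :
    setZero g i (gramGroup g F i a b) = gramGroup g F i a b := by
  rcases a with _ | a <;> rcases b with _ | b <;>
    simp [gramGroup, W1_setZero_setZero, map_ofNat]

/-- first order terms -/
private lemma W1_first (g : σ → ι) (i : ι) (s : σ →₀ ℕ) (c : k) (v : σ) (hv : g v = i) :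
    setZero g i (MvPolynomial.pderiv v (MvPolynomial.monomial s c)) * MvPolynomial.X v =
      if W1_D g i s = 1 then s v • MvPolynomial.monomial s c else 0 := by
  by_cases hs : s v = 0
  · have : MvPolynomial.pderiv v (MvPolynomial.monomial s c) = 0 := by
      rw [MvPolynomial.pderiv_monomial, hs]; simp
    rw [this, hs]; simp
  · have hD := W1_D_sub g i s v hv hs
    rw [MvPolynomial.pderiv_monomial, W1_setZero_monomial]
    by_cases h1 : W1_D g i s = 1
    · rw [if_pos h1, if_pos (by omega), mul_comm, ← MvPolynomial.pderiv_monomial,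
        MvPolynomial.X_mul_pderiv_monomial]
    · rw [if_neg h1, if_neg (by omega), zero_mul]

/-- second order terms -/
private lemma W1_second (g : σ → ι) (i : ι) (s : σ →₀ ℕ) (c : k) (v u : σ) (hv : g v = i)
    (hu : g u = i) :
    setZero g i (MvPolynomial.pderiv v (MvPolynomial.pderiv u (MvPolynomial.monomial s c))) *
        (MvPolynomial.X v * MvPolynomial.X u) =
      if W1_D g i s = 2 then
        (s u * (s - Finsupp.single u 1 : σ →₀ ℕ) v) • MvPolynomial.monomial s c else 0 := by
  by_cases hs : s u = 0
  · have : MvPolynomial.pderiv u (MvPolynomial.monomial s c) = 0 := by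
      rw [MvPolynomial.pderiv_monomial, hs]; simp
    rw [this, hs]; simp
  · have hD := W1_D_sub g i s u hu hs
    have h1 : MvPolynomial.pderiv u (MvPolynomial.monomial s c) * MvPolynomial.X u
        = s u • MvPolynomial.monomial s c := by
      rw [mul_comm, MvPolynomial.X_mul_pderiv_monomial]
    rw [← mul_assoc, MvPolynomial.pderiv_monomial, W1_first g i _ _ v hv,
      ← MvPolynomial.pderiv_monomial]
    by_cases h2 : W1_D g i s = 2
    · rw [if_pos h2, if_pos (by omega), smul_mul_assoc, h1, smul_smul, mul_comm]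
    · rw [if_neg h2, if_neg (by omega), zero_mul]

/-- the homogeneous coordinates -/
private noncomputable def W1_y (k : Type) [Field k] {σ ι : Type} (g : σ → ι) (i : ι) :
    Option {v : σ // g v = i} → MvPolynomial σ k := fun a => a.elim 1 fun v => MvPolynomial.X v.1

private lemma W1_sum_sub (g : σ → ι) (i : ι) (s : σ →₀ ℕ) :
    ∑ v : {v : σ // g v = i}, s v.1 = W1_D g i s := by
  unfold W1_D
  rw [Finset.sum_subtype (Finset.univ.filter fun v => g v = i) (p := fun v => g v = i)
    (fun v => by simp)]

private lemma W1_expand_monomial (g : σ → ι) (i : ι) (s : σ →₀ ℕ) (c : k)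
    (hs : W1_D g i s ≤ 2) :
    ∑ a, ∑ b, gramGroup g (MvPolynomial.monomial s c) i a b * (W1_y k g i a * W1_y k g i b) =
      2 * MvPolynomial.monomial s c := by
  set P : MvPolynomial σ k := MvPolynomial.monomial s c with hP
  rw [Fintype.sum_option]
  simp only [Fintype.sum_option]
  have e1 : ∀ v : {v : σ // g v = i},
      gramGroup g P i none (some v) * (W1_y k g i none * W1_y k g i (some v))
        = if W1_D g i s = 1 then s v.1 • P else 0 := by
    intro v
    rw [← W1_first g i s c v.1 v.2]
    simp [gramGroup, W1_y, hP]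
  have e2 : ∀ v : {v : σ // g v = i},
      gramGroup g P i (some v) none * (W1_y k g i (some v) * W1_y k g i none)
        = if W1_D g i s = 1 then s v.1 • P else 0 := by
    intro v
    rw [← W1_first g i s c v.1 v.2]
    simp [gramGroup, W1_y, hP]
  have e3 : ∀ v u : {v : σ // g v = i},
      gramGroup g P i (some v) (some u) * (W1_y k g i (some v) * W1_y k g i (some u))
        = if W1_D g i s = 2 then (s u.1 * (s - Finsupp.single u.1 1 : σ →₀ ℕ) v.1) • P else 0 := by
    intro v u
    rw [← W1_second g i s c v.1 u.1 v.2 u.2]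
    simp [gramGroup, W1_y, hP]
  have e0 : gramGroup g P i none none * (W1_y k g i none * W1_y k g i none)
      = if W1_D g i s = 0 then 2 * P else 0 := by
    have : gramGroup g P i none none = 2 * setZero g i P := rfl
    rw [this, hP, W1_setZero_monomial]
    by_cases h : W1_D g i s = 0
    · simp [h, W1_y]
    · simp [h, W1_y]
  simp only [e0, e1, e2, e3]
  have hcases : W1_D g i s = 0 ∨ W1_D g i s = 1 ∨ W1_D g i s = 2 := by omega
  rcases hcases with h | h | h
  · simp [h]
  · simp only [h, if_true, one_ne_zero, if_false, zero_add, Finset.sum_const_zero,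
      add_zero]
    have h12 : ¬ ((1 : ℕ) = 2) := by norm_num
    simp only [h12, if_false, Finset.sum_const_zero, add_zero]
    rw [← Finset.sum_smul, W1_sum_sub, h, one_smul]
    ring
  · have h20 : ¬ ((2 : ℕ) = 0) := by norm_num
    have h21 : ¬ ((2 : ℕ) = 1) := by norm_num
    simp only [h, h20, h21, if_false, if_true, zero_add, Finset.sum_const_zero]
    rw [Finset.sum_comm]
    have h3 : ∀ u : {v : σ // g v = i},
        ∑ v : {v : σ // g v = i}, (s u.1 * (s - Finsupp.single u.1 1 : σ →₀ ℕ) v.1) • P
          = s u.1 • P := by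
      intro u
      rw [← Finset.sum_smul, ← Finset.mul_sum, W1_sum_sub]
      by_cases hu : s u.1 = 0
      · rw [hu]; simp
      · have := W1_D_sub g i s u.1 u.2 hu
        have h4 : W1_D g i (s - Finsupp.single u.1 1) = 1 := by omega
        rw [h4, mul_one]
    simp only [h3]
    rw [← Finset.sum_smul, W1_sum_sub, h, two_mul, two_smul]

private lemma W1_gram_add (g : σ → ι) (i : ι) (F G : MvPolynomial σ k)
    (a b : Option {v : σ // g v = i}) :
    gramGroup g (F + G) i a b = gramGroup g F i a b + gramGroup g G i a b := by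
  rcases a with _ | a <;> rcases b with _ | b <;> simp [gramGroup, mul_add]

private lemma W1_gram_zero (g : σ → ι) (i : ι) (a b : Option {v : σ // g v = i}) :
    gramGroup g (0 : MvPolynomial σ k) i a b = 0 := by
  rcases a with _ | a <;> rcases b with _ | b <;> simp [gramGroup]

private lemma W1_gram_sum (g : σ → ι) (i : ι) {τ : Type*} (T : Finset τ)
    (f : τ → MvPolynomial σ k) (a b : Option {v : σ // g v = i}) :
    gramGroup g (∑ t ∈ T, f t) i a b = ∑ t ∈ T, gramGroup g (f t) i a b := by
  classical
  induction T using Finset.induction_on with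
  | empty => simp [W1_gram_zero]
  | insert t T ht ih => rw [Finset.sum_insert ht, Finset.sum_insert ht, W1_gram_add, ih]

private lemma W1_expand (g : σ → ι) (i : ι) (F : MvPolynomial σ k)
    (hdeg : ∀ s ∈ F.support, ∑ v with g v = i, s v ≤ 2) :
    ∑ a, ∑ b, gramGroup g F i a b * (W1_y k g i a * W1_y k g i b) = 2 * F := by
  have h1 : ∀ a b, gramGroup g F i a b * (W1_y k g i a * W1_y k g i b)
      = ∑ s ∈ F.support, gramGroup g (MvPolynomial.monomial s (F.coeff s)) i a b *
        (W1_y k g i a * W1_y k g i b) := by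
    intro a b
    rw [← Finset.sum_mul, ← W1_gram_sum]
    congr 2
    exact F.as_sum
  calc ∑ a, ∑ b, gramGroup g F i a b * (W1_y k g i a * W1_y k g i b)
      = ∑ a, ∑ b, ∑ s ∈ F.support, gramGroup g (MvPolynomial.monomial s (F.coeff s)) i a b *
        (W1_y k g i a * W1_y k g i b) :=
        Finset.sum_congr rfl fun a _ => Finset.sum_congr rfl fun b _ => h1 a b
    _ = ∑ a, ∑ s ∈ F.support, ∑ b, gramGroup g (MvPolynomial.monomial s (F.coeff s)) i a b *
        (W1_y k g i a * W1_y k g i b) :=
        Finset.sum_congr rfl fun a _ => Finset.sum_comm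
    _ = ∑ s ∈ F.support, ∑ a, ∑ b, gramGroup g (MvPolynomial.monomial s (F.coeff s)) i a b *
        (W1_y k g i a * W1_y k g i b) := Finset.sum_comm
    _ = ∑ s ∈ F.support, 2 * MvPolynomial.monomial s (F.coeff s) :=
        Finset.sum_congr rfl fun s hs => W1_expand_monomial g i s _ (hdeg s hs)
    _ = 2 * F := by
        rw [← Finset.mul_sum]
        congr 1
        exact F.as_sum.symm

/-- separation of the degree in the group `i` -/
private noncomputable def W1_tau (k : Type) [Field k] {σ ι : Type} [DecidableEq ι] (g : σ → ι)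
    (i : ι) : MvPolynomial σ k →ₐ[k] Polynomial (MvPolynomial σ k) :=
  MvPolynomial.aeval fun v =>
    Polynomial.C (MvPolynomial.X v) * Polynomial.X ^ (if g v = i then 1 else 0)

private lemma W1_tau_monomial (g : σ → ι) (i : ι) (s : σ →₀ ℕ) (c : k) :
    W1_tau k g i (MvPolynomial.monomial s c) =
      Polynomial.C (MvPolynomial.monomial s c) * Polynomial.X ^ W1_D g i s := by
  unfold W1_tau
  rw [MvPolynomial.aeval_monomial, Finsupp.prod_fintype _ _ (fun v => by simp)]
  have h1 : ∀ v, (Polynomial.C (MvPolynomial.X v : MvPolynomial σ k) *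
      Polynomial.X ^ (if g v = i then 1 else 0)) ^ s v
      = Polynomial.C (MvPolynomial.X v ^ s v) * Polynomial.X ^ (if g v = i then s v else 0) := by
    intro v
    by_cases hv : g v = i
    · simp [hv, mul_pow]
    · simp [hv]
  simp only [h1]
  rw [Finset.prod_mul_distrib, Finset.prod_pow_eq_pow_sum, ← map_prod, ← mul_assoc]
  have h2 : algebraMap k (Polynomial (MvPolynomial σ k)) c
      = Polynomial.C (MvPolynomial.C c) := rfl
  rw [h2, ← map_mul]
  congr 2
  · rw [MvPolynomial.monomial_eq, Finsupp.prod_fintype _ _ (fun v => by simp)]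
  · unfold W1_D
    rw [Finset.sum_filter]

private lemma W1_deg_root (g : σ → ι) (i : ι) (F h : MvPolynomial σ k) (hF : F = h ^ 2)
    (hdeg : ∀ s ∈ F.support, ∑ v with g v = i, s v ≤ 2) :
    ∀ s ∈ h.support, W1_D g i s ≤ 1 := by
  have h1 : (W1_tau k g i F).natDegree ≤ 2 := by
    have e : W1_tau k g i F = ∑ s ∈ F.support,
        Polynomial.C (MvPolynomial.monomial s (F.coeff s)) * Polynomial.X ^ W1_D g i s := by
      conv_lhs => rw [F.as_sum]
      rw [map_sum]
      exact Finset.sum_congr rfl fun s _ => W1_tau_monomial g i s _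
    rw [e]
    refine Polynomial.natDegree_sum_le_of_forall_le _ _ fun s hs => ?_
    exact (Polynomial.natDegree_C_mul_X_pow_le _ _).trans (hdeg s hs)
  have h2 : (W1_tau k g i h).natDegree ≤ 1 := by
    rw [hF, map_pow, Polynomial.natDegree_pow] at h1
    omega
  intro s hs
  by_contra hcon
  push Not at hcon
  have h3 : (W1_tau k g i h).coeff (W1_D g i s) = 0 :=
    Polynomial.coeff_eq_zero_of_natDegree_lt (by omega)
  have e : W1_tau k g i h = ∑ s ∈ h.support,
      Polynomial.C (MvPolynomial.monomial s (h.coeff s)) * Polynomial.X ^ W1_D g i s := by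
    conv_lhs => rw [h.as_sum]
    rw [map_sum]
    exact Finset.sum_congr rfl fun s _ => W1_tau_monomial g i s _
  rw [e, Polynomial.finsetSum_coeff] at h3
  have h4 := congrArg (MvPolynomial.coeff s) h3
  rw [MvPolynomial.coeff_sum, MvPolynomial.coeff_zero, Finset.sum_eq_single s] at h4
  · rw [Polynomial.coeff_C_mul, Polynomial.coeff_X_pow, if_pos rfl, mul_one,
      MvPolynomial.coeff_monomial, if_pos rfl] at h4
    exact (MvPolynomial.mem_support_iff.1 hs) h4
  · intro t _ hts
    rw [Polynomial.coeff_C_mul, Polynomial.coeff_X_pow]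
    by_cases hD : W1_D g i s = W1_D g i t
    · rw [if_pos hD, mul_one, MvPolynomial.coeff_monomial, if_neg hts]
    · rw [if_neg hD, mul_zero, MvPolynomial.coeff_zero]
  · intro hns
    exact absurd hs hns

private lemma W1_pderiv_pderiv (g : σ → ι) (i : ι) (h : MvPolynomial σ k)
    (hh : ∀ s ∈ h.support, W1_D g i s ≤ 1) (v u : σ) (hv : g v = i) (hu : g u = i) :
    MvPolynomial.pderiv v (MvPolynomial.pderiv u h) = 0 := by
  rw [h.as_sum, map_sum, map_sum]
  refine Finset.sum_eq_zero fun s hs => ?_
  rw [MvPolynomial.pderiv_monomial, MvPolynomial.pderiv_monomial]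
  by_cases hsu : s u = 0
  · simp [hsu]
  · have h1 := W1_D_sub g i s u hu hsu
    have h2 := hh s hs
    have h3 := W1_D_zero g i (s - Finsupp.single u 1) (by omega) v hv
    rw [h3]
    simp

end W1

private lemma W1_ev {R K : Type} [CommRing R] [Field K] (f : R →+* K) (w : K) (F' : R) :
    Polynomial.eval₂RingHom f w (Polynomial.X ^ 2 - Polynomial.C F') = w ^ 2 - f F' := by
  simp

private lemma W1_neg_sum {R A τ : Type} [Fintype τ] [CommRing R] [CommRing A] (φ : R →+* A)
    (G : τ → τ → R) (c : τ → A) :
    ∑ a, ∑ b, φ (-(G a b)) * (c a * c b) = -∑ a, ∑ b, φ (G a b) * (c a * c b) := by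
  simp

private lemma W1_comm {k σ : Type} [Field k] (u v : σ) (p : MvPolynomial σ k) :
    MvPolynomial.pderiv u (MvPolynomial.pderiv v p) =
      MvPolynomial.pderiv v (MvPolynomial.pderiv u p) := by
  classical
  by_cases huv : u = v
  · rw [huv]
  · ext m
    rw [MvPolynomial.coeff_pderiv, MvPolynomial.coeff_pderiv, MvPolynomial.coeff_pderiv,
      MvPolynomial.coeff_pderiv]
    have h1 : (m + Finsupp.single u 1 : σ →₀ ℕ) v = m v := by
      rw [Finsupp.add_apply, Finsupp.single_eq_of_ne (Ne.symm huv), add_zero]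
    have h2 : (m + Finsupp.single v 1 : σ →₀ ℕ) u = m u := by
      rw [Finsupp.add_apply, Finsupp.single_eq_of_ne huv, add_zero]
    rw [h1, h2, add_right_comm m (Finsupp.single u 1) (Finsupp.single v 1)]
    ring

open scoped IntermediateField.algebraAdjoinAdjoin in
private lemma W1_extend {k K τ : Type} [Field k] [Field K] [Algebra k K] (T : Set K) (z : τ → K)
    (h : AlgebraicIndependent (Algebra.adjoin k T) z) :
    AlgebraicIndependent (IntermediateField.adjoin k T) z :=
  h.extendScalars (IntermediateField.adjoin k T)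

/-- `F` is not a square. -/
theorem double_not_square (k σ ι : Type) [Field k] [CharZero k] [Fintype σ] [DecidableEq σ]
    [DecidableEq ι] (g : σ → ι) (F : MvPolynomial σ k) (i : ι) (hi : ∃ v, g v = i)
    (hdeg : ∀ s ∈ F.support, ∑ v with g v = i, s v ≤ 2) (hdet : (gramGroup g F i).det ≠ 0)
    (h : MvPolynomial σ k) : F ≠ h ^ 2 := by
  intro hF
  have hh := W1_deg_root g i F h hF hdeg
  obtain ⟨v0, hv0⟩ := hi
  apply hdet
  set c : Option {v : σ // g v = i} → MvPolynomial σ k := fun a =>
    a.elim (setZero g i h) fun v => setZero g i (MvPolynomial.pderiv v.1 h) with hc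
  have hgram : gramGroup g F i = Matrix.vecMulVec (fun a => 2 * c a) c := by
    ext1 a b
    rw [Matrix.vecMulVec_apply]
    rcases a with _ | a <;> rcases b with _ | b
    · simp only [gramGroup, hc, hF, map_pow, Option.elim]
      ring
    · simp only [gramGroup, hc, hF, Option.elim, sq, Derivation.leibniz, map_add, smul_eq_mul,
        map_mul]
      ring
    · simp only [gramGroup, hc, hF, Option.elim, sq, Derivation.leibniz, map_add, smul_eq_mul,
        map_mul]
      ring
    · simp only [gramGroup, hc, hF, Option.elim, sq, Derivation.leibniz, map_add, smul_eq_mul,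
        map_mul, W1_pderiv_pderiv g i h hh a.1 b.1 a.2 b.2, map_zero]
      ring
  rw [hgram]
  have : Nontrivial (Option {v : σ // g v = i}) :=
    ⟨⟨none, some ⟨v0, hv0⟩, by simp⟩⟩
  exact Matrix.det_vecMulVec _ _

/-- The quadric bundle structure of the double cover `w ^ 2 = F` over the space of the variables
outside of the group `i`. -/
theorem exists_quad_structure_double (k σ ι : Type) [Field k] [CharZero k] [Fintype σ]
    [DecidableEq σ] [DecidableEq ι] (g : σ → ι) (F : MvPolynomial σ k) (i : ι)
    (hi : ∃ v, g v = i) (hdeg : ∀ s ∈ F.support, ∑ v with g v = i, s v ≤ 2)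
    (hdet : (gramGroup g F i).det ≠ 0) (K : Type) [Field K] [Algebra k K] (x : σ → K) (w : K)
    (hx : IsDoublePt F x w) :
    ∃ (n : ℕ) (_ : 2 ≤ n)
      (B : Matrix (Fin (n + 1)) (Fin (n + 1)) (IntermediateField.adjoin k (x '' {v | g v ≠ i})))
      (y : Fin n → K), B.IsSymm ∧ B.det ≠ 0 ∧ IsGenericQuad B y := by
  classical
  obtain ⟨hind, hw, hfrac⟩ := hx
  set M := IntermediateField.adjoin k (x '' {v | g v ≠ i}) with hM
  -- `w` is not in `k(x)`
  have hwx : w ∉ IntermediateField.adjoin k (Set.range x) := by
    intro hmem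
    obtain ⟨r, s, hrs⟩ := (IntermediateField.mem_adjoin_range_iff k x w).1 hmem
    by_cases hs : MvPolynomial.aeval x s = 0
    · rw [hs, div_zero] at hrs
      rw [hrs] at hw
      have hF0 : F = 0 := hind (by
        rw [map_zero, ← hw]; ring)
      exact double_not_square k σ ι g F i hi hdeg hdet 0 (by rw [hF0]; ring)
    · have h1 : r ^ 2 = F * s ^ 2 := hind (by
        rw [map_pow, map_mul, map_pow, ← hw, hrs]
        field_simp)
      have h2 : s ^ 2 ∣ r ^ 2 := ⟨F, by rw [h1]; ring⟩
      obtain ⟨t, rfl⟩ :=
        (UniqueFactorizationMonoid.pow_dvd_pow_iff_dvd (two_ne_zero)).1 h2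
      have hs0 : s ≠ 0 := fun h => hs (by rw [h, map_zero])
      have h3 : F = t ^ 2 := by
        have h4 : F * s ^ 2 = t ^ 2 * s ^ 2 := by rw [← h1]; ring
        exact mul_right_cancel₀ (pow_ne_zero 2 hs0) h4
      exact double_not_square k σ ι g F i hi hdeg hdet t h3
  have hxmem : ∀ v, g v ≠ i → x v ∈ M := fun v hv =>
    IntermediateField.subset_adjoin k _ ⟨v, hv, rfl⟩
  set xM : σ → M := fun v => if h : g v = i then 0 else ⟨x v, hxmem v h⟩ with hxM
  set θ : MvPolynomial σ k →ₐ[k] M := MvPolynomial.aeval xM with hθ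
  set S := {v : σ // g v = i} with hS
  set N := Fintype.card S with hN
  have hN1 : 1 ≤ N := by
    obtain ⟨v, hv⟩ := hi
    exact Fintype.card_pos_iff.2 ⟨⟨v, hv⟩⟩
  let e : Fin N ≃ S := (Fintype.equivFin S).symm
  -- independence over `M`
  have hindM : AlgebraicIndependent M (fun j : Fin N => x (e j)) := by
    have h1 : AlgebraicIndependent (Algebra.adjoin k (x '' {v | g v ≠ i}))
        (fun v : ({v | g v = i} : Set σ) => x v) :=
      hind.adjoin_of_disjoint (by
        rw [Set.disjoint_left]
        intro v h1 h2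
        exact h1 h2)
    exact (W1_extend _ _ h1).comp (fun j => (⟨(e j).1, (e j).2⟩ : ({v | g v = i} : Set σ)))
      (fun a b hab => e.injective (Subtype.ext (congrArg Subtype.val hab)))
  -- the polynomial ring
  set ψ : σ → MvPolynomial (Fin (N + 1)) M := fun v =>
    if h : g v = i then MvPolynomial.X (e.symm ⟨v, h⟩).succ else MvPolynomial.C (xM v) with hψ
  set Ψ : MvPolynomial σ k →ₐ[k] MvPolynomial (Fin (N + 1)) M := MvPolynomial.aeval ψ with hΨ
  set y : Fin (N + 1) → K := Fin.cons w (fun j => x (e j)) with hy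
  have hxM1 : ∀ v, g v ≠ i → algebraMap M K (xM v) = x v := by
    intro v hv
    rw [hxM]
    simp only [hv, dite_false]
    rfl
  have hyΨ : ∀ p, MvPolynomial.aeval y (Ψ p) = MvPolynomial.aeval x p := by
    intro p
    have h : ((MvPolynomial.aeval y : MvPolynomial (Fin (N + 1)) M →ₐ[M] K).restrictScalars
        k).comp Ψ = MvPolynomial.aeval x := by
      apply MvPolynomial.algHom_ext
      intro v
      simp only [AlgHom.comp_apply, AlgHom.restrictScalars_apply, hΨ, MvPolynomial.aeval_X]
      by_cases hv : g v = i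
      · simp [hψ, hv, hy]
      · simp only [hψ, hv, dite_false, MvPolynomial.aeval_C]
        exact hxM1 v hv
    exact DFunLike.congr_fun h p
  have hΨz : ∀ p, Ψ (setZero g i p) = MvPolynomial.C (θ p) := by
    intro p
    have h : Ψ.comp (setZero g i) =
        ((IsScalarTower.toAlgHom k M (MvPolynomial (Fin (N + 1)) M)).comp θ) := by
      apply MvPolynomial.algHom_ext
      intro v
      simp only [AlgHom.comp_apply, setZero, hΨ, hθ, MvPolynomial.aeval_X]
      by_cases hv : g v = i
      · simp [hv, hxM]
      · simp only [hv, if_false, MvPolynomial.aeval_X, hψ, dite_false]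
        rfl
    exact DFunLike.congr_fun h p
  have hθK : ∀ p, algebraMap M K (θ p) = MvPolynomial.aeval x (setZero g i p) := by
    intro p
    rw [← hyΨ, hΨz, MvPolynomial.aeval_C]
  -- the matrix
  set gM : Matrix (Option S) (Option S) M := fun a b => θ (gramGroup g F i a b) with hgM
  have hgMdet : gM.det ≠ 0 := by
    have h1 : gM.det = θ (gramGroup g F i).det := by
      rw [AlgHom.map_det]; rfl
    intro h0
    apply hdet
    have h2 : setZero g i (gramGroup g F i).det = (gramGroup g F i).det := by
      rw [AlgHom.map_det]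
      congr 1
      ext1 a b
      exact W1_setZero_gram g F i a b
    apply hind
    rw [map_zero, ← h2, ← hθK, ← h1, h0, map_zero]
  set Gx : Matrix (Option S ⊕ Unit) (Option S ⊕ Unit) M :=
    Matrix.fromBlocks (-gM) 0 0 (Matrix.of fun _ _ => 2) with hGx
  have hGxdet : Gx.det ≠ 0 := by
    have hu : (Matrix.of fun (_ _ : Unit) => (2 : M)).det = 2 := by
      rw [Matrix.det_unique]; rfl
    rw [hGx, Matrix.det_fromBlocks_zero₂₁, Matrix.det_neg, hu]
    refine mul_ne_zero (mul_ne_zero (pow_ne_zero _ (neg_ne_zero.2 one_ne_zero)) hgMdet) ?_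
    exact two_ne_zero
  set f : Fin (N + 1 + 1) → Option S ⊕ Unit :=
    Fin.cons (Sum.inl none) (Fin.cons (Sum.inr ()) fun j => Sum.inl (some (e j))) with hf
  have hf0 : f 0 = Sum.inl none := rfl
  have hf1 : f (Fin.succ 0) = Sum.inr () := rfl
  have hf2 : ∀ j : Fin N, f (Fin.succ (Fin.succ j)) = Sum.inl (some (e j)) := fun j => rfl
  have hfb : Function.Bijective f := by
    constructor
    · intro a b
      refine Fin.cases ?_ (fun a => ?_) a
      · refine Fin.cases (fun _ => rfl) (fun b => ?_) b
        refine Fin.cases ?_ (fun b => ?_) b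
        · intro h; rw [hf0, hf1] at h; simp at h
        · intro h; rw [hf0, hf2] at h; simp at h
      · refine Fin.cases ?_ (fun a => ?_) a
        · refine Fin.cases ?_ (fun b => ?_) b
          · intro h; rw [hf0, hf1] at h; simp at h
          · refine Fin.cases (fun _ => rfl) (fun b => ?_) b
            intro h; rw [hf1, hf2] at h; simp at h
        · refine Fin.cases ?_ (fun b => ?_) b
          · intro h; rw [hf0, hf2] at h; simp at h
          · refine Fin.cases ?_ (fun b => ?_) b
            · intro h; rw [hf1, hf2] at h; simp at h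
            · intro h
              rw [hf2, hf2] at h
              have : a = b := by simpa using h
              rw [this]
    · rintro ((_ | v) | u)
      · exact ⟨0, rfl⟩
      · exact ⟨Fin.succ (Fin.succ (e.symm v)), by rw [hf2]; simp⟩
      · exact ⟨Fin.succ 0, rfl⟩
  set E : Fin (N + 1 + 1) ≃ Option S ⊕ Unit := Equiv.ofBijective f hfb with hE
  set B : Matrix (Fin (N + 1 + 1)) (Fin (N + 1 + 1)) M := Gx.submatrix E E with hB
  have hBdet : B.det ≠ 0 := by
    rw [hB, Matrix.det_submatrix_equiv_self]
    exact hGxdet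
  have hgs : ∀ a b, gramGroup g F i a b = gramGroup g F i b a := by
    intro a b
    rcases a with _ | a <;> rcases b with _ | b
    · rfl
    · rfl
    · rfl
    · simp only [gramGroup]
      rw [W1_comm]
  have hgMs : gM.IsSymm := by
    ext1 a b
    rw [Matrix.transpose_apply]
    show θ (gramGroup g F i b a) = θ (gramGroup g F i a b)
    rw [hgs]
  have hGxs : Gx.IsSymm := by
    rw [hGx, Matrix.IsSymm, Matrix.fromBlocks_transpose, Matrix.transpose_neg, hgMs.eq]
    rfl
  have hBs : B.IsSymm := by
    rw [hB, Matrix.IsSymm, Matrix.transpose_submatrix, hGxs.eq]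
  -- the equation
  set c' : Option S ⊕ Unit → MvPolynomial (Fin (N + 1)) M := fun a => match a with
    | Sum.inl none => 1
    | Sum.inl (some v) => MvPolynomial.X (e.symm v).succ
    | Sum.inr _ => MvPolynomial.X 0 with hc'
  have hcE : ∀ p : Fin (N + 1 + 1), (Fin.cons 1 (fun j => MvPolynomial.X j) :
      Fin (N + 1 + 1) → MvPolynomial (Fin (N + 1)) M) p = c' (E p) := by
    intro p
    refine Fin.cases ?_ (fun p => ?_) p
    · rfl
    · refine Fin.cases ?_ (fun j => ?_) p
      · rfl
      · show MvPolynomial.X (Fin.succ j) = MvPolynomial.X (e.symm (e j)).succ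
        rw [Equiv.symm_apply_apply]
  have hquad : quadEq B = 2 * (MvPolynomial.X 0 ^ 2 - Ψ F) := by
    have h1 : quadEq B = ∑ a, ∑ b, MvPolynomial.C (Gx a b) * (c' a * c' b) := by
      unfold quadEq
      rw [← Equiv.sum_comp E]
      refine Finset.sum_congr rfl fun p _ => ?_
      rw [← Equiv.sum_comp E]
      refine Finset.sum_congr rfl fun q _ => ?_
      rw [hcE, hcE]
      rfl
    have hyc : ∀ a, Ψ (W1_y k g i a) = c' (Sum.inl a) := by
      intro a
      rcases a with _ | v
      · simp [W1_y, hc']
      · simp only [W1_y, Option.elim, hΨ, MvPolynomial.aeval_X, hψ, v.2, dite_true, hc']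
    have h2 : ∑ a, ∑ b, MvPolynomial.C (gM a b) * (c' (Sum.inl a) * c' (Sum.inl b))
        = 2 * Ψ F := by
      have h3 := congrArg Ψ (W1_expand g i F hdeg)
      rw [map_sum, map_mul, map_ofNat] at h3
      rw [← h3]
      refine Finset.sum_congr rfl fun a _ => ?_
      rw [map_sum]
      refine Finset.sum_congr rfl fun b _ => ?_
      rw [map_mul, map_mul, hyc, hyc, ← W1_setZero_gram, hΨz]
    have h5 : (MvPolynomial.C (2 : M) : MvPolynomial (Fin (N + 1)) M) = 2 := by
      rw [map_ofNat]
    have hB1 : ∀ a : Option S, ∑ b, MvPolynomial.C (Gx (Sum.inl a) b) *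
        (c' (Sum.inl a) * c' b) =
        ∑ b, MvPolynomial.C (-gM a b) * (c' (Sum.inl a) * c' (Sum.inl b)) := by
      intro a
      rw [Fintype.sum_sum_type]
      have z : ∀ u : Unit, Gx (Sum.inl a) (Sum.inr u) = 0 := fun u => rfl
      have z' : ∀ b, Gx (Sum.inl a) (Sum.inl b) = -gM a b := fun b => rfl
      simp only [z, z', map_zero, zero_mul, Finset.sum_const_zero, add_zero]
    have hB2 : ∀ u : Unit, ∑ b, MvPolynomial.C (Gx (Sum.inr u) b) * (c' (Sum.inr u) * c' b) =
        2 * MvPolynomial.X 0 ^ 2 := by
      intro u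
      rw [Fintype.sum_sum_type]
      have z : ∀ b, Gx (Sum.inr u) (Sum.inl b) = 0 := fun b => rfl
      have z' : ∀ u', Gx (Sum.inr u) (Sum.inr u') = 2 := fun b => rfl
      have z'' : ∀ u', c' (Sum.inr u') = MvPolynomial.X 0 := fun b => rfl
      simp only [z, z', z'', map_zero, zero_mul, Finset.sum_const_zero, zero_add,
        Finset.univ_unique, Finset.sum_singleton, h5]
      ring
    rw [h1, Fintype.sum_sum_type, Finset.sum_congr rfl fun a _ => hB1 a,
      Finset.sum_congr rfl fun u _ => hB2 u]
    have hA : ∑ a, ∑ b, MvPolynomial.C (-gM a b) * (c' (Sum.inl a) * c' (Sum.inl b))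
        = -(2 * Ψ F) := by
      rw [← h2]
      exact W1_neg_sum MvPolynomial.C gM (fun a => c' (Sum.inl a))
    rw [hA, Finset.univ_unique, Finset.sum_singleton]
    ring
  -- division by the quadratic polynomial
  set ψ' : σ → MvPolynomial (Fin N) M := fun v =>
    if h : g v = i then MvPolynomial.X (e.symm ⟨v, h⟩) else MvPolynomial.C (xM v) with hψ'
  set F' : MvPolynomial (Fin N) M := MvPolynomial.aeval ψ' F with hF'
  have hfs : ∀ p, MvPolynomial.finSuccEquiv M N (Ψ p)
      = Polynomial.C (MvPolynomial.aeval ψ' p) := by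
    intro p
    have h : ((MvPolynomial.finSuccEquiv M N).toAlgHom.restrictScalars k).comp Ψ
        = ((Polynomial.CAlgHom (R := MvPolynomial (Fin N) M)
            (A := MvPolynomial (Fin N) M)).restrictScalars k).comp
          (MvPolynomial.aeval ψ') := by
      apply MvPolynomial.algHom_ext
      intro v
      by_cases hv : g v = i
      · simp [hΨ, hψ, hψ', hv, MvPolynomial.finSuccEquiv_X_succ]
      · simp [hΨ, hψ, hψ', hv, MvPolynomial.finSuccEquiv_apply]
    exact DFunLike.congr_fun h p
  set x' : Fin N → K := fun j => x (e j) with hx'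
  set ev : Polynomial (MvPolynomial (Fin N) M) →+* K :=
    Polynomial.eval₂RingHom (MvPolynomial.aeval x' : MvPolynomial (Fin N) M →ₐ[M] K).toRingHom w
    with hev
  have hevy : ∀ G, ev (MvPolynomial.finSuccEquiv M N G) = MvPolynomial.aeval y G := by
    intro G
    have h : ev.comp (MvPolynomial.finSuccEquiv M N).toRingHom
        = (MvPolynomial.aeval y : MvPolynomial (Fin (N + 1)) M →ₐ[M] K).toRingHom := by
      apply MvPolynomial.ringHom_ext
      · intro r
        simp [hev, MvPolynomial.finSuccEquiv_apply]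
      · intro j
        refine Fin.cases ?_ (fun j => ?_) j
        · simp [hev, hy, MvPolynomial.finSuccEquiv_X_zero]
        · simp [hev, hy, hx', MvPolynomial.finSuccEquiv_X_succ]
    exact DFunLike.congr_fun h G
  have hxF' : MvPolynomial.aeval x' F' = MvPolynomial.aeval x F := by
    rw [← hyΨ, ← hevy, hfs, hev, hF', Polynomial.coe_eval₂RingHom, Polynomial.eval₂_C]
    rfl
  set P : Polynomial (MvPolynomial (Fin N) M) := Polynomial.X ^ 2 - Polynomial.C F' with hP
  have hPm : P.Monic := Polynomial.monic_X_pow_sub_C F' two_ne_zero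
  have hPdeg : P.natDegree = 2 := Polynomial.natDegree_X_pow_sub_C
  have hevP : ev P = 0 := by
    refine (W1_ev _ w F').trans ?_
    have h2 : (MvPolynomial.aeval x' : MvPolynomial (Fin N) M →ₐ[M] K).toRingHom F'
        = MvPolynomial.aeval x' F' := rfl
    rw [h2, hxF', hw, sub_self]
  have hquad' : MvPolynomial.finSuccEquiv M N (quadEq B) = 2 * P := by
    rw [hquad, map_mul, map_sub, map_pow, MvPolynomial.finSuccEquiv_X_zero, hfs, map_ofNat]
  have h2unit : IsUnit (2 : Polynomial (MvPolynomial (Fin N) M)) := by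
    have h1 : IsUnit (2 : M) := isUnit_iff_ne_zero.2 two_ne_zero
    have h3 := h1.map (algebraMap M (Polynomial (MvPolynomial (Fin N) M)))
    rwa [map_ofNat] at h3
  have hxle : ∀ a : MvPolynomial (Fin N) M,
      MvPolynomial.aeval x' a ∈ IntermediateField.adjoin k (Set.range x) := by
    have hle : M ≤ IntermediateField.adjoin k (Set.range x) :=
      IntermediateField.adjoin.mono k _ _ (Set.image_subset_range _ _)
    intro a
    induction a using MvPolynomial.induction_on with
    | C m =>
      rw [MvPolynomial.aeval_C]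
      exact hle m.2
    | add p q hp hq =>
      rw [map_add]
      exact add_mem hp hq
    | mul_X p j hp =>
      rw [map_mul, MvPolynomial.aeval_X]
      exact mul_mem hp (IntermediateField.subset_adjoin k _ ⟨_, rfl⟩)
  refine ⟨N + 1, by omega, B, y, hBs, hBdet, ?_, ?_⟩
  · intro G
    constructor
    · intro hG
      rw [← hevy] at hG
      set G' := MvPolynomial.finSuccEquiv M N G with hG'
      have hdiv := Polynomial.modByMonic_add_div G' P
      have hR0 : ev (G' %ₘ P) = 0 := by
        have h1 := congrArg ev hdiv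
        rw [map_add, map_mul, hevP, zero_mul, add_zero, hG] at h1
        exact h1
      have hRdeg : (G' %ₘ P).natDegree ≤ 1 := by
        have h1 := Polynomial.natDegree_modByMonic_lt G' hPm (by
          intro h
          rw [h, Polynomial.natDegree_one] at hPdeg
          omega)
        omega
      obtain ⟨a, b, hab⟩ := Polynomial.exists_eq_X_add_C_of_natDegree_le_one hRdeg
      have h2 : MvPolynomial.aeval x' a * w + MvPolynomial.aeval x' b = 0 := by
        rw [hab] at hR0
        simpa [hev] using hR0
      have ha : a = 0 := by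
        by_contra hane
        have ha' : MvPolynomial.aeval x' a ≠ 0 := fun h => hane (hindM (by rw [h, map_zero]))
        apply hwx
        have h3 : w = -(MvPolynomial.aeval x' b) / MvPolynomial.aeval x' a := by
          rw [eq_div_iff ha']
          linear_combination h2
        rw [h3]
        exact div_mem (neg_mem (hxle b)) (hxle a)
      have hb : b = 0 := by
        rw [ha, map_zero, zero_mul, zero_add] at h2
        exact hindM (by rw [h2, map_zero])
      have hR : G' %ₘ P = 0 := by rw [hab, ha, hb]; simp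
      have hdvd : P ∣ G' := (Polynomial.modByMonic_eq_zero_iff_dvd hPm).1 hR
      have h4 : 2 * P ∣ G' := h2unit.mul_left_dvd.2 hdvd
      rw [← hquad', hG'] at h4
      exact (map_dvd_iff (MvPolynomial.finSuccEquiv M N)).1 h4
    · rintro ⟨Q, rfl⟩
      rw [← hevy, map_mul, hquad', map_mul, map_mul, hevP, mul_zero, zero_mul]
  · intro z
    obtain ⟨P1, Q1, R1, hR1, hz⟩ := hfrac z
    refine ⟨Ψ P1 + Ψ Q1 * MvPolynomial.X 0, Ψ R1, ?_, ?_⟩
    · rw [hyΨ]
      exact hR1
    · rw [hyΨ, map_add, map_mul, hyΨ, hyΨ, MvPolynomial.aeval_X, hz]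
      rfl

end Pool.Agent.LibHP
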