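import Pool.Agent.LibHP2.W0
import Pool.Agent.LibHP2.G9

set_option autoImplicit false

namespace Pool.Agent.LibHP

open MvPolynomial

section W2

/-- The polynomials in one variable over `k[x]` vanishing at `w`. -/
theorem W2_generic {k K σ : Type} [Field k] [Field K] [Algebra k K] (F : MvPolynomial σ k)
    (x : σ → K) (w : K) (hx : IsDoublePt F x w) (hsq : ∀ h : MvPolynomial σ k, F ≠ h ^ 2)
    (Q : Polynomial (MvPolynomial σ k)) :
    Polynomial.eval₂ (aeval x : MvPolynomial σ k →ₐ[k] K).toRingHom w Q = 0 ↔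
      (Polynomial.X ^ 2 - Polynomial.C F) ∣ Q := by
  set φ : MvPolynomial σ k →+* K := (aeval x : MvPolynomial σ k →ₐ[k] K).toRingHom with hφ
  have hφe : ∀ p, φ p = aeval x p := fun p => rfl
  have hinj : ∀ p q, φ p = φ q → p = q := fun p q h => hx.1 h
  have hD : (Polynomial.X ^ 2 - Polynomial.C F : Polynomial (MvPolynomial σ k)).Monic :=
    Polynomial.monic_X_pow_sub_C F two_ne_zero
  have hD0 : Polynomial.eval₂ φ w (Polynomial.X ^ 2 - Polynomial.C F) = 0 := by
    rw [Polynomial.eval₂_sub, Polynomial.eval₂_pow, Polynomial.eval₂_X, Polynomial.eval₂_C]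
    exact sub_eq_zero.2 hx.2.1
  constructor
  · intro hQ
    have h1 := Polynomial.modByMonic_add_div Q (Polynomial.X ^ 2 - Polynomial.C F)
    have hdeg := Polynomial.degree_modByMonic_lt Q hD
    set r := Q %ₘ (Polynomial.X ^ 2 - Polynomial.C F) with hr
    rw [Polynomial.degree_X_pow_sub_C (by norm_num : 0 < 2)] at hdeg
    have hr1 : r.degree ≤ 1 := by
      have : r.degree < ((1 + 1 : ℕ) : WithBot ℕ) := hdeg
      exact Order.le_of_lt_succ this
    have hr2 := Polynomial.eq_X_add_C_of_degree_le_one hr1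
    have hr0 : Polynomial.eval₂ φ w r = 0 := by
      rw [← h1, Polynomial.eval₂_add, Polynomial.eval₂_mul, hD0, zero_mul, add_zero] at hQ
      exact hQ
    rw [hr2, Polynomial.eval₂_add, Polynomial.eval₂_mul, Polynomial.eval₂_C, Polynomial.eval₂_C,
      Polynomial.eval₂_X] at hr0
    set a := r.coeff 1 with ha
    set b := r.coeff 0 with hb
    have h2 : a ^ 2 * F = b ^ 2 := by
      apply hinj
      rw [map_mul, map_pow, map_pow, hφe F, ← hx.2.1]
      linear_combination (φ a * w - φ b) * hr0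
    have ha0 : a = 0 := by
      by_contra ha0
      have h3 : a ^ 2 ∣ b ^ 2 := ⟨F, h2.symm⟩
      rw [IsIntegrallyClosed.pow_dvd_pow_iff two_ne_zero] at h3
      obtain ⟨c, hc⟩ := h3
      apply hsq c
      apply mul_left_cancel₀ (pow_ne_zero 2 ha0)
      rw [h2, hc]
      ring
    have hb0 : b = 0 := by
      rw [ha0] at h2
      have : b ^ 2 = 0 := by rw [← h2]; ring
      exact pow_eq_zero_iff two_ne_zero |>.1 this
    have hr3 : r = 0 := by
      rw [hr2, ha0, hb0]; simp
    rw [← h1, hr3, zero_add]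
    exact dvd_mul_right _ _
  · rintro ⟨q, rfl⟩
    rw [Polynomial.eval₂_mul, hD0, zero_mul]

/-- Factors of `X ^ 2 - c`. -/
theorem W2_poly {B : Type} [CommRing B] [IsDomain B] (h2 : (2 : B) ≠ 0) (c : B) (hc : c ≠ 0)
    (h : Polynomial B) (hh : ¬ IsUnit h) (hd : h ∣ Polynomial.X ^ 2 - Polynomial.C c) :
    (∀ u : B, h ∣ Polynomial.C u → u = 0) ∧ ¬ h ^ 2 ∣ Polynomial.X ^ 2 - Polynomial.C c := by
  have hm : (Polynomial.X ^ 2 - Polynomial.C c : Polynomial B).Monic :=
    Polynomial.monic_X_pow_sub_C c two_ne_zero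
  have hu := hm.isUnit_leadingCoeff_of_dvd hd
  have hdeg : h.natDegree ≠ 0 := by
    intro h0
    rw [Polynomial.eq_C_of_natDegree_eq_zero h0] at hu hh
    rw [Polynomial.leadingCoeff_C] at hu
    exact hh (hu.map Polynomial.C)
  have h3 : ∀ u : B, h ∣ Polynomial.C u → u = 0 := by
    intro u hu
    by_contra hu0
    have := Polynomial.natDegree_le_of_dvd hu (by simpa using hu0)
    rw [Polynomial.natDegree_C] at this
    omega
  refine ⟨h3, ?_⟩
  rintro ⟨q, hq⟩
  have h4 := congrArg Polynomial.derivative hq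
  simp only [Polynomial.derivative_sub, Polynomial.derivative_X_pow, Polynomial.derivative_C,
    sub_zero, Polynomial.derivative_mul] at h4
  have h5 : h ∣ Polynomial.C (2 * c) := by
    refine ⟨Polynomial.X * (2 * Polynomial.derivative h * q + h * Polynomial.derivative q)
      - 2 * h * q, ?_⟩
    have h6 : Polynomial.derivative (h ^ 2) = 2 * h * Polynomial.derivative h := by
      rw [pow_two, Polynomial.derivative_mul]
      ring
    rw [h6] at h4
    simp only [Nat.cast_ofNat, map_ofNat, Nat.add_one_sub_one, pow_one] at h4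
    rw [map_mul, map_ofNat]
    linear_combination (-2 : Polynomial B) * hq + Polynomial.X * h4
  have h7 := h3 _ h5
  rcases mul_eq_zero.1 h7 with h8 | h8
  · exact h2 h8
  · exact hc h8

/-- The variables outside of the group `i₀` and the variables of the group with `w` added. -/
theorem W2_index {σ ι : Type} (g : σ → ι) (i₀ : ι) {m N : ℕ} (e : Fin m → σ)
    (he : Function.Injective e) (hrange : ∀ v, v ∈ Set.range e ↔ g v ≠ i₀)
    (f : Fin N ≃ {v : σ // g v = i₀}) :
    ∃ T : Fin m ⊕ Fin (N + 1) ≃ Option σ, (∀ i, T (Sum.inl i) = some (e i)) ∧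
      T (Sum.inr 0) = none ∧ ∀ j : Fin N, T (Sum.inr j.succ) = some (f j).1 := by
  let t : Fin m ⊕ Fin (N + 1) → Option σ :=
    Sum.elim (fun i => some (e i)) (Fin.cons none fun j => some (f j).1)
  have hne : ∀ i j, e i ≠ (f j).1 := fun i j h =>
    ((hrange (f j).1).1 ⟨i, h⟩) (f j).2
  have htinj : Function.Injective t := by
    rintro (i | i) (j | j) hij
    · simp only [t, Sum.elim_inl, Option.some.injEq] at hij
      rw [he hij]
    · obtain rfl | ⟨j, rfl⟩ := Fin.eq_zero_or_eq_succ j
      · simp [t] at hij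
      · simp only [t, Sum.elim_inl, Sum.elim_inr, Fin.cons_succ, Option.some.injEq] at hij
        exact absurd hij (hne _ _)
    · obtain rfl | ⟨i, rfl⟩ := Fin.eq_zero_or_eq_succ i
      · simp [t] at hij
      · simp only [t, Sum.elim_inl, Sum.elim_inr, Fin.cons_succ, Option.some.injEq] at hij
        exact absurd hij.symm (hne _ _)
    · obtain rfl | ⟨i, rfl⟩ := Fin.eq_zero_or_eq_succ i
      · obtain rfl | ⟨j, rfl⟩ := Fin.eq_zero_or_eq_succ j
        · rfl
        · simp [t] at hij
      · obtain rfl | ⟨j, rfl⟩ := Fin.eq_zero_or_eq_succ j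
        · simp [t] at hij
        · simp only [t, Sum.elim_inr, Fin.cons_succ, Option.some.injEq] at hij
          rw [f.injective (Subtype.ext hij)]
  have htsurj : Function.Surjective t := by
    rintro (_ | v)
    · exact ⟨Sum.inr 0, rfl⟩
    · by_cases hv : g v = i₀
      · refine ⟨Sum.inr (Fin.succ (f.symm ⟨v, hv⟩)), ?_⟩
        simp [t]
      · obtain ⟨i, rfl⟩ := (hrange v).2 hv
        exact ⟨Sum.inl i, rfl⟩
  exact ⟨Equiv.ofBijective t ⟨htinj, htsurj⟩, fun i => rfl, rfl, fun j => rfl⟩

end W2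

/-- Discrete valuation rings of the double cover over the divisors of the space of the variables
outside of the group `i₀`. -/
theorem exists_valuation_double (k σ ι : Type) [Field k] [CharZero k] [Fintype σ]
    [DecidableEq σ] [DecidableEq ι] (g : σ → ι) (F : MvPolynomial σ k) (i₀ : ι)
    (hi : ∃ v, g v = i₀) (hF : NoFactorFreeOf g F i₀) (K : Type) [Field K] [Algebra k K]
    (x : σ → K) (w : K) (hx : IsDoublePt F x w) (m : ℕ) (e : Fin m → σ)
    (he : Function.Injective e) (hrange : ∀ v, v ∈ Set.range e ↔ g v ≠ i₀)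
    (hsq : ∀ h : MvPolynomial σ k, F ≠ h ^ 2)
    (π : MvPolynomial (Fin m) k) (hπ : Irreducible π) :
    ∃ O : ValuationSubring K, IsUnif O (MvPolynomial.aeval (fun j => x (e j)) π) ∧
      (∀ p : MvPolynomial (Fin m) k, MvPolynomial.aeval (fun j => x (e j)) p ∈ O) ∧
      (∀ p : MvPolynomial (Fin m) k,
        O.valuation (MvPolynomial.aeval (fun j => x (e j)) p) < 1 ↔ π ∣ p) ∧
      ∀ S : Set σ, (∃ j ∈ π.vars, e j ∉ S) → ∀ a ∈ IntermediateField.adjoin k (x '' S), a ∈ O := by
  classical
  -- the residue field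
  have hprime : (Ideal.span {π} : Ideal (MvPolynomial (Fin m) k)).IsPrime := by
    rw [Ideal.span_singleton_prime hπ.ne_zero]
    exact hπ.prime
  let R := MvPolynomial (Fin m) k ⧸ (Ideal.span {π} : Ideal (MvPolynomial (Fin m) k))
  have : IsDomain R := Ideal.Quotient.isDomain _
  let κ := FractionRing R
  let ξ : Fin m → κ := fun i => algebraMap R κ (Ideal.Quotient.mk _ (MvPolynomial.X i))
  have : CharZero κ := charZero_of_injective_algebraMap (algebraMap k κ).injective
  have hξe : ∀ p : MvPolynomial (Fin m) k, MvPolynomial.aeval ξ p =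
      algebraMap R κ (Ideal.Quotient.mk _ p) := by
    intro p
    have : MvPolynomial.aeval ξ = (IsScalarTower.toAlgHom k R κ).comp
        (Ideal.Quotient.mkₐ k (Ideal.span {π} : Ideal (MvPolynomial (Fin m) k))) := by
      apply MvPolynomial.algHom_ext
      intro i
      rw [MvPolynomial.aeval_X]
      rfl
    rw [this]
    rfl
  have hξ : ∀ p : MvPolynomial (Fin m) k, MvPolynomial.aeval ξ p = 0 ↔ π ∣ p := by
    intro p
    rw [hξe, map_eq_zero_iff _ (IsFractionRing.injective R κ), Ideal.Quotient.eq_zero_iff_mem,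
      Ideal.mem_span_singleton]
  have hξgen : ∀ a : κ, ∃ p q : MvPolynomial (Fin m) k, MvPolynomial.aeval ξ q ≠ 0 ∧
      a * MvPolynomial.aeval ξ q = MvPolynomial.aeval ξ p := by
    intro a
    obtain ⟨p, q, hq, h⟩ := IsFractionRing.div_surjective (A := R) a
    obtain ⟨p', rfl⟩ := Ideal.Quotient.mk_surjective p
    obtain ⟨q', rfl⟩ := Ideal.Quotient.mk_surjective q
    have hq0 : algebraMap R κ (Ideal.Quotient.mk _ q') ≠ 0 := by
      rw [Ne, map_eq_zero_iff _ (IsFractionRing.injective R κ)]
      exact nonZeroDivisors.ne_zero hq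
    refine ⟨p', q', ?_, ?_⟩
    · rw [hξe]
      exact hq0
    · rw [hξe, hξe, ← h, div_mul_cancel₀ _ hq0]
  -- the variables of the group `i₀`
  let N := Fintype.card {v : σ // g v = i₀}
  let f : Fin N ≃ {v : σ // g v = i₀} := (Fintype.equivFin _).symm
  obtain ⟨T, hT1, hT2, hT3⟩ := W2_index g i₀ e he hrange f
  let A := MvPolynomial (Fin m ⊕ Fin (N + 1)) k
  let φ : MvPolynomial σ k →+* K := (aeval x : MvPolynomial σ k →ₐ[k] K).toRingHom
  let Ψ : MvPolynomial (Fin m ⊕ Fin (N + 1)) k ≃ₐ[k] Polynomial (MvPolynomial σ k) :=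
    (renameEquiv k T).trans (optionEquivLeft k σ)
  have hΨ1 : ∀ i, Ψ (X (Sum.inl i)) = Polynomial.C (X (e i)) := fun i => by
    simp only [Ψ, AlgEquiv.trans_apply, renameEquiv_apply, rename_X, hT1]
    exact optionEquivLeft_X_some _ _ _
  have hΨ2 : Ψ (X (Sum.inr 0)) = Polynomial.X := by
    simp only [Ψ, AlgEquiv.trans_apply, renameEquiv_apply, rename_X, hT2]
    exact optionEquivLeft_X_none _ _
  have hΨ3 : ∀ j : Fin N, Ψ (X (Sum.inr j.succ)) = Polynomial.C (X (f j).1) := fun j => by
    simp only [Ψ, AlgEquiv.trans_apply, renameEquiv_apply, rename_X, hT3]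
    exact optionEquivLeft_X_some _ _ _
  let z : Fin m ⊕ Fin (N + 1) → K :=
    Sum.elim (fun i => x (e i)) (Fin.cons w fun j => x (f j).1)
  have hz : ∀ P, aeval z P = Polynomial.eval₂ φ w (Ψ P) := by
    intro P
    induction P using MvPolynomial.induction_on with
    | C a =>
      have h1 : (C a : MvPolynomial (Fin m ⊕ Fin (N + 1)) k) = algebraMap k _ a := rfl
      have h2 : (algebraMap k (Polynomial (MvPolynomial σ k)) a) = Polynomial.C (C a) := rfl
      rw [h1, AlgEquiv.commutes, AlgHom.commutes, h2, Polynomial.eval₂_C]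
      exact (AlgHom.commutes (aeval x : MvPolynomial σ k →ₐ[k] K) a).symm
    | add p q hp hq => rw [map_add, hp, hq, map_add, Polynomial.eval₂_add]
    | mul_X p i hp =>
      rw [map_mul, hp, map_mul, Polynomial.eval₂_mul]
      congr 1
      rw [aeval_X]
      rcases i with i | j
      · rw [hΨ1, Polynomial.eval₂_C]
        exact (aeval_X x (e i)).symm
      · obtain rfl | ⟨j, rfl⟩ := Fin.eq_zero_or_eq_succ j
        · rw [hΨ2, Polynomial.eval₂_X]; rfl
        · rw [hΨ3, Polynomial.eval₂_C]
          exact (aeval_X x (f j).1).symm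
  let ρ : σ → Fin m ⊕ Fin (N + 1) := fun v => T.symm (some v)
  have hρinj : Function.Injective ρ := fun a b h => Option.some.inj (T.symm.injective h)
  have hρ1 : ∀ i, ρ (e i) = Sum.inl i := fun i => by
    simp only [ρ]
    rw [← hT1, Equiv.symm_apply_apply]
  have hρ2 : ∀ j, ρ (f j).1 = Sum.inr j.succ := fun j => by
    simp only [ρ]
    rw [← hT3, Equiv.symm_apply_apply]
  have hcases : ∀ v, (∃ i, v = e i) ∨ ∃ j, v = (f j).1 := by
    intro v
    by_cases hv : g v = i₀
    · exact Or.inr ⟨f.symm ⟨v, hv⟩, by simp⟩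
    · obtain ⟨i, rfl⟩ := (hrange v).2 hv
      exact Or.inl ⟨i, rfl⟩
  have hΨρ : ∀ P : MvPolynomial σ k, Ψ (rename ρ P) = Polynomial.C P := by
    intro P
    induction P using MvPolynomial.induction_on with
    | C a =>
      rw [rename_C]
      have h1 : (C a : MvPolynomial (Fin m ⊕ Fin (N + 1)) k) = algebraMap k _ a := rfl
      rw [h1, AlgEquiv.commutes]
      rfl
    | add p q hp hq => rw [map_add, map_add, hp, hq, map_add]
    | mul_X p v hp =>
      rw [map_mul, map_mul, hp, map_mul, rename_X]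
      congr 1
      rcases hcases v with ⟨i, rfl⟩ | ⟨j, rfl⟩
      · rw [hρ1, hΨ1]
      · rw [hρ2, hΨ3]
  let G : MvPolynomial (Fin m ⊕ Fin (N + 1)) k := X (Sum.inr 0) ^ 2 - rename ρ F
  have hΨG : Ψ G = Polynomial.X ^ 2 - Polynomial.C F := by
    simp only [G]
    rw [map_sub, map_pow, hΨ2, hΨρ]
  have hG : ∀ P : MvPolynomial (Fin m ⊕ Fin (N + 1)) k, aeval z P = 0 ↔ G ∣ P := by
    intro P
    rw [hz, W2_generic F x w hx hsq, ← hΨG]
    exact map_dvd_iff Ψ
  have hzρ : ∀ P : MvPolynomial σ k, aeval z (rename ρ P) = aeval x P := by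
    intro P
    rw [hz, hΨρ, Polynomial.eval₂_C]
    rfl
  have hgen : ∀ a : K, ∃ P Q : MvPolynomial (Fin m ⊕ Fin (N + 1)) k, aeval z Q ≠ 0 ∧
      a * aeval z Q = aeval z P := by
    intro a
    obtain ⟨P, Q, R, hR, h1⟩ := hx.2.2 a
    refine ⟨rename ρ P + rename ρ Q * X (Sum.inr 0), rename ρ R, ?_, ?_⟩
    · rw [hzρ]; exact hR
    · rw [map_add, map_mul, hzρ, hzρ, hzρ, aeval_X, h1]
      rfl
  -- the specialization
  have hsp : ∀ P : MvPolynomial σ k, ∃ u : MvPolynomial (Fin N) κ,
      specX ξ (rename ρ P) = rename Fin.succ u := by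
    intro P
    induction P using MvPolynomial.induction_on with
    | C a =>
      refine ⟨C (algebraMap k κ a), ?_⟩
      rw [rename_C, rename_C]
      have h1 : (C a : MvPolynomial (Fin m ⊕ Fin (N + 1)) k) = algebraMap k _ a := rfl
      rw [h1, AlgHom.commutes]
      rfl
    | add p q hp hq =>
      obtain ⟨u, hu⟩ := hp
      obtain ⟨v, hv⟩ := hq
      exact ⟨u + v, by rw [map_add, map_add, hu, hv, map_add]⟩
    | mul_X p v hp =>
      obtain ⟨u, hu⟩ := hp
      rcases hcases v with ⟨i, rfl⟩ | ⟨j, rfl⟩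
      · refine ⟨u * C (ξ i), ?_⟩
        rw [map_mul, map_mul, hu, map_mul, rename_X, hρ1, rename_C]
        simp [specX]
      · refine ⟨u * X j, ?_⟩
        rw [map_mul, map_mul, hu, map_mul, rename_X, hρ2, rename_X]
        simp [specX]
  obtain ⟨c, hc⟩ := hsp F
  have hspG : specX ξ G = X 0 ^ 2 - rename Fin.succ c := by
    simp only [G]
    rw [map_sub, map_pow, hc]
    simp [specX]
  have hc0 : c ≠ 0 := by
    rintro rfl
    rw [map_zero] at hc
    obtain ⟨S, hS⟩ := G9_zero ξ π hξ _ hc
    let θ : MvPolynomial (Fin m ⊕ Fin (N + 1)) k →ₐ[k] MvPolynomial σ k :=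
      aeval (Sum.elim (fun i => X (e i)) (Fin.cons 0 fun j => X (f j).1))
    have hθ1 : ∀ P : MvPolynomial σ k, θ (rename ρ P) = P := by
      intro P
      induction P using MvPolynomial.induction_on with
      | C a =>
        rw [rename_C]
        exact AlgHom.commutes θ a
      | add p q hp hq => rw [map_add, map_add, hp, hq]
      | mul_X p v hp =>
        rw [map_mul, map_mul, hp, rename_X]
        congr 1
        rcases hcases v with ⟨i, rfl⟩ | ⟨j, rfl⟩
        · rw [hρ1]; simp [θ]
        · rw [hρ2]; simp [θ]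
    have hθ2 : ∀ p : MvPolynomial (Fin m) k, θ (rename Sum.inl p) = rename e p := by
      intro p
      simp only [θ]
      rw [aeval_rename, Sum.elim_comp_inl, rename_eq_aeval]
      rfl
    have h1 := congrArg θ hS
    rw [map_mul, hθ1, hθ2] at h1
    have h2 := hF (rename e π) ⟨_, h1⟩ (by
      intro v hv
      have h3 := vars_rename e π hv
      obtain ⟨i, -, rfl⟩ := Finset.mem_image.1 h3
      exact (hrange _).1 ⟨i, rfl⟩)
    have h3 := h2.map (killCompl he : MvPolynomial σ k →ₐ[k] MvPolynomial (Fin m) k)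
    rw [killCompl_rename_app] at h3
    exact hπ.not_isUnit h3
  let Θ := MvPolynomial.finSuccEquiv κ N
  have hΘ : ∀ u : MvPolynomial (Fin N) κ, Θ (rename Fin.succ u) = Polynomial.C u := by
    intro u
    induction u using MvPolynomial.induction_on with
    | C a =>
      rw [rename_C]
      have h1 : (C a : MvPolynomial (Fin (N + 1)) κ) = algebraMap κ _ a := rfl
      rw [h1, AlgEquiv.commutes]
      rfl
    | add p q hp hq => rw [map_add, map_add, hp, hq, map_add]
    | mul_X p v hp =>
      rw [map_mul, map_mul, hp, map_mul, rename_X]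
      congr 1
      exact finSuccEquiv_X_succ
  have hΘG : Θ (specX ξ G) = Polynomial.X ^ 2 - Polynomial.C c := by
    rw [hspG, map_sub, map_pow, hΘ]
    congr 2
    exact finSuccEquiv_X_zero
  have hH0 : specX ξ G ≠ (0 : MvPolynomial (Fin (N + 1)) κ) := by
    intro h0
    rw [h0, map_zero] at hΘG
    exact (Polynomial.monic_X_pow_sub_C c two_ne_zero).ne_zero hΘG.symm
  have hHu : ¬ IsUnit (specX ξ G : MvPolynomial (Fin (N + 1)) κ) := by
    intro hu
    have h1 := hu.map Θ
    rw [hΘG] at h1
    have h2 := Polynomial.natDegree_eq_zero_of_isUnit h1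
    rw [Polynomial.natDegree_X_pow_sub_C] at h2
    omega
  obtain ⟨h, hirr, hd⟩ := WfDvdMonoid.exists_irreducible_factor hHu hH0
  have h2B : (2 : MvPolynomial (Fin N) κ) ≠ 0 := two_ne_zero
  obtain ⟨hA1, hA2⟩ := W2_poly h2B c hc0 (Θ h) (by
    intro hu
    apply hirr.not_isUnit
    have := hu.map Θ.symm
    rwa [AlgEquiv.symm_apply_apply] at this) (by
    rw [← hΘG]
    exact (map_dvd_iff Θ).2 hd)
  have hB1 : ∀ u : MvPolynomial (Fin N) κ, h ∣ rename Fin.succ u → u = 0 := by
    intro u hu
    apply hA1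
    rw [← hΘ]
    exact (map_dvd_iff Θ).2 hu
  have hB2 : ¬ h ^ 2 ∣ specX ξ G := by
    intro h3
    apply hA2
    rw [← hΘG, ← map_pow]
    exact (map_dvd_iff Θ).2 h3
  obtain ⟨O, hO1, hO2, hO3⟩ := exists_valuation k m (N + 1) K z G hG hgen π hπ κ ξ hξ hξgen h hirr
    hd hB2
  have hzl : ∀ p : MvPolynomial (Fin m) k,
      aeval z (rename Sum.inl p) = aeval (fun j => x (e j)) p := by
    intro p
    rw [aeval_rename]
    rfl
  refine ⟨O, hO1, ?_, ?_, ?_⟩
  · intro p
    rw [← hzl]
    exact hO2 _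
  · intro p
    rw [← hzl, hO3, G9_spec_rename, ← hξ]
    constructor
    · intro h3
      have h4 := hB1 (C (aeval ξ p)) (by rw [rename_C]; exact h3)
      exact C_eq_zero.1 h4
    · intro h3
      rw [h3, C_0]
      exact dvd_zero _
  · rintro S ⟨j₀, hj₀, hjS⟩ a ha
    have key : ∀ ω : MvPolynomial S k, ω ≠ 0 →
        (aeval (fun s : S => x s.1) ω)⁻¹ ∈ O := by
      intro ω hω
      by_contra hin
      set P : MvPolynomial σ k := rename Subtype.val ω with hP
      have hP0 : P ≠ 0 := by
        rw [hP, Ne, rename_eq_zero_iff_of_injective _ Subtype.val_injective]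
        exact hω
      have hPx : aeval x P = aeval (fun s : S => x s.1) ω := by
        rw [hP, aeval_rename]
        rfl
      have hval : O.valuation (aeval z (rename ρ P)) < 1 := by
        rw [hzρ, hPx]
        rw [← ValuationSubring.valuation_le_one_iff, map_inv₀, not_le] at hin
        exact (one_lt_inv₀ (by
          rw [zero_lt_iff]
          intro h0
          rw [h0, inv_zero] at hin
          exact absurd hin (not_lt.2 zero_le_one))).1 hin
      rw [hO3] at hval
      obtain ⟨u, hu⟩ := hsp P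
      rw [hu] at hval
      have hu0 := hB1 u hval
      rw [hu0, map_zero] at hu
      obtain ⟨V, hV⟩ := G9_zero ξ π hξ _ hu
      have h5 : rename ρ P ≠ 0 := by
        rw [Ne, rename_eq_zero_iff_of_injective _ hρinj]
        exact hP0
      have h6 := h5
      rw [hV] at h6
      have h7 := degreeOf_mul_eq (n := Sum.inl j₀) (left_ne_zero_of_mul h6)
        (right_ne_zero_of_mul h6)
      rw [← hV, ← hρ1, degreeOf_rename_of_injective hρinj, hρ1,
        degreeOf_rename_of_injective Sum.inl_injective] at h7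
      have h8 : degreeOf (e j₀) P = 0 := by
        by_contra h9
        have h10 : e j₀ ∈ P.vars := by
          rw [degreeOf_def] at h9
          rw [vars_def]
          exact Multiset.mem_toFinset.2 (Multiset.count_ne_zero.1 h9)
        have h11 := vars_rename Subtype.val ω h10
        obtain ⟨s, -, hs⟩ := Finset.mem_image.1 h11
        exact hjS (hs ▸ s.2)
      have h9 : degreeOf j₀ π ≠ 0 := by
        rw [degreeOf_def]
        rw [vars_def] at hj₀
        exact Multiset.count_ne_zero.2 (Multiset.mem_toFinset.1 hj₀)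
      omega
    rw [IntermediateField.mem_adjoin_iff_div] at ha
    have himg : x '' S = Set.range (fun s : S => x s.1) := Set.image_eq_range x S
    rw [himg, Algebra.adjoin_range_eq_range_aeval] at ha
    obtain ⟨r, ⟨P, rfl⟩, s, ⟨Q, rfl⟩, rfl⟩ := ha
    rw [div_eq_mul_inv]
    apply mul_mem
    · have h1 := hO2 (rename ρ (rename Subtype.val P))
      rw [hzρ, aeval_rename] at h1
      exact h1
    · by_cases hQ : Q = 0
      · subst hQ
        simp [O.zero_mem]
      · exact key Q hQ

end Pool.Agent.LibHP
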