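import Pool.Agent.LibHP2.D3
import Pool.Agent.LibHP2.R1

set_option autoImplicit false

namespace Pool.Agent.LibHP

section W3Aux

theorem W3_val_lt {L : Type} [Field L] (W : ValuationSubring L) {x : L} (hx : x ≠ 0) :
    W.valuation x < 1 ↔ x⁻¹ ∉ W := by
  rw [← W.valuation_le_one_iff x⁻¹, map_inv₀, not_le, one_lt_inv₀]
  exact (Valuation.pos_iff W.valuation).2 hx

/-- a valuation ring containing the polynomials whose centre is `π` is the localization at `π` -/
theorem W3_mem_iff (k : Type) [Field k] (m : ℕ) (M : Type) [Field M]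
    [Algebra (MvPolynomial (Fin m) k) M] [IsFractionRing (MvPolynomial (Fin m) k) M]
    (π : MvPolynomial (Fin m) k) (hπ : Irreducible π) (A : ValuationSubring M)
    (hA1 : ∀ p : MvPolynomial (Fin m) k, algebraMap (MvPolynomial (Fin m) k) M p ∈ A)
    (hA2 : ∀ p : MvPolynomial (Fin m) k, p ≠ 0 →
      ((algebraMap (MvPolynomial (Fin m) k) M p)⁻¹ ∉ A ↔ π ∣ p)) (z : M) :
    z ∈ A ↔ ∃ p q : MvPolynomial (Fin m) k, ¬ π ∣ q ∧
        z * algebraMap (MvPolynomial (Fin m) k) M q = algebraMap (MvPolynomial (Fin m) k) M p := by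
  constructor
  · intro hz
    obtain ⟨a, b, hab, hz'⟩ := IsFractionRing.exists_reduced_fraction
      (A := MvPolynomial (Fin m) k) (K := M) z
    have hb0 : (b : MvPolynomial (Fin m) k) ≠ 0 := nonZeroDivisors.ne_zero b.2
    have hb1 : algebraMap (MvPolynomial (Fin m) k) M b ≠ 0 :=
      (IsFractionRing.to_map_eq_zero_iff (K := M)).not.mpr hb0
    have hzb : z * algebraMap (MvPolynomial (Fin m) k) M b =
        algebraMap (MvPolynomial (Fin m) k) M a := by
      rw [← hz']
      exact IsLocalization.mk'_spec M a b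
    refine ⟨a, b, ?_, hzb⟩
    intro hdvd
    have hna : ¬ π ∣ a := fun h => hπ.not_isUnit (hab h hdvd)
    have ha0 : a ≠ 0 := fun h => hna (h ▸ dvd_zero π)
    have ha1 : algebraMap (MvPolynomial (Fin m) k) M a ≠ 0 :=
      (IsFractionRing.to_map_eq_zero_iff (K := M)).not.mpr ha0
    have h1 : (algebraMap (MvPolynomial (Fin m) k) M a)⁻¹ ∈ A := by
      by_contra h
      exact hna ((hA2 a ha0).1 h)
    have h2 : (algebraMap (MvPolynomial (Fin m) k) M b)⁻¹ ∉ A := (hA2 b hb0).2 hdvd
    apply h2
    have h3 : (algebraMap (MvPolynomial (Fin m) k) M b)⁻¹ =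
        z * (algebraMap (MvPolynomial (Fin m) k) M a)⁻¹ := by
      rw [← hzb]
      have hz0 : z ≠ 0 := by
        rintro rfl
        rw [zero_mul] at hzb
        exact ha1 hzb.symm
      field_simp
    rw [h3]
    exact A.mul_mem _ _ hz h1
  · rintro ⟨p, q, hq, hpq⟩
    have hq0 : q ≠ 0 := fun h => hq (h ▸ dvd_zero π)
    have hq1 : algebraMap (MvPolynomial (Fin m) k) M q ≠ 0 :=
      (IsFractionRing.to_map_eq_zero_iff (K := M)).not.mpr hq0
    have h1 : (algebraMap (MvPolynomial (Fin m) k) M q)⁻¹ ∈ A := by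
      by_contra h
      exact hq ((hA2 q hq0).1 h)
    have h2 : z = algebraMap (MvPolynomial (Fin m) k) M p *
        (algebraMap (MvPolynomial (Fin m) k) M q)⁻¹ := by
      rw [← hpq, mul_assoc, mul_inv_cancel₀ hq1, mul_one]
    rw [h2]
    exact A.mul_mem _ _ (hA1 p) h1

end W3Aux

/-- The core argument (see Z1), with the unramifiedness as hypothesis. -/
theorem surjective_core_unram (k : Type) [Field k] [CharZero k] (m : ℕ) (M1 K L : Type) [Field M1]
    [Field K] [Field L] [Algebra (MvPolynomial (Fin m) k) M1]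
    [IsFractionRing (MvPolynomial (Fin m) k) M1] [Algebra M1 K] [Algebra K L]
    [Algebra M1 L] [IsScalarTower M1 K L]
    [FiniteDimensional K L] [FiniteDimensional M1 (algebraicClosure M1 L)]
    (hcl : ∀ c : K, IsAlgebraic M1 c → ∃ a : M1, algebraMap M1 K a = c)
    (h1 : Subfield.closure (Set.range (algebraMap K L) ∪ {z : L | IsAlgebraic M1 z}) = ⊤)
    (hk : ∀ z : L, (∃ P : Polynomial k, P ≠ 0 ∧ P.eval₂ ((algebraMap M1 L).comp
        ((algebraMap (MvPolynomial (Fin m) k) M1).comp MvPolynomial.C)) z = 0) →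
      ∃ c : k, algebraMap M1 L (algebraMap (MvPolynomial (Fin m) k) M1 (MvPolynomial.C c)) = z)
    (hval : ∀ π : MvPolynomial (Fin m) k, Irreducible π → ∃ O : ValuationSubring K,
      IsUnif O (algebraMap M1 K (algebraMap (MvPolynomial (Fin m) k) M1 π)) ∧
      (∀ p : MvPolynomial (Fin m) k,
        algebraMap M1 K (algebraMap (MvPolynomial (Fin m) k) M1 p) ∈ O) ∧
      (∀ p : MvPolynomial (Fin m) k,
        O.valuation (algebraMap M1 K (algebraMap (MvPolynomial (Fin m) k) M1 p)) < 1 ↔ π ∣ p) ∧
      ∀ W : ValuationSubring L, W.comap (algebraMap K L) = O →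
        Unram W (algebraMap M1 L (algebraMap (MvPolynomial (Fin m) k) M1 π))) :
    Function.Surjective (algebraMap K L) := by
  classical
  have hinj : Function.Injective (algebraMap (MvPolynomial (Fin m) k) M1) :=
    IsFractionRing.injective _ _
  have hM1 : CharZero M1 := charZero_of_injective_algebraMap
    (R := MvPolynomial (Fin m) k) (A := M1) hinj
  have hK : CharZero K := charZero_of_injective_algebraMap (R := M1) (A := K)
    (algebraMap M1 K).injective
  by_cases hsurj : Function.Surjective (algebraMap M1 (algebraicClosure M1 L))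
  · have h3 : Subfield.closure (Set.range (algebraMap K L) ∪ {z : L | IsAlgebraic M1 z}) ≤
        (algebraMap K L).fieldRange := by
      rw [Subfield.closure_le]
      rintro z (⟨a, rfl⟩ | hz)
      · exact ⟨a, rfl⟩
      · obtain ⟨a, ha⟩ := hsurj ⟨z, (mem_algebraicClosure_iff).2 hz⟩
        refine ⟨algebraMap M1 K a, ?_⟩
        rw [← IsScalarTower.algebraMap_apply]
        exact congrArg Subtype.val ha
    rw [h1] at h3
    intro z
    exact h3 (Subfield.mem_top z)
  · exfalso
    obtain ⟨π, W', hπ, hW1, hW2, hW3⟩ := exists_ramified k m M1 (algebraicClosure M1 L)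
      (by
        rintro z ⟨P, hP0, hP⟩
        obtain ⟨c, hc⟩ := hk (z : L) ⟨P, hP0, by
          have h4 := congrArg (algebraMap (algebraicClosure M1 L) L) hP
          rw [Polynomial.hom_eval₂, map_zero] at h4
          exact h4⟩
        exact ⟨c, Subtype.ext hc⟩) hsurj
    obtain ⟨O, hO1, hO2, hO3, hO4⟩ := hval π hπ
    obtain ⟨Oπ, hP1, hP2, -⟩ := exists_valPoly k m M1 π hπ
    have e1 : O.comap (algebraMap M1 K) = Oπ := by
      ext z
      rw [hP2]
      refine W3_mem_iff k m M1 π hπ _ (fun p => ?_) (fun p hp => ?_) z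
      · rw [ValuationSubring.mem_comap]; exact hO2 p
      · have hp1 : algebraMap (MvPolynomial (Fin m) k) M1 p ≠ 0 :=
          (IsFractionRing.to_map_eq_zero_iff (K := M1)).not.mpr hp
        have hp2 : algebraMap M1 K (algebraMap (MvPolynomial (Fin m) k) M1 p) ≠ 0 := by
          simpa using hp1
        rw [ValuationSubring.mem_comap, map_inv₀, ← W3_val_lt O hp2]
        exact hO3 p
    have e2 : W'.comap (algebraMap M1 (algebraicClosure M1 L)) = Oπ := by
      ext z
      rw [hP2]
      refine W3_mem_iff k m M1 π hπ _ (fun p => ?_) (fun p hp => ?_) z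
      · rw [ValuationSubring.mem_comap]; exact hW1 p
      · have hp1 : algebraMap (MvPolynomial (Fin m) k) M1 p ≠ 0 :=
          (IsFractionRing.to_map_eq_zero_iff (K := M1)).not.mpr hp
        have hp2 : algebraMap M1 (algebraicClosure M1 L)
            (algebraMap (MvPolynomial (Fin m) k) M1 p) ≠ 0 := by
          intro h
          exact hp1 ((algebraMap M1 (algebraicClosure M1 L)).injective (by rw [h, map_zero]))
        rw [ValuationSubring.mem_comap, map_inv₀, ← W3_val_lt W' hp2]
        exact hW2 p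
    obtain ⟨W, hWO, hWW⟩ := exists_common_valuation M1 K L hcl (algebraicClosure M1 L) O
      (algebraMap (MvPolynomial (Fin m) k) M1 π) hO1 (by rw [e1]; exact hP1) W' (by rw [e1, e2])
    have hU := hO4 W hWO
    apply hW3
    intro z hz
    by_cases hz0 : z = 0
    · rw [hz0, map_zero]
      exact zero_le
    have hmem : ∀ w : algebraicClosure M1 L, w ∈ W' ↔ (w : L) ∈ W := by
      intro w
      rw [← hWW, ValuationSubring.mem_comap]
      rfl
    have hzL : (z : L) ≠ 0 := fun h => hz0 (Subtype.ext h)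
    have h5 : W.valuation (z : L) < 1 := by
      rw [W3_val_lt W hzL]
      rw [W3_val_lt W' hz0, hmem] at hz
      exact hz
    have h6 := hU _ h5
    have hπ1 : algebraMap (MvPolynomial (Fin m) k) M1 π ≠ 0 :=
      (IsFractionRing.to_map_eq_zero_iff (K := M1)).not.mpr hπ.ne_zero
    have e3 : algebraMap M1 L (algebraMap (MvPolynomial (Fin m) k) M1 π) =
        ((algebraMap M1 (algebraicClosure M1 L) (algebraMap (MvPolynomial (Fin m) k) M1 π) :
          algebraicClosure M1 L) : L) := rfl
    rw [e3] at h6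
    set pp : algebraicClosure M1 L :=
      algebraMap M1 (algebraicClosure M1 L) (algebraMap (MvPolynomial (Fin m) k) M1 π) with hpp
    have hpp0 : pp ≠ 0 := by
      intro h
      exact hπ1 ((algebraMap M1 (algebraicClosure M1 L)).injective (by rw [← hpp, h, map_zero]))
    have hppL : (pp : L) ≠ 0 := fun h => hpp0 (Subtype.ext h)
    have h7 : (z : L) * (pp : L)⁻¹ ∈ W := by
      rw [← W.valuation_le_one_iff, map_mul, map_inv₀]
      exact mul_inv_le_one_of_le₀ h6 zero_le
    have h8 : z * pp⁻¹ ∈ W' := by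
      rw [hmem]
      exact h7
    rw [← W'.valuation_le_one_iff, map_mul, map_inv₀] at h8
    have h9 : W'.valuation pp ≠ 0 := (Valuation.ne_zero_iff _).2 hpp0
    rwa [mul_inv_le_iff₀ (zero_lt_iff.2 h9), one_mul] at h8

end Pool.Agent.LibHP
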