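import Pool.Agent.LibHP2.W0

set_option autoImplicit false

namespace Pool.Agent.LibHP

private theorem W4_mem_adjoin (k σ K : Type) [Field k] [Field K] [Algebra k K] (x : σ → K)
    (T : Set σ) (c : K) (hc : c ∈ IntermediateField.adjoin k (x '' T)) :
    ∃ P Q : MvPolynomial σ k, (P.vars : Set σ) ⊆ T ∧ (Q.vars : Set σ) ⊆ T ∧
      c = MvPolynomial.aeval x P / MvPolynomial.aeval x Q := by
  have key : ∀ r ∈ Algebra.adjoin k (x '' T), ∃ P : MvPolynomial σ k, (P.vars : Set σ) ⊆ T ∧
      MvPolynomial.aeval x P = r := by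
    intro r hr
    have h1 : Algebra.adjoin k (x '' T) =
        (MvPolynomial.supported k T).map (MvPolynomial.aeval x) := by
      rw [MvPolynomial.supported, AlgHom.map_adjoin, ← Set.image_comp]
      congr 1
      refine Set.image_congr fun v _ => ?_
      simp
    rw [h1] at hr
    obtain ⟨P, hP, rfl⟩ := Subalgebra.mem_map.1 hr
    exact ⟨P, MvPolynomial.mem_supported.1 hP, rfl⟩
  obtain ⟨r, hr, s, hs, rfl⟩ := IntermediateField.mem_adjoin_iff_div.1 hc
  obtain ⟨P, hP, rfl⟩ := key r hr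
  obtain ⟨Q, hQ, rfl⟩ := key s hs
  exact ⟨P, Q, hP, hQ, rfl⟩

private theorem W4_notMem_vars_of_dvd {k σ : Type} [Field k] {A B : MvPolynomial σ k} (h : A ∣ B)
    (hB : B ≠ 0) {v : σ} (hv : v ∉ B.vars) : v ∉ A.vars := by
  obtain ⟨C, rfl⟩ := h
  have hA : A ≠ 0 := left_ne_zero_of_mul hB
  have hC : C ≠ 0 := right_ne_zero_of_mul hB
  rw [MvPolynomial.mem_vars_iff_degreeOf_ne_zero, not_not,
    MvPolynomial.degreeOf_mul_eq hA hC] at hv
  rw [MvPolynomial.mem_vars_iff_degreeOf_ne_zero, not_not]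
  omega

private theorem W4_eq_C_of_vars {k σ : Type} [Field k] {A : MvPolynomial σ k}
    (h : ∀ v, v ∉ A.vars) : ∃ a : k, A = MvPolynomial.C a := by
  have h1 : A ∈ MvPolynomial.supported k (∅ : Set σ) := by
    rw [MvPolynomial.mem_supported]
    intro v hv
    exact absurd hv (h v)
  rw [MvPolynomial.supported_empty, Algebra.mem_bot] at h1
  obtain ⟨a, ha⟩ := h1
  exact ⟨a, ha.symm⟩

/-- The intersection of the fields generated by the complements of the groups is `k`. -/
theorem mem_base_of_mem_all (k σ ι : Type) [Field k] [CharZero k] [Fintype σ] [DecidableEq σ]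
    [DecidableEq ι] (g : σ → ι) (K : Type) [Field K] [Algebra k K] (x : σ → K)
    (hx : AlgebraicIndependent k x) (hne : Nonempty ι) (c : K)
    (hc : ∀ i, c ∈ IntermediateField.adjoin k (x '' {v | g v ≠ i})) :
    ∃ a : k, algebraMap k K a = c := by
  by_cases hc0 : c = 0
  · exact ⟨0, by rw [map_zero, hc0]⟩
  have hinj : Function.Injective (MvPolynomial.aeval x : MvPolynomial σ k →ₐ[k] K) := hx
  obtain ⟨i₀⟩ := hne
  obtain ⟨P₀, Q₀, -, -, h0⟩ := W4_mem_adjoin k σ K x _ c (hc i₀)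
  have hQ0 : Q₀ ≠ 0 := by
    rintro rfl
    rw [map_zero, div_zero] at h0
    exact hc0 h0
  obtain ⟨B, A, D, hrel, hB, hA⟩ :=
    UniqueFactorizationMonoid.exists_reduced_factors Q₀ hQ0 P₀
  have hD0 : D ≠ 0 := by
    rintro rfl
    rw [zero_mul] at hB
    exact hQ0 hB.symm
  have hB0 : B ≠ 0 := by
    rintro rfl
    rw [mul_zero] at hB
    exact hQ0 hB.symm
  have haD : MvPolynomial.aeval x D ≠ 0 := fun h => hD0 (hinj (by rw [h, map_zero]))
  have haB : MvPolynomial.aeval x B ≠ 0 := fun h => hB0 (hinj (by rw [h, map_zero]))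
  have hcAB : c * MvPolynomial.aeval x B = MvPolynomial.aeval x A := by
    rw [h0, ← hB, ← hA, map_mul, map_mul, mul_div_mul_left _ _ haD, div_mul_cancel₀ _ haB]
  have hA0 : A ≠ 0 := by
    rintro rfl
    rw [map_zero] at hcAB
    exact (mul_ne_zero hc0 haB) hcAB
  have key : ∀ v, v ∉ A.vars ∧ v ∉ B.vars := by
    intro v
    obtain ⟨P, Q, hP, hQ, h1⟩ := W4_mem_adjoin k σ K x _ c (hc (g v))
    have hvP : v ∉ P.vars := fun h => hP h rfl
    have hvQ : v ∉ Q.vars := fun h => hQ h rfl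
    have haQ : MvPolynomial.aeval x Q ≠ 0 := by
      intro h
      rw [h, div_zero] at h1
      exact hc0 h1
    have hQ' : Q ≠ 0 := by
      rintro rfl
      exact haQ (map_zero _)
    have haP : MvPolynomial.aeval x P ≠ 0 := by
      intro h
      rw [h, zero_div] at h1
      exact hc0 h1
    have hP' : P ≠ 0 := by
      rintro rfl
      exact haP (map_zero _)
    have hprod : A * Q = P * B := by
      apply hinj
      rw [map_mul, map_mul, ← hcAB, h1]
      field_simp
    have hBQ : B ∣ Q := by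
      refine hrel.dvd_of_dvd_mul_left ?_
      rw [hprod]
      exact Dvd.intro_left P rfl
    have hAP : A ∣ P := by
      refine hrel.symm.dvd_of_dvd_mul_right ?_
      rw [← hprod]
      exact Dvd.intro Q rfl
    exact ⟨W4_notMem_vars_of_dvd hAP hP' hvP, W4_notMem_vars_of_dvd hBQ hQ' hvQ⟩
  obtain ⟨a, rfl⟩ := W4_eq_C_of_vars fun v => (key v).1
  obtain ⟨b, rfl⟩ := W4_eq_C_of_vars fun v => (key v).2
  refine ⟨a / b, ?_⟩
  rw [MvPolynomial.aeval_C] at haB
  rw [MvPolynomial.aeval_C, MvPolynomial.aeval_C] at hcAB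
  rw [map_div₀, ← hcAB, mul_div_cancel_right₀ _ haB]

end Pool.Agent.LibHP
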