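import Pool.Agent.LibHP2.B3
import Pool.Agent.LibHP2.C4
import Pool.Agent.LibHP2.W1
import Pool.Agent.LibHP2.W4

set_option autoImplicit false

namespace Pool.Agent.LibHP

/-- An element fixed by all families over `k` lies in the field of the variables outside of the
group `i`. -/
theorem W5_mem (k σ ι : Type) [Field k] [CharZero k] [Fintype σ] [DecidableEq σ]
    [DecidableEq ι] (g : σ → ι) (F : MvPolynomial σ k) (i : ι)
    (hi : ∃ v, g v = i) (hdeg : ∀ s ∈ F.support, ∑ v with g v = i, s v ≤ 2)
    (hdet : (gramGroup g F i).det ≠ 0) (K : Type) [Field K] [Algebra k K] (x : σ → K) (w : K)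
    (hx : IsDoublePt F x w) (c : K)
    (h : ∀ (r : ℕ) (s : K →+* RF K r),
      (∀ a : k, s (algebraMap k K a) = algebraMap K (RF K r) (algebraMap k K a)) →
      (∀ a, HasVal (s a) a) → s c = algebraMap K (RF K r) c) :
    c ∈ IntermediateField.adjoin k (x '' {v | g v ≠ i}) := by
  obtain ⟨n, hn, B, y, hBs, hBd, hBy⟩ :=
    exists_quad_structure_double k σ ι g F i hi hdeg hdet K x w hx
  have hM : CharZero (IntermediateField.adjoin k (x '' {v | g v ≠ i})) :=
    charZero_of_injective_algebraMap
      (algebraMap k (IntermediateField.adjoin k (x '' {v | g v ≠ i}))).injective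
  obtain ⟨a, ha⟩ := const_of_quad (IntermediateField.adjoin k (x '' {v | g v ≠ i})) K n hn B hBs
    hBd y hBy c (fun r s hs hv => h r s (fun a => hs (algebraMap k _ a)) hv)
  rw [← ha]
  exact a.2

/-- The constants of all one-parameter families over `k`. -/
theorem const_of_double (k σ ι : Type) [Field k] [CharZero k] [Fintype σ] [DecidableEq σ]
    [DecidableEq ι] (g : σ → ι) (hg : Function.Surjective g) (hne : Nonempty ι)
    (F : MvPolynomial σ k) (hF : IsMultiquadratic g F)
    (K : Type) [Field K] [Algebra k K] (x : σ → K) (w : K) (hx : IsDoublePt F x w) (c : K)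
    (h : ∀ τ : K →+* RatFunc K,
      (∀ a : k, τ (algebraMap k K a) = RatFunc.C (algebraMap k K a)) →
      (∀ a, ∃ b, HasJet (τ a) a b) → τ c = RatFunc.C c) : ∃ a : k, algebraMap k K a = c := by
  have hK : CharZero K := charZero_of_injective_algebraMap (algebraMap k K).injective
  have hmulti : ∀ (r : ℕ) (s : K →+* RF K r),
      (∀ a : k, s (algebraMap k K a) = algebraMap K (RF K r) (algebraMap k K a)) →
      (∀ a, HasVal (s a) a) → s c = algebraMap K (RF K r) c :=
    fun r s hs hv => fixed_multi_of_fixed_one k K c h r s hs hv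
  exact mem_base_of_mem_all k σ ι g K x hx.1 hne c fun i =>
    W5_mem k σ ι g F i (hg i) (hF.1 i) (hF.2 i) K x w hx c hmulti

end Pool.Agent.LibHP
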