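import Pool.Agent.LibHP2.B3
import Pool.Agent.LibHP2.R2
import Pool.Agent.LibHP2.W1
import Pool.Agent.LibHP2.W2
import Pool.Agent.LibHP2.W3

set_option autoImplicit false

namespace Pool.Agent.LibHP

theorem W6_lift {k M K L : Type} [Field k] [Field M] [Field K] [Field L] [Algebra k M]
    [Algebra k K] [Algebra M K] [IsScalarTower k M K] [Algebra K L] (h : LiftProp k K L) :
    LiftProp M K L := by
  intro r s hs hval
  refine h r s (fun c => ?_) hval
  rw [IsScalarTower.algebraMap_apply k M K c]
  exact hs _

theorem W6_exists_vars {k : Type} [Field k] {m : ℕ} (π : MvPolynomial (Fin m) k)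
    (hπ : Irreducible π) : ∃ j, j ∈ π.vars := by
  by_contra hcon
  push Not at hcon
  have h1 : π.vars = ∅ := Finset.eq_empty_of_forall_notMem hcon
  have h2 : π = MvPolynomial.C (MvPolynomial.constantCoeff π) := by
    apply MvPolynomial.ext
    intro d
    rw [MvPolynomial.coeff_C]
    by_cases hd : 0 = d
    · rw [if_pos hd, ← hd]
      rfl
    · rw [if_neg hd]
      by_contra hne
      obtain ⟨j, hj⟩ := Finsupp.ne_iff.1 (fun h => hd h.symm : d ≠ 0)
      exact hcon j ((MvPolynomial.mem_vars_iff_mem_support j).2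
        ⟨d, MvPolynomial.mem_support_iff.2 hne, Finsupp.mem_support_iff.2 hj⟩)
  apply hπ.not_isUnit
  rw [h2]
  apply (IsUnit.mk0 _ _).map
  intro h0
  rw [h0, map_zero] at h2
  exact hπ.ne_zero h2

/-- Every extension of the function field with the lifting property is trivial. -/
theorem surjective_of_double (k σ ι : Type) [Field k] [CharZero k] [Fintype σ] [DecidableEq σ]
    [DecidableEq ι] (g : σ → ι) (hg : Function.Surjective g) (hne : Nontrivial ι)
    (F : MvPolynomial σ k) (hF : IsMultiquadratic g F) (i₀ : ι) (hi₀ : NoFactorFreeOf g F i₀)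
    (K : Type) [Field K] [Algebra k K] (x : σ → K) (w : K) (hx : IsDoublePt F x w)
    (L : Type) [Field L] [Algebra K L] [FiniteDimensional K L] (hlift : LiftProp k K L)
    (hk : ∀ z : L, (∃ P : Polynomial k, P ≠ 0 ∧
        P.eval₂ ((algebraMap K L).comp (algebraMap k K)) z = 0) →
      ∃ c : k, algebraMap K L (algebraMap k K c) = z) :
    Function.Surjective (algebraMap K L) := by
  classical
  have hchar : ∀ i, CharZero (IntermediateField.adjoin k (x '' {v | g v ≠ i})) := fun i =>
    charZero_of_injective_algebraMap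
      (algebraMap k (IntermediateField.adjoin k (x '' {v | g v ≠ i}))).injective
  let _ : Algebra k L := ((algebraMap K L).comp (algebraMap k K)).toAlgebra
  have hst : IsScalarTower k K L := IsScalarTower.of_algebraMap_eq' rfl
  have hgen : ∀ i, Subfield.closure (Set.range (algebraMap K L) ∪
      {z : L | IsAlgebraic (IntermediateField.adjoin k (x '' {v | g v ≠ i})) z}) = ⊤ := by
    intro i
    obtain ⟨n, hn, B, y, hB, hdet, hy⟩ := exists_quad_structure_double k σ ι g F i (hg i)
      (hF.1 i) (hF.2 i) K x w hx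
    exact adjoin_of_quadric _ K L n hn B hB hdet y hy (W6_lift hlift)
  have hcl : ∀ c : K, IsAlgebraic (IntermediateField.adjoin k (x '' {v | g v ≠ i₀})) c →
      ∃ a : IntermediateField.adjoin k (x '' {v | g v ≠ i₀}), algebraMap _ K a = c := by
    intro c hc
    obtain ⟨n, hn, B, y, hB, hdet, hy⟩ := exists_quad_structure_double k σ ι g F i₀ (hg i₀)
      (hF.1 i₀) (hF.2 i₀) K x w hx
    exact quad_algClosed _ K n hn B hB hdet y hy c hc
  obtain ⟨m, ⟨eq⟩⟩ : ∃ m : ℕ, Nonempty (Fin m ≃ {v : σ // g v ≠ i₀}) :=
    ⟨_, ⟨(Fintype.equivFin {v : σ // g v ≠ i₀}).symm⟩⟩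
  let e : Fin m → σ := fun j => (eq j).1
  have he : Function.Injective e := Subtype.val_injective.comp eq.injective
  have hrange : ∀ v, v ∈ Set.range e ↔ g v ≠ i₀ := by
    intro v
    constructor
    · rintro ⟨j, rfl⟩
      exact (eq j).2
    · intro hv
      exact ⟨eq.symm ⟨v, hv⟩, by simp [e]⟩
  have hset : x '' {v | g v ≠ i₀} = Set.range (fun j => x (e j)) := by
    ext z
    constructor
    · rintro ⟨v, hv, rfl⟩
      obtain ⟨j, hj⟩ := (hrange v).2 hv
      exact ⟨j, by simp only [hj]⟩
    · rintro ⟨j, rfl⟩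
      exact ⟨e j, (hrange (e j)).1 ⟨j, rfl⟩, rfl⟩
  have hind : AlgebraicIndependent k (fun j => x (e j)) := hx.1.comp e he
  have hmem : ∀ j, x (e j) ∈ IntermediateField.adjoin k (x '' {v | g v ≠ i₀}) := fun j =>
    IntermediateField.subset_adjoin k _ ⟨e j, (hrange (e j)).1 ⟨j, rfl⟩, rfl⟩
  let f1 : MvPolynomial (Fin m) k →ₐ[k] IntermediateField.adjoin k (x '' {v | g v ≠ i₀}) :=
    MvPolynomial.aeval fun j => ⟨x (e j), hmem j⟩
  have hf1 : ∀ p, ((f1 p : IntermediateField.adjoin k (x '' {v | g v ≠ i₀})) : K) =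
      MvPolynomial.aeval (fun j => x (e j)) p := by
    intro p
    exact MvPolynomial.comp_aeval_apply
      (φ := (IntermediateField.adjoin k (x '' {v | g v ≠ i₀})).val)
      (f := fun j => (⟨x (e j), hmem j⟩ :
        IntermediateField.adjoin k (x '' {v | g v ≠ i₀}))) (p := p)
  let _ : Algebra (MvPolynomial (Fin m) k)
      (IntermediateField.adjoin k (x '' {v | g v ≠ i₀})) := f1.toRingHom.toAlgebra
  have halg : ∀ p, algebraMap (MvPolynomial (Fin m) k)
      (IntermediateField.adjoin k (x '' {v | g v ≠ i₀})) p = f1 p := fun _ => rfl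
  have hinj : Function.Injective (algebraMap (MvPolynomial (Fin m) k)
      (IntermediateField.adjoin k (x '' {v | g v ≠ i₀}))) := by
    intro p q h
    apply algebraicIndependent_iff_injective_aeval.1 hind
    rw [← hf1, ← hf1]
    exact congrArg _ h
  have hfaith : FaithfulSMul (MvPolynomial (Fin m) k)
      (IntermediateField.adjoin k (x '' {v | g v ≠ i₀})) :=
    (faithfulSMul_iff_algebraMap_injective _ _).2 hinj
  have hfrac : IsFractionRing (MvPolynomial (Fin m) k)
      (IntermediateField.adjoin k (x '' {v | g v ≠ i₀})) := by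
    apply IsFractionRing.of_field
    intro z
    have hfr : ∀ z : K, z ∈ IntermediateField.adjoin k (x '' {v | g v ≠ i₀}) →
        ∃ r s : MvPolynomial (Fin m) k, z = MvPolynomial.aeval (fun j => x (e j)) r /
          MvPolynomial.aeval (fun j => x (e j)) s := by
      intro z hz
      rwa [hset, IntermediateField.mem_adjoin_range_iff] at hz
    obtain ⟨r, s, h⟩ := hfr z z.2
    refine ⟨r, s, ?_⟩
    apply Subtype.ext
    rw [halg, halg, IntermediateField.coe_div, hf1, hf1, h]
  have hess : Algebra.EssFiniteType k K := by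
    rw [← IntermediateField.fg_top_iff]
    refine ⟨insert w (Finset.univ.image x), ?_⟩
    rw [eq_top_iff]
    intro z _
    obtain ⟨P, Q, R, hR, hz⟩ := hx.2.2 z
    have h1 : ∀ G : MvPolynomial σ k, MvPolynomial.aeval x G ∈
        IntermediateField.adjoin k ((insert w (Finset.univ.image x) : Finset K) : Set K) := by
      intro G
      have h2 : MvPolynomial.aeval x G ∈ Algebra.adjoin k (Set.range x) := by
        rw [Algebra.adjoin_range_eq_range_aeval]
        exact ⟨G, rfl⟩
      apply IntermediateField.algebra_adjoin_le_adjoin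
      refine Algebra.adjoin_mono ?_ h2
      rintro _ ⟨v, rfl⟩
      simp
    have h3 : w ∈ IntermediateField.adjoin k
        ((insert w (Finset.univ.image x) : Finset K) : Set K) :=
      IntermediateField.subset_adjoin k _ (by simp)
    have h4 : z = (MvPolynomial.aeval x P + MvPolynomial.aeval x Q * w) /
        MvPolynomial.aeval x R := by
      rw [← hz, mul_div_cancel_right₀ _ hR]
    rw [h4]
    exact div_mem (add_mem (h1 P) (mul_mem (h1 Q) h3)) (h1 R)
  have hess2 : Algebra.EssFiniteType k L := Algebra.EssFiniteType.comp k K L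
  have hst1 : IsScalarTower k (IntermediateField.adjoin k (x '' {v | g v ≠ i₀})) L :=
    IsScalarTower.of_algebraMap_eq' rfl
  have hess3 : Algebra.EssFiniteType (IntermediateField.adjoin k (x '' {v | g v ≠ i₀})) L :=
    Algebra.EssFiniteType.of_comp k _ L
  have hfin : FiniteDimensional (IntermediateField.adjoin k (x '' {v | g v ≠ i₀}))
      (algebraicClosure (IntermediateField.adjoin k (x '' {v | g v ≠ i₀})) L) :=
    finiteDimensional_algebraicClosure _ L
  refine surjective_core_unram k m (IntermediateField.adjoin k (x '' {v | g v ≠ i₀})) K L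
    hcl (hgen i₀) ?_ ?_
  · have hcomp : ∀ c : k, algebraMap (IntermediateField.adjoin k (x '' {v | g v ≠ i₀})) L
        (algebraMap (MvPolynomial (Fin m) k) (IntermediateField.adjoin k (x '' {v | g v ≠ i₀}))
          (MvPolynomial.C c)) = algebraMap K L (algebraMap k K c) := by
      intro c
      rw [IsScalarTower.algebraMap_apply (IntermediateField.adjoin k (x '' {v | g v ≠ i₀})) K L,
        halg]
      congr 1
      change ((f1 (MvPolynomial.C c) :
        IntermediateField.adjoin k (x '' {v | g v ≠ i₀})) : K) = _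
      rw [hf1, MvPolynomial.aeval_C]
    rintro z ⟨P, hP, hPz⟩
    obtain ⟨c, hc⟩ := hk z ⟨P, hP, by
      rw [← hPz]
      congr 1
      ext c
      exact (hcomp c).symm⟩
    exact ⟨c, (hcomp c).trans hc⟩
  · intro π hπ
    obtain ⟨O, h1, h2, h3, h4⟩ := exists_valuation_double k σ ι g F i₀ (hg i₀) hi₀ K x w hx m e
      he hrange (fun h => double_not_square k σ ι g F i₀ (hg i₀) (hF.1 i₀) (hF.2 i₀) h) π hπ
    have hcomp : ∀ p : MvPolynomial (Fin m) k,
        algebraMap (IntermediateField.adjoin k (x '' {v | g v ≠ i₀})) K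
          (algebraMap (MvPolynomial (Fin m) k)
            (IntermediateField.adjoin k (x '' {v | g v ≠ i₀})) p) =
        MvPolynomial.aeval (fun j => x (e j)) p := hf1
    have hcompL : ∀ p : MvPolynomial (Fin m) k,
        algebraMap (IntermediateField.adjoin k (x '' {v | g v ≠ i₀})) L
          (algebraMap (MvPolynomial (Fin m) k)
            (IntermediateField.adjoin k (x '' {v | g v ≠ i₀})) p) =
        algebraMap K L (MvPolynomial.aeval (fun j => x (e j)) p) := by
      intro p
      rw [IsScalarTower.algebraMap_apply (IntermediateField.adjoin k (x '' {v | g v ≠ i₀})) K L,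
        hcomp]
    refine ⟨O, ?_, ?_, ?_, ?_⟩
    · rw [hcomp]
      exact h1
    · intro p
      rw [hcomp]
      exact h2 p
    · intro p
      rw [hcomp]
      exact h3 p
    · intro W hW
      obtain ⟨j, hj⟩ := W6_exists_vars π hπ
      rw [hcompL]
      refine unram_of_subfield (IntermediateField.adjoin k (x '' {v | g v ≠ g (e j)})) K L
        (hgen _) O _ h1 (fun a => ?_) W hW
      exact h4 {v | g v ≠ g (e j)} ⟨j, hj, fun h => h rfl⟩ a a.2

end Pool.Agent.LibHP
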