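import Pool.Agent.LibHP.SDefs
import Pool.Agent.LibHP2.W0

set_option autoImplicit false
open AlgebraicGeometry CategoryTheory

namespace Pool.Agent.LibHP

/-- The function field of `X` over `k` is `k(x)(√F(x))`: it is generated by algebraically
independent elements `x v` (`v` in `σ`) and a square root `w` of `F(x)`. -/
def IsDoubleCoverModel {k : Type} [Field k] {X : Scheme} [IsIntegral X]
    (f : X ⟶ Spec (CommRingCat.of k)) {σ : Type} (F : MvPolynomial σ k) : Prop :=
  ∃ (x : σ → X.functionField) (w : X.functionField),
    (∀ G : MvPolynomial σ k, MvPolynomial.eval₂ (toStalk f (genericPoint X)) x G = 0 → G = 0) ∧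
    w ^ 2 = MvPolynomial.eval₂ (toStalk f (genericPoint X)) x F ∧
    ∀ z : X.functionField, ∃ P Q R : MvPolynomial σ k,
      MvPolynomial.eval₂ (toStalk f (genericPoint X)) x R ≠ 0 ∧
      z * MvPolynomial.eval₂ (toStalk f (genericPoint X)) x R =
        MvPolynomial.eval₂ (toStalk f (genericPoint X)) x P +
          MvPolynomial.eval₂ (toStalk f (genericPoint X)) x Q * w

end Pool.Agent.LibHP
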