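import Pool.Agent.LibHP2.A4
import Pool.Agent.LibHP2.W5
import Pool.Agent.LibHP2.W6
import Pool.Agent.LibHP2.W7
import Pool.Agent.LibHP2.Z3a

set_option autoImplicit false
open AlgebraicGeometry CategoryTheory

namespace Pool.Agent.LibHP

/-- The field `k` is algebraically closed in `k(x_1, ..., x_n)`. -/
theorem W8_const (k : Type) [Field k] [CharZero k] (n : ℕ) (e : RF k n)
    (he : ∃ P : Polynomial k, P ≠ 0 ∧ P.eval₂ (algebraMap k (RF k n)) e = 0) :
    ∃ c : k, algebraMap k (RF k n) c = e := by
  classical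
  obtain ⟨P, hP, hPe⟩ := he
  have h1 : IsAlgebraic k e := ⟨P, hP, hPe⟩
  have h2 : IsIntegral (MvPolynomial (Fin n) k) e := h1.isIntegral.tower_top
  obtain ⟨p, hp⟩ := (IsIntegrallyClosed.isIntegral_iff (K := RF k n)).1 h2
  have h3 : P.eval₂ (algebraMap k (MvPolynomial (Fin n) k)) p = 0 := by
    apply IsFractionRing.injective (MvPolynomial (Fin n) k) (RF k n)
    rw [Polynomial.hom_eval₂, map_zero, hp, ← IsScalarTower.algebraMap_eq]
    exact hPe
  have h4 : ∀ a : Fin n → k, MvPolynomial.eval a p ∈ P.roots.toFinset := by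
    intro a
    rw [Multiset.mem_toFinset, Polynomial.mem_roots hP, Polynomial.IsRoot]
    have h5 := congrArg (MvPolynomial.eval a) h3
    rw [Polynomial.hom_eval₂, map_zero] at h5
    have h6 : (MvPolynomial.eval a).comp (algebraMap k (MvPolynomial (Fin n) k)) = RingHom.id k := by
      ext c
      simp
    rw [h6] at h5
    simpa using h5
  have h7 : ∏ c ∈ P.roots.toFinset, (p - MvPolynomial.C c) = 0 := by
    apply MvPolynomial.funext
    intro a
    rw [map_prod, map_zero]
    refine Finset.prod_eq_zero (h4 a) ?_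
    rw [map_sub, MvPolynomial.eval_C, sub_self]
  obtain ⟨c, -, hc⟩ := Finset.prod_eq_zero_iff.1 h7
  refine ⟨c, ?_⟩
  rw [← hp, sub_eq_zero.1 hc, IsScalarTower.algebraMap_apply k (MvPolynomial (Fin n) k) (RF k n)]
  rfl

/-- The main theorem on multiquadratic double covers. -/
theorem main_double (k : Type) [Field k] [NumberField k] (σ ι : Type) [Fintype σ] [DecidableEq σ]
    [DecidableEq ι] (g : σ → ι) (hg : Function.Surjective g) (hne : Nontrivial ι)
    (F : MvPolynomial σ k) (hF : IsMultiquadratic g F) (i₀ : ι) (hi₀ : NoFactorFreeOf g F i₀)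
    (X : Scheme) [IsIntegral X] (f : X ⟶ Spec (CommRingCat.of k))
    (hs : Smooth f) (hsep : IsSeparated f) (hqc : QuasiCompact f) (hX : IsDoubleCoverModel f F)
    (hdense : Dense {x : X | ∃ s : Spec (CommRingCat.of k) ⟶ X, s ≫ f = 𝟙 _ ∧
      x ∈ Set.range s.base}) : HilbertProp f := by
  let algK : Algebra k X.functionField := (toStalk f (genericPoint X)).toAlgebra
  obtain ⟨x, w, h1, h2, h3⟩ := hX
  have hx : IsDoublePt F x w := by
    refine ⟨?_, h2, h3⟩
    rw [algebraicIndependent_iff]
    exact h1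
  obtain ⟨n0, F0, hF0⟩ := exists_unirational_of_const k f hdense (fun c hc =>
    const_of_double k σ ι g hg inferInstance F hF X.functionField x w hx c hc)
  let F1 : X.functionField →ₐ[k] RF k n0 := { toRingHom := F0, commutes' := hF0 }
  obtain ⟨L, _, hA, n, j, hfd, hcl, hjk, hlift⟩ := exists_liftable_multi k X.functionField n0 F1
  have hsurj : Function.Surjective (algebraMap X.functionField L) := by
    refine surjective_of_double k σ ι g hg hne F hF i₀ hi₀ X.functionField x w hx L hlift ?_
    rintro z ⟨P, hP, hPz⟩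
    obtain ⟨c, hc⟩ := W8_const k n (j z) ⟨P, hP, by
      have h4 := congrArg j hPz
      rw [Polynomial.hom_eval₂, map_zero] at h4
      have h5 : j.comp ((algebraMap X.functionField L).comp (algebraMap k X.functionField)) =
          algebraMap k (RF k n) := RingHom.ext hjk
      rw [h5] at h4
      exact h4⟩
    refine ⟨c, j.injective ?_⟩
    rw [← hc]
    exact hjk c
  refine hilbertProp_of_embedding k f n (j.comp (algebraMap X.functionField L)) hjk ?_
  rintro e ⟨P, hP, hPe⟩
  obtain ⟨l, rfl⟩ := hcl e ⟨P.map (algebraMap X.functionField L),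
    (Polynomial.map_ne_zero_iff (algebraMap X.functionField L).injective).mpr hP, by
    rw [Polynomial.eval₂_map]; exact hPe⟩
  obtain ⟨a, rfl⟩ := hsurj l
  exact ⟨a, rfl⟩

end Pool.Agent.LibHP
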