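import Pool.Agent.LibHP.SDefs
import Pool.Agent.LibHP2.Defs

set_option autoImplicit false
open AlgebraicGeometry CategoryTheory

namespace Pool.Agent.LibHP

/-- `(x, y)` is a generic point of the hypersurface `F(1, x, 1, y) = 0`, with values in the
function field of `X`. -/
def IsModelOf {k : Type} [Field k] {X : Scheme} [IsIntegral X] (f : X ⟶ Spec (CommRingCat.of k))
    {m n : ℕ} (F : MvPolynomial (Fin (m + 1) ⊕ Fin (n + 1)) k) : Prop :=
  ∃ (x : Fin m → X.functionField) (y : Fin n → X.functionField),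
    (∀ G : MvPolynomial (Fin m ⊕ Fin n) k,
      MvPolynomial.eval₂ (toStalk f (genericPoint X)) (Sum.elim x y) G = 0 ↔ dehom F ∣ G) ∧
    (∀ z : X.functionField, ∃ G H : MvPolynomial (Fin m ⊕ Fin n) k,
      MvPolynomial.eval₂ (toStalk f (genericPoint X)) (Sum.elim x y) H ≠ 0 ∧
      z * MvPolynomial.eval₂ (toStalk f (genericPoint X)) (Sum.elim x y) H =
        MvPolynomial.eval₂ (toStalk f (genericPoint X)) (Sum.elim x y) G)

end Pool.Agent.LibHP
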