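import Pool.Agent.LibHP2.Z2a
import Pool.Agent.LibHP2.B3
import Pool.Agent.LibHP2.C4
import Pool.Agent.LibHP2.G11

set_option autoImplicit false

namespace Pool.Agent.LibHP

/-- An element fixed by all families over `k` is in `k(x)`. -/
theorem Z2b_mem (k : Type) [Field k] [CharZero k] (m n : ℕ) (hn : 2 ≤ n)
    (F : MvPolynomial (Fin (m + 1) ⊕ Fin (n + 1)) k) (hF : IsBiquadratic F)
    (hsm : IsSmoothForm F) (K : Type) [Field K] [Algebra k K] (x : Fin m → K) (y : Fin n → K)
    (hxy : IsGenericPt F x y) (c : K)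
    (h : ∀ (r : ℕ) (s : K →+* RF K r),
      (∀ a : k, s (algebraMap k K a) = algebraMap K (RF K r) (algebraMap k K a)) →
      (∀ a, HasVal (s a) a) → s c = algebraMap K (RF K r) c) :
    c ∈ IntermediateField.adjoin k (Set.range x) := by
  obtain ⟨B, hBs, hBd, hBy⟩ := exists_quad_structure k m n (by omega) F hF hsm K x y hxy
  have hM : CharZero (IntermediateField.adjoin k (Set.range x)) :=
    charZero_of_injective_algebraMap
      (algebraMap k (IntermediateField.adjoin k (Set.range x))).injective
  obtain ⟨a, ha⟩ := const_of_quad (IntermediateField.adjoin k (Set.range x)) K n hn B hBs hBd y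
    hBy c (fun r s hs hv => h r s (fun a => hs (algebraMap k _ a)) hv)
  rw [← ha]
  exact a.2

/-- The constants of all one-parameter families over `k`. -/
theorem const_of_biquadratic (k : Type) [Field k] [CharZero k] (m n : ℕ) (hm : 2 ≤ m) (hn : 2 ≤ n)
    (F : MvPolynomial (Fin (m + 1) ⊕ Fin (n + 1)) k) (hF : IsBiquadratic F)
    (hsm : IsSmoothForm F) (K : Type) [Field K] [Algebra k K] (x : Fin m → K) (y : Fin n → K)
    (hxy : IsGenericPt F x y) (c : K)
    (h : ∀ σ : K →+* RatFunc K,
      (∀ a : k, σ (algebraMap k K a) = RatFunc.C (algebraMap k K a)) →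
      (∀ a, ∃ b, HasJet (σ a) a b) → σ c = RatFunc.C c) : ∃ a : k, algebraMap k K a = c := by
  have hK : CharZero K := charZero_of_injective_algebraMap (algebraMap k K).injective
  have hmulti : ∀ (r : ℕ) (s : K →+* RF K r),
      (∀ a : k, s (algebraMap k K a) = algebraMap K (RF K r) (algebraMap k K a)) →
      (∀ a, HasVal (s a) a) → s c = algebraMap K (RF K r) c :=
    fun r s hs hv => fixed_multi_of_fixed_one k K c h r s hs hv
  exact mem_base_of_mem_both k m n hm hn F hF hsm K x y hxy c
    (Z2b_mem k m n hn F hF hsm K x y hxy c hmulti)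
    (Z2b_mem k n m hm (swapForm F) hF.swap hsm.swap K y x hxy.swap c hmulti)

end Pool.Agent.LibHP
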