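import Pool.Agent.LibHP2.B3
import Pool.Agent.LibHP2.G10
import Pool.Agent.LibHP2.G11
import Pool.Agent.LibHP2.Z1

set_option autoImplicit false

namespace Pool.Agent.LibHP

theorem Z2c_lift {k M K L : Type} [Field k] [Field M] [Field K] [Field L] [Algebra k M]
    [Algebra k K] [Algebra M K] [IsScalarTower k M K] [Algebra K L] (h : LiftProp k K L) :
    LiftProp M K L := by
  intro r s hs hval
  refine h r s (fun c => ?_) hval
  rw [IsScalarTower.algebraMap_apply k M K c]
  exact hs _

theorem Z2c_val_le {k K : Type} [Field k] [Field K] [Algebra k K] {n : ℕ} (y : Fin n → K)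
    (O : ValuationSubring K)
    (hO : ∀ ω : MvPolynomial (Fin n) k, ω ≠ 0 → O.valuation (MvPolynomial.aeval y ω) = 1)
    (a : IntermediateField.adjoin k (Set.range y)) : (a : K) ∈ O := by
  obtain ⟨r, s, h⟩ := (IntermediateField.mem_adjoin_range_iff k y (a : K)).1 a.2
  rw [h, ← O.valuation_le_one_iff, map_div₀]
  by_cases hs : s = 0
  · rw [hs, map_zero, map_zero, div_zero]
    exact zero_le_one
  · rw [hO s hs, div_one]
    by_cases hr : r = 0
    · rw [hr, map_zero, map_zero]
      exact zero_le_one
    · exact (hO r hr).le

/-- Every extension of the function field with the lifting property is trivial. -/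
theorem surjective_of_biquadratic (k : Type) [Field k] [CharZero k] (m n : ℕ) (hm : 2 ≤ m)
    (hn : 2 ≤ n) (F : MvPolynomial (Fin (m + 1) ⊕ Fin (n + 1)) k) (hF : IsBiquadratic F)
    (hsm : IsSmoothForm F) (K : Type) [Field K] [Algebra k K] (x : Fin m → K) (y : Fin n → K)
    (hxy : IsGenericPt F x y) (L : Type) [Field L] [Algebra K L] [FiniteDimensional K L]
    (hlift : LiftProp k K L)
    (hk : ∀ z : L, (∃ P : Polynomial k, P ≠ 0 ∧
        P.eval₂ ((algebraMap K L).comp (algebraMap k K)) z = 0) →
      ∃ c : k, algebraMap K L (algebraMap k K c) = z) :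
    Function.Surjective (algebraMap K L) := by
  classical
  obtain ⟨B, hB, hdet, hy⟩ := exists_quad_structure k m n (by omega) F hF hsm K x y hxy
  obtain ⟨B', hB', hdet', hx⟩ := exists_quad_structure k n m (by omega) (swapForm F) hF.swap
    hsm.swap K y x hxy.swap
  have hind := algebraicIndependent_of_isGenericPt k m n (by omega) F hF hsm K x y hxy
  have hchar : CharZero (IntermediateField.adjoin k (Set.range x)) :=
    charZero_of_injective_algebraMap
      (algebraMap k (IntermediateField.adjoin k (Set.range x))).injective
  have hchar' : CharZero (IntermediateField.adjoin k (Set.range y)) :=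
    charZero_of_injective_algebraMap
      (algebraMap k (IntermediateField.adjoin k (Set.range y))).injective
  have hmem : ∀ i, x i ∈ IntermediateField.adjoin k (Set.range x) := fun i =>
    IntermediateField.subset_adjoin k _ ⟨i, rfl⟩
  let f1 : MvPolynomial (Fin m) k →ₐ[k] IntermediateField.adjoin k (Set.range x) :=
    MvPolynomial.aeval fun i => ⟨x i, hmem i⟩
  have hf1 : ∀ p, ((f1 p : IntermediateField.adjoin k (Set.range x)) : K) =
      MvPolynomial.aeval x p := by
    intro p
    exact MvPolynomial.comp_aeval_apply (φ := (IntermediateField.adjoin k (Set.range x)).val)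
      (f := fun i => (⟨x i, hmem i⟩ : IntermediateField.adjoin k (Set.range x))) (p := p)
  let _ : Algebra (MvPolynomial (Fin m) k) (IntermediateField.adjoin k (Set.range x)) :=
    f1.toRingHom.toAlgebra
  have halg : ∀ p, algebraMap (MvPolynomial (Fin m) k)
      (IntermediateField.adjoin k (Set.range x)) p = f1 p := fun _ => rfl
  have hinj : Function.Injective (algebraMap (MvPolynomial (Fin m) k)
      (IntermediateField.adjoin k (Set.range x))) := by
    intro p q h
    apply algebraicIndependent_iff_injective_aeval.1 hind
    rw [← hf1, ← hf1]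
    exact congrArg _ h
  have hfaith : FaithfulSMul (MvPolynomial (Fin m) k)
      (IntermediateField.adjoin k (Set.range x)) :=
    (faithfulSMul_iff_algebraMap_injective _ _).2 hinj
  have hfrac : IsFractionRing (MvPolynomial (Fin m) k)
      (IntermediateField.adjoin k (Set.range x)) := by
    apply IsFractionRing.of_field
    intro z
    obtain ⟨r, s, h⟩ := (IntermediateField.mem_adjoin_range_iff k x (z : K)).1 z.2
    refine ⟨r, s, ?_⟩
    apply Subtype.ext
    rw [halg, halg, IntermediateField.coe_div, hf1, hf1, h]
  have hess : Algebra.EssFiniteType k K := by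
    rw [← IntermediateField.fg_top_iff]
    refine ⟨Finset.univ.image (Sum.elim x y), ?_⟩
    rw [eq_top_iff]
    intro z _
    obtain ⟨G, H, hH, e⟩ := hxy.2 z
    have hz : z = MvPolynomial.aeval (Sum.elim x y) G / MvPolynomial.aeval (Sum.elim x y) H := by
      rw [← e, mul_div_cancel_right₀ _ hH]
    have hset : ((Finset.univ.image (Sum.elim x y) : Finset K) : Set K) =
        Set.range (Sum.elim x y) := by
      ext w
      simp
    rw [hset, IntermediateField.mem_adjoin_range_iff]
    exact ⟨G, H, hz⟩
  let _ : Algebra k L := ((algebraMap K L).comp (algebraMap k K)).toAlgebra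
  have hst : IsScalarTower k K L := IsScalarTower.of_algebraMap_eq' rfl
  have hess2 : Algebra.EssFiniteType k L := Algebra.EssFiniteType.comp k K L
  have hst1 : IsScalarTower k (IntermediateField.adjoin k (Set.range x)) L :=
    IsScalarTower.of_algebraMap_eq' rfl
  have hess3 : Algebra.EssFiniteType (IntermediateField.adjoin k (Set.range x)) L :=
    Algebra.EssFiniteType.of_comp k _ L
  have hfin : FiniteDimensional (IntermediateField.adjoin k (Set.range x))
      (algebraicClosure (IntermediateField.adjoin k (Set.range x)) L) :=
    finiteDimensional_algebraicClosure _ L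
  refine surjective_core k m (IntermediateField.adjoin k (Set.range x))
    (IntermediateField.adjoin k (Set.range y)) K L
    (fun c hc => quad_algClosed _ K n hn B hB hdet y hy c hc)
    (adjoin_of_quadric _ K L n hn B hB hdet y hy (Z2c_lift hlift))
    (adjoin_of_quadric _ K L m hm B' hB' hdet' x hx (Z2c_lift hlift)) ?_ ?_
  · have hcomp : ∀ c : k, algebraMap (IntermediateField.adjoin k (Set.range x)) L
        (algebraMap (MvPolynomial (Fin m) k) (IntermediateField.adjoin k (Set.range x))
          (MvPolynomial.C c)) = algebraMap K L (algebraMap k K c) := by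
      intro c
      rw [IsScalarTower.algebraMap_apply (IntermediateField.adjoin k (Set.range x)) K L, halg]
      congr 1
      change ((f1 (MvPolynomial.C c) : IntermediateField.adjoin k (Set.range x)) : K) = _
      rw [hf1, MvPolynomial.aeval_C]
    rintro z ⟨P, hP, hPz⟩
    obtain ⟨c, hc⟩ := hk z ⟨P, hP, by
      rw [← hPz]
      congr 1
      ext c
      exact (hcomp c).symm⟩
    exact ⟨c, (hcomp c).trans hc⟩
  · intro π hπ
    obtain ⟨O, h1, h2, h3, h4⟩ := exists_good_valuation k m n hm hn F hF hsm K x y hxy π hπ
    have hcomp : ∀ p : MvPolynomial (Fin m) k,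
        algebraMap (IntermediateField.adjoin k (Set.range x)) K
          (algebraMap (MvPolynomial (Fin m) k) (IntermediateField.adjoin k (Set.range x)) p) =
        MvPolynomial.aeval x p := hf1
    refine ⟨O, ?_, ?_, ?_, ?_⟩
    · rw [hcomp]
      exact h1
    · intro p
      rw [hcomp]
      exact h2 p
    · intro p
      rw [hcomp]
      exact h3 p
    · exact fun a => Z2c_val_le y O h4 a

end Pool.Agent.LibHP
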