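import Pool.Agent.LibHP2.G10
import Pool.Agent.LibHP2.G11

set_option autoImplicit false

namespace Pool.Agent.LibHP

/-- The key step: if `A - λ B` is divisible by an irreducible polynomial, then `c = λ`. -/
theorem Z2a_key (k : Type) [Field k] [CharZero k] (m n : ℕ) (hm : 2 ≤ m) (hn : 2 ≤ n)
    (F : MvPolynomial (Fin (m + 1) ⊕ Fin (n + 1)) k) (hF : IsBiquadratic F)
    (hsm : IsSmoothForm F) (K : Type) [Field K] [Algebra k K] (x : Fin m → K) (y : Fin n → K)
    (hxy : IsGenericPt F x y) (c : K) (h2 : c ∈ IntermediateField.adjoin k (Set.range y))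
    (A B : MvPolynomial (Fin m) k) (hAB : IsRelPrime B A)
    (hB : MvPolynomial.aeval x B ≠ 0) (hc : c * MvPolynomial.aeval x B = MvPolynomial.aeval x A)
    (l : k) (hl : ¬ IsUnit (A - MvPolynomial.C l * B)) : algebraMap k K l = c := by
  by_contra hne
  -- the difference `c - l`
  have hd : (c - algebraMap k K l) * MvPolynomial.aeval x B =
      MvPolynomial.aeval x (A - MvPolynomial.C l * B) := by
    rw [sub_mul, hc, map_sub, map_mul, MvPolynomial.aeval_C]
  have hne' : c - algebraMap k K l ≠ 0 := sub_ne_zero.2 (Ne.symm hne)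
  have h0 : A - MvPolynomial.C l * B ≠ 0 := by
    intro h0
    rw [h0, map_zero] at hd
    exact (mul_ne_zero hne' hB) hd
  obtain ⟨π, hπ, hdvd⟩ := WfDvdMonoid.exists_irreducible_factor hl h0
  obtain ⟨O, -, hO1, hO2, hO3⟩ := exists_good_valuation k m n hm hn F hF hsm K x y hxy π hπ
  have hπB : ¬ π ∣ B := by
    intro h
    have hA : π ∣ A := by
      have := dvd_add hdvd (dvd_mul_of_dvd_right h (MvPolynomial.C l))
      simpa using this
    exact hπ.not_isUnit (hAB h hA)
  have hvB : O.valuation (MvPolynomial.aeval x B) = 1 := by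
    refine le_antisymm ((O.valuation_le_one_iff _).2 (hO1 B)) (not_lt.1 fun h => ?_)
    exact hπB ((hO2 B).1 h)
  have hvd : O.valuation (c - algebraMap k K l) < 1 := by
    have h := (hO2 _).2 hdvd
    rw [← hd, map_mul, hvB, mul_one] at h
    exact h
  -- but `c - l` lies in `k(y)`
  have hmem : c - algebraMap k K l ∈ IntermediateField.adjoin k (Set.range y) :=
    sub_mem h2 (IntermediateField.algebraMap_mem _ l)
  obtain ⟨r, s, hrs⟩ := (IntermediateField.mem_adjoin_range_iff (F := k) y _).1 hmem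
  have hs : MvPolynomial.aeval y s ≠ 0 := by
    intro h
    rw [h, div_zero] at hrs
    exact hne' hrs
  have hr : MvPolynomial.aeval y r ≠ 0 := by
    intro h
    rw [h, zero_div] at hrs
    exact hne' hrs
  have hr0 : r ≠ 0 := by rintro rfl; simp at hr
  have hs0 : s ≠ 0 := by rintro rfl; simp at hs
  rw [hrs, map_div₀, hO3 r hr0, hO3 s hs0, div_one] at hvd
  exact lt_irrefl _ hvd

/-- `k(x) ∩ k(y) = k`. -/
theorem mem_base_of_mem_both (k : Type) [Field k] [CharZero k] (m n : ℕ) (hm : 2 ≤ m) (hn : 2 ≤ n)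
    (F : MvPolynomial (Fin (m + 1) ⊕ Fin (n + 1)) k) (hF : IsBiquadratic F)
    (hsm : IsSmoothForm F) (K : Type) [Field K] [Algebra k K] (x : Fin m → K) (y : Fin n → K)
    (hxy : IsGenericPt F x y) (c : K) (h1 : c ∈ IntermediateField.adjoin k (Set.range x))
    (h2 : c ∈ IntermediateField.adjoin k (Set.range y)) : ∃ a : k, algebraMap k K a = c := by
  obtain ⟨r, s, hrs⟩ := (IntermediateField.mem_adjoin_range_iff (F := k) x c).1 h1
  by_cases hs : MvPolynomial.aeval x s = 0
  · refine ⟨0, ?_⟩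
    rw [hrs, hs, div_zero, map_zero]
  have hs0 : s ≠ 0 := by rintro rfl; simp at hs
  obtain ⟨B, A, g, hrel, hgB, hgA⟩ := UniqueFactorizationMonoid.exists_reduced_factors s hs0 r
  have hgx : MvPolynomial.aeval x g ≠ 0 ∧ MvPolynomial.aeval x B ≠ 0 := by
    rw [← hgB, map_mul] at hs
    exact ⟨left_ne_zero_of_mul hs, right_ne_zero_of_mul hs⟩
  have hc : c * MvPolynomial.aeval x B = MvPolynomial.aeval x A := by
    rw [hrs, ← hgB, ← hgA, map_mul, map_mul, mul_div_mul_left _ _ hgx.1, div_mul_cancel₀ _ hgx.2]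
  by_cases hu0 : IsUnit (A - MvPolynomial.C 0 * B)
  · by_cases hu1 : IsUnit (A - MvPolynomial.C 1 * B)
    · obtain ⟨a, ha, hA⟩ := MvPolynomial.isUnit_iff_eq_C_of_isReduced.1 hu0
      obtain ⟨b, hb, hA'⟩ := MvPolynomial.isUnit_iff_eq_C_of_isReduced.1 hu1
      have hA1 : A = MvPolynomial.C a := by simpa using hA
      have hB1 : B = MvPolynomial.C (a - b) := by
        rw [hA1, map_one, one_mul] at hA'
        rw [map_sub, ← hA']
        ring
      refine ⟨a / (a - b), ?_⟩
      have hBx := hgx.2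
      rw [hB1, MvPolynomial.aeval_C] at hBx
      rw [hA1, hB1, MvPolynomial.aeval_C, MvPolynomial.aeval_C] at hc
      rw [map_div₀, ← hc, mul_div_cancel_right₀ _ hBx]
    · exact ⟨1, Z2a_key k m n hm hn F hF hsm K x y hxy c h2 A B hrel hgx.2 hc 1 hu1⟩
  · exact ⟨0, Z2a_key k m n hm hn F hF hsm K x y hxy c h2 A B hrel hgx.2 hc 0 hu0⟩

end Pool.Agent.LibHP
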