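import Pool.Agent.LibHP2.Z0
import Pool.Agent.LibHP2.A4
import Pool.Agent.LibHP2.Z2
import Pool.Agent.LibHP2.Z3a

set_option autoImplicit false
open AlgebraicGeometry CategoryTheory

namespace Pool.Agent.LibHP

/-- The constants of a rational function field. -/
theorem Z3_const (k : Type) [Field k] [CharZero k] (n : ℕ) (z : RF k n) (P : Polynomial k)
    (hP : P ≠ 0) (h : P.eval₂ (algebraMap k (RF k n)) z = 0) :
    ∃ c : k, algebraMap k (RF k n) c = z := by
  classical
  have h1 : IsAlgebraic k z := ⟨P, hP, h⟩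
  have h2 : IsIntegral (MvPolynomial (Fin n) k) z := h1.isIntegral.tower_top
  obtain ⟨p, hp⟩ := IsIntegrallyClosed.isIntegral_iff.mp h2
  have hinj : Function.Injective (algebraMap (MvPolynomial (Fin n) k) (RF k n)) :=
    IsFractionRing.injective _ _
  have h3 : P.eval₂ (MvPolynomial.C) p = 0 := by
    apply hinj
    rw [map_zero, ← h, ← hp, Polynomial.hom_eval₂]
    congr 1
  have h4 : ∀ a : Fin n → k, P.eval (MvPolynomial.eval a p) = 0 := by
    intro a
    have h5 := congrArg (MvPolynomial.eval a) h3
    rw [map_zero, Polynomial.hom_eval₂] at h5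
    have h6 : (MvPolynomial.eval a).comp (MvPolynomial.C : k →+* MvPolynomial (Fin n) k) =
        RingHom.id k := by
      ext c
      simp
    rw [h6] at h5
    exact h5
  have h5 : ∏ r ∈ P.roots.toFinset, (p - MvPolynomial.C r) = 0 := by
    apply MvPolynomial.funext
    intro a
    rw [map_prod, map_zero]
    apply Finset.prod_eq_zero (i := MvPolynomial.eval a p)
    · rw [Multiset.mem_toFinset, Polynomial.mem_roots hP]
      exact h4 a
    · simp
  obtain ⟨r, -, hr⟩ := Finset.prod_eq_zero_iff.mp h5
  refine ⟨r, ?_⟩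
  rw [← hp, sub_eq_zero.mp hr]
  rfl

/-- The main theorem on forms of bidegree `(2,2)`. -/
theorem main_biquadratic (k : Type) [Field k] [NumberField k] (m n : ℕ) (hm : 2 ≤ m) (hn : 2 ≤ n)
    (F : MvPolynomial (Fin (m + 1) ⊕ Fin (n + 1)) k) (hF : IsBiquadratic F)
    (hsm : IsSmoothForm F) (X : Scheme) [IsIntegral X] (f : X ⟶ Spec (CommRingCat.of k))
    (hs : Smooth f) (hsep : IsSeparated f) (hqc : QuasiCompact f) (hX : IsModelOf f F)
    (hdense : Dense {x : X | ∃ s : Spec (CommRingCat.of k) ⟶ X, s ≫ f = 𝟙 _ ∧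
      x ∈ Set.range s.base}) : HilbertProp f := by
  let algK : Algebra k X.functionField := (toStalk f (genericPoint X)).toAlgebra
  obtain ⟨x, y, h1, h2⟩ := hX
  have hxy : IsGenericPt F x y := ⟨h1, h2⟩
  obtain ⟨n0, F0, hk0⟩ := exists_unirational_of_const k f hdense
    (fun c hc => const_of_biquadratic k m n hm hn F hF hsm X.functionField x y hxy c hc)
  let F1 : X.functionField →ₐ[k] RF k n0 := { toRingHom := F0, commutes' := hk0 }
  obtain ⟨L, hL, hA, n', ι, hfd, hcl, hιk, hlift⟩ :=
    exists_liftable_multi k X.functionField n0 F1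
  have hsurj : Function.Surjective (algebraMap X.functionField L) := by
    refine surjective_of_biquadratic k m n hm hn F hF hsm X.functionField x y hxy L hlift ?_
    rintro z ⟨P, hP, hPz⟩
    obtain ⟨c, hc⟩ := Z3_const k n' (ι z) P hP (by
      have h3 := congrArg ι hPz
      rw [map_zero, Polynomial.hom_eval₂] at h3
      have h4 : ι.comp ((algebraMap X.functionField L).comp (algebraMap k X.functionField)) =
          algebraMap k (RF k n') := RingHom.ext hιk
      rw [h4] at h3
      exact h3)
    refine ⟨c, ?_⟩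
    apply ι.injective
    rw [← hc]
    exact hιk c
  refine hilbertProp_of_embedding k f n' (ι.comp (algebraMap X.functionField L)) hιk ?_
  rintro e ⟨P, hP, hPe⟩
  obtain ⟨l, rfl⟩ := hcl e ⟨P.map (algebraMap X.functionField L),
    (Polynomial.map_ne_zero_iff (algebraMap X.functionField L).injective).mpr hP, by
      rw [Polynomial.eval₂_map]; exact hPe⟩
  obtain ⟨a, rfl⟩ := hsurj l
  exact ⟨a, rfl⟩

end Pool.Agent.LibHP
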